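import Pool.Agent.Lib.MP_0af324_gt.Param

namespace Pool.Agent.Lib.MP_0af324_gt

open Finsupp MeasureTheory
open scoped Classical

variable {Γ S R R' : Type} [Group Γ] [AddCommGroup R] [AddCommGroup R'] [MulAction Γ S]

lemma bal_map {Q : Type} [AddCommGroup Q] {act : Γ → R →+ R} (Λ : (S →₀ R) →+ Q) (B : AddSubgroup Q)
    (h : ∀ σ g f, Λ (single σ (act g f)) - Λ (single (g • σ) f) ∈ B) {c : S →₀ R}
    (hc : c ∈ balancing S act) : Λ c ∈ B := by
  refine (AddSubgroup.closure_le (B.comap Λ)).2 ?_ hc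
  rintro _ ⟨σ, g, f, rfl⟩
  simpa using h σ g f

lemma bal_gen (act : Γ → R →+ R) (σ : S) (g : Γ) (f : R) :
    single σ (act g f) - single (g • σ) f ∈ balancing S act :=
  AddSubgroup.subset_closure ⟨σ, g, f, rfl⟩

lemma bal_bd {E : Type} [TopologicalSpace E] [MulAction Γ E] [ContinuousConstSMul Γ E] {k : ℕ}
    {act : Γ → R →+ R} {c : Simplex (k + 1) E →₀ R} (hc : c ∈ balancing _ act) :
    bd c ∈ balancing _ act := by
  rw [← bdH_apply]
  refine bal_map bdH _ (fun σ g f => ?_) hc
  rw [bdH_apply, bdH_apply, bd_single, bd_single, ← Finset.sum_sub_distrib]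
  refine sum_mem fun i _ => ?_
  rw [← smul_sub]
  exact AddSubgroup.zsmul_mem _ (bal_gen act _ g f) _

lemma all_mem {A Q : Type} [AddCommGroup Q] (Λ : (A →₀ R) →+ Q) (B : AddSubgroup Q)
    (h : ∀ σ f, Λ (single σ f) ∈ B) (c : A →₀ R) : Λ c ∈ B := by
  induction c using Finsupp.induction_linear with
  | zero => simp
  | add a b ha hb => simpa using B.add_mem ha hb
  | single σ f => exact h σ f

variable (α : StandardSpace Γ)

/-- The balancing relations for simple functions as coefficients. -/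
noncomputable abbrev Rel (S R : Type) [AddCommGroup R] [MulAction Γ S] :
    AddSubgroup (S →₀ SimpleFunc α.X R) := balancing S (sact α)

variable {α}

lemma star_mem {c d : S →₀ SimpleFunc α.X R} (g : Γ)
    (h : ∀ x, ev (g • x) d = (ev x c).mapDomain (g • ·)) : c - d ∈ Rel α S R := by
  have key := all_mem (AddMonoidHom.id _ - (mapDomain.addMonoidHom (g • ·)).comp
    (mapRange.addMonoidHom (sact α g⁻¹))) (Rel α S R) (fun σ f => by
      have := bal_gen (sact α) σ g (sact α g⁻¹ f)
      rw [show sact α g (sact α g⁻¹ f) = f from SimpleFunc.ext fun x => by simp] at this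
      simpa using this) c
  have e : d = (mapRange.addMonoidHom (sact α g⁻¹) c).mapDomain (g • ·) := ev_ext fun x => by
    rw [ev, hom_mapDomain, ← ev, ← smul_inv_smul g x, h]
    congr 1
    ext σ
    simp
  rw [e]
  exact key

variable (D : S → Γ)

/-- Normalisation: every simplex is moved to the representative of its orbit. -/
noncomputable def nm : (S →₀ SimpleFunc α.X R) →+ (S →₀ SimpleFunc α.X R) :=
  liftAddHom fun τ => (singleAddHom ((D τ)⁻¹ • τ)).comp (sact α (D τ))

lemma nm_single (τ : S) (f : SimpleFunc α.X R) :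
    nm D (single τ f) = single ((D τ)⁻¹ • τ) (sact α (D τ) f) := by
  simp [nm]

lemma nm_mem (c : S →₀ SimpleFunc α.X R) : nm D c - c ∈ Rel α S R :=
  all_mem (nm D - AddMonoidHom.id _) _ (fun σ f => by
    simpa [nm_single] using bal_gen (sact α) ((D σ)⁻¹ • σ) (D σ) f) c

lemma wn_nm (c : S →₀ SimpleFunc α.X ℝ) : wn (νi α) (nm D c) ≤ wn (νi α) c := by
  simpa using lift_le (νi α) (wn (νi α)) (nm D) (K := 1)
    (fun σ a => by simp [nm_single, wn_single, νi_sact]) c

lemma nm_apply (c : S →₀ SimpleFunc α.X R) (σ : S) (x : α.X) :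
    nm D c σ x = ∑ τ ∈ c.support, if (D τ)⁻¹ • τ = σ then c τ (D τ • x) else 0 := by
  conv_lhs => rw [← ev_apply, ← sum_single c, Finsupp.sum, map_sum, map_sum, finsetSum_apply]
  simp [nm_single, single_apply]

/-- Change of coefficients. -/
noncomputable def chg (κ : R →+ R') : SimpleFunc α.X R →+ SimpleFunc α.X R' where
  toFun f := f.map κ
  map_zero' := SimpleFunc.ext fun x => by simp
  map_add' f g := SimpleFunc.ext fun x => by simp

@[simp] lemma chg_apply (κ : R →+ R') (f : SimpleFunc α.X R) (x : α.X) : chg κ f x = κ (f x) := rfl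

lemma chg_nm (κ : R →+ R') (c : S →₀ SimpleFunc α.X R) :
    mapRange.addMonoidHom (chg κ) (nm D c) = nm D (mapRange.addMonoidHom (chg κ) c) := by
  induction c using Finsupp.induction_linear with
  | zero => simp
  | add a b ha hb => simp only [map_add, ha, hb]
  | single σ f =>
    simp only [nm_single, mapRange.addMonoidHom_apply, mapRange_single]
    rfl

variable {D} (hD : ∀ (g : Γ) σ, D (g • σ) = g * D σ)
include hD

lemma nm_rel {c : S →₀ SimpleFunc α.X R} (hc : c ∈ Rel α S R) : nm D c = 0 := by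
  refine AddSubgroup.mem_bot.1 (bal_map (nm D) ⊥ (fun σ g f => ?_) hc)
  rw [nm_single, nm_single, hD, AddSubgroup.mem_bot, sub_eq_zero]
  congr 1
  · simp [smul_smul]
  · exact SimpleFunc.ext fun x => by simp [smul_smul]

lemma nm_lower {c : S →₀ SimpleFunc α.X ℝ} (hc : ∀ σ x, 0 ≤ c σ x) {σ : S} (x : α.X)
    (G : Finset Γ) (hσ : G.Nonempty → D σ = 1) : ∑ g ∈ G, c (g • σ) (g • x) ≤ nm D c σ x := by
  rw [nm_apply, ← Finset.sum_filter_ne_zero]
  refine le_trans (le_of_eq ?_) (Finset.sum_le_sum_of_subset_of_nonneg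
    (s := (G.filter fun g => c (g • σ) (g • x) ≠ 0).image fun g => g • σ) (fun τ hτ => ?_)
    fun τ _ _ => ?_)
  · rw [Finset.sum_image fun g hg g' _ e => ?_]
    · refine Finset.sum_congr rfl fun g hg => ?_
      simp [hD, hσ ⟨g, (Finset.mem_filter.1 hg).1⟩]
    · have := congrArg D e
      simpa [hD, hσ ⟨g, (Finset.mem_filter.1 hg).1⟩] using this
  · obtain ⟨g, hg, rfl⟩ := Finset.mem_image.1 hτ
    exact mem_support_iff.2 fun e => (Finset.mem_filter.1 hg).2 (by simp [e])
  · split_ifs
    exacts [hc _ _, le_rfl]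

lemma nm_supp {c : S →₀ SimpleFunc α.X R} {σ : S} {x : α.X} (h : nm D c σ x ≠ 0) :
    D σ = 1 ∧ ∃ g : Γ, c (g • σ) (g • x) ≠ 0 := by
  rw [nm_apply] at h
  obtain ⟨τ, -, h⟩ := Finset.exists_ne_zero_of_sum_ne_zero h
  obtain ⟨rfl, h⟩ := ite_ne_right_iff.1 h
  exact ⟨by simp [hD], D τ, by simpa using h⟩

/-- A random simplex which is shared by many translates can be rounded cheaply. -/
lemma round_one (s : SimpleFunc α.X S) (β : ℝ) {m : ℕ} (hm : 0 < m) {B : Set α.X}
    (hB : MeasurableSet B)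
    (h : ∀ x ∉ B, ∃ H : Finset Γ, m ≤ H.card ∧ ∀ g ∈ H, g • s (g⁻¹ • x) = s x) :
    ∃ W : S →₀ SimpleFunc α.X ℤ, wn (νi α) (nm D (one s (SimpleFunc.const _ β)) -
      mapRange.addMonoidHom (chg (Int.castAddHom ℝ)) W) ≤ 1 / m + α.μ.real B := by
  have m0 : (0 : ℝ) < m := by exact_mod_cast hm
  set P := nm D (one s (SimpleFunc.const _ β))
  set f := SimpleFunc.piecewise B hB (SimpleFunc.const _ (1 : ℝ)) (SimpleFunc.const _ 0)
  have f0 : ∀ x, f x = B.indicator 1 x := fun x => by
    simp only [f, SimpleFunc.piecewise_apply, Set.indicator]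
    rfl
  set c := one s (SimpleFunc.const _ (1 / m : ℝ)) + one s f
  have cv : ∀ σ x, c σ x = if s x = σ then 1 / m + f x else 0 := fun σ x => by
    simp only [c, Finsupp.add_apply, SimpleFunc.add_apply, one_apply]
    split_ifs <;> simp
  have f1 : ∀ x, 0 ≤ f x := fun x => by
    rw [f0]
    exact Set.indicator_nonneg (fun _ _ => zero_le_one) x
  have c0 : ∀ σ x, 0 ≤ c σ x := fun σ x => by
    rw [cv]
    split_ifs
    exacts [add_nonneg (by positivity) (f1 x), le_rfl]
  refine ⟨P.mapRange (fun f => f.map round) (SimpleFunc.ext fun x => by simp),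
    (wn_mono _ (d := nm D c) fun σ => ?_).trans ((wn_nm D c).trans
      ((map_add_le_add _ _ _).trans (le_of_eq ?_)))⟩
  · refine integral_mono (SimpleFunc.integrable_of_isFiniteMeasure _).abs
      (SimpleFunc.integrable_of_isFiniteMeasure _).abs fun x => ?_
    change |P σ x - round (P σ x)| ≤ |nm D c σ x|
    by_cases h0 : P σ x = 0
    · simp [h0]
    obtain ⟨h1, g, hg⟩ := nm_supp hD h0
    rw [one_apply] at hg
    have hs := (ite_ne_right_iff.1 hg).1
    refine ((abs_sub_round _).trans (by norm_num : (1 / 2 : ℝ) ≤ 1)).trans (le_trans ?_ (le_abs_self _))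
    by_cases hx : g • x ∈ B
    · refine le_trans ?_ (nm_lower hD c0 x {g} fun _ => h1)
      rw [Finset.sum_singleton, cv, if_pos hs, f0, Set.indicator_of_mem hx]
      simp
    · obtain ⟨H, hH, hH'⟩ := h _ hx
      refine le_trans ?_ (nm_lower hD c0 x (H.image fun a => a⁻¹ * g) fun _ => h1)
      rw [Finset.sum_image fun a _ b _ e => by simpa using e]
      refine le_trans ?_ (Finset.card_nsmul_le_sum H _ (1 / m : ℝ) fun a ha => ?_)
      · rw [nsmul_eq_mul, mul_one_div, le_div_iff₀ m0, one_mul]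
        exact_mod_cast hH
      · rw [cv, if_pos]
        · exact le_add_of_nonneg_right (f1 _)
        · rw [mul_smul, mul_smul, ← hs, ← hH' a ha, inv_smul_smul]
  · rw [wn_one, wn_one, νi_apply, νi_apply]
    simp only [abs_of_nonneg (f1 _)]
    simp [f0, integral_indicator_one hB]

end Pool.Agent.Lib.MP_0af324_gt
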