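import Pool.Agent.Lib.MP_0af324_gt.Hash

namespace Pool.Agent.Lib.MP_0af324_gt

open MeasureTheory Set
open scoped Classical Pointwise symmDiff

variable {Γ Y : Type} [Group Γ]

/-- The conclusion of the collapsing construction for a finite set of tuples. -/
def Coll {k : ℕ} (T : Finset (Fin k → Γ)) (m : ℕ) (η : ℝ) : Prop :=
  ∃ (α : StandardSpace Γ) (φ : SimpleFunc α.X Γ), ∀ t ∈ T, ∃ B, MeasurableSet B ∧
    α.μ.real B ≤ η ∧ ∀ x ∉ B, ∃ H : Finset Γ, m ≤ H.card ∧ ∀ h ∈ H, ∀ i,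
      h * t i * φ ((h * t i)⁻¹ • x) = t i * φ ((t i)⁻¹ • x)

/-- The Følner condition for a subgroup, with Følner sets in the ambient group. -/
def Fol (A : Subgroup Γ) : Prop := ∀ (K : Finset Γ) (ε : ℝ), (∀ a ∈ K, a ∈ A) → 0 < ε →
  ∃ F : Finset Γ, F.Nonempty ∧ ∀ a ∈ K, (((a • (F : Set Γ)) ∆ (F : Set Γ)).ncard : ℝ) ≤ ε * F.card

lemma meas_ne (α : StandardSpace Γ) [MulAction Γ Y] (s : SimpleFunc α.X Y) (a b c d : Γ) :
    MeasurableSet {x | a • s (b • x) ≠ c • s (d • x)} :=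
  (((s.comp _ (α.preserving b).measurable).pair
    (s.comp _ (α.preserving d).measurable))).measurableSet_preimage {p | a • p.1 ≠ c • p.2}

lemma shift_le (α : StandardSpace Γ) [MulAction Γ Y] (s : SimpleFunc α.X Y) (a b : Γ) :
    α.μ.real {x | a • s (a⁻¹ • b • x) ≠ s (b • x)} = α.μ.real {x | a • s (a⁻¹ • x) ≠ s x} := by
  have := meas_ne α s a a⁻¹ 1 1
  simp only [one_smul] at this
  exact (α.preserving b).measureReal_preimage this.nullMeasurableSet

theorem coll_aux [Countable Γ] [Countable Y] [MulAction Γ Y] {k : ℕ} (A : Y → Subgroup Γ)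
    (hA : ∀ ω, Fol (A ω))
    (hI : ∀ ω (t : Fin (k + 1) → Γ), {h | ∀ i, (t i)⁻¹ * h * t i ∈ A ((t i)⁻¹ • ω)}.Infinite)
    (T : Finset (Fin (k + 1) → Γ)) (m : ℕ) {η : ℝ} (hη : 0 < η) {F : Finset Y} (hF : F.Nonempty)
    (hT : ∀ t ∈ T, ∀ i, (((((t 0)⁻¹ * t i) • (F : Set Y)) ∆ (F : Set Y)).ncard : ℝ) ≤
      η / (k + 1) * F.card) : Coll T m (3 * η) := by
  have F0 : (0 : ℝ) < F.card := by exact_mod_cast hF.card_pos
  obtain ⟨s₁, s₁F, hs₁⟩ := minhash (Γ := Γ) (Z := Y ⊕ Γ) Sum.inl_injective (fun _ _ => rfl) hF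
  obtain ⟨N, hN⟩ := exists_nat_gt (F.card * m / η)
  have N0 : (0 : ℝ) < N := lt_of_le_of_lt (by positivity) hN
  choose S hS hS' using fun ω t => (hI ω t).exists_subset_card_eq N
  let K : Y → Finset Γ := fun ω => T.biUnion fun t => Finset.univ.biUnion fun i =>
    ((S (t i • ω) t)⁻¹ * S (t i • ω) t).image fun h => (t i)⁻¹ * h * t i
  have hK : ∀ ω, ∀ a ∈ K ω, a ∈ A ω := fun ω a ha => by
    simp only [K, Finset.mem_biUnion, Finset.mem_image, Finset.mem_mul, Finset.mem_inv] at ha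
    obtain ⟨t, -, i, -, _, ⟨_, ⟨b, hb, rfl⟩, c, hc, rfl⟩, rfl⟩ := ha
    have := (A _).mul_mem ((A _).inv_mem (hS _ _ hb i)) (hS _ _ hc i)
    simpa [mul_assoc] using this
  set ε := η / (F.card * (N * N * (k + 1))) with hε
  choose G hG hG' using fun ω => hA ω (K ω) ε (hK ω) (by positivity)
  choose s₂ hs₂' hs₂ using fun ω =>
    minhash (Γ := Γ) (Z := Y ⊕ Γ) Sum.inr_injective (fun _ _ => rfl) (hG ω)
  clear hs₂'
  generalize bern Γ (Y ⊕ Γ) = α at s₁ s₂ s₁F hs₁ hs₂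
  refine ⟨α, s₁.bind s₂, fun t ht => ?_⟩
  let E : Y → Set α.X := fun ω => ⋂ i, {x | t i • s₁ ((t i)⁻¹ • x) = ω}
  have mE : ∀ ω, MeasurableSet (E ω) := fun ω => MeasurableSet.iInter fun i =>
    (s₁.comp _ (α.preserving (t i)⁻¹).measurable).measurableSet_preimage {y | t i • y = ω}
  let Q : Y → Finset Γ := fun f => (S (t 0 • f) t)⁻¹ * S (t 0 • f) t
  let B₁ : Set α.X := ⋃ i ∈ (Finset.univ : Finset (Fin (k + 1))),
    {x | ((t 0)⁻¹ * t i) • s₁ (((t 0)⁻¹ * t i)⁻¹ • (t 0)⁻¹ • x) ≠ s₁ ((t 0)⁻¹ • x)}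
  let B₂ : Set α.X := ⋃ f ∈ F,
    {x ∈ E (t 0 • f) | ((Q f).filter fun h => h⁻¹ • x ∈ E (t 0 • f)).card < m}
  let B₃ : Set α.X := ⋃ f ∈ F, ⋃ h ∈ Q f, ⋃ i ∈ (Finset.univ : Finset (Fin (k + 1))),
    {x | ((t i)⁻¹ * h * t i) • s₂ ((t i)⁻¹ • t 0 • f) (((t i)⁻¹ * h * t i)⁻¹ • (t i)⁻¹ • x) ≠
      s₂ ((t i)⁻¹ • t 0 • f) ((t i)⁻¹ • x)}
  have b₁ : α.μ.real B₁ ≤ η := by
    refine (measureReal_biUnion_finset_le _ _).trans ((Finset.sum_le_card_nsmul _ _ (η / (k + 1))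
      fun i _ => ?_).trans (le_of_eq ?_))
    · rw [shift_le]
      exact (hs₁ _).trans ((div_le_iff₀ F0).2 (hT t ht i))
    · simp only [Finset.card_univ, Fintype.card_fin, nsmul_eq_mul]
      push_cast
      field_simp
  have b₂ : α.μ.real B₂ ≤ η := by
    refine (measureReal_biUnion_finset_le _ _).trans ((Finset.sum_le_card_nsmul _ _ (m / N : ℝ)
      fun f _ => ?_).trans ?_)
    · rw [le_div_iff₀' N0, ← hS' (t 0 • f) t]
      exact recur α (mE _) _ m
    · rw [nsmul_eq_mul, ← mul_div_assoc, div_le_iff₀ N0]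
      rw [div_lt_iff₀ hη] at hN
      linarith
  have b₃ : α.μ.real B₃ ≤ η := by
    refine (measureReal_biUnion_finset_le _ _).trans ((Finset.sum_le_card_nsmul _ _
      (N * N * ((k + 1) * ε)) fun f _ => ?_).trans (le_of_eq ?_))
    · refine (measureReal_biUnion_finset_le _ _).trans ((Finset.sum_le_card_nsmul _ _
        ((k + 1) * ε) fun h hh => ?_).trans ?_)
      · refine (measureReal_biUnion_finset_le _ _).trans ((Finset.sum_le_card_nsmul _ _ ε
          fun i _ => ?_).trans (by simp))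
        rw [shift_le]
        refine (hs₂ _ _).trans ((div_le_iff₀ (by exact_mod_cast (hG _).card_pos)).2 (hG' _ _ ?_))
        simp only [K, Finset.mem_biUnion, Finset.mem_image]
        exact ⟨t, ht, i, Finset.mem_univ _, h, by simpa only [smul_inv_smul] using hh, rfl⟩
      · rw [nsmul_eq_mul]
        gcongr
        have := Finset.card_mul_le (s := (S (t 0 • f) t)⁻¹) (t := S (t 0 • f) t)
        rw [Finset.card_inv, hS'] at this
        exact_mod_cast this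
    · rw [nsmul_eq_mul, hε]
      field_simp
  refine ⟨toMeasurable α.μ (B₁ ∪ B₂ ∪ B₃), measurableSet_toMeasurable _ _, ?_, fun x hx => ?_⟩
  · rw [Measure.real, measure_toMeasurable, ← Measure.real]
    linarith [measureReal_union_le (μ := α.μ) (B₁ ∪ B₂) B₃, measureReal_union_le (μ := α.μ) B₁ B₂]
  have hx' := mt (fun h => subset_toMeasurable α.μ _ h) hx
  simp only [B₁, B₂, B₃, mem_union, mem_iUnion, not_or, not_exists, mem_ofPred_eq, not_not,
    not_and, not_lt] at hx'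
  obtain ⟨⟨x₁, x₂⟩, x₃⟩ := hx'
  set f := s₁ ((t 0)⁻¹ • x)
  have xE : x ∈ E (t 0 • f) := mem_iInter.2 fun i => by
    have := x₁ i (Finset.mem_univ _)
    rw [smul_smul _ (t 0)⁻¹, mul_smul, inv_smul_eq_iff] at this
    simpa using this
  refine ⟨_, x₂ f (s₁F _) xE, fun h hh i => ?_⟩
  rw [Finset.mem_filter] at hh
  have e₁ := eq_inv_smul_iff.2 (mem_iInter.1 xE i)
  have e₂ := eq_inv_smul_iff.2 (mem_iInter.1 hh.2 i)
  have e₃ := x₃ f (s₁F _) h hh.1 i (Finset.mem_univ _)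
  rw [SimpleFunc.bind_apply, SimpleFunc.bind_apply, mul_inv_rev, mul_smul, e₁, e₂, ← e₃]
  simp [smul_smul, mul_assoc]

lemma fol_of (A : Subgroup Γ) (h : IsAmenableAction A A) (γ : Γ) :
    Fol (A.comap (MulAut.conj γ⁻¹).toMonoidHom) := by
  intro K ε hK hε
  obtain ⟨F, hF, h⟩ := h (K.attach.image fun a : K => ⟨γ⁻¹ * a * γ, by simpa using hK a a.2⟩) ε hε
  have inj : Function.Injective fun a : A => γ * a := fun a b e => Subtype.ext (by simpa using e)
  refine ⟨F.image fun a : A => γ * a, hF.image _, fun a ha => ?_⟩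
  have := h _ (Finset.mem_image_of_mem _ (Finset.mem_attach _ ⟨a, ha⟩))
  rw [← ncard_image_of_injective _ inj, image_symmDiff inj] at this
  rw [Finset.card_image_of_injective _ inj, Finset.coe_image]
  refine le_trans (le_of_eq ?_) this
  congr 3
  simp only [← image_smul, image_image]
  congr 1
  funext b
  simp [mul_assoc]

/-- The collapsing construction. -/
theorem coll [Countable Γ] {Ω : Type} [MulAction Γ Ω] {k : ℕ} (hΩ : IsAmenableAction Γ Ω)
    (hA : ∀ ω : Ω, ∃ A : Subgroup Γ, IsAmenableAction A A ∧ ∀ l : Fin (k + 1) → Γ,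
      (∀ i, l i • ω = ω) → {h : Γ | ∀ i, (l i)⁻¹ * h * l i ∈ A}.Infinite)
    (T : Finset (Fin (k + 1) → Γ)) (m : ℕ) {η : ℝ} (hη : 0 < η) : Coll T m (3 * η) := by
  choose A hA hI using hA
  let r : Ω → Ω := fun ω => (Quotient.mk (MulAction.orbitRel Γ Ω) ω).out
  have hr : ∀ (g : Γ) ω, r (g • ω) = r ω := fun g ω =>
    congrArg Quotient.out (Quotient.sound ⟨g, rfl⟩)
  have : ∀ ω, ∃ γ : Γ, γ • r ω = ω := fun ω =>
    (MulAction.orbitRel Γ Ω).symm (Quotient.mk_out (s := MulAction.orbitRel Γ Ω) ω)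
  choose γ hγ using this
  obtain ⟨F, hF, hT⟩ := hΩ (T.biUnion fun t => Finset.univ.image fun i => (t 0)⁻¹ * t i)
    (η / (k + 1)) (by positivity)
  let Y : SubMulAction Γ Ω := ⟨{ω | ∃ g : Γ, ∃ f ∈ F, g • f = ω}, by
    rintro c _ ⟨g, f, hf, rfl⟩
    exact ⟨c * g, f, hf, mul_smul _ _ _⟩⟩
  have : Countable Y := Function.Surjective.countable
    (f := fun p : Γ × F => (⟨p.1 • p.2, p.1, p.2, p.2.2, rfl⟩ : Y)) (by
      rintro ⟨_, g, f, hf, rfl⟩
      exact ⟨(g, ⟨f, hf⟩), rfl⟩)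
  have hFY : ∀ f ∈ F, f ∈ Y := fun f hf => ⟨1, f, hf, one_smul _ _⟩
  have e : Subtype.val '' (F.subtype (· ∈ Y) : Set Y) = F := by
    ext f
    simpa using hFY f
  refine coll_aux (fun ω : Y => (A (r ω)).comap (MulAut.conj (γ ω)⁻¹).toMonoidHom)
    (fun ω => fol_of _ (hA _) _) (fun ω t => ?_) T m hη (F := F.subtype (· ∈ Y))
    (hF.elim fun f hf => ⟨⟨f, hFY f hf⟩, by simpa using hf⟩) fun t ht i => ?_
  · refine ((hI (r ω) (fun i => (γ ω)⁻¹ * t i * γ ((t i)⁻¹ • (ω : Ω))) fun i => ?_).image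
      (f := fun h => γ ω * h * (γ ω)⁻¹) fun a _ b _ e => by simpa using e).mono ?_
    · rw [mul_smul, ← hr (t i)⁻¹, hγ, mul_smul, smul_inv_smul, inv_smul_eq_iff, hr, hγ]
    · rintro _ ⟨h, hh, rfl⟩ i
      simpa [hr, mul_assoc] using hh i
  · rw [Finset.card_subtype, Finset.filter_true_of_mem hFY,
      ← ncard_image_of_injective _ Subtype.val_injective, image_symmDiff Subtype.val_injective, e]
    refine le_trans (le_of_eq ?_) (hT _ (Finset.mem_biUnion.2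
      ⟨t, ht, Finset.mem_image_of_mem _ (Finset.mem_univ i)⟩))
    congr 3
    rw [← e]
    simp only [← image_smul, image_image]
    rfl

end Pool.Agent.Lib.MP_0af324_gt
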