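import Pool.Agent.Lib.MP_0af324_gt.Defs

namespace Pool.Agent.Lib.MP_0af324_gt


lemma map_at {k : ℕ} (j : Fin (k + 2)) (s : stdSimplex ℝ (Fin (k + 1))) (x : Fin (k + 1)) :
    stdSimplex.map j.succAbove s (j.succAbove x) = s x := by
  rw [stdSimplex.map_coe, FunOnFinite.linearMap_apply_apply, Finset.sum_eq_single x]
  · intro b hb hx
    exact absurd (Fin.succAbove_right_injective (Finset.mem_filter.1 hb).2) hx
  · simp

lemma map_self {k : ℕ} (j : Fin (k + 2)) (s : stdSimplex ℝ (Fin (k + 1))) :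
    stdSimplex.map j.succAbove s j = 0 := by
  rw [stdSimplex.map_coe, FunOnFinite.linearMap_apply_apply]
  refine Finset.sum_eq_zero fun b hb => absurd (Finset.mem_filter.1 hb).2 (Fin.succAbove_ne j b)

/-- The parametrisation of a simplex as a cone over its zeroth face. -/
noncomputable def qq (k : ℕ) : C(unitInterval × stdSimplex ℝ (Fin (k + 1)), stdSimplex ℝ (Fin (k + 2))) where
  toFun a := ⟨Fin.cons (a.1 : ℝ) fun i => (1 - a.1) * a.2 i, by
    refine ⟨fun i => ?_, ?_⟩
    · refine Fin.cases a.1.2.1 (fun j => ?_) i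
      exact mul_nonneg (sub_nonneg.2 a.1.2.2) (stdSimplex.zero_le _ _)
    · rw [Fin.sum_univ_succ]
      simp [← Finset.mul_sum]⟩
  continuous_toFun := by
    refine Continuous.subtype_mk (continuous_pi fun i => ?_) _
    refine Fin.cases ?_ (fun j => ?_) i
    · exact continuous_subtype_val.comp continuous_fst
    · exact (continuous_const.sub (continuous_subtype_val.comp continuous_fst)).mul
        ((continuous_apply j).comp (continuous_subtype_val.comp continuous_snd))

lemma qq_zero {k : ℕ} (a) : qq k a 0 = a.1 := rfl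

lemma qq_succ {k : ℕ} (a) (i) : qq k a (Fin.succ i) = (1 - a.1) * a.2 i := rfl

lemma qq_surj (k : ℕ) : Function.Surjective (qq k) := by
  intro t
  have hs := stdSimplex.sum_eq_one t
  rw [Fin.sum_univ_succ] at hs
  by_cases h : t 0 = 1
  · refine ⟨(1, stdSimplex.vertex 0), stdSimplex.ext (funext fun i => ?_)⟩
    refine Fin.cases h.symm (fun j => ?_) i
    have : ∑ i : Fin (k + 1), t i.succ = 0 := by linarith
    rw [qq_succ, (Finset.sum_eq_zero_iff_of_nonneg fun i _ => stdSimplex.zero_le t _).1 this j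
      (Finset.mem_univ _)]
    simp
  · have h1 : 0 < 1 - t 0 := sub_pos.2 (lt_of_le_of_ne (stdSimplex.le_one t 0) h)
    refine ⟨(⟨t 0, stdSimplex.zero_le t 0, stdSimplex.le_one t 0⟩,
      ⟨fun i => t i.succ / (1 - t 0), fun i => div_nonneg (stdSimplex.zero_le t _) h1.le, ?_⟩),
      stdSimplex.ext (funext fun i => ?_)⟩
    · rw [← Finset.sum_div, div_eq_one_iff_eq h1.ne']
      linarith
    · refine Fin.cases rfl (fun j => ?_) i
      exact mul_div_cancel₀ _ h1.ne'

lemma qq_quot (k : ℕ) : Topology.IsQuotientMap (qq k) :=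
  (qq k).continuous.isClosedMap.isQuotientMap (qq k).continuous (qq_surj k)

lemma qq_eq {k : ℕ} {a b} (h : qq k a = qq k b) : a.1 = b.1 ∧ (a.1 = 1 ∨ a.2 = b.2) := by
  have h0 : a.1 = b.1 := Subtype.ext (by rw [← qq_zero a, h, qq_zero])
  refine ⟨h0, or_iff_not_imp_left.2 fun h1 => stdSimplex.ext (funext fun i => ?_)⟩
  have := qq_succ a i
  rw [h, qq_succ, ← h0] at this
  refine (mul_left_cancel₀ (fun e => h1 (Subtype.ext ?_)) this).symm
  exact (sub_eq_zero.1 e).symm

lemma map_zero_eq {k : ℕ} (u) : stdSimplex.map (Fin.succAbove 0) u = qq k (0, u) := by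
  refine stdSimplex.ext (funext fun i => ?_)
  refine Fin.cases (map_self 0 u) (fun j => ?_) i
  rw [qq_succ]
  simpa using map_at 0 u j

lemma map_succ_eq {k : ℕ} (i : Fin (k + 2)) (τ) (u) :
    stdSimplex.map (Fin.succAbove i.succ) (qq k (τ, u)) =
      qq (k + 1) (τ, stdSimplex.map i.succAbove u) := by
  refine stdSimplex.ext (funext fun j => ?_)
  refine Fin.cases ?_ (fun j => ?_) j
  · have := map_at i.succ (qq k (τ, u)) 0
    rwa [Fin.succ_succAbove_zero] at this
  · rw [qq_succ]
    refine Fin.succAboveCases i ?_ (fun l => ?_) j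
    · rw [map_self, map_self, mul_zero]
    · rw [← Fin.succ_succAbove_succ, map_at, map_at, qq_succ]

lemma map_one_eq (u : stdSimplex ℝ (Fin 1)) :
    stdSimplex.map (Fin.succAbove 1) u = qq 0 (1, u) := by
  refine stdSimplex.ext (funext fun j => ?_)
  refine Fin.cases ?_ (fun j => ?_) j
  · exact (map_at 1 u 0).trans (stdSimplex.eq_one_of_unique u 0)
  · rw [qq_succ, Subsingleton.elim j 0]
    simpa using map_self 1 u

/-- A cone operator on the singular simplices of a contractible space. -/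
theorem exists_cone (E : Type) [TopologicalSpace E] [ContractibleSpace E] :
    ∃ (e : E) (c : ∀ k, Simplex k E → Simplex (k + 1) E), (∀ k σ, face 0 (c k σ) = σ) ∧
      (∀ k i σ, face (Fin.succ i) (c (k + 1) σ) = c k (face i σ)) ∧
      ∀ σ, face 1 (c 0 σ) = ContinuousMap.const _ e := by
  obtain ⟨e, ⟨H⟩⟩ := id_nullhomotopic E
  have F : ∀ k (σ : Simplex k E), Function.FactorsThrough
      (H.toContinuousMap.comp ((ContinuousMap.id unitInterval).prodMap σ)) (qq k) := by
    rintro k σ ⟨s, u⟩ ⟨t, v⟩ h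
    obtain ⟨rfl, rfl | rfl⟩ : s = t ∧ (s = 1 ∨ u = v) := qq_eq h
    · simp
    · rfl
  have K : ∀ k (σ : Simplex k E) τ u, (qq_quot k).lift _ (F k σ) (qq k (τ, u)) = H (τ, σ u) :=
    fun k σ τ u => DFunLike.congr_fun ((qq_quot k).lift_comp _ (F k σ)) (τ, u)
  refine ⟨e, fun k σ => (qq_quot k).lift _ (F k σ), fun k σ => ?_, fun k i σ => ?_, fun σ => ?_⟩
  · ext u
    change (qq_quot k).lift _ (F k σ) (stdSimplex.map _ u) = _
    rw [map_zero_eq, K]
    simp
  · ext t
    obtain ⟨⟨τ, u⟩, rfl⟩ := qq_surj k t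
    change (qq_quot (k + 1)).lift _ (F _ σ) (stdSimplex.map _ _) = _
    rw [map_succ_eq, K, K]
    rfl
  · ext u
    change (qq_quot 0).lift _ (F 0 σ) (stdSimplex.map _ u) = _
    rw [map_one_eq, K]
    simp

lemma face_face {k : ℕ} {Y : Type} [TopologicalSpace Y] (i : Fin (k + 2)) (σ : Simplex (k + 2) Y) :
    face 0 (face i.succ σ) = face i (face 0 σ) := by
  ext u
  change σ (stdSimplex.map _ (stdSimplex.map _ u)) = σ (stdSimplex.map _ (stdSimplex.map _ u))
  rw [stdSimplex.map_comp_apply, stdSimplex.map_comp_apply]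
  congr 2
  funext j
  simp

end Pool.Agent.Lib.MP_0af324_gt
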