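import Mathlib

namespace Pool.Agent.Lib.MP_0af324_gt

open MeasureTheory
open scoped Pointwise symmDiff

/-- Singular `k`-simplices of the space `Y`. -/
abbrev Simplex (k : ℕ) (Y : Type) [TopologicalSpace Y] : Type :=
  C(stdSimplex ℝ (Fin (k + 1)), Y)

/-- The `i`-th face of a singular simplex. -/
noncomputable def face {k : ℕ} {Y : Type} [TopologicalSpace Y] (i : Fin (k + 2))
    (σ : Simplex (k + 1) Y) : Simplex k Y :=
  σ.comp ⟨stdSimplex.map i.succAbove, stdSimplex.continuous_map _⟩

/-- The image of a singular simplex under a continuous map. -/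
def push {k : ℕ} {Y Z : Type} [TopologicalSpace Y] [TopologicalSpace Z] (p : C(Y, Z))
    (σ : Simplex k Y) : Simplex k Z :=
  p.comp σ

/-- The boundary of a singular chain with coefficients in the abelian group `R`. -/
noncomputable def bd {k : ℕ} {Y R : Type} [TopologicalSpace Y] [AddCommGroup R]
    (c : Simplex (k + 1) Y →₀ R) : Simplex k Y →₀ R :=
  ∑ i : Fin (k + 2), (-1 : ℤ) ^ (i : ℕ) • c.mapDomain (face i)

/-- The infimum of the `ℓ¹`-norms of the real chains homologous to the integral chain `z`. -/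
noncomputable def l1Seminorm {n : ℕ} {M : Type} [TopologicalSpace M] (z : Simplex n M →₀ ℤ) : ℝ :=
  sInf {r | ∃ (c : Simplex n M →₀ ℝ) (b : Simplex (n + 1) M →₀ ℝ),
    c = z.mapRange Int.cast Int.cast_zero + bd b ∧ r = c.sum fun _ a => |a|}

/-- A standard Borel probability space with a measure preserving left action of `Γ`. -/
structure StandardSpace (Γ : Type) [Group Γ] where
  X : Type
  [measurableSpace : MeasurableSpace X]
  [standardBorel : StandardBorelSpace X]
  μ : Measure X
  [probability : IsProbabilityMeasure μ]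
  [action : MulAction Γ X]
  preserving : ∀ g : Γ, MeasurePreserving (fun x : X => g • x) μ μ

attribute [instance] StandardSpace.measurableSpace StandardSpace.standardBorel
  StandardSpace.probability StandardSpace.action

/-- For a left `Γ`-set `S` and an abelian group `V` with a right action `act`, the subgroup of
`V ⊗ ℤ[S] = (S →₀ V)` generated by the elements `(f · g) ⊗ σ - f ⊗ (g σ)`; the quotient by it is
`V ⊗_{ℤΓ} ℤ[S]`. -/
noncomputable def balancing {Γ V : Type} (S : Type) [SMul Γ S] [AddCommGroup V] (act : Γ → V →+ V) :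
    AddSubgroup (S →₀ V) :=
  AddSubgroup.closure {y | ∃ σ g f, y = Finsupp.single σ (act g f) - Finsupp.single (g • σ) f}

/-- The abelian group `L^∞(X, μ; ℤ)`. -/
def StandardSpace.Linf {Γ : Type} [Group Γ] (α : StandardSpace Γ) : Type := Lp ℤ ⊤ α.μ

noncomputable instance {Γ : Type} [Group Γ] (α : StandardSpace Γ) : AddCommGroup α.Linf :=
  AddSubgroup.toAddCommGroup (Lp ℤ ⊤ α.μ)

/-- The right action `(f · g) x = f (g x)` of `Γ` on `L^∞(X, μ; ℤ)`. -/
noncomputable def StandardSpace.act {Γ : Type} [Group Γ] (α : StandardSpace Γ) (g : Γ) :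
    α.Linf →+ α.Linf :=
  Lp.compMeasurePreserving (fun x => g • x) (α.preserving g)

/-- The inclusion of constant functions. -/
noncomputable def StandardSpace.const {Γ : Type} [Group Γ] (α : StandardSpace Γ) : ℤ →+ α.Linf :=
  Lp.const ⊤ α.μ

/-- The integral `∫ |f| dμ`. -/
noncomputable def StandardSpace.mass {Γ : Type} [Group Γ] (α : StandardSpace Γ) (f : α.Linf) : ℝ :=
  ∫ x, |((show Lp ℤ ⊤ α.μ from f) x : ℝ)| ∂α.μ

/-- The infimum of the norms `∑ ∫ |f_j|` of the chains `c = ∑ f_j ⊗ σ_j` whose class in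
`L^∞(X, μ; ℤ) ⊗_{ℤΓ} C_n(E; ℤ)` is homologous to the image of the integral chain `z` of `M`,
that is, to `1 ⊗ z'` for a lift `z'` of `z` along `p`. -/
noncomputable def foliatedNormAt {n : ℕ} {Γ E M : Type} [Group Γ] [TopologicalSpace E]
    [TopologicalSpace M] [MulAction Γ E] [ContinuousConstSMul Γ E] (p : C(E, M))
    (α : StandardSpace Γ) (z : Simplex n M →₀ ℤ) : ℝ :=
  sInf {r | ∃ (z' : Simplex n E →₀ ℤ) (c : Simplex n E →₀ α.Linf)
      (w : Simplex (n + 1) E →₀ α.Linf),
    z'.mapDomain (push p) = z ∧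
    c - Finsupp.mapRange.addMonoidHom α.const z' - bd w ∈ balancing (Simplex n E) α.act ∧
    r = c.sum fun _ f => α.mass f}

/-- The infimum of `foliatedNormAt` over all standard `Γ`-spaces. -/
noncomputable def foliatedNorm {n : ℕ} (Γ : Type) {E M : Type} [Group Γ] [TopologicalSpace E]
    [TopologicalSpace M] [MulAction Γ E] [ContinuousConstSMul Γ E] (p : C(E, M))
    (z : Simplex n M →₀ ℤ) : ℝ :=
  sInf {r | ∃ α : StandardSpace Γ, r = foliatedNormAt p α z}

/-- The Følner condition for an action of `G` on the set `Ω`. -/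
def IsAmenableAction (G Ω : Type) [Group G] [MulAction G Ω] : Prop :=
  ∀ (T : Finset G) (ε : ℝ), 0 < ε → ∃ F : Finset Ω, F.Nonempty ∧
    ∀ g ∈ T, (((g • (F : Set Ω)) ∆ (F : Set Ω)).ncard : ℝ) ≤ ε * F.card

end Pool.Agent.Lib.MP_0af324_gt
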