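import Pool.Agent.Lib.MP_0af324_gt.Defs

namespace Pool.Agent.Lib.MP_0af324_gt

open MeasureTheory Set
open scoped Classical Pointwise symmDiff

variable {Γ Y Z : Type} [Group Γ]

/-- Independent uniform labels. -/
noncomputable abbrev lab (Z : Type) : Measure (Z → unitInterval) :=
  Measure.infinitePi fun _ => volume

lemma lab_pres {e : Z → Z} (he : Function.Injective e) :
    MeasurePreserving (fun (u : Z → unitInterval) z => u (e z)) (lab Z) (lab Z) :=
  ⟨by fun_prop, Measure.map_infinitePi_infinitePi_of_inj (P := fun _ => volume) he⟩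

/-- The Bernoulli shift over a countable `Γ`-set. -/
noncomputable def bern (Γ Z : Type) [Group Γ] [MulAction Γ Z] [Countable Z] : StandardSpace Γ where
  X := Z → unitInterval
  μ := lab Z
  action := arrowAction
  preserving g := lab_pres (MulAction.injective g⁻¹)

lemma lab_tie {z z' : Z} (h : z ≠ z') : lab Z {u | u z = u z'} = 0 := by
  have m : MeasurableSet {p : unitInterval × unitInterval | p.1 = p.2} :=
    measurableSet_eq_fun measurable_fst measurable_snd
  have := Measure.map_apply (μ := lab Z) (f := fun u => (u z, u z')) (by fun_prop) m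
  rw [Measure.infinitePi_map_eval_prod h, Measure.prod_apply m] at this
  refine this.symm.trans ?_
  have e : ∀ x : unitInterval, Prod.mk x ⁻¹' {p : unitInterval × unitInterval | p.1 = p.2} = {x} :=
    fun x => by ext; simp [eq_comm]
  simp [e]

/-- The event that `y` carries the largest label in `U`. -/
def Top (j : Y → Z) (U : Finset Y) (y : Y) : Set (Z → unitInterval) :=
  {u | ∀ f ∈ U, f ≠ y → u (j f) < u (j y)}

lemma top_meas (j : Y → Z) (U : Finset Y) (y : Y) : MeasurableSet (Top j U y) := by
  have : Top j U y = ⋂ f ∈ U.erase y, {u | u (j f) < u (j y)} := by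
    ext u
    simp only [Top, mem_ofPred_eq, mem_iInter, Finset.mem_erase]
    tauto
  rw [this]
  exact Finset.measurableSet_biInter _ fun f _ => measurableSet_lt (by fun_prop) (by fun_prop)

lemma top_uniq {j : Y → Z} {U : Finset Y} {y y' : Y} (hy : y ∈ U) (hy' : y' ∈ U) {u}
    (h : u ∈ Top j U y) (h' : u ∈ Top j U y') : y = y' := by
  by_contra e
  exact lt_asymm (h y' hy' (Ne.symm e)) (h' y hy e)

lemma top_le {j : Y → Z} (hj : Function.Injective j) {U : Finset Y} {y : Y} (hy : y ∈ U) :
    (lab Z).real (Top j U y) ≤ 1 / U.card := by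
  have e : ∀ y' ∈ U, (lab Z).real (Top j U y') = (lab Z).real (Top j U y) := fun y' hy' => by
    rw [← (lab_pres (Equiv.swap (j y) (j y')).injective).measureReal_preimage
      (top_meas j U y).nullMeasurableSet]
    congr 1
    ext u
    simp only [Top, mem_preimage, mem_ofPred_eq, hj.swap_apply, Equiv.swap_apply_left]
    have m : ∀ f ∈ U, Equiv.swap y y' f ∈ U := fun f hf => by
      rw [Equiv.swap_apply_def]
      split_ifs <;> assumption
    refine ⟨fun h f hf e => h _ (m f hf) fun e' => e ?_, fun h f hf e => ?_⟩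
    · simpa using congrArg (Equiv.swap y y') e'
    · simpa using h _ (m f hf) fun e' => e (by simpa using congrArg (Equiv.swap y y') e')
  have := measureReal_biUnion_finset (μ := lab Z) (s := U) (f := Top j U)
    (fun a ha b hb hab => disjoint_left.2 fun u h h' => hab (top_uniq ha hb h h'))
    (fun b _ => top_meas j U b)
  rw [Finset.sum_congr rfl e, Finset.sum_const, nsmul_eq_mul] at this
  rw [le_div_iff₀' (by exact_mod_cast Finset.card_pos.2 ⟨y, hy⟩), ← this]
  exact measureReal_le_one

variable [MulAction Γ Y] [MulAction Γ Z] [Countable Z]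

/-- Choosing the largest label in a Følner set is almost equivariant. -/
theorem minhash {j : Y → Z} (hj : Function.Injective j) (hj' : ∀ (g : Γ) y, j (g • y) = g • j y)
    {F : Finset Y} (hF : F.Nonempty) : ∃ s : SimpleFunc (bern Γ Z).X Y, (∀ x, s x ∈ F) ∧
      ∀ a : Γ, (bern Γ Z).μ.real {x | a • s (a⁻¹ • x) ≠ s x} ≤
        ((a • (F : Set Y)) ∆ (F : Set Y)).ncard / F.card := by
  obtain ⟨f₀, h₀⟩ := hF
  let s : (Z → unitInterval) → Y := fun u =>
    if h : ∃ y ∈ F, u ∈ Top j F y then h.choose else f₀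
  have s1 : ∀ u, s u ∈ F := fun u => by
    simp only [s]
    split_ifs with h
    exacts [h.choose_spec.1, h₀]
  have s2 : ∀ u, ∀ y ∈ F, u ∈ Top j F y → s u = y := fun u y hy hu => by
    have h : ∃ y ∈ F, u ∈ Top j F y := ⟨y, hy, hu⟩
    simp only [s, dif_pos h]
    exact top_uniq h.choose_spec.1 hy h.choose_spec.2 hu
  refine ⟨⟨s, fun y => ?_, F.finite_toSet.subset (by rintro _ ⟨u, rfl⟩; exact s1 u)⟩, s1,
    fun a => ?_⟩
  · have : s ⁻¹' {y} = (⋃ _ : y ∈ F, Top j F y) ∪ ⋃ _ : y = f₀, (⋃ y ∈ F, Top j F y)ᶜ := by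
      ext u
      simp only [mem_preimage, mem_singleton_iff, mem_union, mem_iUnion, mem_compl_iff,
        exists_prop]
      by_cases h : ∃ y ∈ F, u ∈ Top j F y
      · obtain ⟨y', hy', hu⟩ := id h
        rw [s2 u y' hy' hu]
        exact ⟨fun e => Or.inl (e ▸ ⟨hy', hu⟩), fun e => e.elim
          (fun e => top_uniq hy' e.1 hu e.2) fun e => absurd h e.2⟩
      · simp only [s, dif_neg h]
        exact ⟨fun e => Or.inr ⟨e.symm, h⟩, fun e => e.elim (fun e => absurd ⟨y, e⟩ h)
          fun e => e.1.symm⟩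
    change MeasurableSet (s ⁻¹' {y} : Set (Z → unitInterval))
    rw [this]
    exact (MeasurableSet.iUnion fun _ => top_meas j F y).union (MeasurableSet.iUnion fun _ =>
      (Finset.measurableSet_biUnion _ fun y _ => top_meas j F y).compl)
  set U := a • F ∪ F
  have sub : {x : (bern Γ Z).X | a • s (a⁻¹ • x) ≠ s x} ⊆ (⋃ y ∈ (a • F) ∆ F, Top j U y) ∪
      ⋃ y ∈ U, ⋃ y' ∈ U.erase y, {u | u (j y) = u (j y')} := fun u hu => by
    by_contra hc
    simp only [mem_union, mem_iUnion, not_or, not_exists, Finset.mem_erase, mem_ofPred_eq] at hc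
    obtain ⟨y, hy, hm⟩ := U.exists_max_image (fun y => u (j y)) ⟨f₀, Finset.mem_union_right _ h₀⟩
    have ht : u ∈ Top j U y := fun f hf e =>
      lt_of_le_of_ne (hm f hf) fun e' => hc.2 y hy f ⟨e, hf⟩ e'.symm
    have hn : y ∉ (a • F) ∆ F := fun h => hc.1 y h ht
    rw [Finset.mem_symmDiff] at hn
    have hy2 := Finset.mem_union.1 hy
    have h1 : y ∈ F := by tauto
    obtain ⟨f, hf, rfl⟩ := Finset.mem_smul_finset.1 (by tauto : y ∈ a • F)
    refine hu ?_
    rw [s2 u _ h1 fun f hf => ht f (Finset.mem_union_right _ hf), s2 _ f hf fun f' hf' e => ?_]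
    change u (a⁻¹⁻¹ • j f') < u (a⁻¹⁻¹ • j f)
    rw [inv_inv, ← hj', ← hj']
    exact ht _ (Finset.mem_union_left _ (Finset.smul_mem_smul_finset hf'))
      fun e' => e (MulAction.injective a e')
  refine (measureReal_mono sub).trans ((measureReal_union_le _ _).trans ?_)
  have z : (lab Z).real (⋃ y ∈ U, ⋃ y' ∈ U.erase y, {u | u (j y) = u (j y')}) = 0 := by
    rw [measureReal_eq_zero_iff (measure_ne_top _ _)]
    refine (measure_biUnion_null_iff U.countable_toSet).2 fun y _ =>
      (measure_biUnion_null_iff (U.erase y).countable_toSet).2 fun y' hy' =>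
        lab_tie fun e => (Finset.mem_erase.1 hy').1 (hj e).symm
  refine (add_le_add (measureReal_biUnion_finset_le _ _) z.le).trans ?_
  rw [add_zero, ← Finset.coe_smul_finset, ← Finset.coe_symmDiff, ncard_coe_finset]
  refine (Finset.sum_le_card_nsmul _ _ (1 / F.card : ℝ) fun y hy => ?_).trans (by simp [div_eq_mul_inv])
  refine (top_le hj (Finset.symmDiff_subset_union hy)).trans (one_div_le_one_div_of_le ?_ ?_)
  · exact_mod_cast Finset.card_pos.2 ⟨f₀, h₀⟩
  · exact_mod_cast Finset.card_le_card Finset.subset_union_right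

/-- Quantitative Poincaré recurrence. -/
theorem recur (α : StandardSpace Γ) {A : Set α.X} (hA : MeasurableSet A) (S : Finset Γ) (m : ℕ) :
    S.card * α.μ.real {x ∈ A | ((S⁻¹ * S).filter fun h => h⁻¹ • x ∈ A).card < m} ≤ m := by
  set W := {x ∈ A | ((S⁻¹ * S).filter fun h => h⁻¹ • x ∈ A).card < m}
  have mW : MeasurableSet W := by
    refine hA.inter (measurableSet_lt (f := fun x => ((S⁻¹ * S).filter fun h => h⁻¹ • x ∈ A).card)
      ?_ measurable_const)
    simp only [Finset.card_filter]
    exact Finset.measurable_sum _ fun h _ =>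
      Measurable.ite ((α.preserving h⁻¹).measurable hA) measurable_const measurable_const
  have m1 : ∀ s : Γ, MeasurableSet ((fun x => s⁻¹ • x) ⁻¹' W) :=
    fun s => (α.preserving s⁻¹).measurable mW
  have I : ∀ s : Γ, Integrable (((fun x => s⁻¹ • x) ⁻¹' W).indicator (1 : α.X → ℝ)) α.μ :=
    fun s => (integrable_const 1).indicator (m1 s)
  calc _ = ∑ s ∈ S, ∫ x, ((fun x => s⁻¹ • x) ⁻¹' W).indicator 1 x ∂α.μ := by
        rw [Finset.sum_congr rfl fun s _ => (integral_indicator_one (m1 s)).trans
          ((α.preserving s⁻¹).measureReal_preimage mW.nullMeasurableSet)]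
        simp
    _ ≤ ∫ _, (m : ℝ) ∂α.μ := by
        rw [← integral_finsetSum _ fun s _ => I s]
        refine integral_mono (integrable_finsetSum _ fun s _ => I s) (integrable_const _) fun x => ?_
        have : ∑ s ∈ S, ((fun x => s⁻¹ • x) ⁻¹' W).indicator (1 : α.X → ℝ) x =
            (S.filter fun s => s⁻¹ • x ∈ W).card := by
          rw [Finset.card_filter, Nat.cast_sum]
          refine Finset.sum_congr rfl fun s _ => ?_
          by_cases h : s⁻¹ • x ∈ W <;> simp [indicator, h]
        rw [this, Nat.cast_le]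
        rcases (S.filter fun s => s⁻¹ • x ∈ W).eq_empty_or_nonempty with h | ⟨s₀, h⟩
        · simp [h]
        rw [Finset.mem_filter] at h
        refine le_trans (Finset.card_le_card_of_injOn (fun s => s₀⁻¹ * s) (fun s hs => ?_)
          fun a _ b _ e => by simpa using e) h.2.2.le
        rw [Finset.mem_coe, Finset.mem_filter] at hs ⊢
        refine ⟨Finset.mul_mem_mul (Finset.inv_mem_inv h.1) hs.1, ?_⟩
        simpa [smul_smul] using hs.2.1
    _ = m := by simp

end Pool.Agent.Lib.MP_0af324_gt
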