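import Pool.Agent.Lib.MP_0af324_gt.Bal

namespace Pool.Agent.Lib.MP_0af324_gt

open Finsupp MeasureTheory
open scoped Classical

variable {Γ E M R : Type} [Group Γ] [TopologicalSpace E] [TopologicalSpace M] [MulAction Γ E]
  [ContinuousConstSMul Γ E] [AddCommGroup R] {p : C(E, M)}

lemma push_bd {k : ℕ} (y : Simplex (k + 1) E →₀ R) :
    (bd y).mapDomain (push p) = bd (y.mapDomain (push p)) := by
  simp only [bd, mapDomain_finsetSum, mapDomain_smul, ← mapDomain_comp]
  rfl

theorem exists_lift (hp : IsQuotientCoveringMap p Γ) (k : ℕ) :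
    ∃ l : Simplex k M → Simplex k E, (∀ σ, push p (l σ) = σ) ∧
      ∀ τ, ∃ g : Γ, τ = g • l (push p τ) := by
  have hc := convex_stdSimplex ℝ (Fin (k + 1))
  let v : stdSimplex ℝ (Fin (k + 1)) := stdSimplex.vertex 0
  have := hc.contractibleSpace ⟨v, v.2⟩
  have := hc.locallyPathConnectedSpace
  have : ∀ σ : Simplex k M, ∃ τ : Simplex k E, push p τ = σ := fun σ => by
    obtain ⟨e, he⟩ := hp.surjective (σ v)
    obtain ⟨τ, h, -⟩ := hp.isCoveringMap.existsUnique_continuousMap_lifts σ v e he
    exact ⟨τ, ContinuousMap.ext (congrFun h.2)⟩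
  choose l hl using this
  refine ⟨l, hl, fun τ => ?_⟩
  have h := fun u => DFunLike.congr_fun (hl (push p τ)) u
  obtain ⟨g, hg⟩ := hp.apply_eq_iff_mem_orbit.1 (h v).symm
  refine ⟨g, DFunLike.coe_injective (hp.isCoveringMap.eq_of_comp_eq τ.continuous
    (g • l (push p τ)).continuous (funext fun u => ?_) v hg.symm)⟩
  exact (h u).symm.trans (hp.map_smul g).symm

lemma ker_mem (hp : IsQuotientCoveringMap p Γ) {k : ℕ} {Q : Type} [AddCommGroup Q]
    (Λ : (Simplex k E →₀ R) →+ Q) (B : AddSubgroup Q)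
    (h : ∀ σ (g : Γ) a, Λ (single σ a) - Λ (single (g • σ) a) ∈ B) {y : Simplex k E →₀ R}
    (hy : y.mapDomain (push p) = 0) : Λ y ∈ B := by
  obtain ⟨l, -, hl⟩ := exists_lift hp k
  have := all_mem ((Λ.comp (mapDomain.addMonoidHom l)).comp (mapDomain.addMonoidHom (push p)) - Λ) B
    (fun σ a => by
      obtain ⟨g, hg⟩ := hl σ
      have := h (l (push p σ)) g a
      rw [← hg] at this
      simpa using this) y
  simpa [hy] using this

lemma exists_d (hp : IsQuotientCoveringMap p Γ) : ∃ d : E → Γ, ∀ g e, d (g • e) = g * d e := by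
  have := hp.isCancelSMul
  let r : E → E := fun e => (Quotient.mk (MulAction.orbitRel Γ E) e).out
  have hr : ∀ (g : Γ) e, r (g • e) = r e := fun g e =>
    congrArg Quotient.out (Quotient.sound ⟨g, rfl⟩)
  have : ∀ e, ∃ γ : Γ, γ • r e = e := fun e =>
    (MulAction.orbitRel Γ E).symm (Quotient.mk_out (s := MulAction.orbitRel Γ E) e)
  choose d hd using this
  refine ⟨d, fun g e => IsCancelSMul.right_cancel _ _ (r e) ?_⟩
  rw [mul_smul, hd, ← hr g, hd]

variable (α : StandardSpace Γ)

lemma int_Lp (f : Lp ℤ ⊤ α.μ) : Integrable (fun x => (f x : ℝ)) α.μ :=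
  ((Lp.memLp f).integrable le_top).mono
    (continuous_of_discreteTopology.comp_aestronglyMeasurable (Lp.aestronglyMeasurable f))
    (.of_forall fun x => (Int.norm_cast_real _).le)

/-- The `L¹`-norm on bounded integer valued functions. -/
noncomputable def νL' : AddGroupSeminorm (Lp ℤ ⊤ α.μ) where
  toFun f := ∫ x, |(f x : ℝ)| ∂α.μ
  map_zero' := by
    rw [integral_congr_ae (g := fun _ => 0) ((Lp.coeFn_zero ℤ ⊤ α.μ).mono fun x h => by simp [h])]
    simp
  add_le' f g := by
    rw [← integral_add (int_Lp α f).abs (int_Lp α g).abs]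
    refine integral_mono_ae (int_Lp α _).abs ((int_Lp α f).abs.add (int_Lp α g).abs)
      ((Lp.coeFn_add f g).mono fun x h => ?_)
    simp only [h, Pi.add_apply, Int.cast_add]
    exact abs_add_le _ _
  neg' f := integral_congr_ae ((Lp.coeFn_neg f).mono fun x h => by simp only [h]; simp)

/-- The `L¹`-norm on bounded integer valued functions. -/
noncomputable def νL : AddGroupSeminorm α.Linf := νL' α

/-- Integration. -/
noncomputable def intL' : Lp ℤ ⊤ α.μ →+ ℝ := AddMonoidHom.mk' (fun f => ∫ x, (f x : ℝ) ∂α.μ)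
  fun f g => by
    rw [← integral_add (int_Lp α f) (int_Lp α g)]
    exact integral_congr_ae ((Lp.coeFn_add f g).mono fun x h => by simp only [h]; simp)

/-- Integration. -/
noncomputable def intL : α.Linf →+ ℝ := intL' α

lemma intL_act (g : Γ) (f : Lp ℤ ⊤ α.μ) : intL α (α.act g f) = intL α f := by
  have := integral_map (μ := α.μ) (α.preserving g).measurable.aemeasurable
    (f := fun x => (f x : ℝ)) (by rw [(α.preserving g).map_eq]; exact (int_Lp α f).1)
  rw [(α.preserving g).map_eq] at this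
  refine Eq.trans (integral_congr_ae ?_) this.symm
  exact (Lp.coeFn_compMeasurePreserving f (α.preserving g)).mono fun x h => congrArg _ h

lemma intL_const (a : ℤ) : intL α (α.const a) = a := by
  refine (integral_congr_ae (g := fun _ => (a : ℝ))
    ((Lp.coeFn_const ⊤ α.μ a).mono fun x h => congrArg _ h)).trans (by simp)

/-- Simple functions as elements of `L^∞`. -/
noncomputable def toL' : SimpleFunc α.X ℤ →+ Lp ℤ ⊤ α.μ :=
  AddMonoidHom.mk' (fun f => (f.memLp_top α.μ).toLp f) fun _ _ => MemLp.toLp_add _ _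

/-- Simple functions as elements of `L^∞`. -/
noncomputable def toL : SimpleFunc α.X ℤ →+ α.Linf := toL' α

lemma toL_ae (f : SimpleFunc α.X ℤ) : toL' α f =ᵐ[α.μ] f := (f.memLp_top α.μ).coeFn_toLp

lemma toL_act (g : Γ) (f : SimpleFunc α.X ℤ) : toL α (sact α g f) = α.act g (toL α f) :=
  Lp.ext ((toL_ae α _).trans (((Lp.coeFn_compMeasurePreserving _ (α.preserving g)).trans
    ((α.preserving g).quasiMeasurePreserving.ae_eq_comp (toL_ae α f))).symm))

lemma toL_const (a : ℤ) : toL α (SimpleFunc.const _ a) = α.const a :=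
  Lp.ext ((toL_ae α _).trans (Lp.coeFn_const ⊤ α.μ a).symm)

lemma νL_toL (f : SimpleFunc α.X ℤ) : νL α (toL α f) = νi α (chg (Int.castAddHom ℝ) f) :=
  integral_congr_ae ((toL_ae α f).mono fun _ h => congrArg (fun a : ℤ => |(a : ℝ)|) h)

lemma l1_le_of {n : ℕ} {z : Simplex n M →₀ ℤ} {c : Simplex n M →₀ ℝ} {b : Simplex (n + 1) M →₀ ℝ}
    (h : c = z.mapRange Int.cast Int.cast_zero + bd b) : l1Seminorm z ≤ wn νa c := by
  unfold l1Seminorm
  refine csInf_le ⟨0, ?_⟩ ⟨c, b, h, rfl⟩
  rintro _ ⟨c, -, -, rfl⟩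
  exact apply_nonneg (wn νa) c

/-- The bound of Schmidt, on the level of chains. -/
theorem l1_le (hp : IsQuotientCoveringMap p Γ) {n : ℕ} {z' : Simplex n E →₀ ℤ}
    {c : Simplex n E →₀ α.Linf} {w : Simplex (n + 1) E →₀ α.Linf}
    (h : c - mapRange.addMonoidHom α.const z' - bd w ∈ balancing (Simplex n E) α.act) :
    l1Seminorm (z'.mapDomain (push p)) ≤ wn (νL α) c := by
  let J := fun k => (mapDomain.addMonoidHom (push p : Simplex k E → Simplex k M)).comp
    (mapRange.addMonoidHom (intL α))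
  have h0 : J n _ = 0 := AddSubgroup.mem_bot.1 (bal_map (J n) ⊥ (fun σ g f => by
    have : push p (g • σ) = push p σ := ContinuousMap.ext fun u => hp.map_smul g
    simp [J, intL_act, this]) h)
  have h1 : J n (mapRange.addMonoidHom α.const z') =
      (z'.mapDomain (push p)).mapRange Int.cast Int.cast_zero := by
    refine Eq.trans ?_ (hom_mapDomain (Int.castAddHom ℝ) _ z').symm
    refine congrArg (mapDomain _) (Finsupp.ext fun σ => intL_const α _)
  have h2 : J n (bd w) = bd (J (n + 1) w) :=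
    (congrArg (mapDomain _) (hom_bd _ w)).trans (push_bd _)
  rw [map_sub, map_sub, h1, h2, sub_sub, sub_eq_zero] at h0
  refine le_trans (b := wn νa (J n c)) (l1_le_of h0) ?_
  · simpa using lift_le (νL α) (wn νa) (J n) (K := 1) (fun σ f => by
      have : νa (intL α f) ≤ νL α f := abs_integral_le_integral_abs
      simpa [J, wn_single] using this) c

end Pool.Agent.Lib.MP_0af324_gt
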