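import Pool.Agent.Lib.MP_0af324_gt.Lift
import Pool.Agent.Lib.MP_0af324_gt.Collapse

namespace Pool.Agent.Lib.MP_0af324_gt

open Finsupp MeasureTheory
open scoped Classical

variable {Γ E M R R' : Type} [Group Γ] [TopologicalSpace E] [TopologicalSpace M] [MulAction Γ E]
  [ContinuousConstSMul Γ E] [AddCommGroup R] [AddCommGroup R'] {p : C(E, M)}

/-- A tuple of simple functions. -/
noncomputable def piS {X : Type} [MeasurableSpace X] {k : ℕ} (f : Fin k → SimpleFunc X Γ) :
    SimpleFunc X (Fin k → Γ) where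
  toFun x i := f i x
  measurableSet_fiber' t := by
    have : (fun x i => f i x) ⁻¹' {t} = ⋂ i, f i ⁻¹' {t i} := by
      ext x
      simp [funext_iff]
    rw [this]
    exact MeasurableSet.iInter fun i => (f i).measurableSet_fiber _
  finite_range' := (Set.Finite.pi' fun i => (f i).finite_range).subset (by
    rintro _ ⟨x, rfl⟩ i
    exact ⟨x, rfl⟩)

/-- The group elements attached to the vertices of a simplex. -/
noncomputable def vt (d : E → Γ) {k : ℕ} (σ : Simplex k E) (i : Fin (k + 1)) : Γ :=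
  d (σ (stdSimplex.vertex i))

variable {α : StandardSpace Γ} (C : Cn Γ E) (d : E → Γ) (φ : SimpleFunc α.X Γ)

/-- The collapsed vertices. -/
noncomputable def th {k : ℕ} (σ : Simplex k E) : SimpleFunc α.X (Fin (k + 1) → Γ) :=
  piS fun i => (φ.comp _ (α.preserving (vt d σ i)⁻¹).measurable).map (vt d σ i * ·)

lemma th_apply {k : ℕ} (σ : Simplex k E) (x : α.X) (i : Fin (k + 1)) :
    th d φ σ x i = vt d σ i * φ ((vt d σ i)⁻¹ • x) := rfl

lemma th_face {k : ℕ} (j : Fin (k + 2)) (σ : Simplex (k + 1) E) (x : α.X) :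
    th d φ (face j σ) x = th d φ σ x ∘ j.succAbove := by
  funext i
  have : vt d (face j σ) i = vt d σ (j.succAbove i) :=
    congrArg (fun u => d (σ u)) (stdSimplex.map_vertex _ _)
  rw [th_apply, this]
  rfl

/-- Collapsing and straightening. -/
noncomputable def psi {k : ℕ} : (Simplex k E →₀ R) →+ (Simplex k E →₀ SimpleFunc α.X R) :=
  lam (th d φ) fun _ t => singleAddHom (C.str t)

/-- The homotopy between the identity and `psi`. -/
noncomputable def hh {k : ℕ} : (Simplex k E →₀ ℤ) →+ (Simplex (k + 1) E →₀ SimpleFunc α.X ℤ) :=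
  lam (th d φ) fun σ t => zmultiplesHom _ (C.pr σ t)

lemma psi_single {k : ℕ} (σ : Simplex k E) (a : R) :
    psi C d φ (single σ a) = one ((th d φ σ).map C.str) (SimpleFunc.const _ a) :=
  ev_ext fun x => by simp [psi]

lemma ev_bd {k : ℕ} (x : α.X) (c : Simplex (k + 1) E →₀ SimpleFunc α.X R) :
    ev x (bd c) = bd (ev x c) := hom_bd _ c

lemma psi_bd {k : ℕ} (y : Simplex (k + 1) E →₀ R) : psi C d φ (bd y) = bd (psi C d φ y) := by
  induction y using Finsupp.induction_linear with
  | zero => simp [bd_zero]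
  | add a b ha hb => simp only [bd_add, map_add, ha, hb]
  | single σ a =>
    refine ev_ext fun x => ?_
    simp [ev_bd, bd_single, psi_single, C.face_str, th_face]

lemma psi_chg {k : ℕ} (κ : R →+ R') (y : Simplex k E →₀ R) :
    mapRange.addMonoidHom (chg κ) (psi C d φ y) = psi C d φ (mapRange.addMonoidHom κ y) := by
  induction y using Finsupp.induction_linear with
  | zero => simp
  | add a b ha hb => simp only [map_add, ha, hb]
  | single σ a =>
    ext τ x
    simp [psi_single, one_apply, apply_ite κ]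

lemma wn_psi {k : ℕ} (y : Simplex k E →₀ ℝ) : wn (νi α) (psi C d φ y) ≤ wn νa y := by
  simpa using lift_le νa (wn (νi α)) (psi C d φ) (K := 1) (fun σ a => by
    rw [psi_single, wn_one, νi_apply, show νa a = |a| from rfl]
    simp) y

/-- Constant functions. -/
noncomputable def cst : R →+ SimpleFunc α.X R :=
  AddMonoidHom.mk' (SimpleFunc.const _) fun _ _ => rfl

lemma bd_hh {k : ℕ} (y : Simplex (k + 1) E →₀ ℤ) : bd (hh C d φ y) =
    mapRange.addMonoidHom cst y - psi C d φ y - hh C d φ (bd y) := by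
  induction y using Finsupp.induction_linear with
  | zero => simp [bd_zero]
  | add a b ha hb =>
    simp only [bd_add, map_add, ha, hb]
    abel
  | single σ a =>
    refine ev_ext fun x => ?_
    have := congrArg (a • ·) (C.bd_pr σ (th d φ σ x))
    simp only [← bdH_apply, ← map_zsmul] at this
    simp only [map_sub, bd_single, map_sum, map_zsmul]
    simp [ev_bd, psi_single, hh, th_face, ← bdH_apply (a • _), this, Cn.pb, smul_sub,
      Finset.smul_sum, smul_comm a, cst]

variable {d} (hd : ∀ g e, d (g • e) = g * d e)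
include hd

lemma th_smul {k : ℕ} (g : Γ) (σ : Simplex k E) (x : α.X) :
    th d φ (g • σ) (g • x) = g • th d φ σ x := by
  funext i
  have : vt d (g • σ) i = g * vt d σ i := hd _ _
  simp [th_apply, this, mul_assoc, smul_smul]

lemma psi_rel {k : ℕ} (σ : Simplex k E) (g : Γ) (a : R) :
    psi C d φ (single σ a) - psi C d φ (single (g • σ) a) ∈ Rel α _ R :=
  star_mem g fun x => by simp [psi_single, th_smul φ hd, C.str_smul]

lemma hh_rel {k : ℕ} (σ : Simplex k E) (g : Γ) (a : ℤ) :
    hh C d φ (single σ a) - hh C d φ (single (g • σ) a) ∈ Rel α _ ℤ :=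
  star_mem g fun x => by simp [hh, th_smul φ hd, C.pr_smul, mapDomain_smul]

omit hd in
lemma fol_le_of {n : ℕ} {z' : Simplex n E →₀ ℤ} {c : Simplex n E →₀ α.Linf}
    {w : Simplex (n + 1) E →₀ α.Linf}
    (h : c - mapRange.addMonoidHom α.const z' - bd w ∈ balancing (Simplex n E) α.act) :
    foliatedNormAt p α (z'.mapDomain (push p)) ≤ wn (νL α) c := by
  unfold foliatedNormAt
  refine csInf_le ⟨0, ?_⟩ ⟨z', c, w, rfl, h, rfl⟩
  rintro _ ⟨-, c, -, -, -, rfl⟩
  exact apply_nonneg (wn (νL α)) c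

theorem upper_aux (hp : IsQuotientCoveringMap p Γ) {n : ℕ} {z : Simplex (n + 1) E →₀ ℤ}
    (hz : bd (z.mapDomain (push p)) = 0) {c : Simplex (n + 1) E →₀ ℝ} {b : Simplex (n + 2) E →₀ ℝ}
    (h : (mapRange.addMonoidHom (Int.castAddHom ℝ) z - c + bd b).mapDomain (push p) = 0) {δ : ℝ}
    {W : Simplex (n + 2) E →₀ SimpleFunc α.X ℤ}
    (hW : wn (νi α) (nm (vt d · 0) (psi C d φ b) -
      mapRange.addMonoidHom (chg (Int.castAddHom ℝ)) W) ≤ δ) :
    foliatedNormAt p α (z.mapDomain (push p)) ≤ wn νa c + (n + 3) * δ := by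
  have hD : ∀ {k} (g : Γ) (σ : Simplex k E), vt d (g • σ) 0 = g * vt d σ 0 := fun _ _ => hd _ _
  set Z := nm (vt d · 0) (psi C d φ z + bd W)
  have r1 : Z - mapRange.addMonoidHom cst z - bd (W - hh C d φ z) ∈ Rel α _ ℤ := by
    have a := nm_mem (vt d · 0) (psi C d φ z + bd W)
    have b := ker_mem hp (hh C d φ) _ (hh_rel C φ hd) ((push_bd z).trans hz)
    have := sub_mem a b
    rwa [bd_sub, bd_hh, show ∀ a b c e f : Simplex (n + 1) E →₀ SimpleFunc α.X ℤ,
      a - b - (c - (b - e - f)) = a - (e + c) - f from fun _ _ _ _ _ => by abel]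
  have r2 := bal_map (mapRange.addMonoidHom (toL α)) (balancing _ α.act) (fun σ g f => by
    simpa [toL_act] using bal_gen α.act σ g (toL α f)) r1
  rw [map_sub, map_sub, hom_bd, show mapRange.addMonoidHom (toL α) (mapRange.addMonoidHom cst z) =
    mapRange.addMonoidHom α.const z from Finsupp.ext fun σ => toL_const α _] at r2
  refine (fol_le_of r2).trans ?_
  have e1 : wn (νL α) (mapRange.addMonoidHom (toL α) Z) = wn (νi α)
      (mapRange.addMonoidHom (chg (Int.castAddHom ℝ)) Z) := by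
    rw [wn_apply, wn_apply, mapRange.addMonoidHom_apply, mapRange.addMonoidHom_apply,
      sum_eq_of_subset _ _ support_mapRange, sum_eq_of_subset _ _ support_mapRange]
    exact Finset.sum_congr rfl fun σ _ => νL_toL α _
  have e2 := nm_rel (D := (vt d · 0)) hD (ker_mem hp (psi C d φ) _ (psi_rel C φ hd) h)
  have e3 := nm_rel (D := (vt d · 0)) hD (bal_bd (nm_mem (vt d · 0) (psi C d φ b)))
  have e4 : mapRange.addMonoidHom (chg (Int.castAddHom ℝ)) Z =
      nm (vt d · 0) (psi C d φ c - bd (nm (vt d · 0) (psi C d φ b) -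
      mapRange.addMonoidHom (chg (Int.castAddHom ℝ)) W)) := by
    rw [chg_nm, map_add, psi_chg, hom_bd]
    simp only [map_add, map_sub, bd_sub, psi_bd] at e2 e3 ⊢
    rw [sub_eq_zero.1 e3, ← sub_eq_zero, ← e2]
    abel
  rw [e1, e4]
  refine (wn_nm _ _).trans ((map_sub_le_add _ _ _).trans (add_le_add (wn_psi C d φ c)
    ((wn_bd _ _).trans ?_)))
  push_cast
  rw [add_assoc, show (1 : ℝ) + 2 = 3 by norm_num]
  gcongr

omit hd

theorem upper [ContractibleSpace E] (hp : IsQuotientCoveringMap p Γ) {n : ℕ}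
    (hc : ∀ (T : Finset (Fin (n + 3) → Γ)) (m : ℕ) (η : ℝ), 0 < η → Coll T m η)
    {z : Simplex (n + 1) M →₀ ℤ} (hz : bd z = 0) {c : Simplex (n + 1) M →₀ ℝ}
    {b : Simplex (n + 2) M →₀ ℝ} (h : c = z.mapRange Int.cast Int.cast_zero + bd b) {ε : ℝ}
    (hε : 0 < ε) : ∃ α : StandardSpace Γ, foliatedNormAt p α z ≤ wn νa c + ε := by
  obtain ⟨C⟩ := exists_cn (Γ := Γ) (E := E)
  obtain ⟨d, hd⟩ := exists_d hp
  choose l hl _ using exists_lift hp
  have hl' : ∀ {R : Type} [AddCommGroup R] {k} (y : Simplex k M →₀ R),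
      (y.mapDomain (l k)).mapDomain (push p) = y := fun y => by
    rw [← mapDomain_comp, show push p ∘ l _ = id from funext (hl _), mapDomain_id]
  set b' := b.mapDomain (l _)
  set η := ε / ((n + 3) * ((b'.support.card + 1) * 2)) with hη
  have η0 : 0 < η := by positivity
  obtain ⟨m, hm⟩ := exists_nat_one_div_lt η0
  obtain ⟨α, φ, hφ⟩ := hc (b'.support.image (vt d)) (m + 1) η η0
  have : ∀ τ ∈ b'.support, ∃ W : Simplex (n + 2) E →₀ SimpleFunc α.X ℤ,
      wn (νi α) (nm (vt d · 0) (psi C d φ (single τ (b' τ))) -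
        mapRange.addMonoidHom (chg (Int.castAddHom ℝ)) W) ≤ 2 * η := fun τ hτ => by
    obtain ⟨B, hB, hB', hx⟩ := hφ _ (Finset.mem_image_of_mem _ hτ)
    obtain ⟨W, hW⟩ := round_one (D := (vt d · 0)) (fun _ _ => hd _ _) ((th d φ τ).map C.str) (b' τ)
      m.succ_pos hB fun x hx' => (hx x hx').imp fun H hH => ⟨hH.1, fun g hg => by
        rw [SimpleFunc.map_apply, SimpleFunc.map_apply, ← C.str_smul]
        congr 1
        funext i
        simpa [th_apply, mul_assoc, mul_smul] using hH.2 g hg i⟩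
    refine ⟨W, ?_⟩
    rw [psi_single]
    push_cast at hW
    linarith
  choose! W hW using this
  have key := upper_aux C φ hd hp (z := z.mapDomain (l _)) (by rw [hl', hz])
    (c := c.mapDomain (l _)) (b := b') (by
      rw [mapDomain_add, mapDomain_sub, push_bd, hom_mapDomain, hl', hl', hl', h]
      change _ - (mapRange.addMonoidHom (Int.castAddHom ℝ) z + _) + _ = _
      abel) (δ := b'.support.card * (2 * η)) (W := ∑ τ ∈ b'.support, W τ) (by
      conv_lhs => enter [2, 1, 2, 2]; rw [← sum_single b', Finsupp.sum]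
      rw [map_sum, map_sum, map_sum, ← Finset.sum_sub_distrib, ← nsmul_eq_mul]
      exact (semi_sum_le _ _ _).trans (Finset.sum_le_card_nsmul _ _ _ hW))
  rw [hl'] at key
  refine ⟨α, key.trans (add_le_add (wn_mapDomain _ _ _) ?_)⟩
  have e : ((n : ℝ) + 3) * ((b'.support.card + 1) * (2 * η)) = ε := by
    rw [hη]
    field_simp
  rw [← e]
  gcongr
  linarith

theorem main [ContractibleSpace E] (hp : IsQuotientCoveringMap p Γ) {n : ℕ}
    (hc : ∀ (T : Finset (Fin (n + 3) → Γ)) (m : ℕ) (η : ℝ), 0 < η → Coll T m η)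
    {z : Simplex (n + 1) M →₀ ℤ} (hz : bd z = 0) : foliatedNorm Γ p z = l1Seminorm z := by
  have low : ∀ α : StandardSpace Γ, l1Seminorm z ≤ foliatedNormAt p α z := fun α => by
    obtain ⟨l, hl, -⟩ := exists_lift hp (n + 1)
    refine le_csInf ⟨_, z.mapDomain l, mapRange.addMonoidHom α.const (z.mapDomain l), 0,
      ?_, by simp [bd_zero], rfl⟩ ?_
    · rw [← mapDomain_comp, show push p ∘ l = id from funext hl, mapDomain_id]
    · rintro _ ⟨z', c, w, rfl, h, rfl⟩
      exact l1_le α hp h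
  have z0 : z.mapRange Int.cast Int.cast_zero = z.mapRange Int.cast Int.cast_zero +
      bd (0 : Simplex (n + 2) M →₀ ℝ) := by rw [bd_zero, add_zero]
  refine le_antisymm (le_csInf ⟨_, _, _, z0, rfl⟩ ?_) (le_csInf ?_ ?_)
  · rintro _ ⟨c, b, h, rfl⟩
    refine le_of_forall_pos_le_add fun ε hε => ?_
    obtain ⟨α, hα⟩ := upper hp hc hz h hε
    refine le_trans (csInf_le ⟨l1Seminorm z, ?_⟩ ⟨α, rfl⟩) hα
    rintro _ ⟨α, rfl⟩
    exact low α
  · obtain ⟨α, -⟩ := upper hp hc hz z0 one_pos
    exact ⟨_, α, rfl⟩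
  · rintro _ ⟨α, rfl⟩
    exact low α

end Pool.Agent.Lib.MP_0af324_gt
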