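import Pool.Agent.Lib.MP_0af324_gt.Prism

namespace Pool.Agent.Lib.MP_0af324_gt

open Finsupp MeasureTheory
open scoped Classical

section Norm
variable {S V Q : Type} [AddCommGroup V] [AddCommGroup Q]

lemma sum_eq_of_subset (ν : AddGroupSeminorm V) (c : S →₀ V) {A : Finset S}
    (h : c.support ⊆ A) : (c.sum fun _ a => ν a) = ∑ σ ∈ A, ν (c σ) :=
  sum_of_support_subset c h _ fun _ _ => map_zero ν

/-- The `ℓ¹`-norm of a chain with respect to a seminorm on the coefficients. -/
noncomputable def wn (ν : AddGroupSeminorm V) : AddGroupSeminorm (S →₀ V) where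
  toFun c := c.sum fun _ a => ν a
  map_zero' := sum_zero_index
  add_le' a b := by
    rw [sum_eq_of_subset ν _ support_add, sum_eq_of_subset ν a Finset.subset_union_left,
      sum_eq_of_subset ν b Finset.subset_union_right, ← Finset.sum_add_distrib]
    exact Finset.sum_le_sum fun σ _ => map_add_le_add ν _ _
  neg' a := by simp [Finsupp.sum]

lemma wn_apply (ν : AddGroupSeminorm V) (c : S →₀ V) : wn ν c = c.sum fun _ a => ν a := rfl

lemma wn_single (ν : AddGroupSeminorm V) (σ : S) (a : V) : wn ν (single σ a) = ν a :=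
  sum_single_index (map_zero ν)

lemma semi_sum_le {ι : Type} (N : AddGroupSeminorm Q) (A : Finset ι) (f : ι → Q) :
    N (∑ i ∈ A, f i) ≤ ∑ i ∈ A, N (f i) :=
  Finset.le_sum_of_subadditive N (map_zero N).le (map_add_le_add N) A f

lemma lift_le (ν : AddGroupSeminorm V) (N : AddGroupSeminorm Q) (Λ : (S →₀ V) →+ Q) {K : ℝ}
    (h : ∀ σ a, N (Λ (single σ a)) ≤ K * ν a) (c : S →₀ V) : N (Λ c) ≤ K * wn ν c := by
  conv_lhs => rw [← sum_single c, Finsupp.sum, map_sum]
  rw [wn_apply, Finsupp.sum, Finset.mul_sum]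
  exact (semi_sum_le N _ _).trans (Finset.sum_le_sum fun σ _ => h σ _)

lemma wn_mono (ν : AddGroupSeminorm V) {c d : S →₀ V} (h : ∀ σ, ν (c σ) ≤ ν (d σ)) :
    wn ν c ≤ wn ν d := by
  rw [wn_apply, wn_apply, sum_eq_of_subset ν c Finset.subset_union_left,
    sum_eq_of_subset ν d Finset.subset_union_right]
  exact Finset.sum_le_sum fun σ _ => h σ

lemma wn_mapDomain {S' : Type} (ν : AddGroupSeminorm V) (φ : S → S') (c : S →₀ V) :
    wn ν (c.mapDomain φ) ≤ wn ν c := by
  simpa using lift_le ν (wn ν) (mapDomain.addMonoidHom φ) (K := 1)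
    (fun σ a => by simp [wn_single]) c

lemma wn_bd {k : ℕ} {Y : Type} [TopologicalSpace Y] (ν : AddGroupSeminorm V)
    (c : Simplex (k + 1) Y →₀ V) : wn ν (bd c) ≤ (k + 2) * wn ν c := by
  refine (semi_sum_le _ _ _).trans ((Finset.sum_le_card_nsmul _ _ (wn ν c) fun i _ => ?_).trans ?_)
  · rcases neg_one_pow_eq_or ℤ i with h | h <;> simp [h, wn_mapDomain]
  · simp

/-- The absolute value as a seminorm. -/
noncomputable def νa : AddGroupSeminorm ℝ := ⟨fun a => |a|, abs_zero, abs_add_le, abs_neg⟩

end Norm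

variable {Γ S T R R' : Type} [Group Γ] (α : StandardSpace Γ) [AddCommGroup R] [AddCommGroup R']

/-- The `L¹`-norm of a simple function. -/
noncomputable def νi : AddGroupSeminorm (SimpleFunc α.X ℝ) where
  toFun f := ∫ x, |f x| ∂α.μ
  map_zero' := by simp
  add_le' f g := by
    rw [← integral_add f.integrable_of_isFiniteMeasure.abs
      g.integrable_of_isFiniteMeasure.abs]
    exact integral_mono (f + g).integrable_of_isFiniteMeasure.abs
      (f.integrable_of_isFiniteMeasure.abs.add g.integrable_of_isFiniteMeasure.abs)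
      fun x => abs_add_le _ _
  neg' f := by simp

lemma νi_apply (f : SimpleFunc α.X ℝ) : νi α f = ∫ x, |f x| ∂α.μ := rfl

/-- The right action on simple functions. -/
noncomputable def sact (g : Γ) : (SimpleFunc α.X R) →+ (SimpleFunc α.X R) where
  toFun f := f.comp (g • ·) (α.preserving g).measurable
  map_zero' := rfl
  map_add' _ _ := rfl

@[simp] lemma sact_apply (g : Γ) (f : SimpleFunc α.X R) (x : α.X) : sact α g f x = f (g • x) := rfl

lemma νi_sact (g : Γ) (f : SimpleFunc α.X ℝ) : νi α (sact α g f) = νi α f := by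
  have := integral_map (μ := α.μ) (α.preserving g).measurable.aemeasurable (f := fun x => |f x|)
    (f.measurable.abs.aestronglyMeasurable)
  rw [(α.preserving g).map_eq] at this
  exact this.symm

variable {α}

/-- Evaluation of a parametrised chain. -/
noncomputable def ev (x : α.X) : (S →₀ (SimpleFunc α.X R)) →+ (S →₀ R) :=
  mapRange.addMonoidHom ⟨⟨fun f => f x, rfl⟩, fun _ _ => rfl⟩

@[simp] lemma ev_apply (x : α.X) (c : S →₀ (SimpleFunc α.X R)) (σ : S) : ev x c σ = c σ x := rfl

lemma ev_ext {c d : S →₀ (SimpleFunc α.X R)} (h : ∀ x, ev x c = ev x d) : c = d := by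
  ext σ x
  exact DFunLike.congr_fun (h x) σ

@[simp] lemma ev_single (x : α.X) (σ : S) (f : SimpleFunc α.X R) : ev x (single σ f) = single σ (f x) :=
  mapRange_single (hf := rfl)

lemma hom_mapDomain {S' : Type} (κ : R →+ R') (φ : S → S') (c : S →₀ R) :
    mapRange.addMonoidHom κ (c.mapDomain φ) = (mapRange.addMonoidHom κ c).mapDomain φ :=
  (mapDomain_mapRange φ c κ (map_zero κ) (map_add κ)).symm

lemma hom_bd {k : ℕ} {Y : Type} [TopologicalSpace Y] (κ : R →+ R') (c : Simplex (k + 1) Y →₀ R) :
    mapRange.addMonoidHom κ (bd c) = bd (mapRange.addMonoidHom κ c) := by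
  simp only [bd, map_sum, map_zsmul, hom_mapDomain]

/-- Gluing finitely many chains along a simple function. -/
noncomputable def glue (θ : SimpleFunc α.X T) (G : T → (S →₀ R)) : S →₀ (SimpleFunc α.X R) :=
  onFinset (θ.range.biUnion fun t => (G t).support) (fun σ => θ.map fun t => G t σ) fun σ h => by
    by_contra h'
    refine h (SimpleFunc.ext fun x => ?_)
    by_contra h2
    exact h' (Finset.mem_biUnion.2 ⟨θ x, θ.mem_range_self x, mem_support_iff.2 h2⟩)

@[simp] lemma ev_glue (θ : SimpleFunc α.X T) (G : T → (S →₀ R)) (x : α.X) :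
    ev x (glue θ G) = G (θ x) := Finsupp.ext fun _ => rfl

/-- A parametrised additive map on chains. -/
noncomputable def lam {S' : Type} (θ : S' → (SimpleFunc α.X T)) (G : S' → T → R' →+ (S →₀ R)) :
    (S' →₀ R') →+ (S →₀ (SimpleFunc α.X R)) :=
  liftAddHom fun σ => ⟨⟨fun a => glue (θ σ) fun t => G σ t a, ev_ext fun x => by simp⟩,
    fun a b => ev_ext fun x => by simp⟩

@[simp] lemma ev_lam {S' : Type} (θ : S' → (SimpleFunc α.X T)) (G : S' → T → R' →+ (S →₀ R)) (x : α.X)
    (σ : S') (a : R') : ev x (lam θ G (single σ a)) = G σ (θ σ x) a := by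
  rw [lam, liftAddHom_apply_single]
  exact ev_glue _ _ _

/-- The random simplex `s` with the random coefficient `f`. -/
noncomputable def one (s : SimpleFunc α.X S) (f : SimpleFunc α.X R) : S →₀ (SimpleFunc α.X R) :=
  glue (s.pair f) fun p => single p.1 p.2

@[simp] lemma ev_one (s : SimpleFunc α.X S) (f : SimpleFunc α.X R) (x : α.X) :
    ev x (one s f) = single (s x) (f x) := ev_glue _ _ _

lemma one_apply (s : SimpleFunc α.X S) (f : SimpleFunc α.X R) (σ : S) (x : α.X) :
    one s f σ x = if s x = σ then f x else 0 := by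
  rw [← ev_apply, ev_one, single_apply]

lemma wn_one (s : SimpleFunc α.X S) (f : SimpleFunc α.X ℝ) : wn (νi α) (one s f) = νi α f := by
  rw [wn_apply, sum_eq_of_subset _ _ (A := s.range)]
  · simp only [νi_apply]
    rw [← integral_finsetSum _ fun σ _ => (SimpleFunc.integrable_of_isFiniteMeasure _).abs]
    congr 1
    funext x
    simp [one_apply, apply_ite abs, s.mem_range_self x]
  · intro σ h
    by_contra h'
    refine mem_support_iff.1 h (SimpleFunc.ext fun x => ?_)
    rw [one_apply, if_neg]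
    · rfl
    · rintro rfl
      exact h' (s.mem_range_self x)

end Pool.Agent.Lib.MP_0af324_gt
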