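import Pool.Agent.Lib.MP_0af324_gt.Cone

namespace Pool.Agent.Lib.MP_0af324_gt

open Finsupp

section
variable {k : ℕ} {Y R : Type} [TopologicalSpace Y] [AddCommGroup R]

/-- The boundary as an additive map. -/
noncomputable def bdH : (Simplex (k + 1) Y →₀ R) →+ (Simplex k Y →₀ R) :=
  ∑ i : Fin (k + 2), (-1 : ℤ) ^ (i : ℕ) • mapDomain.addMonoidHom (face i)

lemma bdH_apply (c : Simplex (k + 1) Y →₀ R) : bdH c = bd c := by
  simp [bdH, bd, AddMonoidHom.finsetSum_apply]

lemma bd_add (a b : Simplex (k + 1) Y →₀ R) : bd (a + b) = bd a + bd b := by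
  simp only [← bdH_apply, map_add]

lemma bd_sub (a b : Simplex (k + 1) Y →₀ R) : bd (a - b) = bd a - bd b := by
  simp only [← bdH_apply, map_sub]

lemma bd_zero : bd (0 : Simplex (k + 1) Y →₀ R) = 0 := by
  simp only [← bdH_apply, map_zero]

lemma bd_single (σ : Simplex (k + 1) Y) (a : R) :
    bd (single σ a) = ∑ i : Fin (k + 2), (-1 : ℤ) ^ (i : ℕ) • single (face i σ) a := by
  simp [bd]

end

variable {Γ E : Type} [Group Γ] [TopologicalSpace E] [MulAction Γ E] [ContinuousConstSMul Γ E]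

lemma face_smul {k : ℕ} (i : Fin (k + 2)) (g : Γ) (σ : Simplex (k + 1) E) :
    face i (g • σ) = g • face i σ := rfl

/-- An equivariant family of cone operators. -/
structure Cn (Γ E : Type) [Group Γ] [TopologicalSpace E] [MulAction Γ E]
    [ContinuousConstSMul Γ E] where
  e : E
  c : ∀ {k}, Γ → Simplex k E → Simplex (k + 1) E
  f0 : ∀ {k} g (σ : Simplex k E), face 0 (c g σ) = σ
  fs : ∀ {k} g (i : Fin (k + 2)) σ, face i.succ (c g σ) = c g (face i σ)
  f1 : ∀ g (σ : Simplex 0 E), face 1 (c g σ) = ContinuousMap.const _ (g • e)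
  eqv : ∀ {k} g h (σ : Simplex k E), c (g * h) (g • σ) = g • c h σ

theorem exists_cn [ContractibleSpace E] : Nonempty (Cn Γ E) := by
  obtain ⟨e, c, h0, hs, h1⟩ := exists_cone E
  refine ⟨⟨e, fun g σ => g • c _ (g⁻¹ • σ), fun g σ => ?_, fun g i σ => ?_, fun g σ => ?_,
    fun g h σ => ?_⟩⟩
  · rw [face_smul, h0, smul_inv_smul]
  · rw [face_smul, hs, face_smul]
  · rw [face_smul, h1]
    rfl
  · simp [smul_smul]

namespace Cn
variable (C : Cn Γ E)

/-- The straight simplex with vertices `t i • e`. -/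
def str : ∀ {k}, (Fin (k + 1) → Γ) → Simplex k E
  | 0, t => ContinuousMap.const _ (t 0 • C.e)
  | _ + 1, t => C.c (t 0) (str (Fin.tail t))

lemma str_smul : ∀ {k} (g : Γ) (t : Fin (k + 1) → Γ), C.str (g • t) = g • C.str t
  | 0, g, t => by
    ext u
    simp [str, mul_smul]
  | k + 1, g, t => by
    rw [str, str, ← C.eqv, ← str_smul g (Fin.tail t)]
    rfl

lemma face_str : ∀ {k} (i : Fin (k + 2)) (t : Fin (k + 2) → Γ),
    face i (C.str t) = C.str (t ∘ i.succAbove)
  | 0, i, t => by
    refine Fin.cases ?_ (fun j => ?_) i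
    · exact C.f0 _ _
    · rw [Subsingleton.elim j 0]
      exact C.f1 _ _
  | k + 1, i, t => by
    refine Fin.cases ?_ (fun j => ?_) i
    · rw [str, C.f0]
      rfl
    · rw [str, C.fs, face_str j (Fin.tail t), str.eq_2 C (t := t ∘ j.succ.succAbove)]
      congr 2
      funext l
      simp [Fin.tail]

/-- The prism between a simplex and a straight simplex. -/
noncomputable def pr : ∀ {k}, Simplex k E → (Fin (k + 1) → Γ) → (Simplex (k + 1) E →₀ ℤ)
  | 0, σ, t => single (C.c (t 0) σ) 1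
  | _ + 1, σ, t => single (C.c (t 0) σ) 1 - (pr (face 0 σ) (Fin.tail t)).mapDomain (C.c (t 0))

lemma pr_smul : ∀ {k} (g : Γ) (σ : Simplex k E) (t : Fin (k + 1) → Γ),
    C.pr (g • σ) (g • t) = (C.pr σ t).mapDomain (g • ·)
  | 0, g, σ, t => by
    rw [pr, pr, mapDomain_single, ← C.eqv]
    rfl
  | k + 1, g, σ, t => by
    have := pr_smul g (face 0 σ) (Fin.tail t)
    rw [pr, pr, mapDomain_sub, mapDomain_single, ← C.eqv, face_smul,
      show Fin.tail (g • t) = g • Fin.tail t from rfl, this, ← mapDomain_comp, ← mapDomain_comp]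
    congr 2
    funext τ
    exact C.eqv _ _ _

lemma bd_cone {k} (g : Γ) (y : Simplex (k + 1) E →₀ ℤ) :
    bd (y.mapDomain (C.c g)) = y - (bd y).mapDomain (C.c g) := by
  induction y using Finsupp.induction_linear with
  | zero => simp [bd_zero]
  | add a b ha hb =>
    rw [mapDomain_add, bd_add, bd_add, mapDomain_add, ha, hb]
    abel
  | single σ a =>
    rw [mapDomain_single, bd_single, bd_single, Fin.sum_univ_succ, C.f0, mapDomain_finsetSum,
      sub_eq_add_neg, ← Finset.sum_neg_distrib]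
    congr 1
    · simp
    · refine Finset.sum_congr rfl fun i _ => ?_
      rw [C.fs, mapDomain_smul, mapDomain_single, Fin.val_succ, pow_succ]
      simp

/-- The prism over the boundary. -/
noncomputable def pb : ∀ {k}, Simplex k E → (Fin (k + 1) → Γ) → (Simplex k E →₀ ℤ)
  | 0, _, _ => 0
  | k + 1, σ, t => ∑ i : Fin (k + 2), (-1 : ℤ) ^ (i : ℕ) • C.pr (face i σ) (t ∘ i.succAbove)

lemma pb_succ : ∀ {k} (σ : Simplex (k + 1) E) (t : Fin (k + 2) → Γ), C.pb σ t =
    C.pr (face 0 σ) (Fin.tail t) +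
      mapDomain (C.c (t 0)) (bd (single σ (1 : ℤ)) - single (face 0 σ) 1) +
      (C.pb (face 0 σ) (Fin.tail t)).mapDomain (C.c (t 0))
  | 0, σ, t => by
    simp [pb, pr, bd_single, Fin.sum_univ_succ, Fin.tail, ← single_neg]
  | k + 1, σ, t => by
    rw [pb, pb, bd_single, Fin.sum_univ_succ, Fin.sum_univ_succ (n := k + 2), add_assoc (C.pr _ _)]
    congr 1
    · simp only [Fin.val_zero, pow_zero, one_smul]
      rfl
    · simp only [Fin.val_zero, pow_zero, one_smul, add_sub_cancel_left]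
      rw [mapDomain_finsetSum, mapDomain_finsetSum, ← Finset.sum_add_distrib]
      refine Finset.sum_congr rfl fun i _ => ?_
      have e1 : (t ∘ i.succ.succAbove) 0 = t 0 := by simp
      have e2 : Fin.tail (t ∘ i.succ.succAbove) = Fin.tail t ∘ i.succAbove := by
        funext l
        simp [Fin.tail]
      rw [pr, e1, e2, face_face, mapDomain_smul, mapDomain_smul, mapDomain_single, Fin.val_succ,
        pow_succ, smul_sub]
      simp [sub_eq_add_neg]

lemma bd_pr : ∀ {k} (σ : Simplex k E) (t : Fin (k + 1) → Γ),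
    bd (C.pr σ t) = single σ 1 - single (C.str t) 1 - C.pb σ t
  | 0, σ, t => by
    rw [pr, bd_single, Fin.sum_univ_two, C.f0, C.f1]
    simp [pb, str, sub_eq_add_neg]
  | k + 1, σ, t => by
    rw [pr, bd_sub, ← mapDomain_single (f := C.c (t 0)), bd_cone, bd_cone, bd_pr, pb_succ, str]
    simp only [mapDomain_sub, mapDomain_single]
    abel

end Cn

end Pool.Agent.Lib.MP_0af324_gt
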