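import Pool.Agent.Lib.MP_0af324_gt.RDefs

namespace Pool.Agent.Lib.MP_0af324_gt

open scoped Classical
open Finset Equiv

variable {V : Type} [Fintype V]

/-- Functions on `k`-tuples of vertices. -/
abbrev Ch (V : Type) (k : ℕ) : Type := (Fin k → V) → ℤ

/-- The boundary. -/
noncomputable def dA {k : ℕ} : Ch V (k + 1) →+ Ch V k where
  toFun c := chainBd c
  map_zero' := by funext r; simp [chainBd]
  map_add' a b := by funext r; simp [chainBd, sum_add_distrib]

lemma dA_apply {k : ℕ} (c : Ch V (k + 1)) (r : Fin k → V) :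
    dA c r = ∑ v, c (Fin.cons v r) := rfl

/-- The vertex set of a tuple. -/
noncomputable def im {k : ℕ} (l : Fin k → V) : Finset V := univ.image l

omit [Fintype V] in
@[simp] lemma mem_im {k : ℕ} {l : Fin k → V} {x : V} : x ∈ im l ↔ ∃ i, l i = x := by simp [im]

omit [Fintype V] in
lemma coe_im {k : ℕ} (l : Fin k → V) : (im l : Set V) = Set.range l := by ext; simp

omit [Fintype V] in
lemma im_cons {k : ℕ} (x : V) (l : Fin k → V) : im (Fin.cons x l : Fin (k + 1) → V) =
    insert x (im l) := by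
  ext y
  simp [Fin.exists_fin_succ, eq_comm]

omit [Fintype V] in
lemma im_perm {k : ℕ} (l : Fin k → V) (π : Perm (Fin k)) : im (l ∘ π) = im l := by
  ext y
  simp only [mem_im, Function.comp]
  exact π.exists_congr_left.trans (by simp)

omit [Fintype V] in
lemma im_zero (l : Fin 0 → V) : im l = ∅ := by simp [im]

omit [Fintype V] in
lemma card_im_le {k : ℕ} (l : Fin k → V) : (im l).card ≤ k :=
  card_image_le.trans (by simp)

omit [Fintype V] in
lemma card_im {k : ℕ} {l : Fin k → V} (h : Function.Injective l) : (im l).card = k :=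
  (card_image_of_injective _ h).trans (by simp)

omit [Fintype V] in
lemma inj_of_card {k : ℕ} {l : Fin k → V} (h : (im l).card = k) : Function.Injective l := by
  have := card_image_iff.1 (h.trans (card_fin k).symm)
  simpa using this

omit [Fintype V] in
lemma exists_tuple {k : ℕ} {T : Finset V} (h : T.card = k) :
    ∃ l : Fin k → V, Function.Injective l ∧ im l = T := by
  refine ⟨fun i => (T.equivFinOfCardEq h).symm i, fun i j e => ?_, ?_⟩
  · exact (T.equivFinOfCardEq h).symm.injective (Subtype.ext e)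
  · ext x
    simp only [mem_im]
    exact ⟨fun ⟨i, hi⟩ => hi ▸ Subtype.prop _, fun hx => ⟨T.equivFinOfCardEq h ⟨x, hx⟩, by simp⟩⟩

omit [Fintype V] in
lemma exists_perm {k : ℕ} {l l' : Fin k → V} (h : Function.Injective l') (e : im l' = im l) :
    ∃ π : Perm (Fin k), l' = l ∘ π := by
  have : ∀ i, ∃ j, l j = l' i := fun i => mem_im.1 (e ▸ mem_im.2 ⟨i, rfl⟩)
  choose f hf using this
  have inj : Function.Injective f := fun i j e => h (by rw [← hf, ← hf, e])
  exact ⟨Equiv.ofBijective f inj.bijective_of_finite, funext fun i => (hf i).symm⟩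

/-- Alternating functions. -/
def IsAlt {k : ℕ} (c : Ch V k) : Prop :=
  ∀ (l : Fin k → V) (π : Perm (Fin k)), c (l ∘ π) = Perm.sign π * c l

omit [Fintype V] in
lemma IsAlt.swap {k : ℕ} {c : Ch V k} (h : IsAlt c) (l : Fin k → V) {i j : Fin k} (hij : i ≠ j) :
    c (l ∘ swap i j) = -c l := by
  rw [h, Perm.sign_swap hij]
  simp

omit [Fintype V] in
lemma IsAlt.inj {k : ℕ} {c : Ch V k} (h : IsAlt c) {l : Fin k → V} (hl : c l ≠ 0) :
    Function.Injective l := by
  intro i j e
  by_contra hij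
  have := h.swap l hij
  rw [show l ∘ Equiv.swap i j = l from funext fun x => apply_swap_eq_self e x] at this
  omega

omit [Fintype V] in
lemma IsAlt.ne_zero {k : ℕ} {c : Ch V k} (h : IsAlt c) {l l' : Fin k → V} (hl : c l ≠ 0)
    (h' : Function.Injective l') (e : im l' = im l) : c l' ≠ 0 := by
  obtain ⟨π, rfl⟩ := exists_perm h' e
  rw [h]
  exact mul_ne_zero (Units.ne_zero _) hl

/-- Alternating functions supported on a family of vertex sets. -/
def Cs (K : Finset V → Prop) (k : ℕ) : AddSubgroup (Ch V k) where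
  carrier := {c | IsAlt c ∧ ∀ l, c l ≠ 0 → K (im l)}
  zero_mem' := ⟨fun _ _ => by simp, fun _ h => absurd rfl h⟩
  add_mem' := by
    rintro a b ⟨ha, ha'⟩ ⟨hb, hb'⟩
    refine ⟨fun l π => by simp [ha l π, hb l π, mul_add], fun l h => ?_⟩
    by_cases h0 : a l = 0
    · exact hb' l (by simpa [h0] using h)
    · exact ha' l h0
  neg_mem' := by
    rintro a ⟨ha, ha'⟩
    exact ⟨fun l π => by simp [ha l π], fun l h => ha' l (by simpa using h)⟩

omit [Fintype V] in
lemma Cs.mono {K K' : Finset V → Prop} {k : ℕ} {c : Ch V k} (hc : c ∈ Cs K k)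
    (h : ∀ T, T.card = k → K T → K' T) : c ∈ Cs K' k :=
  ⟨hc.1, fun l hl => h _ (card_im (hc.1.inj hl)) (hc.2 l hl)⟩

omit [Fintype V] in
lemma Cs.eq_zero {K : Finset V → Prop} {k : ℕ} {c : Ch V k} (hc : c ∈ Cs K k)
    (h : ∀ T, T.card = k → ¬ K T) : c = 0 :=
  funext fun l => by_contra fun hl => h _ (card_im (hc.1.inj hl)) (hc.2 l hl)

omit [Fintype V] in
lemma Cs.inter {K K' : Finset V → Prop} {k : ℕ} {c : Ch V k} (hc : c ∈ Cs K k)
    (hc' : c ∈ Cs K' k) : c ∈ Cs (fun T => K T ∧ K' T) k :=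
  ⟨hc.1, fun l hl => ⟨hc.2 l hl, hc'.2 l hl⟩⟩

omit [Fintype V] in
lemma mem_Cs_zero {K : Finset V → Prop} (h : K ∅) (c : Ch V 0) : c ∈ Cs K 0 :=
  ⟨fun l π => by rw [Subsingleton.elim π 1]; simp, fun l _ => by rwa [im_zero]⟩

/-- The restriction of a chain to a family of vertex sets. -/
noncomputable def res (P : Finset V → Prop) {k : ℕ} : Ch V k →+ Ch V k where
  toFun c l := if P (im l) then c l else 0
  map_zero' := by funext l; simp
  map_add' a b := by
    funext l
    simp only [Pi.add_apply]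
    split_ifs <;> simp

omit [Fintype V] in
lemma res_apply (P : Finset V → Prop) {k : ℕ} (c : Ch V k) (l : Fin k → V) :
    res P c l = if P (im l) then c l else 0 := rfl

omit [Fintype V] in
lemma res_mem {K : Finset V → Prop} (P : Finset V → Prop) {k : ℕ} {c : Ch V k}
    (hc : c ∈ Cs K k) : res P c ∈ Cs (fun T => K T ∧ P T) k := by
  refine ⟨fun l π => ?_, fun l h => ?_⟩
  · rw [res_apply, res_apply, im_perm, hc.1]
    split_ifs <;> simp
  · rw [res_apply] at h
    obtain ⟨h1, h2⟩ := ite_ne_right_iff.1 h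
    exact ⟨hc.2 l h2, h1⟩

omit [Fintype V] in
lemma res_add_not (P : Finset V → Prop) {k : ℕ} (c : Ch V k) :
    res P c + res (fun T => ¬ P T) c = c := by
  funext l
  simp only [Pi.add_apply, res_apply]
  split_ifs <;> simp

/-- The extension of a permutation fixing `0`. -/
def pz {k : ℕ} (π : Perm (Fin k)) : Perm (Fin (k + 1)) := Perm.decomposeFin.symm (0, π)

lemma pz_zero {k : ℕ} (π : Perm (Fin k)) : pz π 0 = 0 := Perm.decomposeFin_symm_apply_zero _ _

lemma pz_succ {k : ℕ} (π : Perm (Fin k)) (i : Fin k) : pz π i.succ = (π i).succ := by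
  simp [pz, Perm.decomposeFin_symm_apply_succ]

lemma pz_sign {k : ℕ} (π : Perm (Fin k)) : Perm.sign (pz π) = Perm.sign π := by
  simp [pz, Perm.decomposeFin.symm_sign]

lemma exists_pz {k : ℕ} {ρ : Perm (Fin (k + 1))} (h : ρ 0 = 0) : ∃ π, ρ = pz π := by
  obtain ⟨⟨p, π⟩, rfl⟩ := Perm.decomposeFin.symm.surjective ρ
  rw [Perm.decomposeFin_symm_apply_zero] at h
  exact ⟨π, by rw [pz, h]⟩

omit [Fintype V] in
lemma cons_perm {k : ℕ} (x : V) (l : Fin k → V) (π : Perm (Fin k)) :
    (Fin.cons x (l ∘ π) : Fin (k + 1) → V) = Fin.cons x l ∘ pz π := by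
  funext i
  refine Fin.cases ?_ (fun j => ?_) i <;> simp [pz_zero, pz_succ]

/-- The link of a chain at a vertex. -/
def lk (a : V) {k : ℕ} : Ch V (k + 1) →+ Ch V k where
  toFun c r := c (Fin.cons a r)
  map_zero' := rfl
  map_add' _ _ := rfl

omit [Fintype V] in
lemma lk_apply (a : V) {k : ℕ} (c : Ch V (k + 1)) (r : Fin k → V) :
    lk a c r = c (Fin.cons a r) := rfl

omit [Fintype V] in
lemma lk_mem {K : Finset V → Prop} (a : V) {k : ℕ} {c : Ch V (k + 1)} (hc : c ∈ Cs K (k + 1)) :
    lk a c ∈ Cs (fun T => a ∉ T ∧ K (insert a T)) k := by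
  refine ⟨fun l π => ?_, fun l h => ⟨?_, ?_⟩⟩
  · rw [lk_apply, lk_apply, cons_perm, hc.1, pz_sign]
  · have := (Fin.cons_injective_iff.1 (hc.1.inj h)).1
    rwa [← coe_im, mem_coe] at this
  · exact im_cons a l ▸ hc.2 _ h

lemma dA_mem {K K' : Finset V → Prop} {k : ℕ} {c : Ch V (k + 1)} (hc : c ∈ Cs K (k + 1))
    (h : ∀ x T, x ∉ T → K (insert x T) → K' T) : dA c ∈ Cs K' k := by
  have : dA c = ∑ v, lk v c := by
    funext r
    rw [dA_apply, Finset.sum_apply]
    rfl
  rw [this]
  exact sum_mem fun v _ => Cs.mono (lk_mem v hc) fun T _ hT => h v T hT.1 hT.2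

omit [Fintype V] in
lemma cons_cons_swap {k : ℕ} (x y : V) (r : Fin k → V) :
    (Fin.cons x (Fin.cons y r) : Fin (k + 2) → V) =
      (Fin.cons y (Fin.cons x r) : Fin (k + 2) → V) ∘ swap 0 1 := by
  funext i
  refine Fin.cases (by simp) (fun j => Fin.cases (by simp) (fun m => ?_) j) i
  rw [Function.comp, swap_apply_of_ne_of_ne (Fin.succ_ne_zero _) (Fin.succ_succ_ne_one m)]
  simp

omit [Fintype V] in
lemma IsAlt.cons_cons {k : ℕ} {c : Ch V (k + 2)} (h : IsAlt c) (x y : V) (r : Fin k → V) :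
    c (Fin.cons x (Fin.cons y r)) = -c (Fin.cons y (Fin.cons x r)) := by
  rw [cons_cons_swap, h.swap _ Fin.zero_ne_one]

lemma dA_lk {k : ℕ} {c : Ch V (k + 2)} (h : IsAlt c) (a : V) : dA (lk a c) = -lk a (dA c) := by
  funext r
  simp only [dA_apply, lk_apply, Pi.neg_apply, ← sum_neg_distrib]
  exact sum_congr rfl fun v _ => h.cons_cons _ _ _

lemma dA_dA {k : ℕ} {c : Ch V (k + 2)} (h : IsAlt c) : dA (dA c) = 0 := by
  funext r
  have : dA (dA c) r = -dA (dA c) r := by
    simp only [dA_apply, ← sum_neg_distrib]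
    rw [sum_comm]
    exact sum_congr rfl fun v _ => sum_congr rfl fun w _ => h.cons_cons _ _ _
  simp only [Pi.zero_apply]
  omega

/-- The cone over a chain. -/
noncomputable def cone (a : V) {k : ℕ} : Ch V k →+ Ch V (k + 1) where
  toFun c l := ∑ i, if l i = a then Perm.sign (swap 0 i) * c (Fin.tail (l ∘ swap 0 i)) else 0
  map_zero' := by funext l; simp
  map_add' b c := by
    funext l
    simp only [Pi.add_apply, ← sum_add_distrib]
    refine sum_congr rfl fun i _ => ?_
    split_ifs <;> simp [mul_add]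

omit [Fintype V] in
lemma cone_apply (a : V) {k : ℕ} (c : Ch V k) (l : Fin (k + 1) → V) : cone a c l =
    ∑ i, if l i = a then Perm.sign (swap 0 i) * c (Fin.tail (l ∘ swap 0 i)) else 0 := rfl

omit [Fintype V] in
lemma cone_alt (a : V) {k : ℕ} {c : Ch V k} (h : IsAlt c) : IsAlt (cone a c) := by
  intro l ρ
  rw [cone_apply, cone_apply, mul_sum]
  refine Fintype.sum_equiv ρ _ _ fun i => ?_
  obtain ⟨π, hπ⟩ := exists_pz (ρ := swap 0 (ρ i) * ρ * swap 0 i) (by simp)
  have e : Fin.tail ((l ∘ ρ) ∘ swap 0 i) = Fin.tail (l ∘ swap 0 (ρ i)) ∘ π := by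
    funext j
    have := DFunLike.congr_fun hπ j.succ
    rw [pz_succ] at this
    simp only [Fin.tail, Function.comp, ← this, Perm.mul_apply, swap_apply_self]
  have s : Perm.sign π = Perm.sign (swap 0 (ρ i)) * Perm.sign ρ * Perm.sign (swap 0 i) := by
    rw [← pz_sign, ← hπ, map_mul, map_mul]
  simp only [Function.comp_apply]
  split_ifs
  · rw [e, h, s, ← mul_assoc, ← mul_assoc]
    congr 1
    rw [← Units.val_mul, ← Units.val_mul]
    congr 1
    rw [mul_comm, mul_assoc, Int.units_mul_self, mul_one, mul_comm]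
  · simp

omit [Fintype V] in
lemma cone_mem {K K' : Finset V → Prop} (a : V) {k : ℕ} {c : Ch V k} (hc : c ∈ Cs K k)
    (h : ∀ T, a ∉ T → K T → K' (insert a T)) : cone a c ∈ Cs K' (k + 1) := by
  refine ⟨cone_alt a hc.1, fun l hl => ?_⟩
  have inj := (cone_alt a hc.1).inj hl
  rw [cone_apply] at hl
  obtain ⟨i, -, hi⟩ := exists_ne_zero_of_sum_ne_zero hl
  obtain ⟨h1, h2⟩ := ite_ne_right_iff.1 hi
  have e : (Fin.cons a (Fin.tail (l ∘ swap 0 i)) : Fin (k + 1) → V) = l ∘ swap 0 i := by
    rw [← h1]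
    simpa using Fin.cons_self_tail (l ∘ swap 0 i)
  rw [← im_perm l (swap 0 i), ← e, im_cons]
  refine h _ ?_ (hc.2 _ (right_ne_zero_of_mul h2))
  have := (Fin.cons_injective_iff.1 (e ▸ inj.comp (swap 0 i).injective)).1
  rwa [← coe_im, mem_coe] at this

omit [Fintype V] in
lemma cone_cons (a : V) {k : ℕ} (c : Ch V k) (x : V) (r : Fin k → V) :
    cone a c (Fin.cons x r) = (if x = a then c r else 0) -
      ∑ j, if r j = a then c (Function.update r j x) else 0 := by
  rw [cone_apply, Fin.sum_univ_succ, sub_eq_add_neg, ← sum_neg_distrib]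
  congr 1
  · simp
  · refine sum_congr rfl fun j _ => ?_
    have : Fin.tail ((Fin.cons x r : Fin (k + 1) → V) ∘ swap 0 j.succ) =
        Function.update r j x := by
      funext m
      by_cases e : m = j
      · subst e
        simp [Fin.tail]
      · simp [Fin.tail, swap_apply_of_ne_of_ne (Fin.succ_ne_zero m)
          (fun h => e (Fin.succ_injective _ h)), e]
    rw [this, Perm.sign_swap (Fin.succ_ne_zero j).symm]
    simp only [Fin.cons_succ]
    split_ifs <;> simp

omit [Fintype V] in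
lemma cone_cons_self {a : V} {k : ℕ} (c : Ch V k) {r : Fin k → V} (h : a ∉ im r) :
    cone a c (Fin.cons a r) = c r := by
  rw [cone_cons, if_pos rfl, sum_eq_zero, sub_zero]
  exact fun j _ => if_neg fun e => h (mem_im.2 ⟨j, e⟩)

omit [Fintype V] in
lemma cone_of_not_mem {a : V} {k : ℕ} (c : Ch V k) {l : Fin (k + 1) → V} (h : a ∉ im l) :
    cone a c l = 0 :=
  (cone_apply a c l).trans (sum_eq_zero fun j _ => if_neg fun e => h (mem_im.2 ⟨j, e⟩))

lemma dA_cone_zero (a : V) (c : Ch V 0) : dA (cone a c) = c := by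
  funext r
  simp [dA_apply, cone_cons]

lemma dA_cone (a : V) {k : ℕ} {c : Ch V (k + 1)} (h : IsAlt c) :
    dA (cone a c) = c - cone a (dA c) := by
  funext r
  simp only [dA_apply, cone_cons, sum_sub_distrib, Pi.sub_apply, sum_ite_eq', mem_univ, if_true,
    cone_apply (c := dA c)]
  rw [sum_comm]
  congr 1
  refine sum_congr rfl fun j _ => ?_
  split_ifs
  · rw [mul_sum]
    refine sum_congr rfl fun v _ => ?_
    have : (Fin.cons v (Fin.tail (r ∘ swap 0 j)) : Fin (k + 1) → V) =
        Function.update r j v ∘ swap 0 j := by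
      funext m
      refine Fin.cases (by simp) (fun m => ?_) m
      have : swap 0 j m.succ ≠ j := fun e =>
        Fin.succ_ne_zero m ((swap 0 j).injective (e.trans (swap_apply_left _ _).symm))
      simp [Fin.tail, this]
    rw [this, h, ← mul_assoc, ← Units.val_mul, Int.units_mul_self]
    simp
  · simp

omit [Fintype V] in
/-- The part of a chain through `a` is the cone over the link. -/
lemma cone_lk (a : V) {k : ℕ} {c : Ch V (k + 1)} (h : IsAlt c) :
    cone a (lk a c) = res (a ∈ ·) c := by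
  funext l
  rw [res_apply]
  split_ifs with ha
  · obtain ⟨i, hi⟩ := mem_im.1 ha
    have e : ∀ j, l j = a → Perm.sign (swap 0 j) * lk a c (Fin.tail (l ∘ swap 0 j)) = c l := by
      intro j hj
      rw [lk_apply, show (Fin.cons a (Fin.tail (l ∘ swap 0 j)) : Fin (k + 1) → V) = l ∘ swap 0 j by
        rw [← hj]; simpa using Fin.cons_self_tail (l ∘ swap 0 j), h, ← mul_assoc, ← Units.val_mul,
        Int.units_mul_self]
      simp
    by_cases h0 : c l = 0
    · rw [h0, cone_apply]
      refine sum_eq_zero fun j _ => ?_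
      split_ifs with hj
      exacts [(e j hj).trans h0, rfl]
    · rw [cone_apply, sum_eq_single i, if_pos hi, e i hi]
      · exact fun j _ hj => if_neg fun e => hj (h.inj h0 (e.trans hi.symm))
      · simp
  · exact cone_of_not_mem _ ha

/-- Cycles of the augmented chain complex. -/
def Cyc : ∀ {k : ℕ}, Ch V k → Prop
  | 0, _ => True
  | _ + 1, c => dA c = 0

lemma dA_cone_cyc (a : V) : ∀ {k : ℕ} {c : Ch V k}, IsAlt c → Cyc c → dA (cone a c) = c
  | 0, c, _, _ => dA_cone_zero a c
  | _ + 1, c, h, hc => by rw [dA_cone a h, show dA c = 0 from hc]; simp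

lemma cyc_dA : ∀ {k : ℕ} {c : Ch V (k + 1)}, IsAlt c → Cyc (dA c)
  | 0, _, _ => trivial
  | _ + 1, _, h => dA_dA h

/-- Every cycle supported on `K` bounds a chain supported on `K'`. -/
def Fill (K K' : Finset V → Prop) (k : ℕ) : Prop :=
  ∀ c ∈ Cs K k, Cyc c → ∃ b ∈ Cs K' (k + 1), dA b = c

lemma fill_cone {K K' : Finset V → Prop} (a : V) (h : ∀ T, a ∉ T → K T → K' (insert a T))
    (k : ℕ) : Fill K K' k :=
  fun c hc h0 => ⟨cone a c, cone_mem a hc h, dA_cone_cyc a hc.1 h0⟩

/-- Removing a vertex. -/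
lemma fill_vertex {K K₀ K' L : Finset V → Prop} (a : V) {k : ℕ}
    (h1 : Fill (fun T => a ∉ T ∧ K (insert a T)) L k)
    (h2 : ∀ T, a ∉ T → L T → K' (insert a T)) (h3 : ∀ T, L T → K₀ T)
    (h4 : ∀ T, a ∉ T → K T → K₀ T) (h : Fill K₀ K' (k + 1)) :
    Fill K K' (k + 1) := by
  intro c hc h0
  obtain ⟨η, hη, e⟩ := h1 (lk a c) (lk_mem a hc) (by
    cases k with
    | zero => trivial
    | succ k => exact (dA_lk hc.1 a).trans (by rw [show dA c = 0 from h0]; simp))
  have e2 : c + dA (cone a η) = res (fun T => ¬ a ∈ T) c + η := by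
    rw [dA_cone a hη.1, e, cone_lk a hc.1]
    conv_lhs => enter [1]; rw [← res_add_not (a ∈ ·) c]
    abel
  obtain ⟨b, hb, e3⟩ := h (c + dA (cone a η)) (e2 ▸ add_mem
    (Cs.mono (res_mem _ hc) fun T _ hT => h4 T hT.2 hT.1) (Cs.mono hη fun T _ => h3 T))
    (by change dA _ = 0; rw [map_add, show dA c = 0 from h0, dA_dA (cone_alt a hη.1), add_zero])
  exact ⟨b - cone a η, sub_mem hb (cone_mem a hη h2), by rw [map_sub, e3]; abel⟩

/-- The image of a chain under a map of vertices. -/
noncomputable def pf (f : V → V) {k : ℕ} : Ch V k →+ Ch V k where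
  toFun c t := ∑ s : Fin k → V, if f ∘ s = t then c s else 0
  map_zero' := by funext t; simp
  map_add' a b := by
    funext t
    simp only [Pi.add_apply, ← sum_add_distrib]
    refine sum_congr rfl fun i _ => ?_
    split_ifs <;> simp

lemma pf_apply (f : V → V) {k : ℕ} (c : Ch V k) (t : Fin k → V) :
    pf f c t = ∑ s : Fin k → V, if f ∘ s = t then c s else 0 := rfl

lemma pf_mem {K K' : Finset V → Prop} (f : V → V) {k : ℕ} {c : Ch V k} (hc : c ∈ Cs K k)
    (h : ∀ T, K T → K' (T.image f)) : pf f c ∈ Cs K' k := by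
  refine ⟨fun t π => ?_, fun t ht => ?_⟩
  · rw [pf_apply, pf_apply, mul_sum, ← (Equiv.arrowCongr π.symm (Equiv.refl V)).sum_comp]
    refine sum_congr rfl fun s _ => ?_
    have e : (Equiv.arrowCongr π.symm (Equiv.refl V)) s = s ∘ π := rfl
    have : f ∘ s ∘ π = t ∘ π ↔ f ∘ s = t := π.surjective.right_cancellable (g₁ := f ∘ s)
    rw [e, hc.1]
    simp [this]
  · rw [pf_apply] at ht
    obtain ⟨s, -, hs⟩ := exists_ne_zero_of_sum_ne_zero ht
    obtain ⟨rfl, h2⟩ := ite_ne_right_iff.1 hs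
    have := h _ (hc.2 s h2)
    rwa [im, image_image] at this

lemma dA_pf (f : V → V) {k : ℕ} (c : Ch V (k + 1)) : dA (pf f c) = pf f (dA c) := by
  funext r
  simp only [dA_apply, pf_apply]
  rw [sum_comm, ← (Fin.consEquiv fun _ : Fin (k + 1) => V).sum_comp, Fintype.sum_prod_type,
    sum_comm]
  refine sum_congr rfl fun s _ => ?_
  have : ∀ u v, f ∘ (Fin.consEquiv fun _ : Fin (k + 1) => V) (u, s) = Fin.cons v r ↔
      f u = v ∧ f ∘ s = r := fun u v => by
    simp [funext_iff, Fin.forall_fin_succ, Fin.consEquiv]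
  simp only [this]
  split_ifs with h <;> simp [h, Fin.consEquiv]

lemma pf_eq_self (f : V → V) {k : ℕ} {c : Ch V k} (h : ∀ l, c l ≠ 0 → ∀ i, f (l i) = l i) :
    pf f c = c := by
  funext t
  rw [pf_apply, sum_eq_single t]
  · by_cases h0 : c t = 0
    · simp [h0]
    · exact if_pos (funext (h t h0))
  · intro s _ hs
    by_cases h0 : c s = 0
    · simp [h0]
    · exact if_neg fun e => hs ((funext (h s h0)).symm.trans e)
  · simp

end Pool.Agent.Lib.MP_0af324_gt
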