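import Pool.Agent.Lib.MP_0af324_gt.RCox

namespace Pool.Agent.Lib.MP_0af324_gt

open scoped Classical
open Finset Finsupp Pool.Agent.H10

variable {V : Type} [Fintype V] {G : SimpleGraph V} {W : Type}

@[simp] lemma dR_apply {Q : Type} {k : ℕ} (r : RC Q V (k + 1)) (v : Q) : dR r v = dA (r v) := rfl

lemma dR_single {Q : Type} {k : ℕ} (v : Q) (c : Ch V (k + 1)) :
    dR (single v c) = single v (dA c) := mapRange_single (hf := map_zero _)

lemma dR_mapDomain {Q Q' : Type} {k : ℕ} (f : Q → Q') (r : RC Q V (k + 1)) :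
    dR (r.mapDomain f) = (dR r).mapDomain f :=
  (mapDomain_mapRange f r dA (map_zero _) (map_add _)).symm

/-- The coefficient of a tuple. -/
noncomputable def co {Q : Type} {k : ℕ} (l : Fin k → V) : RC Q V k →+ (Q →₀ ℤ) :=
  mapRange.addMonoidHom (Pi.evalAddMonoidHom _ l)

omit [Fintype V] in
@[simp] lemma co_apply {Q : Type} {k : ℕ} (l : Fin k → V) (r : RC Q V k) (v : Q) :
    co l r v = r v l := rfl

omit [Fintype V] in
lemma co_mapDomain {Q Q' : Type} {k : ℕ} (l : Fin k → V) (f : Q → Q') (r : RC Q V k) :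
    co l (r.mapDomain f) = (co l r).mapDomain f :=
  (mapDomain_mapRange f r (Pi.evalAddMonoidHom (fun _ => ℤ) l) (map_zero _) (map_add _)).symm

/-- Subdivision, with the barycentres placed by `Φ`. -/
noncomputable def bet (Φ : W → Finset V → W) {k : ℕ} : RC W V k →+ OC W (k + 1) :=
  liftAddHom fun v => (om (Φ v)).comp Bf

/-- The outer faces of the subdivision. -/
noncomputable def out (Φ : W → Finset V → W) {k : ℕ} : RC W V k →+ OC W k :=
  liftAddHom fun v => (om (Φ v)).comp Of

lemma bet_single (Φ : W → Finset V → W) {k : ℕ} (v : W) (c : Ch V k) :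
    bet Φ (single v c) = ∑ l, single (Φ v ∘ fl l) (c l) := by
  simp [bet, Bf_apply]

lemma bet_eq (Φ : W → Finset V → W) {k : ℕ} (r : RC W V k) :
    bet Φ r = ∑ l, (co l r).mapDomain fun v => Φ v ∘ fl l := by
  induction r using Finsupp.induction_linear with
  | zero => simp
  | add a b ha hb => simp only [map_add, ha, hb, mapDomain_add, sum_add_distrib]
  | single v c => simp [bet_single, co]

lemma out_eq (Φ : W → Finset V → W) {k : ℕ} (r : RC W V k) :
    out Φ r = ∑ l, (co l r).mapDomain fun v => Φ v ∘ fl l ∘ Fin.castSucc := by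
  induction r using Finsupp.induction_linear with
  | zero => simp
  | add a b ha hb => simp only [map_add, ha, hb, mapDomain_add, sum_add_distrib]
  | single v c => simp [out, Of_apply, co]

lemma ob_bet (Φ : W → Finset V → W) {k : ℕ} {r : RC W V (k + 1)} (h : ∀ v, IsAlt (r v)) :
    ob (bet Φ r) = bet Φ (dR r) + (-1 : ℤ) ^ (k + 1) • out Φ r := by
  rw [← sum_single r, Finsupp.sum]
  simp only [map_sum, Finset.smul_sum, ← sum_add_distrib]
  refine sum_congr rfl fun v _ => ?_
  simp [bet, out, dR_single, ob_om, ob_Bf (h v)]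

lemma bet_congr {Φ Φ' : W → Finset V → W} {k : ℕ} {r : RC W V k}
    (hr : ∀ v, r v ∈ Cs (Cl univ G) k) 
    (h : ∀ v (T : Finset V), G.IsClique (T : Set V) → Φ v T = Φ' v T) :
    bet Φ r = bet Φ' r := by
  rw [bet_eq, bet_eq]
  refine sum_congr rfl fun l _ => mapDomain_congr fun v hv => funext fun i => h _ _ ?_
  exact ((hr v).2 l (mem_support_iff.1 hv)).2.subset (coe_subset.2 (fl_subset l i))

lemma mapDomain_neg' {S S' : Type} (f : S → S') (y : S →₀ ℤ) :
    mapDomain f (-y) = -mapDomain f y := map_neg (mapDomain.addMonoidHom f) y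

lemma eq_zero_of_eq_neg {S : Type} {y : S →₀ ℤ} (h : y = -y) : y = 0 := Finsupp.ext fun t => by
  have := DFunLike.congr_fun h t
  simp only [Finsupp.neg_apply] at this
  simp only [Finsupp.zero_apply]
  omega

variable [Group W] {cs : CoxeterSystem (racgMatrix G) W}

lemma co_anti {k : ℕ} {r : RC W V k} (hr : r ∈ CS cs k) (l : Fin k → V) (i : Fin k) :
    (co l r).mapDomain (· * cs.simple (l i)) = -co l r := by
  ext v
  conv_lhs => rw [← cs.simple_mul_simple_cancel_right (w := v) (l i)]
  rw [mapDomain_apply (mul_left_injective _)]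
  exact hr.2 v l i

lemma dR_mem {k : ℕ} {r : RC W V (k + 1)} (hr : r ∈ CS cs (k + 1)) : dR r ∈ CS cs k := by
  refine ⟨fun v => dA_mem (hr.1 v) fun x T _ h => ⟨subset_univ _, h.2.subset (by simp)⟩,
    fun v l i => ?_⟩
  simp only [dR_apply, dA_apply, ← sum_neg_distrib]
  exact sum_congr rfl fun x _ => hr.2 v (Fin.cons x l) i.succ

variable {Γ : Type} [Group Γ] (ι : Γ →* W)

variable (cs) in
/-- An equivariant choice of a vertex in every cube. -/
structure Base where
  b : W → Finset V → W
  eqv : ∀ g v T, b (ι g * v) T = ι g * b v T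
  inv : ∀ v (T : Finset V), G.IsClique (T : Set V) → ∀ s ∈ T, b (v * cs.simple s) T = b v T
  mem : ∀ v (T : Finset V), v⁻¹ * b v T ∈ par cs (T : Set V)

omit [Fintype V] in
lemma exists_base (hι : Function.Injective ι) (hΓ : ∀ g : Γ, g * g = 1 → g = 1) :
    Nonempty (Base cs ι) := by
  let S : Finset V → Setoid W := fun T => ⟨fun a b => ∃ g, ∃ p ∈ par cs (T : Set V), a = ι g * b * p,
    fun a => ⟨1, 1, one_mem _, by simp⟩,
    fun ⟨g, p, hp, e⟩ => ⟨g⁻¹, p⁻¹, inv_mem hp, by simp [e, mul_assoc]⟩,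
    fun ⟨g, p, hp, e⟩ ⟨g', p', hp', e'⟩ => ⟨g * g', p' * p, mul_mem hp' hp, by
      simp [e, e', mul_assoc]⟩⟩
  let ρ : Finset V → W → W := fun T a => (Quotient.mk (S T) a).out
  have : ∀ (T : Finset V) a, ∃ g, ∃ p ∈ par cs (T : Set V), a = ι g * ρ T a * p := fun T a =>
    (S T).symm (Quotient.mk_out (s := S T) a)
  choose γ p hp h using this
  have key : ∀ T : Finset V, G.IsClique (T : Set V) → ∀ a g, ∀ q ∈ par cs (T : Set V),
      ι (γ T (ι g * a * q)) * ρ T (ι g * a * q) = ι g * (ι (γ T a) * ρ T a) := by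
    intro T hT a g q hq
    have e : ρ T (ι g * a * q) = ρ T a := congrArg Quotient.out (Quotient.sound ⟨g, q, hq, rfl⟩)
    have h1 := h T (ι g * a * q)
    rw [e] at h1 ⊢
    have h2 : ι ((γ T (ι g * a * q))⁻¹ * (g * γ T a)) =
        ρ T a * (p T (ι g * a * q) * (p T a * q)⁻¹) * (ρ T a)⁻¹ := by
      rw [map_mul, map_inv, inv_mul_eq_iff_eq_mul, ← mul_assoc, ← mul_assoc, ← mul_assoc, ← h1]
      conv_rhs => enter [1, 1, 1, 2]; rw [h T a]
      simp [mul_assoc]
    have h3 := par_sq hT (mul_mem (hp T (ι g * a * q)) (inv_mem (mul_mem (hp T a) hq)))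
    have h4 := hΓ ((γ T (ι g * a * q))⁻¹ * (g * γ T a)) (hι (by
      rw [map_mul, h2, map_one, conj_mul, h3]
      simp))
    rw [inv_mul_eq_one.1 h4, map_mul, mul_assoc]
  refine ⟨⟨fun v T => if G.IsClique (T : Set V) then ι (γ T v) * ρ T v else v, fun g v T => ?_,
    fun v T hT s hs => ?_, fun v T => ?_⟩⟩
  · split_ifs with hT
    · simpa using key T hT v g 1 (one_mem _)
    · rfl
  · simpa [hT] using key T hT v 1 _ (simple_mem_par cs hs)
  · split_ifs with hT
    · have : v⁻¹ * (ι (γ T v) * ρ T v) = (p T v)⁻¹ := by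
        rw [inv_mul_eq_iff_eq_mul, eq_mul_inv_iff_mul_eq, ← h]
      exact this ▸ inv_mem (hp T v)
    · simp

variable {ι} (B : Base cs ι)

omit [Fintype V] in
lemma Base.empty (v : W) : B.b v ∅ = v := by
  have := B.mem v ∅
  rw [coe_empty, par, Set.image_empty, Subgroup.closure_empty, Subgroup.mem_bot] at this
  exact (inv_mul_eq_one.1 this).symm

lemma out_base {k : ℕ} {r : RC W V (k + 1)} (hr : r ∈ CS cs (k + 1)) : out B.b r = 0 := by
  rw [out_eq]
  refine sum_eq_zero fun l _ => eq_zero_of_eq_neg ?_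
  rw [← mapDomain_neg', ← co_anti hr l (Fin.last k), ← mapDomain_comp]
  refine mapDomain_congr fun v hv => funext fun i => (B.inv _ _ ?_ _ (last_mem_fl l i)).symm
  exact ((hr.1 v).2 l (mem_support_iff.1 hv)).2.subset (coe_subset.2 (fl_subset l _))

lemma ob_bet_base {k : ℕ} {r : RC W V (k + 1)} (hr : r ∈ CS cs (k + 1)) :
    ob (bet B.b r) = bet B.b (dR r) := by
  rw [ob_bet _ fun v => (hr.1 v).1, out_base B hr, smul_zero, add_zero]

lemma bet_eqv {Φ Φ' : W → Finset V → W} {w : W} (h : ∀ v T, Φ' (w * v) T = w * Φ v T) {k : ℕ}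
    (r : RC W V k) : bet Φ' (r.mapDomain (w * ·)) = om (w * ·) (bet Φ r) := by
  induction r using Finsupp.induction_linear with
  | zero => simp
  | add a b ha hb => simp only [map_add, ha, hb, mapDomain_add]
  | single v c =>
    simp only [mapDomain_single, bet_single, map_sum, om_single]
    exact sum_congr rfl fun l _ => congrArg (single · _) (funext fun i => h _ _)

variable (D : Dav cs)

/-- The map from the bar complex to itself through the Davis complex. -/
noncomputable def tht {k : ℕ} : OC W (k + 1) →+ OC W (k + 1) := (bet B.b).comp (lin D.g)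

lemma lin_g_mem {k : ℕ} (y : OC W (k + 1)) : lin D.g y ∈ CS cs k := lin_mem _ _ fun _ _ => D.mem _

lemma dR_lin_g {k : ℕ} (y : OC W (k + 2)) : dR (lin D.g y) = lin D.g (ob y) :=
  hom_ext1 (F := dR.comp (lin D.g)) (G := (lin D.g).comp ob) (fun t => by simp [D.bd]) y

lemma lin_g_om {k : ℕ} (w : W) (y : OC W (k + 1)) :
    lin D.g (om (w * ·) y) = (lin D.g y).mapDomain (w * ·) :=
  hom_ext1 (F := (lin D.g).comp (om (w * ·)))
    (G := (mapDomain.addMonoidHom (w * ·)).comp (lin D.g)) (fun t => by simp [D.eqv]) y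

lemma ob_tht {k : ℕ} (y : OC W (k + 2)) : ob (tht B D y) = tht B D (ob y) := by
  simp [tht, ob_bet_base B (lin_g_mem D y), dR_lin_g]

lemma tht_om {k : ℕ} (g : Γ) (y : OC W (k + 1)) :
    tht B D (om (ι g * ·) y) = om (ι g * ·) (tht B D y) := by
  simp [tht, lin_g_om, bet_eqv (B.eqv g)]

lemma tht_zero (y : OC W 1) : tht B D y = y := by
  refine hom_ext1 (G := AddMonoidHom.id _) (fun t => ?_) y
  simp only [tht, AddMonoidHom.comp_apply, lin_single, one_smul, D.base, bet_single,
    univ_unique, sum_singleton, AddMonoidHom.id_apply]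
  congr 1
  funext i
  simp [fl_zero, B.empty, Fin.fin_one_eq_zero i]

/-- The homotopy between the identity and `tht`. -/
noncomputable def hty : ∀ {k : ℕ}, (Fin (k + 1) → W) → OC W (k + 2)
  | 0, _ => 0
  | _ + 1, t => oc (t 0) (single t 1 - tht B D (single t 1) - lin hty (ob (single t 1)))

lemma hty_succ {k : ℕ} (t : Fin (k + 2) → W) : hty B D t =
    oc (t 0) (single t 1 - tht B D (single t 1) - lin (hty B D) (ob (single t 1))) := by rw [hty]

lemma ob_hty : ∀ {k : ℕ} (y : OC W (k + 2)),
    ob (lin (hty B D) y) = y - tht B D y - lin (hty B D) (ob y)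
  | 0, y => by
    refine hom_ext1 (F := ob.comp (lin (hty B D)))
      (G := AddMonoidHom.id _ - tht B D - (lin (hty B D)).comp ob) (fun t => ?_) y
    have : ∀ u : OC W 1, lin (hty B D) u = 0 := hom_ext1 (G := 0) fun t => by simp [hty]
    simp only [AddMonoidHom.comp_apply, lin_single, one_smul]
    rw [hty_succ, ob_oc]
    simp [ob_tht, tht_zero, this]
  | k + 1, y => by
    refine hom_ext1 (F := ob.comp (lin (hty B D)))
      (G := AddMonoidHom.id _ - tht B D - (lin (hty B D)).comp ob) (fun t => ?_) y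
    simp only [AddMonoidHom.comp_apply, lin_single, one_smul]
    rw [hty_succ, ob_oc]
    simp [ob_tht, ob_hty, ob_ob]

lemma hty_om (g : Γ) : ∀ {k : ℕ} (y : OC W (k + 1)),
    lin (hty B D) (om (ι g * ·) y) = om (ι g * ·) (lin (hty B D) y)
  | 0, y => hom_ext1 (F := (lin (hty B D)).comp (om (ι g * ·)))
      (G := (om (ι g * ·)).comp (lin (hty B D))) (fun t => by simp [hty]) y
  | k + 1, y => by
    refine hom_ext1 (F := (lin (hty B D)).comp (om (ι g * ·)))
      (G := (om (ι g * ·)).comp (lin (hty B D))) (fun t => ?_) y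
    simp only [AddMonoidHom.comp_apply, om_single, lin_single, one_smul, hty_succ, om_oc, map_sub,
      ← tht_om, ← hty_om g, ← ob_om, Function.comp_apply]

/-- The local degree map on the bar complex. -/
structure Loc (cs : CoxeterSystem (racgMatrix G) W) (P : Psi G) where
  f : ∀ {k : ℕ}, (Fin (k + 1) → W) → RC W V k
  apply : ∀ {k} (t : Fin (k + 1) → W) v, f t v = P.f fun i => ld cs (v⁻¹ * t i)
  card : ∀ k, ∃ C : ℕ, ∀ t : Fin (k + 1) → W, (f t).support.card ≤ C

lemma exists_loc (hC : St_CNT) (P : Psi G) : Nonempty (Loc cs P) := by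
  choose C S h1 h2 using hC V G W cs
  exact ⟨⟨fun t => onFinset (S _ t) (fun v => P.f fun i => ld cs (v⁻¹ * t i))
    fun v hv => by_contra fun e => hv (P.null _ (h2 _ t v e)), fun _ _ => rfl,
    fun k => ⟨C k, fun t => (card_le_card support_onFinset_subset).trans (h1 k t)⟩⟩⟩

variable {P : Psi G} (L : Loc cs P)

lemma dR_lin_f {k : ℕ} (y : OC W (k + 2)) : dR (lin L.f y) = lin L.f (ob y) := by
  refine hom_ext1 (F := dR.comp (lin L.f)) (G := (lin L.f).comp ob) (fun t => ?_) y
  ext1 v
  simp only [AddMonoidHom.comp_apply, lin_single, one_smul, dR_apply, L.apply, P.bd, lin_ob,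
    finsetSum_apply, Finsupp.smul_apply]
  rfl

lemma lin_f_om {k : ℕ} (w : W) (y : OC W (k + 1)) :
    lin L.f (om (w * ·) y) = (lin L.f y).mapDomain (w * ·) := by
  refine hom_ext1 (F := (lin L.f).comp (om (w * ·)))
    (G := (mapDomain.addMonoidHom (w * ·)).comp (lin L.f)) (fun t => ?_) y
  ext1 v
  obtain ⟨v, rfl⟩ := mul_left_surjective w v
  simp [L.apply, mapDomain_apply (mul_right_injective w), mul_assoc]

lemma lin_f_mem {k : ℕ} (y : OC W (k + 1)) (v : W) : lin L.f y v ∈ Cs (Hat univ G) k :=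
  lin_mem _ ((Cs (Hat univ G) k).comap (applyAddHom v)) fun t _ => by
    rw [AddSubgroup.mem_comap, applyAddHom_apply, L.apply]
    exact Cs.mono (P.mem _) fun T _ h => ⟨subset_univ _, h.2⟩

lemma top_zero {k : ℕ} {T : Finset V} (hT : T.card = k + 1) {c : Ch V (k + 1)}
    (hc : c ∈ Cs (· ⊆ T) (k + 1)) (h : dA c = 0) : c = 0 := by
  funext l
  by_contra hl
  have := congrFun h (Fin.tail l)
  rw [dA_apply, Finset.sum_eq_single (l 0), Fin.cons_self_tail] at this
  · exact hl this
  · intro v _ hv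
    by_contra e
    have e1 : im l = T := eq_of_subset_of_card_le (hc.2 l hl) (by rw [card_im (hc.1.inj hl), hT])
    have e2 := hc.2 _ e
    have e3 := (Fin.cons_injective_iff.1 (hc.1.inj e)).1
    rw [← e1, ← Fin.cons_self_tail l, im_cons, im_cons] at e2
    rcases mem_insert.1 (e2 (mem_insert_self _ _)) with h | h
    exacts [hv h, e3 (mem_im.1 h)]
  · simp

theorem lin_f_bet : ∀ {k : ℕ} {r : RC W V k}, r ∈ CS cs k → lin L.f (bet B.b r) = r
  | 0, r, _ => by
    induction r using Finsupp.induction_linear with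
    | zero => simp
    | add a b ha hb =>
      have m : ∀ a : RC W V 0, a ∈ CS cs 0 := fun a =>
        ⟨fun v => mem_Cs_zero ⟨empty_subset _, by simp⟩ _, fun _ _ i => i.elim0⟩
      rw [map_add, map_add, ha (m a), hb (m b)]
    | single v c =>
      ext u l
      simp only [bet_single, univ_unique, sum_singleton, lin_single, Finsupp.smul_apply, L.apply,
        Function.comp_apply, fl_zero, B.empty]
      by_cases e : v = u
      · have : ld cs 1 = ∅ := filter_false_of_mem fun a _ => cs.not_isLeftDescent_one a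
        simp [e, this, P.base, Subsingleton.elim l default]
      · obtain ⟨a, ha⟩ := cs.exists_leftDescent_of_ne_one (w := u⁻¹ * v) fun f =>
          e (inv_mul_eq_one.1 f).symm
        rw [P.null _ (null_of_common (fun _ => ld_clique cs _) fun _ => (mem_ld cs).2 ha)]
        simp [e]
  | k + 1, r, hr => by
    have e : r = ∑ T : Finset V, mapRange.addMonoidHom (res (· = T)) r := by
      ext v l
      simp only [finsetSum_apply, Finset.sum_apply]
      rw [Finset.sum_eq_single (im l) _ (by simp)]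
      · exact ((res_apply _ _ _).trans (if_pos rfl)).symm
      · exact fun T _ h => (res_apply (· = T) (r v) l).trans (if_neg h.symm)
    rw [e, map_sum, map_sum]
    refine sum_congr rfl fun T _ => ?_
    set r' : RC W V (k + 1) := mapRange.addMonoidHom (res (· = T)) r
    have m : ∀ v, r' v ∈ Cs (fun S => Cl univ G S ∧ S = T) (k + 1) := fun v => res_mem _ (hr.1 v)
    have hr' : r' ∈ CS cs (k + 1) := ⟨fun v => Cs.mono (m v) fun _ _ h => h.1, fun v l i => by
      change res (· = T) (r (v * cs.simple (l i))) l = -res (· = T) (r v) l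
      rw [res_apply, res_apply, hr.2]
      split_ifs <;> simp⟩
    by_cases hT : T.card = k + 1
    swap
    · rw [show r' = 0 from Finsupp.ext fun v => Cs.eq_zero (m v) fun S hS h => hT (h.2 ▸ hS)]
      simp
    ext1 u
    refine sub_eq_zero.1 (top_zero hT (sub_mem ?_ (Cs.mono (m u) fun S _ h => h.2.le)) ?_)
    · rw [bet_eq, map_sum, finsetSum_apply]
      refine sum_mem fun l _ => ?_
      refine lin_mem _ ((Cs (· ⊆ T) (k + 1)).comap (applyAddHom u)) fun t ht => ?_
      obtain ⟨v, hv, rfl⟩ := mem_image.1 (mapDomain_support ht)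
      have hl := ((m v).2 l (mem_support_iff.1 hv)).2
      have hp : ∀ i, v⁻¹ * B.b v (fl l i) ∈ par cs (T : Set V) := fun i =>
        par_mono cs (coe_subset.2 (hl ▸ fl_subset l i)) (B.mem _ _)
      rw [AddSubgroup.mem_comap, applyAddHom_apply, L.apply]
      by_cases f : u⁻¹ * v ∈ par cs (T : Set V)
      · refine Cs.mono (P.mem _) fun S _ h => h.1.trans fun a ha => ?_
        obtain ⟨i, -, hi⟩ := mem_biUnion.1 ha
        exact ldesc_mem_par cs (by simpa [mul_assoc] using mul_mem f (hp i)) ((mem_ld cs).1 hi)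
      · obtain ⟨a, ha⟩ := desc_coset f
        rw [P.null _ (null_of_common (fun _ => ld_clique cs _) fun i => (mem_ld cs).2
          (by simpa [mul_assoc] using ha _ (hp i)))]
        exact zero_mem _
    · rw [map_sub, ← dR_apply, ← dR_apply, dR_lin_f, ob_bet_base B hr', lin_f_bet (dR_mem hr'),
        sub_self]

end Pool.Agent.Lib.MP_0af324_gt
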