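import Pool.Agent.Lib.MP_0af324_gt.ROrd
import Pool.Agent.Lib.helper10.Cox3

namespace Pool.Agent.Lib.MP_0af324_gt

open scoped Classical Pointwise symmDiff
open Finset

variable {V : Type} [Fintype V]

/-- Cliques inside `A`. -/
def Cl (A : Finset V) (G : SimpleGraph V) (T : Finset V) : Prop := T ⊆ A ∧ G.IsClique (T : Set V)

/-- Subsets of `A` whose non-adjacent pairs form a matching. -/
def Hat (A : Finset V) (G : SimpleGraph V) (T : Finset V) : Prop :=
  T ⊆ A ∧ ∀ a ∈ T, ∀ b ∈ T, ∀ c ∈ T, a ≠ b → a ≠ c → ¬ G.Adj a b → ¬ G.Adj a c → b = c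

/-- The union of a tuple of vertex sets. -/
noncomputable def un {k : ℕ} (τ : Fin k → Finset V) : Finset V := univ.biUnion τ

/-- Tuples of cliques taking two nonempty values on a join factor of their union. -/
def Null (G : SimpleGraph V) {k : ℕ} (τ : Fin k → Finset V) : Prop :=
  (∀ i, G.IsClique (τ i : Set V)) ∧ ∃ Z α β : Finset V, α.Nonempty ∧ β.Nonempty ∧
    (∀ i, τ i ∩ Z = α ∨ τ i ∩ Z = β) ∧ ∀ u ∈ un τ, u ∉ Z → ∀ z ∈ un τ, z ∈ Z → G.Adj u z

/-- The local degree map on tuples of vertex sets. -/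
structure Psi (G : SimpleGraph V) where
  f : ∀ {k : ℕ}, (Fin (k + 1) → Finset V) → Ch V k
  mem : ∀ {k} (τ : Fin (k + 1) → Finset V), f τ ∈ Cs (Hat (un τ) G) k
  bd : ∀ {k} (τ : Fin (k + 2) → Finset V), dA (f τ) = lin f (ob (Finsupp.single τ 1))
  null : ∀ {k} (τ : Fin (k + 1) → Finset V), Null G τ → f τ = 0
  base : f (fun _ : Fin 1 => ∅) = fun _ => 1

/-- Block PSI. -/
def St_PSI : Prop := ∀ (V : Type) [Fintype V] (G : SimpleGraph V), Nonempty (Psi G)

variable {G : SimpleGraph V} {W : Type} [Group W] (cs : CoxeterSystem (racgMatrix G) W)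

/-- The left descent set. -/
noncomputable def ld (w : W) : Finset V := univ.filter (cs.IsLeftDescent w)

/-- Block CNT: all but boundedly many chambers see a tuple of points as a null tuple. -/
def St_CNT : Prop := ∀ (V : Type) [Fintype V] (G : SimpleGraph V) (W : Type) [Group W]
  (cs : CoxeterSystem (racgMatrix G) W) (k : ℕ), ∃ C : ℕ, ∀ x : Fin (k + 1) → W,
    ∃ B : Finset W, B.card ≤ C ∧ ∀ v ∉ B, Null G fun i => ld cs (v⁻¹ * x i)

/-- Block FOL: Følner sets for the virtually abelian special subgroups. -/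
def St_FOL : Prop := ∀ (V : Type) [Fintype V] (G : SimpleGraph V) (W : Type) [Group W]
  (cs : CoxeterSystem (racgMatrix G) W) (T : Finset V), Hat univ G T → ∀ η : ℝ, 0 < η →
    ∃ F : Finset W, F.Nonempty ∧
      ∀ a ∈ T, (((cs.simple a • (F : Set W)) ∆ (F : Set W)).ncard : ℝ) ≤ η * F.card

/-- Chains indexed by chambers. -/
abbrev RC (W V : Type) (k : ℕ) : Type := W →₀ Ch V k

/-- The boundary of chains indexed by chambers. -/
noncomputable def dR {Q : Type} {k : ℕ} : RC Q V (k + 1) →+ RC Q V k :=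
  Finsupp.mapRange.addMonoidHom dA

/-- The cellular chains of the Davis complex. -/
def CS (k : ℕ) : AddSubgroup (RC W V k) where
  carrier := {r | (∀ v, r v ∈ Cs (Cl univ G) k) ∧
    ∀ v (l : Fin k → V) i, r (v * cs.simple (l i)) l = -r v l}
  zero_mem' := ⟨fun _ => zero_mem _, fun _ _ _ => by simp⟩
  add_mem' := by
    rintro a b ⟨ha, ha'⟩ ⟨hb, hb'⟩
    exact ⟨fun v => add_mem (ha v) (hb v), fun v l i => by simp [ha', hb', add_comm]⟩
  neg_mem' := by
    rintro a ⟨ha, ha'⟩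
    exact ⟨fun v => neg_mem (ha v), fun v l i => by simp [ha']⟩

/-- An equivariant chain map from the bar complex to the Davis complex. -/
structure Dav where
  g : ∀ {k : ℕ}, (Fin (k + 1) → W) → RC W V k
  mem : ∀ {k} (t : Fin (k + 1) → W), g t ∈ CS cs k
  bd : ∀ {k} (t : Fin (k + 2) → W), dR (g t) = lin g (ob (Finsupp.single t 1))
  eqv : ∀ {k} (w : W) (t : Fin (k + 1) → W), g ((w * ·) ∘ t) = (g t).mapDomain (w * ·)
  base : ∀ t : Fin 1 → W, g t = Finsupp.single (t 0) fun _ => 1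

/-- Block DAV. -/
def St_DAV : Prop := ∀ (V : Type) [Fintype V] (G : SimpleGraph V) (W : Type) [Group W]
  (cs : CoxeterSystem (racgMatrix G) W), Nonempty (Dav cs)

/-- Block TOP: chains which are cycles near `σ` are multiples of the orientation near `σ`. -/
def St_TOP : Prop := ∀ (V : Type) [Fintype V] (n : ℕ) (K : Finset V → Prop) (o : Ch V (n + 1))
  (σ : Finset V), o ∈ Cs K (n + 1) → dA o = 0 →
  (∀ l, Function.Injective l → K (im l) → o l = 1 ∨ o l = -1) →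
  (∀ (κ : Finset V) (x y z : V), κ.card = n → x ∉ κ → y ∉ κ → z ∉ κ → K (insert x κ) →
    K (insert y κ) → K (insert z κ) → x = y ∨ y = z ∨ x = z) →
  (∀ F F' : Finset V, K F → K F' → F.card = n + 1 → F'.card = n + 1 → σ ⊆ F → σ ⊆ F' →
    Relation.ReflTransGen
      (fun a b => K b ∧ b.card = n + 1 ∧ σ ⊆ a ∩ b ∧ (a ∩ b).card = n) F F') →
  ∀ ζ ∈ Cs (fun T => K T ∧ σ ⊆ T) (n + 1), (∀ r, σ ⊆ im r → dA ζ r = 0) →
    ∃ m : ℤ, ∀ l, σ ⊆ im l → ζ l = m * o l

/-- Oriented normal three-dimensional flag pseudomanifolds without second homology. -/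
structure PM (A : Finset V) (G : SimpleGraph V) (o : Ch V 4) : Prop where
  mem : o ∈ Cs (Cl A G) 4
  unit : ∀ l, Function.Injective l → Cl A G (im l) → o l = 1 ∨ o l = -1
  cyc : dA o = 0
  pure : ∀ T, Cl A G T → ∃ F, Cl A G F ∧ F.card = 4 ∧ T ⊆ F
  thin : ∀ κ, Cl A G κ → κ.card = 3 → ∃ x x', x ≠ x' ∧
    ∀ y, (y ∉ κ ∧ Cl A G (insert y κ)) ↔ (y = x ∨ y = x')
  loc : ∀ σ, ∀ ζ ∈ Cs (fun T => Cl A G T ∧ σ ⊆ T) 4, (∀ r, σ ⊆ im r → dA ζ r = 0) →
    ∃ m : ℤ, ∀ l, σ ⊆ im l → ζ l = m * o l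
  h2 : Fill (Cl A G) (Cl A G) 3

/-- A full octahedron inside `A`. -/
structure Oct (A : Finset V) (G : SimpleGraph V) (p : Fin 3 × Bool → V) : Prop where
  mem : ∀ u, p u ∈ A
  inj : Function.Injective p
  adj : ∀ u w, G.Adj (p u) (p w) ↔ u.1 ≠ w.1

/-- The two sides of an octahedron. -/
structure Cut (A : Finset V) (G : SimpleGraph V) (o : Ch V 4) (O B B' : Finset V) : Prop where
  cover : ∀ x, x ∈ A ↔ x ∈ O ∨ x ∈ B ∨ x ∈ B'
  dis : ∀ x ∈ B, x ∉ O ∧ x ∉ B'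
  dis' : ∀ x ∈ B', x ∉ O
  sep : ∀ x ∈ B, ∀ y ∈ B', ¬ G.Adj x y
  apex : ∀ κ, Cl O G κ → κ.card = 3 →
    (∃ x ∈ B, Cl A G (insert x κ)) ∧ ∃ x ∈ B', Cl A G (insert x κ)
  mem : dA (res (· ⊆ O ∪ B) o) ∈ Cs (Cl O G) 3
  unit : ∀ l : Fin 3 → V, Function.Injective l → Cl O G (im l) →
    dA (res (· ⊆ O ∪ B) o) l = 1 ∨ dA (res (· ⊆ O ∪ B) o) l = -1

/-- Block CUT: an octahedron separates. -/
def St_CUT : Prop := ∀ (V : Type) [Fintype V] (A : Finset V) (G : SimpleGraph V) (o : Ch V 4)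
  (p : Fin 3 × Bool → V), PM A G o → Oct A G p → ∃ B B', Cut A G o (univ.image p) B B'

/-- The graph obtained by making `v` a cone point over `O`. -/
def capG (G : SimpleGraph V) (O : Finset V) (v : V) : SimpleGraph V where
  Adj x y := x ≠ y ∧ ((x ≠ v ∧ y ≠ v ∧ G.Adj x y) ∨ (x = v ∧ y ∈ O) ∨ (y = v ∧ x ∈ O))
  symm := ⟨fun x y h => ⟨h.1.symm, by
    rcases h.2 with h | h | h
    exacts [.inl ⟨h.2.1, h.1, h.2.2.symm⟩, .inr (.inr h), .inr (.inl h)]⟩⟩
  loopless := ⟨fun x h => h.1 rfl⟩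

/-- Block CAP: one side of an octahedron, capped off by a cone. -/
def St_CAP : Prop := ∀ (V : Type) [Fintype V] (A : Finset V) (G : SimpleGraph V) (o : Ch V 4)
  (p : Fin 3 × Bool → V) (B B' : Finset V) (v : V), PM A G o → Oct A G p →
  Cut A G o (univ.image p) B B' → v ∈ B' →
    PM (insert v (univ.image p ∪ B)) (capG G (univ.image p) v)
      (res (· ⊆ univ.image p ∪ B) o - cone v (dA (res (· ⊆ univ.image p ∪ B) o)))

/-- Block SUSP: the case in which every octahedron is the link of a vertex. -/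
def St_SUSP : Prop := ∀ (V : Type) [Fintype V] (A : Finset V) (G : SimpleGraph V) (o : Ch V 4),
  PM A G o → (∀ p, Oct A G p → ∃ u ∈ A, ∀ w, G.Adj u (p w)) →
  ∀ (m : ℤ) (D : Ch V 5), m ≠ 0 → D ∈ Cs (Hat A G) 5 → dA D = m • o →
    ∃ D' ∈ Cs (Hat A G) 5, dA D' = o

/-- Block FOUR (from CUT, CAP, SUSP): no torsion in dimension four. -/
def St_FOUR : Prop := ∀ (V : Type) [Fintype V] (A : Finset V) (G : SimpleGraph V) (o : Ch V 4),
  PM A G o → ∀ (m : ℤ) (D : Ch V 5), m ≠ 0 → D ∈ Cs (Hat A G) 5 → dA D = m • o →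
    ∃ D' ∈ Cs (Hat A G) 5, dA D' = o

end Pool.Agent.Lib.MP_0af324_gt
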