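import Pool.Agent.Lib.MP_0af324_gt.RBlue

namespace Pool.Agent.Lib.MP_0af324_gt

open Finset Equiv

namespace Cap

/-- Faces of the model octahedron. -/
def good (S : Finset (Fin 3 × Bool)) : Prop := ∀ u ∈ S, ∀ w ∈ S, u ≠ w → u.1 ≠ w.1

instance : DecidablePred good := fun S => by unfold good; infer_instance

lemma good_ext : ∀ S, good S → ∃ F, good F ∧ F.card = 3 ∧ S ⊆ F := by decide +kernel

lemma good_thin : ∀ S, good S → S.card = 2 → ∃ u u', u ≠ u' ∧
    ∀ w, (w ∉ S ∧ good (insert w S)) ↔ (w = u ∨ w = u') := by decide +kernel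

lemma good_step : ∀ F, good F → F.card = 3 → ∀ F', good F' → F'.card = 3 → F ≠ F' →
    ∃ F'', good F'' ∧ F''.card = 3 ∧ F ∩ F' ⊆ F ∩ F'' ∧ F ∩ F' ⊆ F'' ∧ (F ∩ F'').card = 2 ∧
      (F'' \ F').card < (F \ F').card := by decide +kernel

lemma good_a : ∀ S, (0, false) ∉ S → (good S ∧ (0, false) ∉ S ∧ (0, true) ∉ S) →
    good (insert (0, false) S) := by decide +kernel

lemma good_b : ∀ S, (0, true) ∉ S → (good S ∧ (0, false) ∉ S) →
    good (insert (0, true) S) := by decide +kernel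

lemma good_c : ∀ S, (0, false) ∉ S → good (insert (0, false) S) →
    good S ∧ (0, false) ∉ S ∧ (0, true) ∉ S := by decide +kernel

lemma good_d : ∀ S : Finset (Fin 3 × Bool), (1, false) ∉ S → S = {(2, true)} →
    good (insert (1, false) S) ∧ (0, false) ∉ insert ((1 : Fin 3), false) S ∧
      (0, true) ∉ insert ((1 : Fin 3), false) S := by decide +kernel

lemma good_e : ∀ S : Finset (Fin 3 × Bool), S = {(2, true)} →
    (good S ∧ (0, false) ∉ S ∧ (0, true) ∉ S) ∧ (1, false) ∉ S := by decide +kernel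

lemma good_f : ∀ S : Finset (Fin 3 × Bool), (1, true) ∉ S →
    ((good S ∧ (0, false) ∉ S ∧ (0, true) ∉ S) ∧ (1, false) ∉ S) →
    good (insert (1, true) S) ∧ (0, false) ∉ insert ((1 : Fin 3), true) S ∧
      (0, true) ∉ insert ((1 : Fin 3), true) S := by decide +kernel

open scoped Classical

variable {V : Type} [Fintype V] {A : Finset V} {G : SimpleGraph V} {p : Fin 3 × Bool → V}

/-- Images of model sets. -/
def Im (p : Fin 3 × Bool → V) (P : Finset (Fin 3 × Bool) → Prop) (T : Finset V) : Prop :=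
  ∃ S, P S ∧ T = S.image p

omit [Fintype V] in
lemma mem_img (hp : Oct A G p) {S : Finset (Fin 3 × Bool)} {u : Fin 3 × Bool} :
    p u ∈ S.image p ↔ u ∈ S := hp.inj.mem_finset_image

omit [Fintype V] in
lemma cl_img (hp : Oct A G p) (S : Finset (Fin 3 × Bool)) :
    Cl (univ.image p) G (S.image p) ↔ good S := by
  constructor
  · intro h u hu w hw huw
    exact (hp.adj u w).1 (h.2 (mem_coe.2 (mem_image_of_mem _ hu))
      (mem_coe.2 (mem_image_of_mem _ hw)) (hp.inj.ne huw))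
  · intro h
    refine ⟨image_subset_image (subset_univ _), fun x hx y hy hxy => ?_⟩
    obtain ⟨u, hu, rfl⟩ := mem_image.1 (mem_coe.1 hx)
    obtain ⟨w, hw, rfl⟩ := mem_image.1 (mem_coe.1 hy)
    exact (hp.adj u w).2 (h u hu w hw fun e => hxy (e ▸ rfl))

omit [Fintype V] in
lemma cl_iff (hp : Oct A G p) (T : Finset V) : Cl (univ.image p) G T ↔ Im p good T := by
  constructor
  · intro h
    obtain ⟨S, -, rfl⟩ := subset_image_iff.1 h.1
    exact ⟨S, (cl_img hp S).1 h, rfl⟩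
  · rintro ⟨S, hS, rfl⟩
    exact (cl_img hp S).2 hS

omit [Fintype V] in
lemma im_ins (hp : Oct A G p) {P Q : Finset (Fin 3 × Bool) → Prop} {u : Fin 3 × Bool}
    (h : ∀ S, u ∉ S → P S → Q (insert u S)) (T : Finset V) (hT : p u ∉ T) (h' : Im p P T) :
    Im p Q (insert (p u) T) := by
  obtain ⟨S, hS, rfl⟩ := h'
  exact ⟨insert u S, h S (fun e => hT ((mem_img hp).2 e)) hS, by rw [image_insert]⟩

omit [Fintype V] in
lemma im_link (hp : Oct A G p) {P Q : Finset (Fin 3 × Bool) → Prop} {u : Fin 3 × Bool}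
    (h : ∀ S, u ∉ S → P (insert u S) → Q S) (T : Finset V) (hT : p u ∉ T)
    (h' : Im p P (insert (p u) T)) : Im p Q T := by
  obtain ⟨S, hS, e⟩ := h'
  have hu : u ∈ S := (mem_img hp).1 (e ▸ mem_insert_self _ _)
  refine ⟨S.erase u, h _ (notMem_erase _ _) (by rwa [insert_erase hu]), ?_⟩
  rw [image_erase hp.inj, ← e, erase_insert hT]

omit [Fintype V] in
lemma im_not (hp : Oct A G p) {P : Finset (Fin 3 × Bool) → Prop} {u : Fin 3 × Bool}
    (T : Finset V) (hT : p u ∉ T) (h' : Im p P T) : Im p (fun S => P S ∧ u ∉ S) T := by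
  obtain ⟨S, hS, rfl⟩ := h'
  exact ⟨S, ⟨hS, fun e => hT ((mem_img hp).2 e)⟩, rfl⟩

omit [Fintype V] in
lemma im_mono {P Q : Finset (Fin 3 × Bool) → Prop} (h : ∀ S, P S → Q S) (T : Finset V)
    (h' : Im p P T) : Im p Q T := by
  obtain ⟨S, hS, rfl⟩ := h'
  exact ⟨S, h S hS, rfl⟩

lemma fill_mono {K K₁ K' : Finset V → Prop} {k : ℕ} (h : ∀ T, T.card = k → K T → K₁ T)
    (h' : Fill K₁ K' k) : Fill K K' k := fun c hc h0 => h' c (Cs.mono hc h) h0

lemma fill_oct (hp : Oct A G p) : Fill (Cl (univ.image p) G) (Cl (univ.image p) G) 2 := by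
  rw [show Cl (univ.image p) G = Im p good from funext fun T => propext (cl_iff hp T)]
  have sq : Fill (Im p fun S => good S ∧ (0, false) ∉ S ∧ (0, true) ∉ S)
      (Im p fun S => good S ∧ (0, false) ∉ S ∧ (0, true) ∉ S) 1 := by
    refine fill_vertex (p (1, false)) (L := Im p fun S => S = {(2, true)})
      (K₀ := Im p fun S => (good S ∧ (0, false) ∉ S ∧ (0, true) ∉ S) ∧ (1, false) ∉ S)
      ?_ (im_ins hp good_d) (im_mono good_e) (fun T hT h => im_not hp T hT h)
      (fill_cone (p (1, true)) (im_ins hp good_f) 1)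
    refine fill_mono (K₁ := fun T => T = ∅) (fun T hT _ => card_eq_zero.1 hT)
      (fill_cone (p (2, true)) ?_ 0)
    rintro T - rfl
    exact ⟨_, rfl, by simp⟩
  exact fill_vertex (p (0, false)) (L := Im p fun S => good S ∧ (0, false) ∉ S ∧ (0, true) ∉ S)
    (K₀ := Im p fun S => good S ∧ (0, false) ∉ S)
    (fill_mono (fun T _ h => im_link hp good_c T h.1 h.2) sq) (im_ins hp good_a)
    (im_mono fun S h => ⟨h.1, h.2.1⟩) (fun T hT h => im_not hp T hT h)
    (fill_cone (p (0, true)) (im_ins hp good_b) 2)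

omit [Fintype V] in
lemma oct_ext (hp : Oct A G p) {T : Finset V} (h : Cl (univ.image p) G T) :
    ∃ F, Cl (univ.image p) G F ∧ F.card = 3 ∧ T ⊆ F := by
  obtain ⟨S, hS, rfl⟩ := (cl_iff hp T).1 h
  obtain ⟨F, h1, h2, h3⟩ := good_ext S hS
  exact ⟨F.image p, (cl_img hp F).2 h1, by rw [card_image_of_injective _ hp.inj, h2],
    image_subset_image h3⟩

omit [Fintype V] in
lemma oct_thin (hp : Oct A G p) {T : Finset V} (h : Cl (univ.image p) G T) (hc : T.card = 2) :
    ∃ x x', x ≠ x' ∧ ∀ y, (y ∉ T ∧ Cl (univ.image p) G (insert y T)) ↔ (y = x ∨ y = x') := by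
  obtain ⟨S, hS, rfl⟩ := (cl_iff hp T).1 h
  rw [card_image_of_injective _ hp.inj] at hc
  obtain ⟨u, u', h1, h2⟩ := good_thin S hS hc
  have key : ∀ w, (p w ∉ S.image p ∧ Cl (univ.image p) G (insert (p w) (S.image p))) ↔
      (p w = p u ∨ p w = p u') := fun w => by
    rw [← image_insert, cl_img hp, mem_img hp, h2, hp.inj.eq_iff, hp.inj.eq_iff]
  refine ⟨p u, p u', hp.inj.ne h1, fun y => ⟨fun hy => ?_, fun hy => ?_⟩⟩
  · obtain ⟨w, -, rfl⟩ := mem_image.1 (hy.2.1 (mem_insert_self _ _))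
    exact (key w).1 hy
  · rcases hy with rfl | rfl
    exacts [(key u).2 (.inl rfl), (key u').2 (.inr rfl)]

omit [Fintype V] in
lemma cl_sub {A : Finset V} {T T' : Finset V} (h : Cl A G T) (h' : T' ⊆ T) : Cl A G T' :=
  ⟨h'.trans h.1, h.2.subset (coe_subset.2 h')⟩

omit [Fintype V] in
lemma oct_conn (hp : Oct A G p) (σ : Finset V) (F F' : Finset V) (h1 : Cl (univ.image p) G F)
    (h2 : Cl (univ.image p) G F') (c1 : F.card = 2 + 1) (c2 : F'.card = 2 + 1) (s1 : σ ⊆ F)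
    (s2 : σ ⊆ F') : Relation.ReflTransGen (fun a b => Cl (univ.image p) G b ∧ b.card = 2 + 1 ∧
      σ ⊆ a ∩ b ∧ (a ∩ b).card = 2) F F' := by
  obtain ⟨S, hS, rfl⟩ := (cl_iff hp F).1 h1
  obtain ⟨S', hS', rfl⟩ := (cl_iff hp F').1 h2
  rw [card_image_of_injective _ hp.inj] at c1 c2
  clear h1 h2
  induction hn : (S \ S').card using Nat.strong_induction_on generalizing S with
  | _ n ih =>
    by_cases e : S = S'
    · rw [e]
    obtain ⟨S'', a1, a2, a3, a4, a5, a6⟩ := good_step S hS c1 S' hS' c2 e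
    have hσ : σ ⊆ (S ∩ S').image p := by
      rw [image_inter _ _ hp.inj]; exact subset_inter s1 s2
    refine Relation.ReflTransGen.head ⟨(cl_img hp S'').2 a1,
      by rw [card_image_of_injective _ hp.inj, a2], ?_, ?_⟩
      (ih _ (hn ▸ a6) S'' a1 a2 (hσ.trans (image_subset_image a4)) rfl)
    · rw [← image_inter _ _ hp.inj]; exact hσ.trans (image_subset_image a3)
    · rw [← image_inter _ _ hp.inj, card_image_of_injective _ hp.inj, a5]

omit [Fintype V] in
lemma via {k : ℕ} {l : Fin (k + 1) → V} (hl : Function.Injective l) {v : V} (hv : v ∈ im l) :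
    ∃ (r : Fin k → V) (π : Perm (Fin (k + 1))), v ∉ im r ∧ Function.Injective r ∧
      im l = insert v (im r) ∧ l = Fin.cons v r ∘ π := by
  obtain ⟨r, h1, h2⟩ := exists_tuple (T := (im l).erase v) (k := k)
    (by rw [card_erase_of_mem hv, card_im hl]; rfl)
  have h3 : im l = insert v (im r) := by rw [h2, insert_erase hv]
  obtain ⟨π, hπ⟩ := exists_perm (l := Fin.cons v r) hl (by rw [im_cons, h3])
  exact ⟨r, π, h2 ▸ notMem_erase _ _, h1, h3, hπ⟩

variable {o : Ch V 4} {O B B' : Finset V} {v : V}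

omit [Fintype V] in
lemma k1 {T : Finset V} (hT : v ∉ T) :
    Cl (insert v (O ∪ B)) (capG G O v) T ↔ Cl (O ∪ B) G T := by
  constructor
  · intro h
    refine ⟨(subset_insert_iff_of_notMem hT).1 h.1, fun x hx y hy hxy => ?_⟩
    rcases (h.2 hx hy hxy).2 with h' | h' | h'
    · exact h'.2.2
    · exact absurd (h'.1 ▸ mem_coe.1 hx) hT
    · exact absurd (h'.1 ▸ mem_coe.1 hy) hT
  · intro h
    exact ⟨h.1.trans (subset_insert _ _), fun x hx y hy hxy => ⟨hxy, .inl
      ⟨fun e => hT (e ▸ mem_coe.1 hx), fun e => hT (e ▸ mem_coe.1 hy), h.2 hx hy hxy⟩⟩⟩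

omit [Fintype V] in
lemma k2 {T : Finset V} (hT : v ∉ T) :
    Cl (insert v (O ∪ B)) (capG G O v) (insert v T) ↔ Cl O G T := by
  constructor
  · intro h
    refine ⟨fun x hx => ?_, ((k1 hT).1 (cl_sub h (subset_insert _ _))).2⟩
    have hx' : v ≠ x := fun e => hT (e ▸ hx)
    rcases (h.2 (mem_coe.2 (mem_insert_self _ _)) (mem_coe.2 (mem_insert_of_mem hx)) hx').2
      with h' | h' | h'
    · exact absurd rfl h'.1
    · exact h'.2
    · exact absurd h'.1.symm hx'
  · intro h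
    have h0 : Cl (insert v (O ∪ B)) (capG G O v) T :=
      (k1 hT).2 ⟨h.1.trans subset_union_left, h.2⟩
    refine ⟨insert_subset (mem_insert_self _ _) h0.1, ?_⟩
    rw [coe_insert]
    refine h0.2.insert fun y hy hvy => ⟨hvy, .inr (.inl ⟨rfl, h.1 hy⟩)⟩

lemma sub_A (hc : Cut A G o O B B') : O ∪ B ⊆ A := fun x hx => (hc.cover x).2 (by
  rcases mem_union.1 hx with h | h
  exacts [.inl h, .inr (.inl h)])

lemma not_mem (hc : Cut A G o O B B') {x : V} (hx : x ∈ B') : x ∉ O ∪ B := fun h => by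
  rcases mem_union.1 h with h | h
  exacts [hc.dis' x hx h, (hc.dis x h).2 hx]

lemma cl_up (hc : Cut A G o O B B') {T : Finset V} (h : Cl (O ∪ B) G T) : Cl A G T :=
  ⟨h.1.trans (sub_A hc), h.2⟩

lemma cl_down (hc : Cut A G o O B B') {T : Finset V} (h : Cl A G T) {u : V} (hu : u ∈ T)
    (hB : u ∈ B) : Cl (O ∪ B) G T := by
  refine ⟨fun x hx => ?_, h.2⟩
  rcases (hc.cover x).1 (h.1 hx) with h' | h' | h'
  · exact mem_union_left _ h'
  · exact mem_union_right _ h'
  · exact absurd (h.2 (mem_coe.2 hu) (mem_coe.2 hx) fun e => (hc.dis u hB).2 (e ▸ h'))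
      (hc.sep u hB x h')

omit [Fintype V] in
lemma split {T : Finset V} (h : Cl (O ∪ B) G T) : Cl O G T ∨ ∃ u ∈ T, u ∈ B := by
  by_cases h' : ∃ u ∈ T, u ∈ B
  · exact .inr h'
  · exact .inl ⟨fun x hx => (mem_union.1 (h.1 hx)).resolve_right fun e => h' ⟨x, hx, e⟩, h.2⟩

lemma val_out (l : Fin 4 → V) (hl : v ∉ im l) :
    (res (· ⊆ O ∪ B) o - cone v (dA (res (· ⊆ O ∪ B) o))) l = res (· ⊆ O ∪ B) o l := by
  rw [Pi.sub_apply, cone_of_not_mem _ hl, sub_zero]

lemma val_in (hc : Cut A G o O B B') (hv : v ∈ B') (r : Fin 3 → V) (hr : v ∉ im r) :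
    (res (· ⊆ O ∪ B) o - cone v (dA (res (· ⊆ O ∪ B) o))) (Fin.cons v r)
      = -dA (res (· ⊆ O ∪ B) o) r := by
  rw [Pi.sub_apply, cone_cons_self _ hr, res_apply, if_neg, zero_sub]
  rw [im_cons]
  exact fun h => not_mem hc hv (h (mem_insert_self _ _))

lemma dA_res {k : ℕ} (σ : Finset V) (c : Ch V (k + 1)) {r : Fin k → V} (h : σ ⊆ im r) :
    dA (res (σ ⊆ ·) c) r = dA c r := by
  rw [dA_apply, dA_apply]
  refine sum_congr rfl fun x _ => ?_
  rw [res_apply, if_pos]
  rw [im_cons]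
  exact h.trans (subset_insert _ _)

end Cap

open scoped Classical
open Cap

theorem cap_blk (hT : St_TOP) : St_CAP := by
  intro V _ A G o p B B' v hP hp hc hv
  set O := univ.image p with hO
  have hvn := not_mem hc hv
  have hnot : ∀ {T : Finset V}, T ⊆ O ∪ B → v ∉ T := fun h e => hvn (h e)
  have hnotO : ∀ {T : Finset V}, Cl O G T → v ∉ T := fun h => hnot (h.1.trans subset_union_left)
  have mB : res (· ⊆ O ∪ B) o ∈ Cs (Cl (O ∪ B) G) 4 :=
    Cs.mono (res_mem _ hP.mem) fun T _ h => ⟨h.2, h.1.2⟩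
  have hmem : res (· ⊆ O ∪ B) o - cone v (dA (res (· ⊆ O ∪ B) o))
      ∈ Cs (Cl (insert v (O ∪ B)) (capG G O v)) 4 :=
    sub_mem (Cs.mono mB fun T _ h => (k1 (hnot h.1)).2 h)
      (cone_mem v hc.mem fun T h h' => (k2 h).2 h')
  refine ⟨hmem, ?_, ?_, ?_, ?_, ?_, ?_⟩
  · intro l hl h
    by_cases hvl : v ∈ im l
    · obtain ⟨r, π, a1, a2, a3, rfl⟩ := via hl hvl
      rw [hmem.1, val_in hc hv r a1]
      rw [a3] at h
      rcases hc.unit r a2 ((k2 a1).1 h) with e | e <;> rw [e] <;>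
        rcases Int.units_eq_one_or (Perm.sign π) with s | s <;> simp [s]
    · have h' := (k1 hvl).1 h
      rw [val_out l hvl, res_apply, if_pos h'.1]
      exact hP.unit l hl (cl_up hc h')
  · rw [map_sub, dA_cone_cyc v hc.mem.1 (cyc_dA mB.1), sub_self]
  · have key : ∀ T, Cl O G T → ∃ F, Cl (insert v (O ∪ B)) (capG G O v) F ∧ F.card = 4 ∧
        insert v T ⊆ F := fun T h => by
      obtain ⟨F, a1, a2, a3⟩ := oct_ext hp h
      exact ⟨insert v F, (k2 (hnotO a1)).2 a1, by rw [card_insert_of_notMem (hnotO a1), a2],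
        insert_subset_insert _ a3⟩
    intro T h
    by_cases hvT : v ∈ T
    · rw [← insert_erase hvT] at h ⊢
      exact key _ ((k2 (notMem_erase _ _)).1 h)
    · have h' := (k1 hvT).1 h
      rcases split h' with h'' | ⟨u, hu, hB⟩
      · obtain ⟨F, a1, a2, a3⟩ := key T h''
        exact ⟨F, a1, a2, (subset_insert _ _).trans a3⟩
      · obtain ⟨F, a1, a2, a3⟩ := hP.pure T (cl_up hc h')
        have a4 := cl_down hc a1 (a3 hu) hB
        exact ⟨F, (k1 (hnot a4.1)).2 a4, a2, a3⟩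
  · intro κ h hκ
    by_cases hvκ : v ∈ κ
    · obtain ⟨T, hvT, rfl⟩ : ∃ T, v ∉ T ∧ κ = insert v T :=
        ⟨κ.erase v, notMem_erase _ _, (insert_erase hvκ).symm⟩
      rw [card_insert_of_notMem hvT] at hκ
      obtain ⟨x, x', a1, a2⟩ := oct_thin hp ((k2 hvT).1 h) (by omega)
      refine ⟨x, x', a1, fun y => ?_⟩
      rw [← a2, mem_insert, not_or, Finset.insert_comm]
      constructor
      · rintro ⟨⟨b1, b2⟩, b3⟩
        exact ⟨b2, (k2 (by simp [hvT, Ne.symm b1])).1 b3⟩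
      · rintro ⟨b1, b2⟩
        exact ⟨⟨fun e => hnotO b2 (e ▸ mem_insert_self _ _), b1⟩, (k2 (hnotO b2)).2 b2⟩
    · have h' := (k1 hvκ).1 h
      obtain ⟨x, x', a1, a2⟩ := hP.thin κ (cl_up hc h') hκ
      rcases split h' with h'' | ⟨u, hu, hB⟩
      · obtain ⟨⟨b, hb, hb1⟩, b', hb', hb2⟩ := hc.apex κ h'' hκ
        have c1 := (a2 b).1 ⟨fun e => (hc.dis b hb).1 (h''.1 e), hb1⟩
        have c2 := (a2 b').1 ⟨fun e => hc.dis' b' hb' (h''.1 e), hb2⟩
        have c3 : b ≠ b' := fun e => (hc.dis b hb).2 (e ▸ hb')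
        have c4 := cl_down hc hb1 (mem_insert_self _ _) hb
        refine ⟨v, b, fun e => (hc.dis b hb).2 (e ▸ hv), fun y => ⟨fun hy => ?_, ?_⟩⟩
        · by_cases e : y = v
          · exact .inl e
          · have d1 := (k1 (by simp [hvκ, Ne.symm e])).1 hy.2
            have d2 := (a2 y).1 ⟨hy.1, cl_up hc d1⟩
            have d3 : y ≠ b' := fun e => not_mem hc hb' (d1.1 (e ▸ mem_insert_self _ _))
            right
            rcases c1 with rfl | rfl <;> rcases c2 with rfl | rfl <;> tauto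
        · rintro (rfl | rfl)
          · exact ⟨hvκ, (k2 hvκ).2 h''⟩
          · exact ⟨fun e => (hc.dis y hb).1 (h''.1 e), (k1 (hnot c4.1)).2 c4⟩
      · refine ⟨x, x', a1, fun y => ?_⟩
        rw [← a2]
        refine and_congr_right fun _ => ⟨fun hy => ?_, fun hy => ?_⟩
        · by_cases e : y = v
          · subst e
            exact absurd (((k2 hvκ).1 hy).1 hu) (hc.dis u hB).1
          · exact cl_up hc ((k1 (by simp [hvκ, Ne.symm e])).1 hy)
        · have := cl_down hc hy (mem_insert_of_mem hu) hB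
          exact (k1 (hnot this.1)).2 this
  · intro σ ζ hζ h0
    obtain ⟨μ, hμ⟩ := hT V 2 (Cl O G) (dA (res (· ⊆ O ∪ B) o)) (σ.erase v) hc.mem (dA_dA mB.1)
      hc.unit (fun κ x y z a1 a2 a3 a4 a5 a6 a7 => by
        obtain ⟨w, w', -, b⟩ := oct_thin hp (cl_sub a5 (subset_insert _ _)) a1
        rcases (b x).1 ⟨a2, a5⟩ with rfl | rfl <;> rcases (b y).1 ⟨a3, a6⟩ with rfl | rfl <;>
          rcases (b z).1 ⟨a4, a7⟩ with rfl | rfl <;> simp)
      (oct_conn hp _) (lk v ζ)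
      (Cs.mono (lk_mem v hζ) fun T _ h => ⟨(k2 h.1).1 h.2.1, subset_insert_iff.1 h.2.2⟩)
      (fun r hr => by
        rw [dA_lk hζ.1, Pi.neg_apply, lk_apply, h0 _ (by
          rw [im_cons]; exact subset_insert_iff.2 hr), neg_zero])
    set o' := res (· ⊆ O ∪ B) o - cone v (dA (res (· ⊆ O ∪ B) o)) with ho'
    have hin : ∀ l, σ ⊆ im l → v ∈ im l → ζ l = -μ * o' l := by
      intro l h1 h2
      by_cases hl : Function.Injective l
      · obtain ⟨r, π, a1, a2, a3, rfl⟩ := via hl h2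
        rw [a3] at h1
        rw [hmem.1, hζ.1, ho', val_in hc hv r a1, ← lk_apply v ζ r, hμ r (subset_insert_iff.1 h1)]
        ring
      · have b1 : ζ l = 0 := by_contra fun e => hl (hζ.1.inj e)
        have b2 : o' l = 0 := by_contra fun e => hl (hmem.1.inj e)
        rw [b1, b2, mul_zero]
    by_cases hσ : v ∈ σ
    · exact ⟨-μ, fun l h => hin l h (h hσ)⟩
    rw [erase_eq_of_notMem hσ] at hμ
    have m0 : res (fun T => ¬ v ∈ T) ζ ∈ Cs (fun T => Cl (O ∪ B) G T ∧ σ ⊆ T) 4 :=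
      Cs.mono (res_mem _ hζ) fun T _ h => ⟨(k1 h.2).1 h.1.1, h.1.2⟩
    have m1 : res (fun T => ¬ v ∈ T) ζ + μ • res (σ ⊆ ·) (res (· ⊆ O ∪ B) o)
        ∈ Cs (fun T => Cl (O ∪ B) G T ∧ σ ⊆ T) 4 :=
      add_mem m0 (zsmul_mem (res_mem _ mB) μ)
    obtain ⟨m, hm⟩ := hP.loc σ _ (Cs.mono m1 fun T _ h => ⟨cl_up hc h.1, h.2⟩) (fun r hr => by
      rw [map_add, map_zsmul, Pi.add_apply, Pi.smul_apply, dA_res σ _ hr, smul_eq_mul]
      by_cases hvr : v ∈ im r
      · have b1 : dA (res (fun T => ¬ v ∈ T) ζ) r = 0 := by_contra fun e =>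
          (dA_mem (K' := fun T => v ∉ T) m0
            (fun x T _ h => hnot ((subset_insert _ _).trans h.1.1))).2 r e hvr
        have b2 : dA (res (· ⊆ O ∪ B) o) r = 0 := by_contra fun e => hnotO (hc.mem.2 r e) hvr
        rw [b1, b2, mul_zero, add_zero]
      · have b1 := h0 r hr
        rw [← res_add_not (v ∈ ·) ζ, ← cone_lk v hζ.1, map_add, dA_cone v (lk_mem v hζ).1,
          Pi.add_apply, Pi.sub_apply, cone_of_not_mem _ hvr, hμ r hr] at b1
        linarith)
    refine ⟨m - μ, fun l h => ?_⟩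
    by_cases hvl : v ∈ im l
    · rw [hin l h hvl]
      by_cases b : o' l = 0
      · rw [b, mul_zero, mul_zero]
      have hl := hmem.1.inj b
      obtain ⟨r, π, a1, a2, a3, -⟩ := via hl hvl
      have b1 := hmem.2 l b
      rw [a3] at b1 h
      have b2 := (k2 a1).1 b1
      obtain ⟨-, b', hb', hb2⟩ := hc.apex _ b2 (card_im a2)
      have b3 : b' ∉ im r := fun e => hc.dis' b' hb' (b2.1 e)
      have b4 : ¬ im (Fin.cons b' r : Fin 4 → V) ⊆ O ∪ B := fun e =>
        not_mem hc hb' (e (by rw [im_cons]; exact mem_insert_self _ _))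
      have b5 := hm (Fin.cons b' r) (by
        rw [im_cons]
        exact ((subset_insert_iff_of_notMem hσ).1 h).trans (subset_insert _ _))
      have b6 : (res (fun T => ¬ v ∈ T) ζ + μ • res (σ ⊆ ·) (res (· ⊆ O ∪ B) o))
          (Fin.cons b' r) = 0 := by_contra fun e => b4 (m1.2 _ e).1.1
      have b7 := hP.unit (Fin.cons b' r) (Fin.cons_injective_iff.2
        ⟨by rwa [← coe_im, mem_coe], a2⟩) (by rwa [im_cons])
      have b8 : m = 0 := by
        rw [b6] at b5
        rcases b7 with e | e <;> rw [e] at b5 <;> omega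
      rw [b8, zero_sub]
    · have b1 := hm l h
      rw [Pi.add_apply, Pi.smul_apply, res_apply, if_pos hvl, res_apply, if_pos h,
        smul_eq_mul] at b1
      rw [ho', val_out l hvl]
      by_cases b : im l ⊆ O ∪ B
      · rw [res_apply, if_pos b] at b1 ⊢
        linarith
      · have b2 : ζ l = 0 := by_contra fun e => b ((k1 hvl).1 (hζ.2 l e).1).1
        rw [res_apply, if_neg b, b2, mul_zero]
  · refine fill_vertex v (L := Cl O G) (K₀ := Cl (O ∪ B) G)
      (fill_mono (fun T _ h => (k2 h.1).1 h.2) (fill_oct hp)) (fun T h h' => (k2 h).2 h')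
      (fun T h => ⟨h.1.trans subset_union_left, h.2⟩) (fun T h h' => (k1 h).1 h') ?_
    intro c hc' h0
    obtain ⟨b, hb, e⟩ := hP.h2 c (Cs.mono hc' fun T _ h => cl_up hc h) h0
    have hOB : ∀ x ∈ A, x ∉ B' → x ∈ O ∪ B := fun x hx h => by
      rcases (hc.cover x).1 hx with h' | h' | h'
      exacts [mem_union_left _ h', mem_union_right _ h', absurd h' h]
    refine ⟨pf (fun x => if x ∈ B' then v else x) b, pf_mem _ hb fun T h => ⟨?_, ?_⟩, ?_⟩
    · intro y hy
      obtain ⟨x, hx, rfl⟩ := mem_image.1 hy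
      split_ifs with e
      exacts [mem_insert_self _ _, mem_insert_of_mem (hOB x (h.1 hx) e)]
    · have key : ∀ x ∈ T, ∀ y ∈ T, x ∈ B' → y ∉ B' → y ∈ O := fun x hx y hy h1 h2 =>
        (mem_union.1 (hOB y (h.1 hy) h2)).resolve_right fun h3 => hc.sep y h3 x h1
          (h.2 (mem_coe.2 hy) (mem_coe.2 hx) fun e => h2 (e ▸ h1))
      intro x' hx' y' hy' hxy
      obtain ⟨x, hx, rfl⟩ := mem_image.1 (mem_coe.1 hx')
      obtain ⟨y, hy, rfl⟩ := mem_image.1 (mem_coe.1 hy')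
      refine ⟨hxy, ?_⟩
      by_cases e1 : x ∈ B' <;> by_cases e2 : y ∈ B' <;>
        simp only [e1, e2, if_true, if_false] at hxy ⊢
      · exact absurd rfl hxy
      · exact .inr (.inl ⟨trivial, key x hx y hy e1 e2⟩)
      · exact .inr (.inr ⟨trivial, key y hy x hx e2 e1⟩)
      · exact .inl ⟨fun e => e1 (e ▸ hv), fun e => e2 (e ▸ hv),
          h.2 (mem_coe.2 hx) (mem_coe.2 hy) hxy⟩
    · rw [dA_pf, e]
      refine pf_eq_self _ fun l hl i => if_neg fun h => not_mem hc h ((hc'.2 l hl).1 ?_)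
      exact mem_im.2 ⟨i, rfl⟩

end Pool.Agent.Lib.MP_0af324_gt
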