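import Pool.Agent.Lib.MP_0af324_gt.RCox

namespace Pool.Agent.Lib.MP_0af324_gt

open scoped Classical
open Finset

variable {V : Type} [Fintype V] {G : SimpleGraph V} {W : Type} [Group W]
  {cs : CoxeterSystem (racgMatrix G) W}

namespace Cnt

lemma card_le {X C : Type} [Fintype C] (S : Set X) (χ : X → X → C)
    (h : ∀ a ∈ S, ∀ b ∈ S, ∀ c ∈ S, a ≠ b → b ≠ c → χ a b ≠ χ b c) :
    S.Finite ∧ S.ncard ≤ Fintype.card (Set C) := by
  let f : X → Set C := fun b => {x | ∃ a ∈ S, a ≠ b ∧ χ a b = x}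
  have inj : Set.InjOn f S := fun b hb c hc e => by
    by_contra ne
    have : χ b c ∈ f c := ⟨b, hb, ne, rfl⟩
    rw [← e] at this
    obtain ⟨a, ha, h1, h2⟩ := this
    exact h a ha b hb c hc h1 ne h2
  refine ⟨Set.Finite.of_injOn (t := Set.univ) (fun _ _ => trivial) inj Set.finite_univ, ?_⟩
  have := Set.ncard_le_ncard_of_injOn f (t := Set.univ) (fun _ _ => trivial) inj
  rwa [Set.ncard_univ, Nat.card_eq_fintype_card] at this

omit [Fintype V] in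
lemma exists_factor (G : SimpleGraph V) {T : Finset V} (hT : T.Nonempty) :
    ∃ Z ⊆ T, Z.Nonempty ∧ (∀ a ∈ T, a ∉ Z → ∀ z ∈ Z, G.Adj a z) ∧
      ∀ A ⊆ Z, (∀ a ∈ A, ∀ b ∈ Z, b ∉ A → G.Adj a b) → A = ∅ ∨ A = Z := by
  obtain ⟨Z, hZ, hm⟩ := exists_min_image (T.powerset.filter fun Z => Z.Nonempty ∧
    ∀ a ∈ T, a ∉ Z → ∀ z ∈ Z, G.Adj a z) card ⟨T, by simp +contextual [hT]⟩
  simp only [mem_filter, mem_powerset] at hZ hm
  refine ⟨Z, hZ.1, hZ.2.1, hZ.2.2, fun A hA h => ?_⟩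
  rcases A.eq_empty_or_nonempty with e | e
  · exact .inl e
  refine .inr (eq_of_subset_of_card_le hA (hm A ⟨hA.trans hZ.1, e, fun a ha ha' z hz => ?_⟩))
  by_cases aZ : a ∈ Z
  · exact (h z hz a aZ ha').symm
  · exact hZ.2.2 a ha aZ z (hA hz)

variable (cs) in
/-- A wall of type `s` separates `v` from `v'` and `x`. -/
def PP (v v' x : W) (s : V) : Prop := ∃ y, ¬ Hs cs y s v ∧ Hs cs y s v' ∧ Hs cs y s x

variable (cs) in
/-- A wall of type `s` separates `v'` from `v` and `x`. -/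
def QQ (v v' x : W) (s : V) : Prop := ∃ y, ¬ Hs cs y s v ∧ Hs cs y s v' ∧ ¬ Hs cs y s x

omit [Fintype V] in
lemma sep_iff (v v' x : W) (s : V) : Sep cs v v' s ↔ PP cs v v' x s ∨ QQ cs v v' x s := by
  refine ⟨fun ⟨y, h1, h2⟩ => ?_, fun h => h.elim (fun ⟨y, h⟩ => ⟨y, h.1, h.2.1⟩)
    fun ⟨y, h⟩ => ⟨y, h.1, h.2.1⟩⟩
  by_cases e : Hs cs y s x
  exacts [.inl ⟨y, h1, h2, e⟩, .inr ⟨y, h1, h2, e⟩]

omit [Fintype V] in
lemma qq_iff (v v' x : W) (s : V) : QQ cs v v' x s ↔ PP cs v' v x s :=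
  ⟨fun ⟨y, h⟩ => ⟨y * cs.simple s, by simpa [hs_compl] using ⟨h.2.1, h.1, h.2.2⟩⟩,
    fun ⟨y, h⟩ => ⟨y * cs.simple s, by simpa [hs_compl] using ⟨h.2.1, h.1, h.2.2⟩⟩⟩

omit [Fintype V] in
lemma pp_iff (v v' x : W) (s : V) : PP cs v v' x s ↔ QQ cs v' v x s := (qq_iff _ _ _ _).symm

lemma star {a b c x : W} {s : V} (h : PP cs b c x s) (h' : PP cs b a x s) :
    ∃ y, ¬ Hs cs y s b ∧ Hs cs y s a ∧ Hs cs y s c ∧ Hs cs y s x := by
  obtain ⟨y, y1, y2, y3⟩ := h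
  obtain ⟨y', z1, z2, z3⟩ := h'
  rcases nested y3 z3 y1 z1 with e | e
  exacts [⟨y', z1, z2, e _ y2, z3⟩, ⟨y, y1, e _ z2, y2, y3⟩]

lemma desc_eq {b c x : W} {s : V} (h : PP cs b c x s) (h' : ¬ QQ cs b c x s) :
    Hs cs b s x ↔ Hs cs b s c := by
  refine ⟨fun e => ?_, fun e => by_contra fun e' => h' ⟨b, hs_self cs _ _, e, e'⟩⟩
  obtain ⟨y, y1, y2, y3⟩ := h
  rcases nested e y3 (hs_self cs _ _) y1 with f | f
  exacts [(hs_eq y1 (f _ (hs_mul cs b s)) c).1 y2, f _ y2]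

theorem null_of_mono {k : ℕ} {x : Fin (k + 1) → W} {a b c : W} (hab : a ≠ b)
    (h0 : ∀ i s, Hs cs a s (x i) ↔ Hs cs b s (x i))
    (hP : ∀ i s, PP cs a b (x i) s ↔ PP cs b c (x i) s)
    (hQ : ∀ i s, QQ cs a b (x i) s ↔ QQ cs b c (x i) s) :
    Null G fun i => ld cs (b⁻¹ * x i) := by
  have cl := fun i => ld_clique cs (b⁻¹ * x i)
  have st : ∀ i s, PP cs a b (x i) s → QQ cs b c (x i) s →
      ∃ y, ¬ Hs cs y s b ∧ Hs cs y s a ∧ Hs cs y s c ∧ Hs cs y s (x i) := fun i s h1 h2 =>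
    star ((hP i s).1 h1) ((qq_iff _ _ _ _).1 ((hQ i s).2 h2))
  by_cases hs : ∃ i s, PP cs a b (x i) s ∧ QQ cs b c (x i) s
  · obtain ⟨i, s, h1, h2⟩ := hs
    obtain ⟨y₀, p1, p2, p3, -⟩ := st i s h1 h2
    have : ∀ J : Finset (Fin (k + 1)), ∃ y, ¬ Hs cs y s b ∧ Hs cs y s a ∧
        ∀ j ∈ J, Hs cs y s (x j) := fun J => by
      induction J using Finset.induction_on with
      | empty => exact ⟨y₀, p1, p2, by simp⟩
      | insert j J _ ih =>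
        obtain ⟨y, y1, y2, y3⟩ := ih
        obtain ⟨z, z1, z2, z3⟩ : ∃ z, ¬ Hs cs z s b ∧ Hs cs z s a ∧ Hs cs z s (x j) := by
          by_cases e : Hs cs y₀ s (x j)
          · exact ⟨y₀, p1, p2, e⟩
          · obtain ⟨z, z1, z2, -, z3⟩ := st j s ((pp_iff _ _ _ _).2 ⟨y₀, p1, p2, e⟩)
              ⟨y₀, p1, p3, e⟩
            exact ⟨z, z1, z2, z3⟩
        rcases nested y2 z2 y1 z1 with e | e
        · exact ⟨z, z1, z2, by simpa [z3] using fun j hj => e _ (y3 j hj)⟩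
        · exact ⟨y, y1, y2, by simpa [e _ z3] using y3⟩
    obtain ⟨y, y1, y2, y3⟩ := this univ
    obtain ⟨u, hu⟩ := gate a y s y1 y2
    exact null_of_common cl fun i => (mem_ld cs).2 (hu _ (y3 i (mem_univ _)))
  push Not at hs
  have hT : ∀ s, Sep cs b c s ↔ Sep cs a b s := fun s => by
    rw [sep_iff _ _ (x 0), sep_iff _ _ (x 0), hP, hQ]
  obtain ⟨Z, Z1, ⟨z₀, Z2⟩, Z3, Z4⟩ := exists_factor G (T := univ.filter (Sep cs a b)) (by
    obtain ⟨s, hs⟩ := cs.exists_leftDescent_of_ne_one (w := a⁻¹ * b) fun e =>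
      hab (inv_mul_eq_one.1 e)
    exact ⟨s, mem_filter.2 ⟨mem_univ _, a, hs_self cs _ _, hs⟩⟩)
  have Z1' : ∀ z ∈ Z, Sep cs a b z := fun z hz => (mem_filter.1 (Z1 hz)).2
  have Z3' : ∀ u ∉ Z, Sep cs a b u → ∀ z ∈ Z, G.Adj u z := fun u hu h =>
    Z3 u (mem_filter.2 ⟨mem_univ _, h⟩) hu
  obtain ⟨α, α1, α2⟩ := desc_factor Z b c (fun u hu h z hz _ => Z3' u hu ((hT u).1 h) z hz)
    ⟨z₀, Z2, (hT _).2 (Z1' _ Z2)⟩
  obtain ⟨β, β1, β2⟩ := desc_factor Z b a (fun u hu h z hz _ => Z3' u hu h.symm z hz)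
    ⟨z₀, Z2, (Z1' _ Z2).symm⟩
  refine ⟨cl, Z, ld cs (b⁻¹ * c) ∩ Z, ld cs (b⁻¹ * a) ∩ Z, ⟨α, mem_inter.2 ⟨(mem_ld cs).2 α2, α1⟩⟩,
    ⟨β, mem_inter.2 ⟨(mem_ld cs).2 β2, β1⟩⟩, fun i => ?_, fun u hu hu' z _ hz => ?_⟩
  · have or := fun z hz => (sep_iff a b (x i) z).1 (Z1' z hz)
    rcases Z4 (Z.filter (PP cs a b (x i))) (filter_subset _ _) (fun p hp q hq hq' => by
      have p1 := (mem_filter.1 hp).2
      have q0 : ¬ PP cs a b (x i) q := fun e => hq' (mem_filter.2 ⟨hq, e⟩)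
      obtain ⟨y, y1, y2, y3⟩ := (hP i p).1 p1
      obtain ⟨y', z1, z2, z3⟩ := (or q hq).resolve_left q0
      exact cross y2 (by_contra fun e => q0 ((hP i q).2 ((pp_iff _ _ _ _).2 ⟨y', e, z2, z3⟩))) y3 z3
        y1 z2 (fun e => hs i p p1 ((hQ i p).1 ((qq_iff _ _ _ _).2 ⟨y, y1, e, y3⟩))) z1) with e | e
    · refine .inr (Finset.ext fun s => ?_)
      simp only [mem_inter, mem_ld]
      refine and_congr_left fun hs' => ?_
      have q0 : ¬ PP cs a b (x i) s := fun f => notMem_empty s (e ▸ mem_filter.2 ⟨hs', f⟩)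
      exact desc_eq ((qq_iff _ _ _ _).1 ((or s hs').resolve_left q0))
        fun f => q0 ((pp_iff _ _ _ _).2 f)
    · refine .inl (Finset.ext fun s => ?_)
      simp only [mem_inter, mem_ld]
      refine and_congr_left fun hs' => ?_
      have p1 := (mem_filter.1 (e.symm ▸ hs' : s ∈ Z.filter (PP cs a b (x i)))).2
      exact desc_eq ((hP i s).1 p1) (hs i s p1)
  · by_cases e : Sep cs a b u
    · exact Z3' u hu' e z hz
    · obtain ⟨i, -, hi⟩ := mem_biUnion.1 hu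
      have := (mem_ld cs).1 hi
      exact adj_of_same ((h0 i u).2 this) this e (Z1' z hz)

end Cnt

theorem cnt_blk : St_CNT := by
  intro V _ G W _ cs k
  refine ⟨Fintype.card (Set (Fin (k + 1) → V → Prop × Prop × Prop)), fun x => ?_⟩
  obtain ⟨h1, h2⟩ := Cnt.card_le {v | ¬ Null G fun i => ld cs (v⁻¹ * x i)}
    (fun a b i s => (Hs cs a s (x i), Cnt.PP cs a b (x i) s, Cnt.QQ cs a b (x i) s))
    fun a _ b hb c _ hab _ e => hb (Cnt.null_of_mono hab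
      (fun i s => (congrArg (fun f => (f i s).1) e).to_iff)
      (fun i s => (congrArg (fun f => (f i s).2.1) e).to_iff)
      fun i s => (congrArg (fun f => (f i s).2.2) e).to_iff)
  exact ⟨h1.toFinset, by rwa [← Set.ncard_eq_toFinset_card _ h1], fun v hv => by simpa using hv⟩

end Pool.Agent.Lib.MP_0af324_gt
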