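import Pool.Agent.Lib.MP_0af324_gt.RBlue

namespace Pool.Agent.Lib.MP_0af324_gt

open scoped Classical
open Pool.Agent.H10

variable {V : Type} {G : SimpleGraph V} {W : Type} [Group W] (cs : CoxeterSystem (racgMatrix G) W)

lemma racg_apply (G : SimpleGraph V) (a b : V) :
    racgMatrix G a b = if a = b then 1 else if G.Adj a b then 2 else 0 := rfl

lemma simple_comm {a b : V} (h : G.Adj a b) :
    cs.simple a * cs.simple b = cs.simple b * cs.simple a := by
  have := cs.simple_mul_simple_pow a b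
  rw [racg_apply, if_neg h.ne, if_pos h, pow_two, mul_eq_one_iff_eq_inv, mul_inv_rev,
    cs.inv_simple, cs.inv_simple] at this
  exact this

lemma label {u : W} {a b : V} (h : u * cs.simple b = cs.simple a * u) : b = a := by
  let f : W →* ℤˣ := cs.lift ⟨fun c => if c = a then -1 else 1, fun i j => by
    rw [racg_apply]
    split_ifs <;> simp_all⟩
  have := congrArg f h
  rw [map_mul, map_mul, mul_comm, mul_left_inj, cs.lift_apply_simple, cs.lift_apply_simple] at this
  by_contra e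
  simp [e] at this

variable [Fintype V]

lemma adj_of_desc {w : W} {a b : V} (h : a ≠ b) (ha : cs.IsLeftDescent w a)
    (hb : cs.IsLeftDescent w b) : G.Adj a b := by
  have := (both_left cs h ha hb).1
  rw [racg_apply, if_neg h] at this
  by_contra e
  exact this (if_neg e)

lemma mem_ld {w : W} {a : V} : a ∈ ld cs w ↔ cs.IsLeftDescent w a := by simp [ld]

lemma ld_clique (w : W) : G.IsClique (ld cs w : Set V) :=
  fun _ ha _ hb h => adj_of_desc cs h ((mem_ld cs).1 ha) ((mem_ld cs).1 hb)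

lemma desc_comm_aux {w : W} {c s : V} (h : G.Adj c s) (hs : cs.IsLeftDescent w s) :
    cs.IsLeftDescent (cs.simple c * w) s := by
  by_cases hc : cs.IsLeftDescent w c
  · obtain ⟨-, v, rfl, hv⟩ := both_left cs h.ne hc hs
    rw [racg_apply, if_neg h.ne, if_pos h] at hv hc ⊢
    have e : cs.wordProd (alt c s 2) = cs.simple c * cs.simple s := by
      simp [alt, cs.wordProd_cons]
    rw [e] at hv hc ⊢
    have := cs.isLeftDescent_iff.1 hc
    rw [CoxeterSystem.IsLeftDescent]
    simp only [mul_assoc, cs.simple_mul_simple_cancel_left] at this hv ⊢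
    omega
  · have h1 := cs.not_isLeftDescent_iff.1 hc
    have h2 := cs.isLeftDescent_iff.1 hs
    have h3 := cs.length_mul_le (cs.simple c) (cs.simple s * w)
    rw [CoxeterSystem.IsLeftDescent, ← mul_assoc, ← simple_comm cs h, mul_assoc]
    rw [cs.length_simple] at h3
    omega

lemma desc_comm {w : W} {c s : V} (h : G.Adj c s) :
    cs.IsLeftDescent (cs.simple c * w) s ↔ cs.IsLeftDescent w s :=
  ⟨fun e => by simpa using desc_comm_aux cs h e, desc_comm_aux cs h⟩

/-- The half-space behind the wall of type `s` of the chamber `y`. -/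
def Hs (y : W) (s : V) (x : W) : Prop := cs.IsLeftDescent (y⁻¹ * x) s

omit [Fintype V] in
lemma hs_self (y : W) (s : V) : ¬ Hs cs y s y := by
  simpa [Hs] using cs.not_isLeftDescent_one s

omit [Fintype V] in
lemma hs_compl (y : W) (s : V) (x : W) : Hs cs (y * cs.simple s) s x ↔ ¬ Hs cs y s x := by
  rw [Hs, Hs, cs.isLeftDescent_iff_not_isLeftDescent_mul]
  simp [mul_assoc]

omit [Fintype V] in
lemma hs_mul (y : W) (s : V) : Hs cs y s (y * cs.simple s) := by
  have := hs_self cs (y * cs.simple s) s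
  rwa [hs_compl, not_not] at this

variable {cs}

lemma edge {y x : W} {s b : V} (h : ¬ Hs cs y s x) (h' : Hs cs y s (x * cs.simple b)) :
    b = s ∧ y⁻¹ * x * cs.simple s = cs.simple s * (y⁻¹ * x) := by
  have := deodhar cs h (by simpa [Hs, mul_assoc] using h')
  obtain rfl := label cs this
  exact ⟨rfl, this⟩

lemma edge' {y x : W} {s b : V} (h : Hs cs y s x) (h' : ¬ Hs cs y s (x * cs.simple b)) : b = s :=
  (edge (y := y * cs.simple s) (by rwa [hs_compl, not_not]) (by rwa [hs_compl])).1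

lemma cent {s : V} (u : W) (h : u * cs.simple s = cs.simple s * u) (h' : ¬ cs.IsLeftDescent u s) :
    (∀ w, cs.IsLeftDescent (u * w) s ↔ cs.IsLeftDescent w s) ∧
      ∀ y s' x, ¬ Hs cs y s' x → Hs cs y s' (x * u) → G.Adj s s' := by
  induction hn : cs.length u using Nat.strong_induction_on generalizing u with
  | _ n ih =>
    by_cases h1 : u = 1
    · subst h1
      exact ⟨by simp, fun y s' x a b => absurd (by simpa using b) a⟩
    obtain ⟨c, hc⟩ := cs.exists_leftDescent_of_ne_one h1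
    have l1 := cs.isLeftDescent_iff.1 hc
    have l2 := cs.not_isLeftDescent_iff.1 h'
    have adj : G.Adj c s := by
      refine adj_of_desc cs (w := cs.simple s * u) (fun e => h' (e ▸ hc)) ?_
        (cs.isLeftDescent_iff_not_isLeftDescent_mul.2 (by simpa using h'))
      have := cs.length_mul_le (cs.simple c * u) (cs.simple s)
      rw [CoxeterSystem.IsLeftDescent, l2, ← h, ← mul_assoc]
      rw [cs.length_simple] at this
      omega
    obtain ⟨i1, i2⟩ := ih _ (by omega) (cs.simple c * u)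
      (by rw [mul_assoc, h, ← mul_assoc, simple_comm cs adj, mul_assoc])
      (by rwa [desc_comm cs adj]) rfl
    refine ⟨fun w => by rw [← i1 w, mul_assoc, desc_comm cs adj], fun y s' x a b => ?_⟩
    by_cases e : Hs cs y s' (x * cs.simple c)
    · exact (edge a e).1 ▸ adj.symm
    · exact i2 y s' _ e (by simpa [mul_assoc] using b)

lemma hs_eq {y v : W} {s b : V} (h : ¬ Hs cs y s v) (h' : Hs cs y s (v * cs.simple b)) (x : W) :
    Hs cs y s x ↔ Hs cs v s x := by
  have := (cent _ (edge h h').2 h).1 (v⁻¹ * x)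
  simpa [Hs, mul_assoc] using this

lemma conv {y y' : W} {s s' : V} {z : W} (hz : Hs cs y s z) (hz' : Hs cs y' s' z) (x : W)
    (hx : ¬ Hs cs y s x) (hx' : Hs cs y' s' x) :
    ∃ x, Hs cs y' s' x ∧ ¬ Hs cs y s x ∧ Hs cs y s (x * cs.simple s) := by
  induction hn : cs.length (x⁻¹ * z) using Nat.strong_induction_on generalizing x with
  | _ n ih =>
    obtain ⟨b, hb⟩ := cs.exists_leftDescent_of_ne_one (w := x⁻¹ * z) fun e =>
      hx (inv_mul_eq_one.1 e ▸ hz)
    by_cases e : Hs cs y s (x * cs.simple b)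
    · exact ⟨x, hx', hx, (edge hx e).1 ▸ e⟩
    refine ih _ ?_ _ e ?_ rfl
    · simpa [mul_assoc, ← hn, CoxeterSystem.IsLeftDescent] using hb
    · by_contra e'
      obtain rfl := edge' hx' e'
      exact (hs_compl cs _ _ _).1 ((hs_eq (y := y' * cs.simple b) (by rwa [hs_compl, not_not])
        (by rwa [hs_compl]) z).2 hb) hz'

/-- Crossing walls have adjacent types. -/
lemma cross {y y' : W} {s s' : V} {a b c d : W} (a1 : Hs cs y s a) (a2 : Hs cs y' s' a)
    (b1 : Hs cs y s b) (b2 : ¬ Hs cs y' s' b) (c1 : ¬ Hs cs y s c) (c2 : Hs cs y' s' c)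
    (d1 : ¬ Hs cs y s d) (d2 : ¬ Hs cs y' s' d) : G.Adj s s' := by
  obtain ⟨x, x1, x2, x3⟩ := conv a1 a2 c c1 c2
  obtain ⟨x', y1, y2, y3⟩ := conv b1 ((hs_compl cs _ _ _).2 b2) d d1 ((hs_compl cs _ _ _).2 d2)
  have e1 := mt (hs_eq y2 y3 x).2 x2
  exact (cent _ (edge e1 ((hs_eq y2 y3 _).1 x3)).2 e1).2 y' s' x' ((hs_compl cs _ _ _).1 y1)
    (by simpa using x1)

lemma nested {y y' : W} {s : V} {a d : W} (a1 : Hs cs y s a) (a2 : Hs cs y' s a)
    (d1 : ¬ Hs cs y s d) (d2 : ¬ Hs cs y' s d) :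
    (∀ x, Hs cs y s x → Hs cs y' s x) ∨ ∀ x, Hs cs y' s x → Hs cs y s x := by
  by_contra h
  push Not at h
  obtain ⟨⟨b, b1, b2⟩, c, c2, c1⟩ := h
  exact (cross a1 a2 b1 b2 c1 c2 d1 d2).ne rfl

lemma gate {v : W} (x₀ y : W) (s : V) (hv : ¬ Hs cs y s v) (h₀ : Hs cs y s x₀) :
    ∃ a, ∀ x, Hs cs y s x → Hs cs v a x := by
  induction hn : cs.length (v⁻¹ * x₀) using Nat.strong_induction_on generalizing x₀ y s with
  | _ n ih =>
    by_cases hm : ∃ x, Hs cs y s x ∧ cs.length (v⁻¹ * x) < n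
    · obtain ⟨x, h1, h2⟩ := hm
      exact ih _ h2 x y s hv h1 rfl
    push Not at hm
    obtain ⟨b, hb⟩ := cs.exists_rightDescent_of_ne_one (w := v⁻¹ * x₀) fun e =>
      hv (inv_mul_eq_one.1 e ▸ h₀)
    have l1 := cs.isRightDescent_iff.1 hb
    rw [mul_assoc] at l1
    have n1 : ¬ Hs cs y s (x₀ * cs.simple b) := fun e => by have := hm _ e; omega
    obtain rfl := edge' h₀ n1
    set x₁ := x₀ * cs.simple b with hx₁
    have e₀ : x₀ = x₁ * cs.simple b := by simp [hx₁, mul_assoc]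
    by_cases h1 : x₁ = v
    · exact ⟨b, fun x hx => h1 ▸ (hs_eq n1 (e₀ ▸ h₀) x).1 hx⟩
    obtain ⟨c, hc⟩ := cs.exists_rightDescent_of_ne_one (w := v⁻¹ * x₁) fun e =>
      h1 (inv_mul_eq_one.1 e).symm
    have l2 := cs.isRightDescent_iff.1 hc
    rw [mul_assoc] at l2
    have ne : c ≠ b := by
      rintro rfl
      rw [← e₀] at l2
      omega
    set x₂ := x₁ * cs.simple c with hx₂
    have e₁ : x₁ = x₂ * cs.simple c := by simp [hx₂, mul_assoc]
    have k1 : Hs cs x₂ c x₁ := e₁ ▸ hs_mul cs x₂ c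
    have kv : ¬ Hs cs x₂ c v := by
      rw [Hs, ← cs.isRightDescent_inv_iff, mul_inv_rev, inv_inv, hx₂, ← mul_assoc]
      exact cs.isRightDescent_iff_not_isRightDescent_mul.1 hc
    obtain ⟨a, ha⟩ := ih _ (by omega) x₁ x₂ c kv k1 rfl
    refine ⟨a, fun x hx => ha x (by_contra fun hx' => ?_)⟩
    have adj := cross h₀ (by_contra fun e => ne (edge' k1 (e₀ ▸ e)).symm) hx hx' n1 k1
      (fun e => by have := hm _ e; omega) (hs_self cs _ _)
    have l3 := cs.length_mul_le (v⁻¹ * x₂) (cs.simple b)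
    rw [cs.length_simple, mul_assoc] at l3
    refine ne (edge (x := x₂ * cs.simple b) (fun e => by have := hm _ e; omega) ?_).1
    rwa [mul_assoc, simple_comm cs adj, ← mul_assoc, ← e₁, ← e₀]

variable (cs) in
/-- A wall of type `s` separates the two chambers. -/
def Sep (v v' : W) (s : V) : Prop := ∃ y, ¬ Hs cs y s v ∧ Hs cs y s v'

omit [Fintype V] in
lemma Sep.symm {v v' : W} {s : V} (h : Sep cs v v' s) : Sep cs v' v s :=
  h.elim fun y h => ⟨y * cs.simple s, by simpa [hs_compl] using h.2, (hs_compl cs _ _ _).2 h.1⟩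

lemma desc_factor (Z : Finset V) (v v' : W)
    (h : ∀ a ∉ Z, Sep cs v v' a → ∀ z ∈ Z, Sep cs v v' z → G.Adj a z)
    (h' : ∃ z ∈ Z, Sep cs v v' z) : ∃ a ∈ Z, Hs cs v a v' := by
  induction hn : cs.length (v⁻¹ * v') using Nat.strong_induction_on generalizing v with
  | _ n ih =>
    obtain ⟨z, hz, y, y1, y2⟩ := h'
    obtain ⟨a, ha⟩ := cs.exists_leftDescent_of_ne_one (w := v⁻¹ * v') fun e =>
      y1 (inv_mul_eq_one.1 e ▸ y2)
    by_cases aZ : a ∈ Z
    · exact ⟨a, aZ, ha⟩
    have sa : Sep cs v v' a := ⟨v, hs_self cs _ _, ha⟩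
    have sub : ∀ s, Sep cs (v * cs.simple a) v' s → Sep cs v v' s := by
      rintro s ⟨y, y1, y2⟩
      by_cases e : Hs cs y s v
      · exact edge' e y1 ▸ sa
      · exact ⟨y, e, y2⟩
    obtain ⟨b, hb, hb'⟩ := ih _ (by simpa [mul_assoc, ← hn, CoxeterSystem.IsLeftDescent] using ha)
      (v * cs.simple a)
      (fun c hc c1 z hz z1 => h c hc (sub _ c1) z hz (sub _ z1))
      ⟨z, hz, y, fun e => aZ ((edge y1 e).1 ▸ hz), y2⟩ rfl
    refine ⟨b, hb, (desc_comm cs (h a aZ sa b hb (sub _ ⟨_, hs_self cs _ _, hb'⟩))).1 ?_⟩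
    simpa [Hs, mul_assoc] using hb'

lemma adj_of_same {v v' x : W} {u s : V} (h : Hs cs v u x) (h' : Hs cs v' u x)
    (hu : ¬ Sep cs v v' u) (hs : Sep cs v v' s) : G.Adj u s := by
  have n1 : ¬ Hs cs v u v' := fun e => hu ⟨v, hs_self cs _ _, e⟩
  have n2 : ¬ Hs cs v' u v := fun e => hu (Sep.symm ⟨v', hs_self cs _ _, e⟩)
  have ne : u ≠ s := fun e => hu (e ▸ hs)
  obtain ⟨y, y1, y2⟩ := hs
  have a1 : ¬ Hs cs y s (v * cs.simple u) := fun e => ne (edge y1 e).1
  have a2 : Hs cs y s (v' * cs.simple u) := by_contra fun e => ne (edge' y2 e)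
  rcases nested h h' (hs_self cs _ _) n2 with e | e
  · exact cross (hs_mul cs v' u) a2 (e _ (hs_mul cs v u)) a1 (hs_self cs _ _) y2 n2 y1
  · exact cross (e _ (hs_mul cs v' u)) a2 (hs_mul cs v u) a1 n1 y2 (hs_self cs _ _) y1

omit [Fintype V] in
lemma par_sq {T : Set V} (hT : G.IsClique T) {p : W} (hp : p ∈ par cs T) : p * p = 1 := by
  have c : ∀ a ∈ T, ∀ p ∈ par cs T, p * cs.simple a = cs.simple a * p := fun a ha p hp =>
    par_induction cs (P := fun p => p * cs.simple a = cs.simple a * p) hp (by simp)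
      fun w _ i hi ih => by
        by_cases e : i = a
        · rw [e, ← mul_assoc, ← ih]
        · rw [mul_assoc, simple_comm cs (hT hi ha e), ← mul_assoc, ih, mul_assoc]
  refine par_induction cs (P := fun p => p * p = 1) hp (by simp) fun w hw i hi ih => ?_
  rw [mul_assoc, ← mul_assoc (cs.simple i), ← c i hi w hw, mul_assoc, cs.simple_mul_simple_self,
    mul_one, ih]

lemma desc_coset {T : Set V} {w : W} (hw : w ∉ par cs T) :
    ∃ a, ∀ p ∈ par cs T, cs.IsLeftDescent (w * p) a := by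
  obtain ⟨u, q, hq, hu, rfl⟩ := exists_min_right cs T w
  obtain ⟨a, ha⟩ := cs.exists_leftDescent_of_ne_one (w := u) (by
    rintro rfl
    exact hw (by simpa using hq))
  refine ⟨a, fun p hp => ?_⟩
  have h1 := length_mul_min cs hu (mul_mem hq hp)
  have h2 := cs.length_mul_le (cs.simple a * u) (q * p)
  have h3 := cs.isLeftDescent_iff.1 ha
  rw [CoxeterSystem.IsLeftDescent, mul_assoc, ← mul_assoc (cs.simple a)]
  omega

omit [Fintype V] in
lemma null_of_common {k : ℕ} {τ : Fin k → Finset V} (h : ∀ i, G.IsClique (τ i : Set V)) {a : V}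
    (ha : ∀ i, a ∈ τ i) : Null G τ := by
  refine ⟨h, {a}, {a}, {a}, by simp, by simp, fun i => .inl (by simpa using ha i),
    fun u hu hu' z _ hz => ?_⟩
  obtain ⟨i, -, hi⟩ := Finset.mem_biUnion.1 hu
  rw [Finset.mem_singleton] at hu' hz
  exact h i hi (hz ▸ ha i) (hz ▸ hu')

end Pool.Agent.Lib.MP_0af324_gt
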