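import Pool.Agent.Lib.MP_0af324_gt.RBlue

/-! Block CUT: a full octahedron separates a three-dimensional pseudomanifold without second
homology. -/

namespace Pool.Agent.Lib.MP_0af324_gt

open scoped Classical
open Finset Equiv

namespace CutB

variable {V : Type} [Fintype V] {A : Finset V} {G : SimpleGraph V} {p : Fin 3 × Bool → V}

omit [Fintype V] in
lemma cl_sub {T T' : Finset V} (h : Cl A G T) (h' : T' ⊆ T) : Cl A G T' :=
  ⟨h'.trans h.1, h.2.subset (coe_subset.2 h')⟩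

omit [Fintype V] in
lemma O_sub (hp : Oct A G p) : univ.image p ⊆ A := by
  intro x hx
  obtain ⟨u, -, rfl⟩ := mem_image.1 hx
  exact hp.mem u

omit [Fintype V] in
lemma coords (hp : Oct A G p) {k : ℕ} {l : Fin k → V} (hl : Function.Injective l)
    (h : Cl (univ.image p) G (im l)) :
    ∃ u : Fin k → Fin 3 × Bool, (∀ j, l j = p (u j)) ∧ Function.Injective fun j => (u j).1 := by
  have : ∀ j, ∃ u, l j = p u := fun j => by
    obtain ⟨u, -, hu⟩ := mem_image.1 (h.1 (mem_im.2 ⟨j, rfl⟩))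
    exact ⟨u, hu.symm⟩
  choose u hu using this
  refine ⟨u, hu, fun i j e => by_contra fun hij => ?_⟩
  have h1 : G.Adj (l i) (l j) :=
    h.2 (mem_coe.2 (mem_im.2 ⟨i, rfl⟩)) (mem_coe.2 (mem_im.2 ⟨j, rfl⟩)) fun e' => hij (hl e')
  rw [hu i, hu j, hp.adj] at h1
  exact h1 e

omit [Fintype V] in
lemma no_four (hp : Oct A G p) {l : Fin 4 → V} (hl : Function.Injective l) :
    ¬ Cl (univ.image p) G (im l) := by
  intro h
  obtain ⟨u, -, hu⟩ := coords hp hl h
  have := Fintype.card_le_of_injective _ hu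
  simp at this

/-- coordinate functions of the octahedron -/
noncomputable def phi (p : Fin 3 × Bool → V) (i : Fin 3) (x : V) : ℤ :=
  (if x = p (i, true) then 1 else 0) - if x = p (i, false) then 1 else 0

lemma sum_phi (p : Fin 3 × Bool → V) (i : Fin 3) : ∑ x, phi p i x = 0 := by
  simp [phi, sum_sub_distrib]

omit [Fintype V] in
lemma phi_ne {i : Fin 3} {x : V} (h : phi p i x ≠ 0) : ∃ b, x = p (i, b) := by
  by_contra hn
  rw [not_exists] at hn
  exact h (by rw [phi, if_neg (hn true), if_neg (hn false), sub_zero])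

omit [Fintype V] in
lemma phi_odd (hp : Oct A G p) (u : Fin 3 × Bool) : Odd (phi p u.1 (p u)) := by
  obtain ⟨i, b⟩ := u
  cases b <;> simp [phi, hp.inj.eq_iff]

/-- the fundamental cycle of the octahedron -/
noncomputable def oct (p : Fin 3 × Bool → V) : Ch V 3 :=
  fun l => (Matrix.of fun i j => phi p i (l j)).det

omit [Fintype V] in
lemma oct_mem (hp : Oct A G p) : oct p ∈ Cs (Cl (univ.image p) G) 3 := by
  refine ⟨fun l π => ?_, fun l hl => ?_⟩
  · exact Matrix.det_permute' π (Matrix.of fun i j => phi p i (l j))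
  · rw [oct, Matrix.det_apply] at hl
    obtain ⟨σ, -, hσ⟩ := exists_ne_zero_of_sum_ne_zero hl
    have h1 : ∏ j, phi p (σ j) (l j) ≠ 0 := fun e => hσ (by simp [e])
    have h2 : ∀ j, ∃ b, l j = p (σ j, b) := fun j =>
      phi_ne (prod_ne_zero_iff.1 h1 j (mem_univ _))
    choose b hb using h2
    refine ⟨fun x hx => ?_, fun x hx y hy hxy => ?_⟩
    · obtain ⟨j, rfl⟩ := mem_im.1 hx
      exact mem_image.2 ⟨_, mem_univ _, (hb j).symm⟩
    · obtain ⟨i, rfl⟩ := mem_im.1 (mem_coe.1 hx)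
      obtain ⟨j, rfl⟩ := mem_im.1 (mem_coe.1 hy)
      rw [hb i, hb j, hp.adj]
      exact fun e => hxy (by rw [σ.injective e])

lemma oct_cyc (p : Fin 3 × Bool → V) : dA (oct p) = 0 := by
  funext r
  have h : ∀ v, oct p (Fin.cons v r) =
      phi p 0 v * (phi p 1 (r 0) * phi p 2 (r 1) - phi p 1 (r 1) * phi p 2 (r 0)) +
      phi p 1 v * (phi p 0 (r 1) * phi p 2 (r 0) - phi p 0 (r 0) * phi p 2 (r 1)) +
      phi p 2 v * (phi p 0 (r 0) * phi p 1 (r 1) - phi p 0 (r 1) * phi p 1 (r 0)) := by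
    intro v
    have e1 : (Fin.cons v r : Fin 3 → V) 1 = r 0 := rfl
    have e2 : (Fin.cons v r : Fin 3 → V) 2 = r 1 := rfl
    rw [oct, Matrix.det_fin_three]
    simp only [Matrix.of_apply, Fin.cons_zero, e1, e2]
    ring
  rw [dA_apply]
  simp only [h, sum_add_distrib, ← sum_mul, sum_phi]
  simp

omit [Fintype V] in
lemma oct_odd (hp : Oct A G p) {l : Fin 3 → V} (hl : Function.Injective l)
    (h : Cl (univ.image p) G (im l)) : Odd (oct p l) := by
  obtain ⟨u, hu, hinj⟩ := coords hp hl h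
  let σ : Perm (Fin 3) := Equiv.ofBijective _ hinj.bijective_of_finite
  have h1 := Matrix.det_permute σ (Matrix.of fun i j => phi p i (l j))
  have h2 : (Matrix.of fun i j => phi p i (l j)).submatrix σ id =
      Matrix.diagonal fun j => phi p (u j).1 (p (u j)) := by
    ext i j
    rw [Matrix.diagonal_apply]
    change phi p (u i).1 (l j) = _
    split_ifs with hij
    · rw [hij, hu]
    · by_contra hne
      obtain ⟨b, hb⟩ := phi_ne hne
      rw [hu] at hb
      exact hij (hinj (by simp only [hp.inj hb]))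
  rw [h2, Matrix.det_diagonal, Fin.prod_univ_three] at h1
  have h3 := ((phi_odd hp (u 0)).mul (phi_odd hp (u 1))).mul (phi_odd hp (u 2))
  rw [h1] at h3
  exact (Int.odd_mul.1 h3).2

lemma dA_two {ζ : Ch V 4} (hζ : ζ ∈ Cs (Cl A G) 4) {r : Fin 3 → V} {x x' : V} (hx : x ≠ x')
    (h : ∀ y, (y ∉ im r ∧ Cl A G (insert y (im r))) ↔ (y = x ∨ y = x')) :
    dA ζ r = ζ (Fin.cons x r) + ζ (Fin.cons x' r) := by
  rw [dA_apply, ← sum_pair (f := fun v => ζ (Fin.cons v r)) hx]
  refine (sum_subset (subset_univ _) fun v _ hv => by_contra fun hne => hv ?_).symm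
  have h1 := (lk_mem v hζ).2 r hne
  rw [mem_insert, mem_singleton]
  exact (h v).1 h1

/-- the part of `o` on which `c` is odd -/
noncomputable def oo (c o : Ch V 4) : Ch V 4 := fun l => if Odd (c l) then o l else 0

omit [Fintype V] in
lemma oo_mem {c o : Ch V 4} (hc : IsAlt c) (ho : o ∈ Cs (Cl A G) 4) :
    oo c o ∈ Cs (Cl A G) 4 := by
  refine ⟨fun l π => ?_, fun l hl => ho.2 l (ite_ne_right_iff.1 hl).2⟩
  have h1 : Odd (c (l ∘ π)) ↔ Odd (c l) := by
    rw [hc l π]
    rcases Int.units_eq_one_or (Perm.sign π) with h | h <;> simp [h]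
  simp only [oo, h1, ho.1 l π]
  split_ifs <;> simp

omit [Fintype V] in
lemma cons_inj {k : ℕ} {r : Fin k → V} (hr : Function.Injective r) {x : V} (hx : x ∉ im r) :
    Function.Injective (Fin.cons x r : Fin (k + 1) → V) :=
  Fin.cons_injective_iff.2 ⟨by rwa [← coe_im, mem_coe], hr⟩

end CutB

open CutB in
theorem cut_blk : St_CUT := by
  intro V _ A G o p hM hp
  have hO := O_sub hp
  have hOA : ∀ T, Cl (univ.image p) G T → Cl A G T := fun T h => ⟨h.1.trans hO, h.2⟩
  obtain ⟨c, hc, hdc⟩ := hM.h2 (oct p) (Cs.mono (oct_mem hp) fun T _ => hOA T) (oct_cyc p)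
  have hoo := oo_mem hc.1 hM.mem
  have hone : ∀ l, Function.Injective l → Cl A G (im l) → o l ≠ 0 := by
    intro l h1 h2
    rcases hM.unit l h1 h2 with h | h <;> simp [h]
  -- the boundary of the odd part
  have hmem : dA (oo c o) ∈ Cs (Cl (univ.image p) G) 3 := by
    have h0 : dA (oo c o) ∈ Cs (Cl A G) 3 :=
      dA_mem hoo fun x T _ h => cl_sub h (subset_insert _ _)
    refine ⟨h0.1, fun r hr => by_contra fun hn => hr ?_⟩
    obtain ⟨x, x', hx, h⟩ := hM.thin (im r) (h0.2 r hr) (card_im (h0.1.inj hr))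
    have h1 := dA_two hc hx h
    have h2 := dA_two hM.mem hx h
    have h3 : oct p r = 0 := by_contra fun e => hn ((oct_mem hp).2 r e)
    rw [hdc, h3] at h1
    rw [hM.cyc, Pi.zero_apply] at h2
    have h4 : Odd (c (Fin.cons x' r)) ↔ Odd (c (Fin.cons x r)) := by
      rw [show c (Fin.cons x' r) = -c (Fin.cons x r) by omega, odd_neg]
    rw [dA_two hoo hx h]
    simp only [oo, h4]
    split_ifs
    · exact h2.symm
    · rfl
  have htri : ∀ r : Fin 3 → V, Function.Injective r → Cl (univ.image p) G (im r) →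
      ∃ x x', x ∉ im r ∧ x' ∉ im r ∧ Cl A G (insert x (im r)) ∧ Cl A G (insert x' (im r)) ∧
        oo c o (Fin.cons x r) = o (Fin.cons x r) ∧ oo c o (Fin.cons x' r) = 0 ∧
        dA (oo c o) r = o (Fin.cons x r) := by
    intro r hr hcl
    obtain ⟨x, x', hx, h⟩ := hM.thin (im r) (hOA _ hcl) (card_im hr)
    have h1 := dA_two hc hx h
    have h2 := dA_two hoo hx h
    have h3 := oct_odd hp hr hcl
    rw [← hdc, h1, Int.odd_add] at h3
    have a1 := (h x).2 (.inl rfl)
    have a2 := (h x').2 (.inr rfl)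
    by_cases hodd : Odd (c (Fin.cons x r))
    · have e1 : oo c o (Fin.cons x r) = o (Fin.cons x r) := if_pos hodd
      have e2 : oo c o (Fin.cons x' r) = 0 := if_neg (Int.not_odd_iff_even.2 (h3.1 hodd))
      exact ⟨x, x', a1.1, a2.1, a1.2, a2.2, e1, e2, by rw [h2, e1, e2, add_zero]⟩
    · have e1 : oo c o (Fin.cons x r) = 0 := if_neg hodd
      have e2 : oo c o (Fin.cons x' r) = o (Fin.cons x' r) :=
        if_pos (Int.not_even_iff_odd.1 fun e => hodd (h3.2 e))
      exact ⟨x', x, a2.1, a1.1, a2.2, a1.2, e2, e1, by rw [h2, e1, e2, zero_add]⟩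
  -- parity is constant around a vertex off the octahedron
  have hloc : ∀ u, u ∉ univ.image p → (∃ l, u ∈ im l ∧ oo c o l ≠ 0) →
      ∀ l, u ∈ im l → oo c o l = o l := by
    rintro u hu ⟨l₀, h0, h0'⟩
    obtain ⟨m, hm⟩ := hM.loc {u} (res (u ∈ ·) (oo c o))
      (Cs.mono (res_mem _ hoo) fun T _ h => ⟨h.1, singleton_subset_iff.2 h.2⟩) (by
        intro r hr
        rw [singleton_subset_iff] at hr
        have h1 : dA (oo c o) r = 0 := by_contra fun e => hu ((hmem.2 r e).1 hr)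
        rw [← h1, dA_apply, dA_apply]
        refine sum_congr rfl fun v _ => ?_
        rw [res_apply, im_cons, if_pos (mem_insert_of_mem hr)])
    have hm' : ∀ l, u ∈ im l → oo c o l = m * o l := fun l hl => by
      rw [← hm l (singleton_subset_iff.2 hl), res_apply, if_pos hl]
    obtain ⟨b1, b2⟩ := ite_ne_right_iff.1 h0'
    have h1 : oo c o l₀ = o l₀ := if_pos b1
    have h2 : m = 1 := mul_right_cancel₀ b2 (by rw [← hm' l₀ h0, h1, one_mul])
    intro l hl
    rw [hm' l hl, h2, one_mul]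
  set B := A.filter fun u => u ∉ univ.image p ∧ ∃ l, u ∈ im l ∧ oo c o l ≠ 0 with hB
  set B' := A.filter fun u => u ∉ univ.image p ∧ ¬ ∃ l, u ∈ im l ∧ oo c o l ≠ 0 with hB'
  have mB : ∀ u, u ∈ B ↔ u ∈ A ∧ u ∉ univ.image p ∧ ∃ l, u ∈ im l ∧ oo c o l ≠ 0 :=
    fun u => mem_filter
  have mB' : ∀ u, u ∈ B' ↔ u ∈ A ∧ u ∉ univ.image p ∧ ¬ ∃ l, u ∈ im l ∧ oo c o l ≠ 0 :=
    fun u => mem_filter
  have hres : res (· ⊆ univ.image p ∪ B) o = oo c o := by
    funext l
    rw [res_apply]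
    by_cases h0 : o l = 0
    · simp [oo, h0]
    have h1 := hM.mem.1.inj h0
    have h2 := hM.mem.2 l h0
    split_ifs with hs
    · have h3 : ¬ im l ⊆ univ.image p := fun h => no_four hp h1 ⟨h, h2.2⟩
      obtain ⟨u, hu, hu'⟩ := not_subset.1 h3
      have h4 := (mem_union.1 (hs hu)).resolve_left hu'
      exact (hloc u hu' ((mB u).1 h4).2.2 l hu).symm
    · obtain ⟨u, hu, hu'⟩ := not_subset.1 hs
      rw [mem_union, not_or] at hu'
      by_contra hne
      exact hu'.2 ((mB u).2 ⟨h2.1 hu, hu'.1, l, hu, Ne.symm hne⟩)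
  refine ⟨B, B', fun x => ?_, fun x hx => ?_, fun x hx => ((mB' x).1 hx).2.1,
    fun x hx y hy hxy => ?_, fun κ hκ hc3 => ?_, hres ▸ hmem, fun l hl hcl => ?_⟩
  · rw [mB, mB']
    refine ⟨fun h => ?_, fun h => h.elim (fun h => hO h) fun h => h.elim And.left And.left⟩
    by_cases h1 : x ∈ univ.image p
    · exact .inl h1
    by_cases h2 : ∃ l, x ∈ im l ∧ oo c o l ≠ 0
    exacts [.inr (.inl ⟨h, h1, h2⟩), .inr (.inr ⟨h, h1, h2⟩)]
  · rw [mB] at hx
    exact ⟨hx.2.1, fun h => ((mB' x).1 h).2.2 hx.2.2⟩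
  · rw [mB] at hx
    rw [mB'] at hy
    obtain ⟨F, hF, hF4, hs⟩ := hM.pure {x, y}
      ⟨insert_subset hx.1 (singleton_subset_iff.2 hy.1), by
        rw [coe_pair]; exact SimpleGraph.isClique_pair.2 fun _ => hxy⟩
    obtain ⟨l, hl, rfl⟩ := exists_tuple hF4
    refine hy.2.2 ⟨l, hs (by simp), ?_⟩
    rw [hloc x hx.2.1 hx.2.2 l (hs (by simp))]
    exact hone l hl hF
  · obtain ⟨r, hr, rfl⟩ := exists_tuple hc3
    obtain ⟨x, x', a1, a2, a3, a4, a5, a6, -⟩ := htri r hr hκ
    have hout : ∀ y, y ∉ im r → Cl A G (insert y (im r)) → y ∉ univ.image p := by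
      intro y b1 b2 b3
      refine no_four hp (cons_inj hr b1) ?_
      rw [im_cons]
      exact ⟨insert_subset b3 hκ.1, b2.2⟩
    have hin : ∀ y : V, y ∈ im (Fin.cons y r : Fin 4 → V) := fun y => mem_im.2 ⟨0, rfl⟩
    have hne : ∀ y, y ∉ im r → Cl A G (insert y (im r)) → o (Fin.cons y r) ≠ 0 :=
      fun y b1 b2 => hone _ (cons_inj hr b1) (by rwa [im_cons])
    refine ⟨⟨x, (mB x).2 ⟨a3.1 (mem_insert_self _ _), hout x a1 a3, _, hin x, ?_⟩, a3⟩,
      x', (mB' x').2 ⟨a4.1 (mem_insert_self _ _), hout x' a2 a4, fun h => ?_⟩, a4⟩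
    · rw [a5]; exact hne x a1 a3
    · have := hloc x' (hout x' a2 a4) h _ (hin x')
      rw [a6] at this
      exact hne x' a2 a4 this.symm
  · obtain ⟨x, x', a1, -, a3, -, -, -, a7⟩ := htri l hl hcl
    rw [hres, a7]
    exact hM.unit _ (cons_inj hl a1) (by rwa [im_cons])

end Pool.Agent.Lib.MP_0af324_gt
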