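import Pool.Agent.Lib.MP_0af324_gt.RBlue

namespace Pool.Agent.Lib.MP_0af324_gt

namespace DAV

open scoped Classical
open Finset Finsupp Pool.Agent.H10

variable {V : Type} [Fintype V] {G : SimpleGraph V} {W : Type} [Group W]
  (cs : CoxeterSystem (racgMatrix G) W)

/-- The sign character. -/
noncomputable def eps (w : W) : ℤ := (-1) ^ cs.length w

omit [Fintype V] in
lemma eps_mul_simple (w : W) (i : V) : eps cs (w * cs.simple i) = -eps cs w := by
  unfold eps
  rcases cs.length_mul_simple w i with h | h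
  · rw [h, pow_succ]; ring
  · rw [← h, pow_succ]; ring

omit [Fintype V] in
lemma eps_one : eps cs 1 = 1 := by simp [eps]

lemma dR_apply {Q : Type} {k : ℕ} (r : RC Q V (k + 1)) (v : Q) : dR r v = dA (r v) := by
  simp [dR]

omit [Fintype V] in
lemma md_apply {k : ℕ} (w : W) (r : RC W V k) (v : W) :
    r.mapDomain (w * ·) v = r (w⁻¹ * v) := by
  have := Finsupp.mapDomain_apply (mul_right_injective w) r (w⁻¹ * v)
  simpa using this

lemma md_mem {k : ℕ} (w : W) {r : RC W V k} (h : r ∈ CS cs k) :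
    r.mapDomain (w * ·) ∈ CS cs k :=
  ⟨fun v => by rw [md_apply]; exact h.1 _, fun v l i => by
    rw [md_apply, md_apply, ← mul_assoc]; exact h.2 _ l i⟩

lemma dR_md {k : ℕ} (w : W) (r : RC W V (k + 1)) :
    dR (r.mapDomain (w * ·)) = (dR r).mapDomain (w * ·) := by
  ext v : 1
  rw [dR_apply, md_apply, md_apply, dR_apply]

lemma dR_mem {k : ℕ} {r : RC W V (k + 1)} (h : r ∈ CS cs (k + 1)) : dR r ∈ CS cs k := by
  refine ⟨fun v => ?_, fun v l i => ?_⟩
  · rw [dR_apply]
    exact dA_mem (h.1 v) fun x T _ hT =>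
      ⟨subset_univ _, hT.2.subset (by rw [coe_insert]; exact Set.subset_insert _ _)⟩
  · rw [dR_apply, dR_apply, dA_apply, dA_apply, ← sum_neg_distrib]
    refine sum_congr rfl fun x _ => ?_
    have := h.2 v (Fin.cons x l) i.succ
    rwa [Fin.cons_succ] at this

lemma dR_dR {k : ℕ} {r : RC W V (k + 2)} (h : r ∈ CS cs (k + 2)) : dR (dR r) = 0 := by
  ext v : 1
  rw [dR_apply, dR_apply, dA_dA (h.1 v).1]
  rfl

lemma clique {v : W} {T : Finset V} (h : ∀ t ∈ T, cs.IsRightDescent v t) : Cl univ G T := by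
  refine ⟨subset_univ _, fun a ha b hb hab => ?_⟩
  have := (both_right cs hab (h a ha) (h b hb)).1
  by_contra hn
  apply this
  simp [racgMatrix, hab, hn]

lemma spread {k : ℕ} (v : W) {c : Ch V k}
    (hc : c ∈ Cs (fun T => ∀ t ∈ T, cs.IsRightDescent v t) k) :
    ∃ R ∈ CS cs k, R v = c ∧ ∀ x, R x ≠ 0 → x = v ∨ cs.length x < cs.length v := by
  let f : W → Ch V k := fun x l =>
    if v⁻¹ * x ∈ par cs (Set.range l) then eps cs (v⁻¹ * x) * c l else 0
  have hf : ∀ x l, f x l =
      if v⁻¹ * x ∈ par cs (Set.range l) then eps cs (v⁻¹ * x) * c l else 0 := fun _ _ => rfl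
  have hs : ∀ x, f x ≠ 0 → v⁻¹ * x ∈ par cs {t | cs.IsRightDescent v t} := by
    intro x hx
    obtain ⟨l, hl⟩ := Function.ne_iff.1 hx
    obtain ⟨h1, h2⟩ := ite_ne_right_iff.1 hl
    refine par_mono cs ?_ h1
    rintro _ ⟨i, rfl⟩
    exact hc.2 l (right_ne_zero_of_mul h2) _ (mem_im.2 ⟨i, rfl⟩)
  have hfin : (Function.support f).Finite := by
    refine ((finite_of_rdesc cs (T := {t | cs.IsRightDescent v t}) (w := v)
      fun t ht => ht).image (v * ·)).subset fun x hx => ⟨v⁻¹ * x, hs x hx, by simp⟩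
  refine ⟨Finsupp.ofSupportFinite f hfin, ⟨fun x => ⟨fun l π => ?_, fun l hl => ?_⟩,
    fun x l i => ?_⟩, ?_, fun x hx => ?_⟩
  · change f x (l ∘ π) = _ * f x l
    rw [hf, hf, π.surjective.range_comp, hc.1]
    split_ifs
    · ring
    · simp
  · change f x l ≠ 0 at hl
    exact clique cs (hc.2 l (right_ne_zero_of_mul (ite_ne_right_iff.1 hl).2))
  · change f _ l = -f x l
    rw [hf, hf, ← mul_assoc, eps_mul_simple,
      Subgroup.mul_mem_cancel_right _ (simple_mem_par cs (Set.mem_range_self i))]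
    split_ifs
    · ring
    · simp
  · funext l
    change f v l = c l
    rw [hf, inv_mul_cancel, if_pos (one_mem _), eps_one, one_mul]
  · have h1 := length_mul_max cs (T := {t | cs.IsRightDescent v t}) (u := v) (fun t ht => ht)
      (hs x hx)
    rw [mul_inv_cancel_left] at h1
    by_cases h0 : v⁻¹ * x = 1
    · exact Or.inl (inv_mul_eq_one.1 h0).symm
    · have : cs.length (v⁻¹ * x) ≠ 0 := fun e => h0 (cs.length_eq_zero_iff.1 e)
      right
      omega

lemma top {k : ℕ} {r : RC W V (k + 1)} (h : r ∈ CS cs (k + 1)) (h0 : dR r = 0) (v : W)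
    (hv : ∀ x, r x ≠ 0 → cs.length x ≤ cs.length v) :
    ∃ R ∈ CS cs (k + 2), dA (R v) = r v ∧ ∀ x, R x ≠ 0 → x = v ∨ cs.length x < cs.length v := by
  by_cases hr : r v = 0
  · exact ⟨0, zero_mem _, by simp [hr], fun x hx => absurd rfl hx⟩
  have hd : r v ∈ Cs (fun T => ∀ t ∈ T, cs.IsRightDescent v t) (k + 1) := by
    refine ⟨(h.1 v).1, fun l hl t ht => ?_⟩
    obtain ⟨i, rfl⟩ := mem_im.1 ht
    have h1 : r (v * cs.simple (l i)) ≠ 0 := fun e => by
      have := h.2 v l i
      rw [e] at this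
      exact hl (neg_eq_zero.1 this.symm)
    exact lt_of_le_of_ne (hv _ h1) (cs.length_mul_simple_ne v _)
  obtain ⟨l, hl⟩ := Function.ne_iff.1 hr
  have hm : cs.IsRightDescent v (l 0) := hd.2 l hl _ (mem_im.2 ⟨0, rfl⟩)
  obtain ⟨R, hR, e, hs⟩ := spread cs v (cone_mem (K' := fun T => ∀ t ∈ T, cs.IsRightDescent v t)
    (l 0) hd fun T _ hT t ht => by
      rcases mem_insert.1 ht with rfl | ht
      exacts [hm, hT t ht])
  refine ⟨R, hR, ?_, hs⟩
  rw [e]
  refine dA_cone_cyc _ hd.1 ?_
  change dA (r v) = 0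
  rw [← dR_apply, h0]
  rfl

lemma fill_aux {k : ℕ} (L : ℕ) : ∀ r ∈ CS cs (k + 1), dR r = 0 →
    (∀ x, r x ≠ 0 → cs.length x < L) → ∃ R ∈ CS cs (k + 2), dR R = r := by
  induction L with
  | zero =>
    intro r _ _ hL
    refine ⟨0, zero_mem _, ?_⟩
    ext x : 1
    by_contra hx
    exact absurd (hL x fun e => hx (by simp [e])) (Nat.not_lt_zero _)
  | succ L ih =>
    intro r h h0 hL
    have key : ∀ v : W, ∃ R ∈ CS cs (k + 2), cs.length v = L → dA (R v) = r v ∧
        ∀ x, R x ≠ 0 → x = v ∨ cs.length x < L := by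
      intro v
      by_cases hv : cs.length v = L
      · obtain ⟨R, hR, e, hs⟩ := top cs h h0 v fun x hx => by have := hL x hx; omega
        exact ⟨R, hR, fun _ => ⟨e, hv ▸ hs⟩⟩
      · exact ⟨0, zero_mem _, fun e => absurd e hv⟩
    choose R hR hR' using key
    set S := r.support.filter fun v => cs.length v = L with hS
    have hmem : ∑ v ∈ S, R v ∈ CS cs (k + 2) := sum_mem fun v _ => hR v
    obtain ⟨R', h1, h2⟩ := ih (r - dR (∑ v ∈ S, R v)) (sub_mem h (dR_mem cs hmem))
      (by rw [map_sub, h0, dR_dR cs hmem, sub_zero]) (by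
        intro x hx
        by_contra hl
        apply hx
        rw [Finsupp.sub_apply, dR_apply, Finsupp.finsetSum_apply, map_sum, sub_eq_zero]
        have hz : ∀ v ∈ S, v ≠ x → dA (R v x) = 0 := by
          intro v hv hne
          have : R v x = 0 := by
            by_contra e
            rcases (hR' v (mem_filter.1 hv).2).2 x e with e | e
            exacts [hne e.symm, hl e]
          rw [this, map_zero]
        by_cases hxS : x ∈ S
        · rw [sum_eq_single_of_mem x hxS hz, (hR' x (mem_filter.1 hxS).2).1]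
        · rw [sum_eq_zero fun v hv => hz v hv fun e => hxS (e ▸ hv)]
          by_contra e
          have := hL x e
          exact hxS (mem_filter.2 ⟨mem_support_iff.2 e, by omega⟩))
    exact ⟨R' + ∑ v ∈ S, R v, add_mem h1 hmem, by rw [map_add, h2, sub_add_cancel]⟩

lemma fill {k : ℕ} {r : RC W V (k + 1)} (h : r ∈ CS cs (k + 1)) (h0 : dR r = 0) :
    ∃ R ∈ CS cs (k + 2), dR R = r :=
  fill_aux cs (r.support.sup cs.length + 1) r h h0 fun _ hx =>
    Nat.lt_succ_of_le (le_sup (f := cs.length) (mem_support_iff.2 hx))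

lemma edge (w : W) (s : V) : ∃ R ∈ CS cs 1,
    dR R = single (w * cs.simple s) (fun _ => 1) - single w (fun _ => 1) := by
  have hδ : cone s (fun _ => 1 : Ch V 0) ∈ Cs (fun T => T = {s}) 1 :=
    cone_mem (K := fun T => T = ∅) s (mem_Cs_zero rfl _) fun T _ hT => by simp [hT]
  have hδ' : cone s (fun _ => 1 : Ch V 0) ∈ Cs (Cl univ G) 1 :=
    Cs.mono hδ fun T _ hT => ⟨subset_univ _, by simp [hT]⟩
  refine ⟨single (w * cs.simple s) (cone s fun _ => 1) - single w (cone s fun _ => 1),
    ⟨fun v => ?_, fun v l i => ?_⟩, ?_⟩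
  · rw [Finsupp.sub_apply, single_apply, single_apply]
    refine sub_mem ?_ ?_ <;> split_ifs
    exacts [hδ', zero_mem _, hδ', zero_mem _]
  · simp only [Finsupp.sub_apply, single_apply, Pi.sub_apply, ite_apply, Pi.zero_apply]
    by_cases hl : cone s (fun _ => 1 : Ch V 0) l = 0
    · simp [hl]
    · have e : l i = s := by
        have h1 : l i ∈ im l := mem_im.2 ⟨i, rfl⟩
        rw [hδ.2 l hl] at h1
        exact mem_singleton.1 h1
      have e2 : w = v * cs.simple s ↔ w * cs.simple s = v := by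
        constructor
        · rintro rfl
          exact cs.simple_mul_simple_cancel_right s
        · rintro rfl
          exact (cs.simple_mul_simple_cancel_right s).symm
      simp only [e, mul_left_inj, e2, neg_sub]
  · rw [map_sub]
    congr 1 <;> simp [dR, dA_cone_zero]

lemma path (w : W) : ∃ R ∈ CS cs 1,
    dR R = single w (fun _ => 1) - single 1 (fun _ => 1) := by
  induction w using cs.simple_induction_right with
  | one => exact ⟨0, zero_mem _, by simp⟩
  | mul_simple_right w i ih =>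
    obtain ⟨R, hR, e⟩ := ih
    obtain ⟨R', hR', e'⟩ := edge cs w i
    exact ⟨R' + R, add_mem hR' hR, by rw [map_add, e, e', sub_add_sub_cancel]⟩

/-- One level of the chain map. -/
structure Lev (k : ℕ) where
  g : (Fin (k + 1) → W) → RC W V k
  mem : ∀ t, g t ∈ CS cs k
  eqv : ∀ (w : W) t, g ((w * ·) ∘ t) = (g t).mapDomain (w * ·)
  fl : ∀ t : Fin (k + 2) → W, ∃ R ∈ CS cs (k + 1), dR R = lin g (ob (single t 1))

/-- The bottom level. -/
noncomputable def base : Lev cs 0 where
  g t := single (t 0) fun _ => 1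
  mem t := ⟨fun _ => mem_Cs_zero ⟨subset_univ _, by simp⟩ _, fun _ _ i => i.elim0⟩
  eqv w t := by rw [mapDomain_single]; rfl
  fl t := by
    obtain ⟨R, hR, e⟩ := path cs (t 1)
    obtain ⟨R', hR', e'⟩ := path cs (t 0)
    refine ⟨R - R', sub_mem hR hR', ?_⟩
    rw [map_sub, e, e', lin_ob, Fin.sum_univ_two, sub_sub_sub_cancel_right]
    simp [sub_eq_add_neg]

lemma step {k : ℕ} (A : Lev cs k) :
    ∃ B : Lev cs (k + 1), ∀ t, dR (B.g t) = lin A.g (ob (single t 1)) := by
  choose F hF hF' using A.fl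
  let g : (Fin (k + 2) → W) → RC W V (k + 1) := fun t =>
    (F (((t 0)⁻¹ * ·) ∘ t)).mapDomain (t 0 * ·)
  have hg : ∀ t, g t = (F (((t 0)⁻¹ * ·) ∘ t)).mapDomain (t 0 * ·) := fun _ => rfl
  have hm : ∀ t, g t ∈ CS cs (k + 1) := fun t => md_mem cs _ (hF _)
  have hl : ∀ (w : W) (y : OC W (k + 1)),
      (lin A.g y).mapDomain (w * ·) = lin A.g (om (w * ·) y) := fun w y =>
    hom_ext1 (F := (mapDomain.addMonoidHom (w * ·)).comp (lin A.g))
      (G := (lin A.g).comp (om (w * ·))) (fun s => by simp [A.eqv]) y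
  have hb : ∀ t, dR (g t) = lin A.g (ob (single t 1)) := fun t => by
    rw [hg, dR_md, hF', hl, ← ob_om, om_single]
    congr 3
    funext i
    simp
  refine ⟨⟨g, hm, fun w t => ?_, fun t => fill cs (lin_mem _ _ fun s _ => hm s) ?_⟩, hb⟩
  · rw [hg, hg, ← mapDomain_comp]
    congr 1
    · funext x
      simp [mul_assoc]
    · congr 1
      funext i
      simp [mul_assoc]
  · have := hom_ext1 (F := dR.comp (lin g)) (G := (lin A.g).comp ob) (fun s => by simp [hb])
      (ob (single t 1))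
    simpa [ob_ob] using this

/-- All levels. -/
noncomputable def seq : ∀ k, Lev cs k
  | 0 => base cs
  | k + 1 => (step cs (seq k)).choose

end DAV

theorem dav_blk : St_DAV := fun _ _ _ _ _ cs =>
  ⟨{ g := fun {k} => (DAV.seq cs k).g
     mem := fun {k} => (DAV.seq cs k).mem
     bd := fun {k} => (DAV.step cs (DAV.seq cs k)).choose_spec
     eqv := fun {k} => (DAV.seq cs k).eqv
     base := fun _ => rfl }⟩

end Pool.Agent.Lib.MP_0af324_gt
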