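import Pool.Agent.Lib.MP_0af324_gt.Defs

namespace Pool.Agent.Lib.MP_0af324_gt

open scoped Classical

variable {V : Type}

/-- The Coxeter matrix of the right-angled Coxeter group of the graph `G`: two distinct
generators commute when they are adjacent, and their product has infinite order otherwise. -/
noncomputable def racgMatrix (G : SimpleGraph V) : CoxeterMatrix V where
  M := Matrix.of fun a b => if a = b then 1 else if G.Adj a b then 2 else 0
  isSymm := by
    ext a b
    simp only [Matrix.transpose_apply, Matrix.of_apply, G.adj_comm b a, eq_comm (a := b)]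
  diagonal a := by simp
  off_diagonal a b h := by
    simp only [Matrix.of_apply, if_neg h]
    split_ifs <;> simp

/-- Oriented simplicial `(k - 1)`-chains of the flag complex of `G`: alternating functions on
`k`-tuples of vertices which vanish unless the vertices are pairwise equal or adjacent. -/
def IsFlagChain (G : SimpleGraph V) {k : ℕ} (c : (Fin k → V) → ℤ) : Prop :=
  (∀ (l : Fin k → V) (π : Equiv.Perm (Fin k)), c (l ∘ π) = Equiv.Perm.sign π * c l) ∧
    ∀ l, c l ≠ 0 → G.IsClique (Set.range l)

/-- The simplicial boundary of an oriented chain. -/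
def chainBd [Fintype V] {k : ℕ} (c : (Fin (k + 1) → V) → ℤ) : (Fin k → V) → ℤ :=
  fun r => ∑ v, c (Fin.cons v r)

/-- Any two `n`-simplices of the flag complex containing `s` are joined by a chain of
`n`-simplices in which consecutive ones share an `(n - 1)`-simplex containing `s`. -/
def StronglyConnectedAt (G : SimpleGraph V) (n : ℕ) (s : Finset V) : Prop :=
  ∀ t t' : Finset V, G.IsNClique (n + 1) t → G.IsNClique (n + 1) t' → s ⊆ t → s ⊆ t' →
    Relation.ReflTransGen (fun a b => G.IsNClique (n + 1) b ∧ s ⊆ a ∩ b ∧ (a ∩ b).card = n) t t'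

/-- The flag complex of `G` is a closed orientable `n`-dimensional pseudomanifold. -/
structure IsOrientablePseudomanifold [Fintype V] (G : SimpleGraph V) (n : ℕ) : Prop where
  pure : ∀ s : Finset V, G.IsClique s → ∃ t, G.IsNClique (n + 1) t ∧ s ⊆ t
  thin : ∀ s : Finset V, G.IsNClique n s → {t | G.IsNClique (n + 1) t ∧ s ⊆ t}.ncard = 2
  connected : StronglyConnectedAt G n ∅
  orientable : ∃ o : (Fin (n + 1) → V) → ℤ, IsFlagChain G o ∧ chainBd o = 0 ∧
    ∀ l, Function.Injective l → G.IsClique (Set.range l) → o l = 1 ∨ o l = -1

end Pool.Agent.Lib.MP_0af324_gt
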