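import Pool.Agent.Lib.MP_0af324_gt.RBlue

namespace Pool.Agent.Lib.MP_0af324_gt

open scoped Classical Pointwise symmDiff
open Finset

namespace Fol

variable {W : Type} [Group W]

/-- Balls in a dihedral group. -/
noncomputable def D (s t : W) (n : ℕ) : Finset W :=
  (Icc (-(n : ℤ)) n ×ˢ (univ : Finset Bool)).image
    fun p => (s * t) ^ p.1 * if p.2 then s else 1

lemma mem_D {s t : W} {n : ℕ} {x : W} :
    x ∈ D s t n ↔ ∃ i : ℤ, -(n : ℤ) ≤ i ∧ i ≤ n ∧ (x = (s * t) ^ i * s ∨ x = (s * t) ^ i) := by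
  simp only [D, mem_image, mem_product, mem_Icc, mem_univ, and_true, Prod.exists, Bool.exists_bool]
  constructor
  · rintro ⟨i, ⟨h, rfl⟩ | ⟨h, rfl⟩⟩
    · exact ⟨i, h.1, h.2, Or.inr (by simp)⟩
    · exact ⟨i, h.1, h.2, Or.inl (by simp)⟩
  · rintro ⟨i, h1, h2, rfl | rfl⟩
    · exact ⟨i, Or.inr ⟨⟨h1, h2⟩, by simp⟩⟩
    · exact ⟨i, Or.inl ⟨⟨h1, h2⟩, by simp⟩⟩

lemma card_D (s t : W) (n : ℕ) : (D s t n).card ≤ 4 * n + 2 := by
  refine card_image_le.trans ?_
  rw [card_product, Int.card_Icc, card_univ, Fintype.card_bool]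
  omega

lemma D_mono (s t : W) (n : ℕ) : D s t n ⊆ D s t (n + 1) := by
  intro x hx
  obtain ⟨i, h1, h2, h⟩ := mem_D.1 hx
  exact mem_D.2 ⟨i, by push_cast; omega, by push_cast; omega, h⟩

lemma flip {s t : W} (hs : s * s = 1) (ht : t * t = 1) (i : ℤ) :
    s * (s * t) ^ i = (s * t) ^ (-i) * s := by
  have e : s * (s * t) * s⁻¹ = (s * t)⁻¹ := by
    rw [← mul_assoc, hs, one_mul, mul_inv_rev, inv_eq_of_mul_eq_one_right ht]
  have e2 := conj_zpow (i := i) (a := s) (b := s * t)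
  rw [e, inv_zpow'] at e2
  rw [e2, inv_mul_cancel_right]

lemma D_s {s t : W} (hs : s * s = 1) (ht : t * t = 1) {n : ℕ} {x : W} (hx : x ∈ D s t n) :
    s * x ∈ D s t n := by
  obtain ⟨i, h1, h2, rfl | rfl⟩ := mem_D.1 hx
  · exact mem_D.2 ⟨-i, by omega, by omega, Or.inr (by
      rw [← mul_assoc, flip hs ht, mul_assoc, hs, mul_one])⟩
  · exact mem_D.2 ⟨-i, by omega, by omega, Or.inl (flip hs ht i)⟩

lemma D_t {s t : W} (hs : s * s = 1) (ht : t * t = 1) {n : ℕ} {x : W} (hx : x ∈ D s t n) :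
    t * x ∈ D s t (n + 1) := by
  have e : t * x = (s * t) ^ (-1 : ℤ) * (s * x) := by
    rw [zpow_neg_one, mul_inv_rev, inv_eq_of_mul_eq_one_right ht, mul_assoc,
      inv_mul_cancel_left]
  obtain ⟨i, h1, h2, h | h⟩ := mem_D.1 (D_s hs ht hx)
  · exact mem_D.2 ⟨-1 + i, by push_cast; omega, by push_cast; omega, Or.inl (by
      rw [e, h, zpow_add, mul_assoc])⟩
  · exact mem_D.2 ⟨-1 + i, by push_cast; omega, by push_cast; omega, Or.inr (by
      rw [e, h, zpow_add])⟩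

lemma D_comm {s t u : W} (hs : Commute u s) (ht : Commute u t) {n : ℕ} {x : W}
    (hx : x ∈ D s t n) : Commute u x := by
  obtain ⟨i, -, -, rfl | rfl⟩ := mem_D.1 hx
  · exact ((hs.mul_right ht).zpow_right i).mul_right hs
  · exact (hs.mul_right ht).zpow_right i

lemma balls {V : Type} [Fintype V] (G : SimpleGraph V) (s : V → W) (h1 : ∀ a, s a * s a = 1)
    (h2 : ∀ a b, G.Adj a b → Commute (s a) (s b)) (T : Finset V) (hT : Hat univ G T) :
    ∃ P : ℕ → Finset W, (∀ n, (P n).Nonempty) ∧ (∀ n, P n ⊆ P (n + 1)) ∧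
      (∀ n, ∀ a ∈ T, ∀ x ∈ P n, s a * x ∈ P (n + 1)) ∧
      ∀ n, (P n).card ≤ (4 * n + 2) ^ T.card := by
  induction T using Finset.strongInduction with
  | H T ih =>
  rcases T.eq_empty_or_nonempty with rfl | ⟨a, ha⟩
  · exact ⟨fun _ => {1}, fun _ => singleton_nonempty _, fun _ => Subset.rfl, by simp, by simp⟩
  obtain ⟨a', ha'⟩ : ∃ a', ∀ b ∈ T, b ≠ a → b ≠ a' → G.Adj b a ∧ G.Adj b a' := by
    by_cases h : ∃ a' ∈ T, a ≠ a' ∧ ¬ G.Adj a a'
    · obtain ⟨a', m, n1, n2⟩ := h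
      refine ⟨a', fun b hb b1 b2 => ⟨?_, ?_⟩⟩
      · by_contra h3
        exact b2 (hT.2 a ha b hb a' m b1.symm n1 (fun h => h3 h.symm) n2)
      · by_contra h3
        exact b1 (hT.2 a' m b hb a ha b2.symm n1.symm (fun h => h3 h.symm) fun h => n2 h.symm)
    · push Not at h
      exact ⟨a, fun b hb b1 _ => ⟨(h b hb b1.symm).symm, (h b hb b1.symm).symm⟩⟩
  have hsub : (T.erase a).erase a' ⊂ T := (erase_subset _ _).trans_ssubset (erase_ssubset ha)
  obtain ⟨P, p1, p2, p3, p4⟩ := ih _ hsub ⟨subset_univ _, fun x hx y hy z hz =>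
    hT.2 x (hsub.1 hx) y (hsub.1 hy) z (hsub.1 hz)⟩
  refine ⟨fun n => D (s a) (s a') n * P n, fun n => ?_, fun n => ?_, fun n b hb x hx => ?_,
    fun n => ?_⟩
  · exact Nonempty.mul ⟨_, mem_D.2 ⟨0, by omega, by omega, Or.inr rfl⟩⟩ (p1 n)
  · exact mul_subset_mul (D_mono _ _ n) (p2 n)
  · obtain ⟨d, hd, p, hp, rfl⟩ := mem_mul.1 hx
    by_cases b1 : b = a
    · rw [b1, ← mul_assoc]
      exact mul_mem_mul (D_mono _ _ n (D_s (h1 a) (h1 a') hd)) (p2 n hp)
    by_cases b2 : b = a'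
    · rw [b2, ← mul_assoc]
      exact mul_mem_mul (D_t (h1 a) (h1 a') hd) (p2 n hp)
    obtain ⟨c1, c2⟩ := ha' b hb b1 b2
    rw [← mul_assoc, (D_comm (h2 _ _ c1) (h2 _ _ c2) hd).eq, mul_assoc]
    exact mul_mem_mul (D_mono _ _ n hd)
      (p3 n b (mem_erase.2 ⟨b2, mem_erase.2 ⟨b1, hb⟩⟩) p hp)
  · refine card_mul_le.trans ((Nat.mul_le_mul (card_D _ _ n) (p4 n)).trans ?_)
    rw [← pow_succ']
    exact Nat.pow_le_pow_right (by omega) (card_lt_card hsub)

lemma slow (c : ℕ → ℕ) (k : ℕ) (h0 : 1 ≤ c 0) (h1 : ∀ n, c n ≤ (4 * n + 2) ^ k) {r : ℝ}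
    (hr : 1 < r) : ∃ n, (c (n + 1) : ℝ) ≤ r * c n := by
  by_contra h
  push Not at h
  have h2 : ∀ n, r ^ n ≤ c n := by
    intro n
    induction n with
    | zero => rw [pow_zero]; exact_mod_cast h0
    | succ n ih =>
      rw [pow_succ']
      exact (mul_le_mul_of_nonneg_left ih (by linarith)).trans (h n).le
  have h3 := (tendsto_pow_const_div_const_pow_of_one_lt k hr).eventually
    (gt_mem_nhds (show (0 : ℝ) < 1 / 6 ^ k by positivity))
  obtain ⟨n, n1, n2⟩ := (h3.and (Filter.eventually_ge_atTop 1)).exists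
  have h4 : (c n : ℝ) ≤ 6 ^ k * (n : ℝ) ^ k := by
    rw [← mul_pow]
    exact_mod_cast (h1 n).trans (Nat.pow_le_pow_left (by omega) k)
  rw [div_lt_div_iff₀ (by positivity) (by positivity)] at n1
  have := h2 n
  linarith

end Fol

theorem fol_blk : St_FOL := by
  intro V _ G W _ cs T hT η hη
  obtain ⟨P, p1, p2, p3, p4⟩ := Fol.balls G cs.simple cs.simple_mul_simple_self (fun a b h => by
    have e := cs.simple_mul_simple_pow a b
    have e2 : racgMatrix G a b = 2 := by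
      change (if a = b then 1 else if G.Adj a b then 2 else 0) = 2
      rw [if_neg h.ne, if_pos h]
    rw [e2, sq] at e
    have e3 := eq_inv_of_mul_eq_one_left e
    rwa [mul_inv_rev, cs.inv_simple, cs.inv_simple] at e3) T hT
  obtain ⟨n, hn⟩ := Fol.slow (fun n => (P n).card) T.card (p1 0).card_pos p4
    (show 1 < 1 + η / 2 by linarith)
  refine ⟨P n, p1 n, fun a ha => ?_⟩
  rw [← coe_smul_finset, ← coe_symmDiff, Set.ncard_coe_finset]
  have e1 : cs.simple a • P n \ P n ⊆ P (n + 1) \ P n := by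
    refine sdiff_subset_sdiff (fun y hy => ?_) Subset.rfl
    obtain ⟨x, hx, rfl⟩ := mem_smul_finset.1 hy
    exact p3 n a ha x hx
  have e2 := card_le_card e1
  rw [card_sdiff_of_subset (p2 n)] at e2
  have e3 : (P n \ cs.simple a • P n).card = (cs.simple a • P n \ P n).card :=
    card_sdiff_comm (card_smul_finset _ _).symm
  have e4 : (cs.simple a • P n) ∆ P n ⊆ (cs.simple a • P n \ P n) ∪ (P n \ cs.simple a • P n) :=
    fun x hx => by simpa [mem_symmDiff] using hx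
  have e5 := (card_le_card e4).trans (card_union_le _ _)
  have e6 := card_le_card (p2 n)
  have e7 : ((cs.simple a • P n) ∆ P n).card + 2 * (P n).card ≤ 2 * (P (n + 1)).card := by omega
  have e8 : (((cs.simple a • P n) ∆ P n).card : ℝ) + 2 * (P n).card ≤ 2 * (P (n + 1)).card := by
    exact_mod_cast e7
  linarith

end Pool.Agent.Lib.MP_0af324_gt
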