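import Pool.Agent.Lib.MP_0af324_gt.RBlue

namespace Pool.Agent.Lib.MP_0af324_gt

open scoped Classical
open Finset

namespace Four

variable {V : Type} [Fintype V] {A : Finset V} {G : SimpleGraph V} {o : Ch V 4}
  {p : Fin 3 × Bool → V} {B B' : Finset V}

lemma res_dA (v : V) {k : ℕ} {c : Ch V (k + 1)} (h : IsAlt c) :
    res (fun T => v ∉ T) (dA c) = dA (res (fun T => v ∉ T) c) + lk v c := by
  funext r
  rw [Pi.add_apply, res_apply, dA_apply, dA_apply, lk_apply]
  simp only [res_apply, im_cons, mem_insert, not_or]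
  by_cases hv : v ∈ im r
  · have : c (Fin.cons v r) = 0 := by
      by_contra e
      have := (Fin.cons_injective_iff.1 (h.inj e)).1
      rw [← coe_im, mem_coe] at this
      exact this hv
    simp [hv, this]
  · simp only [hv, not_false_eq_true, and_true, if_true]
    rw [← add_sum_erase _ _ (mem_univ v), ← add_sum_erase _ _ (mem_univ v), if_neg (by simp),
      zero_add, add_comm]
    congr 1
    exact sum_congr rfl fun x hx => (if_pos (ne_of_mem_erase hx).symm).symm

omit [Fintype V] in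
lemma res_self {K P : Finset V → Prop} {k : ℕ} {c : Ch V k} (hc : c ∈ Cs K k)
    (h : ∀ T, T.card = k → K T → P T) : res P c = c := by
  funext l
  rw [res_apply]
  by_cases e : c l = 0
  · simp [e]
  · exact if_pos (h _ (card_im (hc.1.inj e)) (hc.2 l e))

omit [Fintype V] in
lemma res_zero {K P : Finset V → Prop} {k : ℕ} {c : Ch V k} (hc : c ∈ Cs K k)
    (h : ∀ T, T.card = k → K T → ¬ P T) : res P c = 0 :=
  Cs.eq_zero (res_mem P hc) fun T hT hT' => h T hT hT'.1 hT'.2

omit [Fintype V] in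
lemma clique_le (hp : Oct A G p) {T : Finset V} (hT : T ⊆ univ.image p)
    (hc : G.IsClique (T : Set V)) : T.card ≤ 3 := by
  obtain ⟨U, -, rfl⟩ := subset_image_iff.1 hT
  refine card_image_le.trans ((card_le_card_of_injOn (t := (univ : Finset (Fin 3))) Prod.fst
    (fun _ _ => mem_coe.2 (mem_univ _)) fun u hu w hw e => ?_).trans (by simp))
  by_contra h
  exact (hp.adj u w).1 (hc (mem_coe.2 (mem_image_of_mem p hu)) (mem_coe.2 (mem_image_of_mem p hw))
    fun e' => h (hp.inj e')) e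

omit [Fintype V] in
lemma oct_sub (hp : Oct A G p) : univ.image p ⊆ A := by
  intro x hx
  obtain ⟨u, -, rfl⟩ := mem_image.1 hx
  exact hp.mem u

omit [Fintype V] in
lemma hat_oct (hp : Oct A G p) {T : Finset V} (hT : T ⊆ univ.image p) : Hat A G T := by
  refine ⟨hT.trans (oct_sub hp), fun a ha b hb c hc hab hac h1 h2 => ?_⟩
  obtain ⟨⟨u, u'⟩, -, rfl⟩ := mem_image.1 (hT ha)
  obtain ⟨⟨w, w'⟩, -, rfl⟩ := mem_image.1 (hT hb)
  obtain ⟨⟨z, z'⟩, -, rfl⟩ := mem_image.1 (hT hc)
  rw [hp.adj, not_not] at h1 h2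
  simp only at h1 h2
  subst h1 h2
  cases u' <;> cases w' <;> cases z' <;> simp_all

lemma side (hp : Oct A G p) (hc : Cut A G o (univ.image p) B B') {T : Finset V}
    (hT : T.card = 4) (h : Cl A G T) :
    (T ⊆ univ.image p ∪ B ↔ ¬ T ⊆ univ.image p ∪ B') ∧
      (T ⊆ univ.image p ∪ B' → ∃ x ∈ T, x ∈ B') := by
  obtain ⟨x, hx, hx'⟩ : ∃ x ∈ T, x ∉ univ.image p := not_subset.1 fun e => by
    have := clique_le hp e h.2
    omega
  refine ⟨⟨fun h1 h2 => ?_, fun h1 y hy => ?_⟩,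
    fun h1 => ⟨x, hx, (mem_union.1 (h1 hx)).resolve_left hx'⟩⟩
  · exact (hc.dis x ((mem_union.1 (h1 hx)).resolve_left hx')).2
      ((mem_union.1 (h2 hx)).resolve_left hx')
  · obtain ⟨z, hz, hz'⟩ := not_subset.1 h1
    rw [mem_union, not_or] at hz'
    have hzB : z ∈ B := by
      have := (hc.cover z).1 (h.1 hz)
      tauto
    have : y ∉ B' := fun e => hc.sep z hzB y e
      (h.2 (mem_coe.2 hz) (mem_coe.2 hy) fun e' => hz'.2 (e' ▸ e))
    have := (hc.cover y).1 (h.1 hy)
    rw [mem_union]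
    tauto

lemma split (ho : o ∈ Cs (Cl A G) 4) (hp : Oct A G p) (hc : Cut A G o (univ.image p) B B') :
    res (· ⊆ univ.image p ∪ B) o + res (· ⊆ univ.image p ∪ B') o = o := by
  funext l
  rw [Pi.add_apply, res_apply, res_apply]
  by_cases e : o l = 0
  · simp [e]
  · have := (side hp hc (card_im (ho.1.inj e)) (ho.2 l e)).1
    by_cases h : im l ⊆ univ.image p ∪ B'
    · rw [if_pos h, if_neg (fun h' => this.1 h' h), zero_add]
    · rw [if_neg h, if_pos (this.2 h), add_zero]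

lemma split_bd (hm : PM A G o) (hp : Oct A G p) (hc : Cut A G o (univ.image p) B B') :
    dA (res (· ⊆ univ.image p ∪ B') o) = -dA (res (· ⊆ univ.image p ∪ B) o) := by
  rw [eq_neg_iff_add_eq_zero, add_comm, ← map_add, split hm.mem hp hc, hm.cyc]

lemma cut_symm (hm : PM A G o) (hp : Oct A G p) (hc : Cut A G o (univ.image p) B B') :
    Cut A G o (univ.image p) B' B where
  cover x := by rw [hc.cover]; tauto
  dis x hx := ⟨hc.dis' x hx, fun h => (hc.dis x h).2 hx⟩
  dis' x hx := (hc.dis x hx).1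
  sep x hx y hy h := hc.sep y hy x hx h.symm
  apex κ h1 h2 := (hc.apex κ h1 h2).symm
  mem := split_bd hm hp hc ▸ neg_mem hc.mem
  unit l h1 h2 := by
    rw [split_bd hm hp hc, Pi.neg_apply]
    rcases hc.unit l h1 h2 with h | h <;> simp [h]

lemma far (hp : Oct A G p) (hc : Cut A G o (univ.image p) B B') (w : Fin 3 × Bool) :
    ∃ x ∈ B', G.Adj x (p w) := by
  have inj : Function.Injective fun i => p (i, w.2) := fun i j e => congrArg Prod.fst (hp.inj e)
  obtain ⟨-, x, hx, hx'⟩ := hc.apex (im fun i => p (i, w.2)) ⟨fun y hy => by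
      obtain ⟨i, rfl⟩ := mem_im.1 hy
      exact mem_image_of_mem p (mem_univ _), fun y hy z hz e => by
      obtain ⟨i, rfl⟩ := mem_im.1 (mem_coe.1 hy)
      obtain ⟨j, rfl⟩ := mem_im.1 (mem_coe.1 hz)
      exact (hp.adj _ _).2 fun e' => e (congrArg (fun i => p (i, w.2)) e')⟩ (card_im inj)
  exact ⟨x, hx, hx'.2 (mem_coe.2 (mem_insert_self _ _))
    (mem_coe.2 (mem_insert_of_mem (mem_im.2 ⟨w.1, rfl⟩)))
    fun e => hc.dis' x hx (e ▸ mem_image_of_mem p (mem_univ _))⟩

/-- Subsets of `O`, and cones over subsets of `O` with apex in `S`. -/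
def KK (G : SimpleGraph V) (O S T : Finset V) : Prop :=
  T ⊆ O ∨ ∃ u ∈ S, u ∈ T ∧ ∀ x ∈ T, x ≠ u → x ∈ O ∧ G.Adj u x

lemma fill_KK (hp : Oct A G p) (S : Finset V) (hS : ∀ u ∈ S, u ∈ A ∧ u ∉ univ.image p) :
    Fill (KK G (univ.image p) S) (Hat A G) 4 := by
  induction S using Finset.induction_on with
  | empty =>
    refine fill_cone (p (0, true)) (fun T _ hT => hat_oct hp (insert_subset
      (mem_image_of_mem p (mem_univ _)) (hT.resolve_right (by simp)))) 4
  | insert a S ha ih =>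
    obtain ⟨a1, a2⟩ := hS a (mem_insert_self _ _)
    refine fill_vertex (L := fun T => ∀ x ∈ T, x ∈ univ.image p ∧ G.Adj a x) a ?_ ?_
      (fun T hT => Or.inl fun x hx => (hT x hx).1) ?_ (ih fun u hu => hS u (mem_insert_of_mem hu))
    · intro c hc h0
      have hc' : c ∈ Cs (fun T => ∀ x ∈ T, x ∈ univ.image p ∧ G.Adj a x) 3 := by
        refine Cs.mono hc fun T _ hT x hx => ?_
        obtain ⟨u, -, -, hu⟩ := hT.2.resolve_left fun e => a2 (e (mem_insert_self _ _))
        obtain rfl : a = u := by_contra fun e => a2 (hu a (mem_insert_self _ _) e).1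
        exact hu x (mem_insert_of_mem hx) fun e => hT.1 (e ▸ hx)
      by_cases hz : ∃ z, z ∈ univ.image p ∧ G.Adj a z
      · obtain ⟨z, hz⟩ := hz
        exact fill_cone z (fun T _ hT x hx => (mem_insert.1 hx).elim (fun e => e ▸ hz) (hT x))
          3 c hc' h0
      · refine ⟨0, zero_mem _, ?_⟩
        rw [map_zero]
        refine (Cs.eq_zero hc' fun T hT hT' => ?_).symm
        obtain ⟨x, hx⟩ := card_pos.1 (show 0 < T.card by omega)
        exact hz ⟨x, hT' x hx⟩
    · intro T _ hT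
      have h := hat_oct hp (T := T) fun x hx => (hT x hx).1
      refine ⟨insert_subset a1 h.1, fun x hx y hy z hz hxy hxz h1 h2 => ?_⟩
      rcases mem_insert.1 hx with rfl | hx
      · exact absurd (hT y ((mem_insert.1 hy).resolve_left hxy.symm)).2 h1
      · exact h.2 x hx y ((mem_insert.1 hy).resolve_left fun e => h1 (e ▸ (hT x hx).2.symm)) z
          ((mem_insert.1 hz).resolve_left fun e => h2 (e ▸ (hT x hx).2.symm)) hxy hxz h1 h2
    · rintro T hT (h | ⟨u, hu, h1, h2⟩)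
      · exact Or.inl h
      · exact Or.inr ⟨u, (mem_insert.1 hu).resolve_left fun e => hT (e ▸ h1), h1, h2⟩

/-- The map collapsing `B'` to `v`. -/
noncomputable def col (B' : Finset V) (v x : V) : V := if x ∈ B' then v else x

lemma col_hat {O : Finset V} (hc : Cut A G o O B B') {v : V} (hv : v ∈ B') {T : Finset V}
    (hT : Hat A G T) : Hat (insert v (O ∪ B)) (capG G O v) (T.image (col B' v)) := by
  have key : ∀ x ∈ A, ∀ y ∈ A, col B' v x ≠ col B' v y → G.Adj x y →
      (capG G O v).Adj (col B' v x) (col B' v y) := by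
    intro x hx y hy hne h
    refine ⟨hne, ?_⟩
    have h1 := (hc.cover x).1 hx
    have h2 := (hc.cover y).1 hy
    have h3 := fun a b => hc.sep x a y b h
    have h4 := fun a b => hc.sep y a x b h.symm
    unfold col at hne ⊢
    by_cases e1 : x ∈ B' <;> by_cases e2 : y ∈ B'
    · simp [e1, e2] at hne
    · rw [if_pos e1, if_neg e2]
      exact .inr (.inl ⟨rfl, by tauto⟩)
    · rw [if_neg e1, if_pos e2]
      exact .inr (.inr ⟨rfl, by tauto⟩)
    · rw [if_neg e1, if_neg e2]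
      exact .inl ⟨fun e => e1 (e ▸ hv), fun e => e2 (e ▸ hv), h⟩
  refine ⟨fun x hx => ?_, fun a ha b hb c hc' hab hac h1 h2 => ?_⟩
  · obtain ⟨y, hy, rfl⟩ := mem_image.1 hx
    have := (hc.cover y).1 (hT.1 hy)
    unfold col
    split_ifs with e
    · exact mem_insert_self _ _
    · exact mem_insert_of_mem (mem_union.2 (by tauto))
  · obtain ⟨a, ga, rfl⟩ := mem_image.1 ha
    obtain ⟨b, gb, rfl⟩ := mem_image.1 hb
    obtain ⟨c, gc, rfl⟩ := mem_image.1 hc'
    rw [hT.2 a ga b gb c gc (fun e => hab (e ▸ rfl)) (fun e => hac (e ▸ rfl))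
      (fun e => h1 (key a (hT.1 ga) b (hT.1 gb) hab e))
      (fun e => h2 (key a (hT.1 ga) c (hT.1 gc) hac e))]

lemma pf_col (hm : PM A G o) (hp : Oct A G p) (hc : Cut A G o (univ.image p) B B') {v : V}
    (hv : v ∈ B') : pf (col B' v) o = res (· ⊆ univ.image p ∪ B) o -
      cone v (dA (res (· ⊆ univ.image p ∪ B) o)) := by
  have hO : ∀ x ∈ univ.image p ∪ B, col B' v x = x := fun x hx => if_neg fun e =>
    (mem_union.1 hx).elim (hc.dis' x e) fun h => (hc.dis x h).2 e
  have h1 : pf (col B' v) (res (· ⊆ univ.image p ∪ B) o) = res (· ⊆ univ.image p ∪ B) o :=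
    pf_eq_self _ fun l hl i => hO _ (((res_mem _ hm.mem).2 l hl).2 (mem_im.2 ⟨i, rfl⟩))
  have h2 : pf (col B' v) (res (· ⊆ univ.image p ∪ B') o) ∈ Cs (v ∈ ·) 4 := by
    refine pf_mem (K := fun T => ∃ x ∈ T, x ∈ B') _ (Cs.mono (res_mem _ hm.mem)
      fun T hT h => (side hp hc hT h.1).2 h.2) ?_
    rintro T ⟨x, hx, hx'⟩
    exact mem_image.2 ⟨x, hx, if_pos hx'⟩
  have h3 := res_dA v h2.1
  rw [res_zero h2 (fun T _ h => not_not.2 h), map_zero, zero_add, dA_pf, split_bd hm hp hc, map_neg,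
    pf_eq_self _ (fun l hl i => hO _ (mem_union_left _ ((hc.mem.2 l hl).1 (mem_im.2 ⟨i, rfl⟩)))),
    map_neg, res_self hc.mem fun T _ h e => hc.dis' v hv (h.1 e)] at h3
  have h4 := cone_lk v h2.1
  rw [← h3, res_self h2 fun _ _ h => h, map_neg] at h4
  conv_lhs => rw [← split hm.mem hp hc]
  rw [map_add, h1, ← h4, sub_eq_add_neg]

lemma half (hm : PM A G o) (hp : Oct A G p) (hc : Cut A G o (univ.image p) B B') {v : V}
    (hv : v ∈ B') {D : Ch V 5}
    (hD : D ∈ Cs (Hat (insert v (univ.image p ∪ B)) (capG G (univ.image p) v)) 5)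
    (hD' : dA D = res (· ⊆ univ.image p ∪ B) o - cone v (dA (res (· ⊆ univ.image p ∪ B) o))) :
    ∃ E ∈ Cs (Hat A G) 5, dA E = res (· ⊆ univ.image p ∪ B) o -
      cone (p (0, true)) (dA (res (· ⊆ univ.image p ∪ B) o)) := by
  have hvO : v ∉ univ.image p := hc.dis' v hv
  have hvB : v ∉ B := fun e => (hc.dis v e).2 hv
  have hsub : univ.image p ∪ B ⊆ A := fun x hx => (hc.cover x).2 (by
    rw [mem_union] at hx; tauto)
  have h1 := res_dA v hD.1
  rw [hD', map_sub, res_self (res_mem (· ⊆ univ.image p ∪ B) hm.mem)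
    (fun T _ h e => (mem_union.1 (h.2 e)).elim hvO hvB),
    res_zero (cone_mem (K' := (v ∈ ·)) v hc.mem fun T _ _ => mem_insert_self _ _)
      (fun T _ h => not_not.2 h), sub_zero] at h1
  have h2 : res (fun T => v ∉ T) D ∈ Cs (Hat A G) 5 := by
    refine Cs.mono (res_mem _ hD) fun T _ h => ⟨fun x hx => hsub
      ((mem_insert.1 (h.1.1 hx)).resolve_left fun e => h.2 (e ▸ hx)),
      fun a ha b hb c hc' hab hac e1 e2 => h.1.2 a ha b hb c hc' hab hac ?_ ?_⟩
    · rintro ⟨-, h' | h' | h'⟩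
      exacts [e1 h'.2.2, h.2 (h'.1 ▸ ha), h.2 (h'.1 ▸ hb)]
    · rintro ⟨-, h' | h' | h'⟩
      exacts [e2 h'.2.2, h.2 (h'.1 ▸ ha), h.2 (h'.1 ▸ hc')]
  have h3 : lk v D ∈ Cs (KK G (univ.image p) B) 4 := by
    refine Cs.mono (lk_mem v hD) fun T _ h => ?_
    by_cases e : T ⊆ univ.image p
    · exact Or.inl e
    obtain ⟨u, hu, hu'⟩ := not_subset.1 e
    have hne : ∀ x ∈ T, x ≠ v := fun x hx e => h.1 (e ▸ hx)
    have hna : ∀ x ∈ T, x ∉ univ.image p → ¬ (capG G (univ.image p) v).Adj v x := by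
      rintro x hx hx' ⟨-, h' | h' | h'⟩
      exacts [h'.1 rfl, hx' h'.2, hne x hx h'.1]
    refine Or.inr ⟨u, (mem_union.1 ((mem_insert.1 (h.2.1 (mem_insert_of_mem hu))).resolve_left
      (hne u hu))).resolve_left hu', hu, fun x hx hxu => ⟨by_contra fun e => hxu ?_,
      by_contra fun e => hne x hx ?_⟩⟩
    · exact h.2.2 v (mem_insert_self _ _) x (mem_insert_of_mem hx) u (mem_insert_of_mem hu)
        (hne x hx).symm (hne u hu).symm (hna x hx e) (hna u hu hu')
    · refine h.2.2 u (mem_insert_of_mem hu) x (mem_insert_of_mem hx) v (mem_insert_self _ _)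
        hxu.symm (hne u hu) ?_ fun e' => hna u hu hu' e'.symm
      rintro ⟨-, h' | h' | h'⟩
      exacts [e h'.2.2, hne u hu h'.1, hne x hx h'.1]
  obtain ⟨b, hb, hb'⟩ := fill_KK hp B
    (fun u hu => ⟨hsub (mem_union_right _ hu), (hc.dis u hu).1⟩)
    (lk v D - cone (p (0, true)) (dA (res (· ⊆ univ.image p ∪ B) o)))
    (sub_mem h3 (cone_mem _ hc.mem fun T _ h =>
      Or.inl (insert_subset (mem_image_of_mem p (mem_univ _)) h.1))) (by
      change dA _ = 0
      rw [map_sub, dA_cone _ hc.mem.1, dA_dA (res_mem _ hm.mem).1, map_zero, sub_zero, h1, map_add,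
        dA_dA h2.1, zero_add, sub_self])
  exact ⟨_ + b, add_mem h2 hb, by rw [map_add, hb', ← add_sub_assoc, ← h1]⟩

end Four

open Four in
theorem four_blk (h1 : St_CUT) (h2 : St_CAP) (h3 : St_SUSP) : St_FOUR := by
  intro V _ A G o hm m D hm0 hD hD'
  induction hn : A.card using Nat.strong_induction_on generalizing A G o D with
  | _ n ih =>
  by_cases h : ∀ p, Oct A G p → ∃ u ∈ A, ∀ w, G.Adj u (p w)
  · exact h3 V A G o hm h m D hm0 hD hD'
  push Not at h
  obtain ⟨p, hp, hp'⟩ := h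
  have key : ∀ B B', Cut A G o (univ.image p) B B' → ∃ E ∈ Cs (Hat A G) 5,
      dA E = res (· ⊆ univ.image p ∪ B) o -
        cone (p (0, true)) (dA (res (· ⊆ univ.image p ∪ B) o)) := by
    intro B B' hc
    obtain ⟨v, hv, -⟩ := far hp hc (0, true)
    have hA : ∀ x ∈ B', x ∈ A := fun x hx => (hc.cover x).2 (.inr (.inr hx))
    obtain ⟨w, hw⟩ := hp' v (hA v hv)
    obtain ⟨x, hx, hx'⟩ := far hp hc w
    have hlt : (insert v (univ.image p ∪ B)).card < n := by
      rw [← hn]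
      refine card_lt_card ((ssubset_iff_of_subset (insert_subset (hA v hv) fun y hy =>
        (hc.cover y).2 (by rw [mem_union] at hy; tauto))).2 ⟨x, hA x hx, fun e => ?_⟩)
      rcases mem_insert.1 e with rfl | e
      · exact hw hx'
      · exact (mem_union.1 e).elim (hc.dis' x hx) fun e => (hc.dis x e).2 hx
    obtain ⟨D', a1, a2⟩ := ih _ hlt _ _ _ (h2 V A G o p B B' v hm hp hc hv) (pf (col B' v) D)
      (pf_mem _ hD fun T hT => col_hat hc hv hT)
      (by rw [dA_pf, hD', map_zsmul, pf_col hm hp hc hv]) rfl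
    exact half hm hp hc hv a1 a2
  obtain ⟨B, B', hc⟩ := h1 V A G o p hm hp
  obtain ⟨E, a1, a2⟩ := key B B' hc
  obtain ⟨E', b1, b2⟩ := key B' B (cut_symm hm hp hc)
  refine ⟨E + E', add_mem a1 b1, ?_⟩
  rw [map_add, a2, b2, split_bd hm hp hc, map_neg]
  conv_rhs => rw [← split hm.mem hp hc]
  abel

end Pool.Agent.Lib.MP_0af324_gt
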