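import Pool.Agent.Lib.MP_0af324_gt.RBlue

namespace Pool.Agent.Lib.MP_0af324_gt

open scoped Classical
open Finset

namespace PsiB

set_option linter.unusedSectionVars false

variable {V : Type} [Fintype V] {G : SimpleGraph V}

/-- The chosen point of a nonempty set. -/
def IsPick (A : Finset V) (x : V) : Prop := ∃ h : A.Nonempty, x = h.choose

lemma IsPick.mem {A : Finset V} {x : V} (h : IsPick A x) : x ∈ A := by
  obtain ⟨h, rfl⟩ := h
  exact h.choose_spec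

lemma IsPick.eq {A : Finset V} {x y : V} (h : IsPick A x) (h' : IsPick A y) : x = y := by
  obtain ⟨h, rfl⟩ := h
  obtain ⟨h', rfl⟩ := h'
  rfl

/-- The complement graph is connected on `K`. -/
def Coconn (G : SimpleGraph V) (K : Finset V) : Prop :=
  ∀ A ⊆ K, A.Nonempty → A ≠ K → ∃ a ∈ A, ∃ b ∈ K, b ∉ A ∧ ¬ G.Adj a b

/-- Join factors of `U`. -/
def Fac (G : SimpleGraph V) (U K : Finset V) : Prop :=
  K ⊆ U ∧ ∀ u ∈ U, u ∉ K → ∀ z ∈ K, G.Adj u z

/-- Irreducible join factors on which the tuple takes two values. -/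
def Block (G : SimpleGraph V) {k : ℕ} (τ : Fin k → Finset V) (K : Finset V) : Prop :=
  Fac G (un τ) K ∧ 2 ≤ K.card ∧ Coconn G K ∧ ∃ α β, ∀ i, τ i ∩ K = α ∨ τ i ∩ K = β

/-- The carrier. -/
def Car (G : SimpleGraph V) {k : ℕ} (τ : Fin k → Finset V) (T : Finset V) : Prop :=
  Hat (un τ) G T ∧ ∀ K, Block G τ K →
    (∃ i, T ∩ K ⊆ τ i) ∨ ∀ x ∈ T ∩ K, ∃ i, IsPick (τ i ∩ K) x

lemma mem_un {k : ℕ} {τ : Fin k → Finset V} {x : V} : x ∈ un τ ↔ ∃ i, x ∈ τ i := by simp [un]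

lemma un_comp {k m : ℕ} (τ : Fin k → Finset V) (e : Fin m → Fin k) : un (τ ∘ e) ⊆ un τ :=
  fun _ hx => (mem_un.1 hx).elim fun i hi => mem_un.2 ⟨e i, hi⟩

lemma Car.sub {k : ℕ} {τ : Fin k → Finset V} {T T' : Finset V} (h : Car G τ T) (hT : T' ⊆ T) :
    Car G τ T' := by
  refine ⟨⟨hT.trans h.1.1, fun a ha b hb c hc => h.1.2 a (hT ha) b (hT hb) c (hT hc)⟩,
    fun K hK => ?_⟩
  have := inter_subset_inter_right (u := K) hT
  exact (h.2 K hK).imp (fun ⟨i, hi⟩ => ⟨i, this.trans hi⟩) fun h x hx => h x (this hx)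

lemma car_empty {k : ℕ} (τ : Fin k → Finset V) : Car G τ ∅ :=
  ⟨⟨empty_subset _, by simp⟩, fun _ _ => .inr (by simp)⟩

lemma Car.mono {k m : ℕ} {τ : Fin k → Finset V} (e : Fin m → Fin k) {T : Finset V}
    (h : Car G (τ ∘ e) T) : Car G τ T := by
  refine ⟨⟨h.1.1.trans (un_comp τ e), h.1.2⟩, fun K hK => ?_⟩
  obtain ⟨⟨h1, h2⟩, h3, h4, α, β, h5⟩ := hK
  by_cases hK : K ⊆ un (τ ∘ e)
  · exact (h.2 K ⟨⟨hK, fun u hu => h2 u (un_comp τ e hu)⟩, h3, h4, α, β, fun i => h5 (e i)⟩).imp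
      (fun ⟨i, hi⟩ => ⟨e i, hi⟩) fun h x hx => (h x hx).elim fun i hi => ⟨e i, hi⟩
  · obtain ⟨x, hx, hx'⟩ := not_subset.1 hK
    obtain ⟨j, hj⟩ := mem_un.1 (h1 hx)
    have hne : ∀ i, τ (e i) ∩ K ≠ τ j ∩ K := fun i h' => hx' (mem_un.2 ⟨i,
      (mem_inter.1 (h' ▸ mem_inter.2 ⟨hj, hx⟩ : x ∈ τ (e i) ∩ K)).1⟩)
    rcases (T ∩ K).eq_empty_or_nonempty with h0 | ⟨y, hy⟩
    · exact .inr (by simp [h0])
    · obtain ⟨i0, -⟩ := mem_un.1 (h.1.1 (mem_inter.1 hy).1)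
      refine .inl ⟨e i0, fun z hz => ?_⟩
      obtain ⟨i, hi⟩ := mem_un.1 (h.1.1 (mem_inter.1 hz).1)
      have : τ (e i) ∩ K = τ (e i0) ∩ K := by
        have a1 := hne i
        have a2 := hne i0
        rcases h5 (e i) with b1 | b1 <;> rcases h5 (e i0) with b2 | b2 <;>
          rcases h5 j with b3 | b3 <;> simp_all
      exact (mem_inter.1 (this ▸ mem_inter.2 ⟨hi, (mem_inter.1 hz).2⟩ : z ∈ τ (e i0) ∩ K)).1

lemma null_comp {k m : ℕ} {τ : Fin k → Finset V} (e : Fin m → Fin k) (h : Null G τ) :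
    Null G (τ ∘ e) := by
  obtain ⟨h1, Z, α, β, h2, h3, h4, h5⟩ := h
  exact ⟨fun i => h1 (e i), Z, α, β, h2, h3, fun i => h4 (e i),
    fun u hu hu' z hz => h5 u (un_comp τ e hu) hu' z (un_comp τ e hz)⟩

lemma Coconn.nonadj {K : Finset V} (h : Coconn G K) (h2 : 2 ≤ K.card) {x : V} (hx : x ∈ K) :
    ∃ b ∈ K, x ≠ b ∧ ¬ G.Adj x b := by
  obtain ⟨a, ha, b, hb, hb', hab⟩ := h {x} (singleton_subset_iff.2 hx) (singleton_nonempty x)
    (fun e => by rw [← e, card_singleton] at h2; omega)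
  rw [mem_singleton] at ha hb'
  exact ⟨b, hb, fun e => hb' e.symm, ha ▸ hab⟩

lemma Coconn.sub {U K K' : Finset V} (h : Coconn G K') (h' : K' ⊆ U) (hK : Fac G U K) {x : V}
    (hx : x ∈ K) (hx' : x ∈ K') : K' ⊆ K := by
  by_contra hn
  obtain ⟨a, ha, b, hb, hb', hab⟩ := h (K ∩ K') inter_subset_right ⟨x, mem_inter.2 ⟨hx, hx'⟩⟩
    (fun e => hn (e ▸ inter_subset_left))
  exact hab (hK.2 b (h' hb) (fun e => hb' (mem_inter.2 ⟨e, hb⟩)) a (mem_inter.1 ha).1).symm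

lemma car_insert {k : ℕ} {τ : Fin k → Finset V} {T K : Finset V} (hF : Fac G (un τ) K)
    (hC : Coconn G K) (h : Car G τ T) {x : V} (hx : x ∈ K)
    (h1 : ∀ a ∈ insert x T ∩ K, ∀ b ∈ insert x T ∩ K, ∀ c ∈ insert x T ∩ K, a ≠ b → a ≠ c →
      ¬ G.Adj a b → ¬ G.Adj a c → b = c)
    (h2 : 2 ≤ K.card →
      (∃ i, insert x T ∩ K ⊆ τ i) ∨ ∀ y ∈ insert x T ∩ K, ∃ i, IsPick (τ i ∩ K) y) :
    Car G τ (insert x T) := by
  have hU : insert x T ⊆ un τ := insert_subset (hF.1 hx) h.1.1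
  refine ⟨⟨hU, fun a ha b hb c hc hab hac nab nac => ?_⟩, fun K' hK' => ?_⟩
  · by_cases haK : a ∈ K
    · have hb' : b ∈ K := by_contra fun e => nab (hF.2 b (hU hb) e a haK).symm
      have hc' : c ∈ K := by_contra fun e => nac (hF.2 c (hU hc) e a haK).symm
      exact h1 a (mem_inter.2 ⟨ha, haK⟩) b (mem_inter.2 ⟨hb, hb'⟩) c (mem_inter.2 ⟨hc, hc'⟩)
        hab hac nab nac
    · have hb' : b ∉ K := fun e => nab (hF.2 a (hU ha) haK b e)
      have hc' : c ∉ K := fun e => nac (hF.2 a (hU ha) haK c e)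
      have key : ∀ z ∈ insert x T, z ∉ K → z ∈ T := fun z hz hz' =>
        (mem_insert.1 hz).resolve_left fun e => hz' (e ▸ hx)
      exact h.1.2 a (key a ha haK) b (key b hb hb') c (key c hc hc') hab hac nab nac
  · by_cases hx' : x ∈ K'
    · obtain rfl : K = K' :=
        Subset.antisymm (hC.sub hF.1 hK'.1 hx' hx) (hK'.2.2.1.sub hK'.1.1 hF hx hx')
      exact h2 hK'.2.1
    · rw [insert_inter_of_notMem hx']
      exact h.2 K' hK'

lemma fill_two {C A B : Finset V → Prop} (P : Finset V → Prop) (s t : V) (h0 : A ∅)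
    (hA : ∀ T, C T ∧ P T → A T) (hB : ∀ T, C T ∧ ¬ P T → B T)
    (hA' : ∀ x T, A (insert x T) → A T) (hB' : ∀ x T, B (insert x T) → B T)
    (hs : ∀ T, A T → C (insert s T)) (ht : ∀ T, B T → C (insert t T))
    (hAB : ∀ T, A T ∧ B T → B (insert s T)) : ∀ m, Fill C C m
  | 0 => fun c _ _ => ⟨cone s c, cone_mem s (mem_Cs_zero h0 c) fun T _ => hs T, dA_cone_zero s c⟩
  | m + 1 => fun c hc hcyc => by
    have h1 : res P c ∈ Cs A (m + 1) := Cs.mono (res_mem P hc) fun T _ => hA T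
    have h2 : res (fun T => ¬ P T) c ∈ Cs B (m + 1) := Cs.mono (res_mem _ hc) fun T _ => hB T
    have h3 := res_add_not P c
    have h4 : dA (res P c) = -dA (res (fun T => ¬ P T) c) := by
      rw [eq_neg_iff_add_eq_zero, ← map_add, h3]
      exact hcyc
    have h5 : dA (res P c) ∈ Cs (fun T => A T ∧ B T) m :=
      Cs.inter (dA_mem h1 fun x T _ => hA' x T) (h4 ▸ neg_mem (dA_mem h2 fun x T _ => hB' x T))
    have h6 : res (fun T => ¬ P T) c + cone s (dA (res P c)) ∈ Cs B (m + 1) :=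
      add_mem h2 (cone_mem s h5 fun T _ => hAB T)
    refine ⟨cone s (res P c) + cone t (res (fun T => ¬ P T) c + cone s (dA (res P c))),
      add_mem (cone_mem s h1 fun T _ => hs T) (cone_mem t h6 fun T _ => ht T), ?_⟩
    rw [map_add, dA_cone s h1.1, dA_cone_cyc t h6.1]
    · conv_rhs => rw [← h3]
      abel
    · change dA _ = 0
      rw [map_add, dA_cone_cyc s h5.1 (cyc_dA h1.1), h4, add_neg_cancel]

lemma fill_car {k : ℕ} {τ : Fin (k + 1) → Finset V} (h : Null G τ) (m : ℕ) :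
    Fill (Car G τ) (Car G τ) m := by
  obtain ⟨hcl, Z, α, β, hα, hβ, hv, hZ⟩ := h
  obtain ⟨K, hK, hmin⟩ := exists_min_image
    (univ.filter fun K : Finset V => K.Nonempty ∧ K ⊆ Z ∧ Fac G (un τ) K) card ⟨un τ ∩ Z, by
      refine mem_filter.2 ⟨mem_univ _, ?_, inter_subset_right, inter_subset_left,
        fun u hu hu' z hz => hZ u hu (fun e => hu' (mem_inter.2 ⟨hu, e⟩)) z (mem_inter.1 hz).1
          (mem_inter.1 hz).2⟩
      have : (τ 0 ∩ Z).Nonempty := by rcases hv 0 with e | e <;> rwa [e]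
      obtain ⟨x, hx⟩ := this
      exact ⟨x, mem_inter.2 ⟨mem_un.2 ⟨0, (mem_inter.1 hx).1⟩, (mem_inter.1 hx).2⟩⟩⟩
  obtain ⟨-, hne, hKZ, hF⟩ := mem_filter.1 hK
  have hC : Coconn G K := by
    intro A hA hA' hAK
    by_contra hn
    push Not at hn
    have := hmin A (mem_filter.2 ⟨mem_univ _, hA', hA.trans hKZ, hA.trans hF.1,
      fun u hu hu' z hz => by
        by_cases e : u ∈ K
        exacts [(hn z hz u e hu').symm, hF.2 u hu e z (hA hz)]⟩)
    exact hAK (eq_of_subset_of_card_le hA this)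
  rcases Nat.lt_or_ge K.card 2 with h2 | h2
  · obtain ⟨u, hu⟩ := hne
    refine fill_cone u (fun T _ hT => car_insert hF hC hT hu (fun a ha b hb c hc hab => ?_)
      fun h => by omega) m
    exact absurd (card_le_one.1 (by omega : K.card ≤ 1) a (mem_inter.1 ha).2 b
      (mem_inter.1 hb).2) hab
  have hval : ∀ i, τ i ∩ K = α ∩ K ∨ τ i ∩ K = β ∩ K := fun i => by
    have : τ i ∩ K = τ i ∩ Z ∩ K := by rw [inter_assoc, inter_eq_right.2 hKZ]
    rw [this]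
    exact (hv i).imp (fun e => by rw [e]) fun e => by rw [e]
  have hBl : Block G τ K := ⟨hF, h2, hC, _, _, hval⟩
  have hncl : ∀ i, ¬ K ⊆ τ i := fun i e => by
    obtain ⟨x, hx⟩ := hne
    obtain ⟨b, hb, h1, h3⟩ := hC.nonadj h2 hx
    exact h3 (hcl i (e hx) (e hb) h1)
  obtain ⟨y, hy, hy'⟩ := not_subset.1 (hncl 0)
  obtain ⟨j, hj⟩ := mem_un.1 (hF.1 hy)
  have hab : τ 0 ∩ K ≠ τ j ∩ K := fun e =>
    hy' (mem_inter.1 (e ▸ mem_inter.2 ⟨hj, hy⟩ : y ∈ τ 0 ∩ K)).1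
  have hval' : ∀ i, τ i ∩ K = τ 0 ∩ K ∨ τ i ∩ K = τ j ∩ K := fun i => by
    rcases hval i with b1 | b1 <;> rcases hval 0 with b2 | b2 <;>
      rcases hval j with b3 | b3 <;> simp_all
  have hcov : ∀ x ∈ K, x ∈ τ 0 ∨ x ∈ τ j := fun x hx => by
    obtain ⟨i, hi⟩ := mem_un.1 (hF.1 hx)
    have : x ∈ τ i ∩ K := mem_inter.2 ⟨hi, hx⟩
    exact (hval' i).imp (fun e => (mem_inter.1 (e ▸ this)).1) fun e => (mem_inter.1 (e ▸ this)).1
  have hdis : ∀ x ∈ K, x ∈ τ 0 → x ∉ τ j := fun x hx h0 h1 => by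
    obtain ⟨b, hb, h3, h4⟩ := hC.nonadj h2 hx
    exact (hcov b hb).elim (fun e => h4 (hcl 0 h0 e h3)) fun e => h4 (hcl j h1 e h3)
  have ha : (τ 0 ∩ K).Nonempty := by
    obtain ⟨x, hx, hx'⟩ := not_subset.1 (hncl j)
    exact ⟨x, mem_inter.2 ⟨(hcov x hx).resolve_right hx', hx⟩⟩
  have hb : (τ j ∩ K).Nonempty := ⟨y, mem_inter.2 ⟨hj, hy⟩⟩
  obtain ⟨s, hs⟩ : ∃ s, IsPick (τ 0 ∩ K) s := ⟨_, ha, rfl⟩
  obtain ⟨t, ht⟩ : ∃ t, IsPick (τ j ∩ K) t := ⟨_, hb, rfl⟩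
  obtain ⟨hs0, hsK⟩ := mem_inter.1 hs.mem
  obtain ⟨htj, htK⟩ := mem_inter.1 ht.mem
  have ins1 : ∀ T x i, Car G τ T → x ∈ K → x ∈ τ i → T ∩ K ⊆ τ i →
      Car G τ (insert x T) ∧ insert x T ∩ K ⊆ τ i := fun T x i hT hx hxi hTi => by
    have e : insert x T ∩ K ⊆ τ i := by
      rw [insert_inter_of_mem hx]
      exact insert_subset hxi hTi
    exact ⟨car_insert hF hC hT hx (fun a ha b hb _ _ hab _ nab _ =>
      absurd (hcl i (e ha) (e hb) hab) nab) fun _ => .inl ⟨i, e⟩, e⟩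
  have ins2 : ∀ T x, Car G τ T → x ∈ ({s, t} : Finset V) → T ∩ K ⊆ {s, t} →
      Car G τ (insert x T) ∧ insert x T ∩ K ⊆ {s, t} := fun T x hT hx hTi => by
    have hxK : x ∈ K := by
      rcases mem_insert.1 hx with rfl | hx
      exacts [hsK, mem_singleton.1 hx ▸ htK]
    have e : insert x T ∩ K ⊆ {s, t} := by
      rw [insert_inter_of_mem hxK]
      exact insert_subset hx hTi
    refine ⟨car_insert hF hC hT hxK (fun a ha b hb c hc hab hac _ _ => ?_)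
      fun _ => .inr fun z hz => ?_, e⟩
    · have a1 := e ha
      have a2 := e hb
      have a3 := e hc
      simp only [mem_insert, mem_singleton] at a1 a2 a3
      grind
    · rcases mem_insert.1 (e hz) with rfl | hz
      exacts [⟨0, hs⟩, ⟨j, mem_singleton.1 hz ▸ ht⟩]
  refine fill_two (A := fun T => Car G τ T ∧ T ∩ K ⊆ τ 0)
    (B := fun T => Car G τ T ∧ (T ∩ K ⊆ τ j ∨ T ∩ K ⊆ {s, t})) (fun T => T ∩ K ⊆ τ 0) s t
    ⟨car_empty τ, by simp⟩ (fun T h => h) ?_ ?_ ?_ (fun T h => (ins1 T s 0 h.1 hsK hs0 h.2).1)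
    (fun T h => h.2.elim (fun e => (ins1 T t j h.1 htK htj e).1)
      fun e => (ins2 T t h.1 (by simp) e).1) ?_ m
  · rintro T ⟨h1, h3⟩
    refine ⟨h1, (h1.2 K hBl).imp (fun h => ?_) fun h x hx => ?_⟩
    · obtain ⟨i, hi⟩ := h
      have e : T ∩ K ⊆ τ i ∩ K := subset_inter hi inter_subset_right
      rcases hval' i with e' | e'
      · exact absurd ((e' ▸ e).trans inter_subset_left) h3
      · exact (e' ▸ e).trans inter_subset_left
    · obtain ⟨i, hi⟩ := h x hx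
      rcases hval' i with e' | e'
      · rw [e'] at hi; rw [hi.eq hs]; simp
      · rw [e'] at hi; rw [hi.eq ht]; simp
  · exact fun x T h => ⟨h.1.sub (subset_insert _ _),
      (inter_subset_inter_right (subset_insert _ _)).trans h.2⟩
  · exact fun x T h => ⟨h.1.sub (subset_insert _ _),
      h.2.imp (inter_subset_inter_right (subset_insert _ _)).trans
        (inter_subset_inter_right (subset_insert _ _)).trans⟩
  · rintro T ⟨⟨h1, h3⟩, -, h4⟩
    have e : T ∩ K ⊆ {s, t} := h4.elim (fun e z hz =>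
      absurd (e hz) (hdis z (mem_inter.1 hz).2 (h3 hz))) id
    exact ⟨(ins2 T s h1 (by simp) e).1, .inr (ins2 T s h1 (by simp) e).2⟩

/-- The carried chains. -/
noncomputable def kap (G : SimpleGraph V) : (k : ℕ) → (Fin k → Finset V) → Ch V k
  | 0, _ => fun _ => 1
  | k + 1, τ => if h : Null G τ ∧ ∃ b ∈ Cs (Car G τ) (k + 1),
      dA b = lin (kap G k) (ob (Finsupp.single τ 1)) then h.2.choose else 0

lemma kap_mem : ∀ (k : ℕ) (τ : Fin k → Finset V), kap G k τ ∈ Cs (Car G τ) k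
  | 0, τ => mem_Cs_zero (car_empty τ) _
  | k + 1, τ => by
    rw [kap]
    split_ifs with h
    exacts [h.2.choose_spec.1, zero_mem _]

lemma bd_mem {k : ℕ} (τ : Fin (k + 1) → Finset V) :
    lin (kap G k) (ob (Finsupp.single τ 1)) ∈ Cs (Car G τ) k := by
  rw [lin_ob]
  exact sum_mem fun i _ => AddSubgroup.zsmul_mem _
    (Cs.mono (kap_mem k _) fun T _ h => h.mono _) _

lemma kap_bd : ∀ (k : ℕ) (τ : Fin (k + 1) → Finset V), Null G τ →
    dA (kap G (k + 1) τ) = lin (kap G k) (ob (Finsupp.single τ 1)) := by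
  have step : ∀ (k : ℕ) (τ : Fin (k + 1) → Finset V), Null G τ →
      Cyc (lin (kap G k) (ob (Finsupp.single τ 1))) →
      dA (kap G (k + 1) τ) = lin (kap G k) (ob (Finsupp.single τ 1)) := fun k τ h hc => by
    have h' : Null G τ ∧ ∃ b ∈ Cs (Car G τ) (k + 1),
        dA b = lin (kap G k) (ob (Finsupp.single τ 1)) := ⟨h, fill_car h k _ (bd_mem τ) hc⟩
    rw [kap, dif_pos h']
    exact h'.2.choose_spec.2
  intro k
  induction k with
  | zero => exact fun τ h => step 0 τ h trivial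
  | succ k ih =>
    refine fun τ h => step _ τ h ?_
    change dA _ = 0
    rw [← map_zero (lin (kap G k)), ← ob_ob (Finsupp.single τ 1), lin_ob, ob_single]
    simp only [map_sum, map_zsmul]
    exact sum_congr rfl fun i _ => by rw [ih _ (null_comp _ h)]

/-- The local degree map. -/
noncomputable def ff (G : SimpleGraph V) {k : ℕ} (τ : Fin (k + 1) → Finset V) : Ch V k :=
  (-1 : ℤ) ^ k • (lin (kap G k) (ob (Finsupp.single τ 1)) - dA (kap G (k + 1) τ))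

lemma lin_ff {k : ℕ} (y : OC (Finset V) (k + 1)) :
    lin (ff G) y = (-1 : ℤ) ^ k • (lin (kap G k) (ob y) - dA (lin (kap G (k + 1)) y)) :=
  hom_ext1 (F := lin (ff G))
    (G := (-1 : ℤ) ^ k • ((lin (kap G k)).comp ob - dA.comp (lin (kap G (k + 1)))))
    (fun s => by simp [ff]) y

end PsiB

open PsiB

theorem psi_blk : St_PSI := by
  intro V _ G
  refine ⟨⟨ff G, fun τ => ?_, fun {k} τ => ?_, fun τ h => ?_, ?_⟩⟩
  · exact Cs.mono (AddSubgroup.zsmul_mem _ (sub_mem (bd_mem τ)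
      (dA_mem (kap_mem _ τ) fun x T _ h => h.sub (subset_insert _ _))) _) fun T _ h => h.1
  · rw [lin_ff, ob_ob, ff, map_zsmul, map_sub, dA_dA (kap_mem _ τ).1, map_zero, pow_succ]
    simp
  · rw [ff, kap_bd _ τ h, sub_self, smul_zero]
  · have h : ¬ Null G (fun _ : Fin 1 => (∅ : Finset V)) := by
      rintro ⟨-, Z, α, β, h1, h2, h3, -⟩
      rcases h3 0 with e | e
      · exact h1.ne_empty (by simpa using e.symm)
      · exact h2.ne_empty (by simpa using e.symm)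
    rw [ff, kap, dif_neg fun h' => h h'.1, lin_ob]
    simp [kap]

end Pool.Agent.Lib.MP_0af324_gt
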