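import Pool.Agent.Lib.MP_0af324_gt.RBlue

namespace Pool.Agent.Lib.MP_0af324_gt

open scoped Classical
open Finset

namespace Susp

variable {V : Type} [Fintype V] {A : Finset V} {G : SimpleGraph V}

/-- A full square. -/
structure Sq (G : SimpleGraph V) (a a' b b' : V) : Prop where
  n1 : a ≠ a'
  a1 : ¬ G.Adj a a'
  n2 : b ≠ b'
  a2 : ¬ G.Adj b b'
  ab : G.Adj a b
  ab' : G.Adj a b'
  a'b : G.Adj a' b
  a'b' : G.Adj a' b'

/-- Sets containing a full square. -/
def Bad (G : SimpleGraph V) (T : Finset V) : Prop :=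
  ∃ a ∈ T, ∃ a' ∈ T, ∃ b ∈ T, ∃ b' ∈ T, Sq G a a' b b'

/-- Joins of a subset of `S` with a clique of vertices satisfying `L`. -/
def J (G : SimpleGraph V) (L : V → Prop) (S T : Finset V) : Prop :=
  (∀ u ∈ T, u ∈ S ∨ L u) ∧ ∀ u ∈ T, ∀ w ∈ T, u ≠ w → ¬ G.Adj u w → u ∈ S ∧ w ∈ S

omit [Fintype V] in
lemma J_cone {L : V → Prop} {S : Finset V} {x : V} (hx : ∀ v, L v → G.Adj x v) {k : ℕ}
    {c : Ch V k} (hc : c ∈ Cs (J G L S) k) : cone x c ∈ Cs (J G L (insert x S)) (k + 1) := by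
  refine cone_mem x hc fun T _ hT => ⟨fun u hu => ?_, fun u hu w hw h1 h2 => ?_⟩
  · rcases mem_insert.1 hu with rfl | hu
    · exact .inl (mem_insert_self _ _)
    · exact (hT.1 u hu).imp_left mem_insert_of_mem
  · rcases mem_insert.1 hu with rfl | hu' <;> rcases mem_insert.1 hw with rfl | hw'
    · exact absurd rfl h1
    · exact ⟨mem_insert_self _ _, mem_insert_of_mem
        ((hT.1 w hw').resolve_right fun h => h2 (hx w h))⟩
    · exact ⟨mem_insert_of_mem ((hT.1 u hu').resolve_right fun h => h2 (hx u h).symm),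
        mem_insert_self _ _⟩
    · exact (hT.2 u hu' w hw' h1 h2).imp mem_insert_of_mem mem_insert_of_mem

omit [Fintype V] in
lemma J_not_bad {L : V → Prop} {x y z : V} {T : Finset V}
    (h : J G L (insert x (insert y (insert z ∅))) T) : ¬ Bad G T := by
  rintro ⟨a, ha, a', ha', b, hb, b', hb', q⟩
  obtain ⟨h1, h2⟩ := h.2 a ha a' ha' q.n1 q.a1
  obtain ⟨h3, h4⟩ := h.2 b hb b' hb' q.n2 q.a2
  have := q.n1; have := q.n2; have := q.ab.ne; have := q.ab'.ne; have := q.a'b.ne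
  have := q.a'b'.ne
  simp only [mem_insert, notMem_empty, or_false] at h1 h2 h3 h4
  grind

omit [Fintype V] in
lemma cone_lk_self {K : Finset V → Prop} {k : ℕ} {c : Ch V (k + 1)} (hc : c ∈ Cs K (k + 1))
    {x : V} (h : ∀ T, K T → x ∈ T) : cone x (lk x c) = c := by
  rw [cone_lk x hc.1]
  funext l
  rw [res_apply]
  split_ifs with e
  · rfl
  · exact (by_contra fun h' => e (h _ (hc.2 l h')) : c l = 0).symm

omit [Fintype V] in
lemma hat_sub {T T' : Finset V} (h : Hat A G T) (h' : T' ⊆ T) : Hat A G T' :=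
  ⟨h'.trans h.1, fun a ha b hb c hc => h.2 a (h' ha) b (h' hb) c (h' hc)⟩

/-- The chain of a vertex. -/
noncomputable def ev (v : V) : Ch V 1 := cone v fun _ => 1

omit [Fintype V] in
lemma ev_mem {K : Finset V → Prop} {v : V} (h : K {v}) : ev v ∈ Cs K 1 := by
  refine cone_mem (K := (· = ∅)) v (mem_Cs_zero rfl _) fun T _ hT => ?_
  subst hT
  exact h

omit [Fintype V] in
lemma ev_apply (v : V) (r : Fin 1 → V) : ev v r = if r 0 = v then 1 else 0 := by
  simp [ev, cone_apply]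

lemma edge {L : V → Prop} {u v : V} (hu : L u) (hv : L v) (h : G.Adj u v) :
    ev v - ev u ∈ (Cs (J G L ∅) 2).map dA := by
  have hm : ev v ∈ Cs (· = {v}) 1 := ev_mem rfl
  refine ⟨cone u (ev v), cone_mem u hm fun T _ hT => ?_, ?_⟩
  · subst hT
    refine ⟨fun x hx => .inr ?_, fun x hx y hy h1 h2 => ?_⟩
    · simp only [mem_insert, mem_singleton] at hx
      rcases hx with rfl | rfl <;> assumption
    · simp only [mem_insert, mem_singleton] at hx hy
      rcases hx with rfl | rfl <;> rcases hy with rfl | rfl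
      exacts [absurd rfl h1, absurd h h2, absurd h.symm h2, absurd rfl h1]
  · rw [dA_cone u hm.1, ev, dA_cone_zero]
    rfl

lemma fill0 {L : V → Prop}
    (hL : ∀ v w, L v → L w → v ≠ w → ¬ G.Adj v w → ∃ u, L u ∧ G.Adj u v ∧ G.Adj u w)
    {ξ : Ch V 1} (h1 : ∀ r, ξ r ≠ 0 → L (r 0)) (h2 : dA ξ = 0) :
    ξ ∈ (Cs (J G L ∅) 2).map dA := by
  by_cases h0 : ξ = 0
  · exact h0 ▸ zero_mem _
  obtain ⟨r₀, hr₀⟩ := Function.ne_iff.1 h0
  have hv₀ := h1 r₀ hr₀
  have key : ∀ v, L v → ev v - ev (r₀ 0) ∈ (Cs (J G L ∅) 2).map dA := by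
    intro v hv
    by_cases e : v = r₀ 0
    · rw [e, sub_self]
      exact zero_mem _
    by_cases e' : G.Adj v (r₀ 0)
    · exact edge hv₀ hv e'.symm
    obtain ⟨u, hu, a1, a2⟩ := hL v _ hv hv₀ e e'
    have := sub_mem (edge hu hv a1) (edge hu hv₀ a2)
    rwa [sub_sub_sub_cancel_right] at this
  have hs : ∑ v, ξ (fun _ => v) = 0 := by
    have := congrFun h2 Fin.elim0
    rw [dA_apply] at this
    refine Eq.trans (sum_congr rfl fun v _ => congrArg ξ ?_) this
    funext i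
    rw [Subsingleton.elim i 0]
    rfl
  have e : ξ = ∑ v, ξ (fun _ => v) • (ev v - ev (r₀ 0)) := by
    simp only [smul_sub, sum_sub_distrib, ← sum_smul, hs, zero_smul, sub_zero]
    funext r
    simp only [Finset.sum_apply, Pi.smul_apply, ev_apply, smul_eq_mul, mul_ite, mul_one, mul_zero,
      sum_ite_eq, mem_univ, if_true]
    congr 1
    funext i
    rw [Subsingleton.elim i 0]
  rw [e]
  refine sum_mem fun v _ => ?_
  by_cases h : ξ (fun _ => v) = 0
  · rw [h, zero_smul]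
    exact zero_mem _
  · exact zsmul_mem (key v (h1 _ h)) _

omit [Fintype V] in
lemma oct {a a' b b' v w : V} (q : Sq G a a' b b') (ha : a ∈ A) (ha' : a' ∈ A) (hb : b ∈ A)
    (hb' : b' ∈ A) (hv : v ∈ A ∧ G.Adj a v ∧ G.Adj a' v ∧ G.Adj b v ∧ G.Adj b' v)
    (hw : w ∈ A ∧ G.Adj a w ∧ G.Adj a' w ∧ G.Adj b w ∧ G.Adj b' w) (h1 : v ≠ w)
    (h2 : ¬ G.Adj v w) :
    Oct A G fun u => if u.2 then ![a, b, v] u.1 else ![a', b', w] u.1 := by
  obtain ⟨n1, a1, n2, a2, c1, c2, c3, c4⟩ := q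
  obtain ⟨v0, v1, v2, v3, v4⟩ := hv
  obtain ⟨w0, w1, w2, w3, w4⟩ := hw
  have hadj : ∀ u u' : Fin 3 × Bool, G.Adj (if u.2 then ![a, b, v] u.1 else ![a', b', w] u.1)
      (if u'.2 then ![a, b, v] u'.1 else ![a', b', w] u'.1) ↔ u.1 ≠ u'.1 := by
    have a1' : ¬ G.Adj a' a := fun h => a1 h.symm
    have a2' : ¬ G.Adj b' b := fun h => a2 h.symm
    have h2' : ¬ G.Adj w v := fun h => h2 h.symm
    have := c1.symm; have := c2.symm; have := c3.symm; have := c4.symm
    have := v1.symm; have := v2.symm; have := v3.symm; have := v4.symm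
    have := w1.symm; have := w2.symm; have := w3.symm; have := w4.symm
    rintro ⟨i, s⟩ ⟨j, t⟩
    fin_cases i <;> fin_cases j <;> cases s <;> cases t <;> simp [*]
  refine ⟨?_, ?_, hadj⟩
  · rintro ⟨i, s⟩
    fin_cases i <;> cases s <;> simp [*]
  · rintro ⟨i, s⟩ ⟨j, t⟩ e
    have hij : i = j := by
      by_contra hij
      exact ((hadj (i, s) (j, t)).2 hij).ne e
    subst hij
    have := n1.symm; have := n2.symm; have := h1.symm
    fin_cases i <;> cases s <;> cases t <;> simp_all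

variable {o : Ch V 4}

lemma step (hP : PM A G o) (hO : ∀ p, Oct A G p → ∃ u ∈ A, ∀ w, G.Adj u (p w)) {m : ℤ}
    {D : Ch V 5} (hD : D ∈ Cs (Hat A G) 5) (hd : dA D = m • o) {a a' b b' : V}
    (q : Sq G a a' b b') (ha : a ∈ A) (ha' : a' ∈ A) (hb : b ∈ A) (hb' : b' ∈ A) :
    ∃ D' ∈ Cs (Hat A G) 5, dA D' = m • o ∧ ∀ l, Bad G (im l) →
      D' l = if a ∈ im l ∧ a' ∈ im l ∧ b ∈ im l ∧ b' ∈ im l then 0 else D l := by
  set L : V → Prop := fun v => v ∈ A ∧ G.Adj a v ∧ G.Adj a' v ∧ G.Adj b v ∧ G.Adj b' v with hL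
  have m1 := lk_mem a hD
  have m2 := lk_mem a' m1
  have m3 := lk_mem b m2
  have m4 := lk_mem b' m3
  have n1 := q.n1; have n2 := q.n2; have n3 := q.ab.ne; have n4 := q.ab'.ne
  have n5 := q.a'b.ne; have n6 := q.a'b'.ne
  obtain ⟨η, hη, e⟩ : lk b' (lk b (lk a' (lk a D))) ∈ (Cs (J G L ∅) 2).map dA := by
    refine fill0 (fun v w hv hw h1 h2 => ?_) (fun r hr => ?_) ?_
    · obtain ⟨u, hu, hu'⟩ := hO _ (oct q ha ha' hb hb' hv hw h1 h2)
      exact ⟨u, ⟨hu, (hu' (0, true)).symm, (hu' (0, false)).symm, (hu' (1, true)).symm,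
        (hu' (1, false)).symm⟩, hu' (2, true), hu' (2, false)⟩
    · obtain ⟨i1, i2, i3, i4, hT, hH⟩ := m4.2 r hr
      have hr0 : r 0 ∈ im r := mem_im.2 ⟨0, rfl⟩
      simp only [mem_insert, not_or] at i2 i3 i4
      have k1 : b' ≠ r 0 := fun h => i1 (h ▸ hr0)
      have k2 : b ≠ r 0 := fun h => i2.2 (h ▸ hr0)
      have k3 : a' ≠ r 0 := fun h => i3.2.2 (h ▸ hr0)
      have k4 : a ≠ r 0 := fun h => i4.2.2.2 (h ▸ hr0)
      refine ⟨hT (by simp [hr0]), ?_, ?_, ?_, ?_⟩ <;> by_contra h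
      · exact k3 (hH a (by simp) a' (by simp) _ (by simp [hr0]) n1 k4 q.a1 h)
      · exact k4 (hH a' (by simp) a (by simp) _ (by simp [hr0]) n1.symm k3
          (fun h => q.a1 h.symm) h)
      · exact k1 (hH b (by simp) b' (by simp) _ (by simp [hr0]) n2 k2 q.a2 h)
      · exact k2 (hH b' (by simp) b (by simp) _ (by simp [hr0]) n2.symm k1
          (fun h => q.a2 h.symm) h)
    · rw [dA_lk m3.1, dA_lk m2.1, dA_lk m1.1, dA_lk hD.1, hd]
      funext r
      simp only [map_neg, neg_neg, lk_apply, Pi.smul_apply, Pi.zero_apply, smul_eq_mul]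
      refine mul_eq_zero_of_right _ (by_contra fun h => q.a1 ?_)
      have := (hP.mem.2 _ h).2
      exact this (by simp [im_cons]) (by simp [im_cons]) n1
  have la : ∀ v, L v → G.Adj a v := fun v h => h.2.1
  have la' : ∀ v, L v → G.Adj a' v := fun v h => h.2.2.1
  have lb : ∀ v, L v → G.Adj b v := fun v h => h.2.2.2.1
  have lb' : ∀ v, L v → G.Adj b' v := fun v h => h.2.2.2.2
  have e1 := J_cone lb' hη
  have e2 := J_cone lb e1
  have e3 := J_cone la' e2
  have e4 := J_cone la e3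
  have hE : cone a (cone a' (cone b (cone b' η))) ∈ Cs (Hat A G) 6 := by
    refine Cs.mono e4 fun T _ hT => ⟨fun u hu => ?_, fun x hx y hy z hz h1 h2 h3 h4 => ?_⟩
    · rcases hT.1 u hu with h | h
      · simp only [mem_insert, notMem_empty, or_false] at h
        rcases h with rfl | rfl | rfl | rfl <;> assumption
      · exact h.1
    · obtain ⟨k1, k2⟩ := hT.2 x hx y hy h1 h3
      obtain ⟨-, k3⟩ := hT.2 x hx z hz h2 h4
      simp only [mem_insert, notMem_empty, or_false] at k1 k2 k3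
      have := q.ab; have := q.ab'; have := q.a'b; have := q.a'b'
      have := q.ab.symm; have := q.ab'.symm; have := q.a'b.symm; have := q.a'b'.symm
      grind
  set Q : Finset V → Prop := fun T => a ∈ T ∧ a' ∈ T ∧ b ∈ T ∧ b' ∈ T with hQ
  have r0 := res_mem Q hD
  have r1 := lk_mem a r0
  have r2 := lk_mem a' r1
  have r3 := lk_mem b r2
  have hY : cone a (cone a' (cone b (cone b' (lk b' (lk b (lk a' (lk a D))))))) = res Q D := by
    have : lk b' (lk b (lk a' (lk a D))) = lk b' (lk b (lk a' (lk a (res Q D)))) := by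
      funext r
      simp [lk_apply, res_apply, hQ, im_cons]
    rw [this, cone_lk_self r3, cone_lk_self r2, cone_lk_self r1, cone_lk_self r0]
    · exact fun T h => h.2.1
    · exact fun T h => (mem_insert.1 h.2.2.2.1).resolve_left n1.symm
    · intro T h
      have := h.2.2.2.2.2.1
      simp only [mem_insert] at this
      grind
    · intro T h
      have := h.2.2.2.2.2.2.2
      simp only [mem_insert] at this
      grind
  have hR : cone a' (cone b (cone b' η)) - cone a (cone b (cone b' η)) +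
      cone a (cone a' (cone b' η)) - cone a (cone a' (cone b η)) ∈ Cs (fun T => ¬ Bad G T) 5 :=
    sub_mem (add_mem (sub_mem (Cs.mono e3 fun _ _ => J_not_bad)
      (Cs.mono (J_cone la e2) fun _ _ => J_not_bad))
      (Cs.mono (J_cone la (J_cone la' e1)) fun _ _ => J_not_bad))
      (Cs.mono (J_cone la (J_cone la' (J_cone lb hη))) fun _ _ => J_not_bad)
  refine ⟨D - dA (cone a (cone a' (cone b (cone b' η)))), sub_mem hD
    (dA_mem hE fun x T _ h => hat_sub h (subset_insert _ _)),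
    by rw [map_sub, dA_dA hE.1, sub_zero, hd], fun l hl => ?_⟩
  have h0 := not_not.1 fun h => hR.2 l h hl
  rw [dA_cone a e3.1, dA_cone a' e2.1, dA_cone b e1.1, dA_cone b' hη.1, e]
  simp only [map_sub, hY, Pi.sub_apply, Pi.add_apply, res_apply] at h0 ⊢
  split_ifs <;> omega

lemma normal (hP : PM A G o) (hO : ∀ p, Oct A G p → ∃ u ∈ A, ∀ w, G.Adj u (p w)) {m : ℤ}
    (n : ℕ) : ∀ {D : Ch V 5}, D ∈ Cs (Hat A G) 5 → dA D = m • o →
      (univ.filter fun l => D l ≠ 0 ∧ Bad G (im l)).card = n →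
      ∃ D' ∈ Cs (fun T => Hat A G T ∧ ¬ Bad G T) 5, dA D' = m • o := by
  induction n using Nat.strong_induction_on with
  | _ n ih =>
  intro D hD hd hn
  by_cases h : ∃ l, D l ≠ 0 ∧ Bad G (im l)
  · obtain ⟨l, hl, a, ha, a', ha', b, hb, b', hb', q⟩ := h
    have hA := (hD.2 l hl).1
    obtain ⟨D', h1, h2, h3⟩ := step hP hO hD hd q (hA ha) (hA ha') (hA hb) (hA hb')
    refine ih _ (hn ▸ card_lt_card ⟨fun x hx => ?_, fun hs => ?_⟩) h1 h2 rfl
    · simp only [mem_filter, mem_univ, true_and] at hx ⊢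
      refine ⟨fun h0 => hx.1 ?_, hx.2⟩
      rw [h3 x hx.2, h0, ite_self]
    · have hB : Bad G (im l) := ⟨a, ha, a', ha', b, hb, b', hb', q⟩
      have := (mem_filter.1 (hs (mem_filter.2 ⟨mem_univ l, hl, hB⟩))).2.1
      rw [h3 l hB, if_pos ⟨ha, ha', hb, hb'⟩] at this
      exact this rfl
  · exact ⟨D, ⟨hD.1, fun l hl => ⟨hD.2 l hl, fun hb => h ⟨l, hl, hb⟩⟩⟩, hd⟩

omit [Fintype V] in
lemma one_pair {T : Finset V} (h : Hat A G T) (hb : ¬ Bad G T) {a a' u w : V} (ha : a ∈ T)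
    (ha' : a' ∈ T) (n : a ≠ a') (na : ¬ G.Adj a a') (hu : u ∈ T) (hw : w ∈ T) (n' : u ≠ w)
    (na' : ¬ G.Adj u w) : (u = a ∨ u = a') ∧ (w = a ∨ w = a') := by
  have k1 : ∀ c ∈ T, ¬ G.Adj a c → c = a ∨ c = a' := fun c hc h' =>
    or_iff_not_imp_left.2 fun e => (h.2 a ha a' ha' c hc n (Ne.symm e) na h').symm
  have k2 : ∀ c ∈ T, ¬ G.Adj a' c → c = a ∨ c = a' := fun c hc h' =>
    or_iff_not_imp_right.2 fun e =>
      (h.2 a' ha' a ha c hc n.symm (Ne.symm e) (fun h => na h.symm) h').symm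
  have k3 : u = a ∨ u = a' → w = a ∨ w = a' := by
    rintro (rfl | rfl)
    exacts [k1 w hw na', k2 w hw na']
  have k4 : w = a ∨ w = a' → u = a ∨ u = a' := by
    rintro (rfl | rfl)
    exacts [k1 u hu fun h => na' h.symm, k2 u hu fun h => na' h.symm]
  by_contra hc
  have hu' : ¬ (u = a ∨ u = a') := fun h => hc ⟨h, k3 h⟩
  have hw' : ¬ (w = a ∨ w = a') := fun h => hc ⟨k4 h, h⟩
  exact hb ⟨a, ha, a', ha', u, hu, w, hw, n, na, n', na', by_contra fun h => hu' (k1 u hu h),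
    by_contra fun h => hw' (k1 w hw h), by_contra fun h => hu' (k2 u hu h),
    by_contra fun h => hw' (k2 w hw h)⟩

lemma final (hP : PM A G o) {m : ℤ} (hm : m ≠ 0) {D : Ch V 5}
    (hD : D ∈ Cs (fun T => Hat A G T ∧ ¬ Bad G T) 5) (hd : dA D = m • o) :
    ∃ D' ∈ Cs (Hat A G) 5, dA D' = o := by
  obtain ⟨F, hF, hF4, -⟩ := hP.pure ∅ ⟨empty_subset _, by simp⟩
  obtain ⟨r, hr, rfl⟩ := exists_tuple hF4
  have h1 : dA D r ≠ 0 := by
    rw [hd, Pi.smul_apply, smul_eq_mul]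
    rcases hP.unit r hr hF with h | h <;> simpa [h]
  rw [dA_apply] at h1
  obtain ⟨v, -, hl⟩ := exists_ne_zero_of_sum_ne_zero h1
  set l : Fin 5 → V := Fin.cons v r
  have l5 := card_im (hD.1.inj hl)
  obtain ⟨a, ha, a', ha', n, na⟩ : ∃ a ∈ im l, ∃ a' ∈ im l, a ≠ a' ∧ ¬ G.Adj a a' := by
    by_contra hc
    push Not at hc
    obtain ⟨F', -, h4, h5⟩ := hP.pure (im l) ⟨(hD.2 l hl).1.1, fun x hx y hy => hc x hx y hy⟩
    have := card_le_card h5
    omega
  have ha'' : a' ∈ (im l).erase a := mem_erase.2 ⟨n.symm, ha'⟩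
  obtain ⟨s, hs, hs'⟩ := exists_tuple (T := ((im l).erase a).erase a') (k := 3)
    (by rw [card_erase_of_mem ha'', card_erase_of_mem ha, l5])
  have him : im (Fin.cons a (Fin.cons a' s : Fin 4 → V) : Fin 5 → V) = im l := by
    rw [im_cons, im_cons, hs', insert_erase ha'', insert_erase ha]
  have hcs : lk a' (lk a D) s ≠ 0 := hD.1.ne_zero hl (inj_of_card (him ▸ l5)) him
  have m1 := lk_mem a hD
  set K : Finset V → Prop := fun T => a ∉ T ∧ a' ∉ T ∧ Cl A G (insert a T) ∧ Cl A G (insert a' T)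
  have hc : lk a' (lk a D) ∈ Cs K 3 := by
    refine Cs.mono (lk_mem a' m1) fun T _ ⟨i1, i2, hH, hB⟩ => ?_
    have i3 : a ∉ T := fun h => i2 (mem_insert_of_mem h)
    have key : ∀ u ∈ insert a (insert a' T), ∀ w ∈ insert a (insert a' T), u ≠ w →
        ¬ G.Adj u w → (u = a ∨ u = a') ∧ (w = a ∨ w = a') :=
      fun u hu w hw => one_pair hH hB (by simp) (by simp) n na hu hw
    have s1 : insert a T ⊆ insert a (insert a' T) := insert_subset_insert _ (subset_insert _ _)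
    have s2 : insert a' T ⊆ insert a (insert a' T) := subset_insert _ _
    refine ⟨i3, i1, ⟨s1.trans hH.1, fun u hu w hw e => by_contra fun h => ?_⟩,
      s2.trans hH.1, fun u hu w hw e => by_contra fun h => ?_⟩
    · have := key u (s1 hu) w (s1 hw) e h
      simp only [mem_coe, mem_insert] at hu hw
      grind
    · have := key u (s2 hu) w (s2 hw) e h
      simp only [mem_coe, mem_insert] at hu hw
      grind
  have hc0 : dA (lk a' (lk a D)) = 0 := by
    rw [dA_lk m1.1, dA_lk hD.1, hd]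
    funext r
    simp only [map_neg, neg_neg, lk_apply, Pi.smul_apply, Pi.zero_apply, smul_eq_mul]
    refine mul_eq_zero_of_right _ (by_contra fun h => na ?_)
    have := (hP.mem.2 _ h).2
    exact this (by simp [im_cons]) (by simp [im_cons]) n
  set c := lk a' (lk a D)
  have z2 : cone a' c ∈ Cs (fun T => a ∉ T) 4 :=
    cone_mem a' hc fun T _ h => by simp [n, h.1]
  obtain ⟨μ, hμ⟩ := hP.loc ∅ (cone a c - cone a' c)
    (sub_mem (cone_mem a hc fun T _ h => ⟨h.2.2.1, empty_subset _⟩)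
      (cone_mem a' hc fun T _ h => ⟨h.2.2.2, empty_subset _⟩))
    (fun r _ => by rw [map_sub, dA_cone_cyc a hc.1 hc0, dA_cone_cyc a' hc.1 hc0, sub_self]; rfl)
  have hlk : μ • lk a o = c := by
    funext r
    have := hμ (Fin.cons a r) (empty_subset _)
    rw [Pi.smul_apply, lk_apply, smul_eq_mul, ← this, Pi.sub_apply,
      not_not.1 fun h => z2.2 (Fin.cons a r) h (by simp [im_cons]), sub_zero]
    by_cases e : a ∈ im r
    · rw [not_not.1 fun h => (hc.2 r h).1 e]
      by_contra h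
      have := (Fin.cons_injective_iff.1 ((cone_alt a hc.1).inj h)).1
      rw [← coe_im, mem_coe] at this
      exact this e
    · exact cone_cons_self c e
  have hμ0 : μ ≠ 0 := by
    rintro rfl
    rw [← hlk, zero_smul] at hcs
    exact hcs rfl
  have hc' : lk a o ∈ Cs K 3 := ⟨(lk_mem a hP.mem).1, fun r h => hc.2 r (by
    rw [← hlk]
    exact mul_ne_zero hμ0 h)⟩
  have hc0' : dA (lk a o) = 0 := by rw [dA_lk hP.mem.1, hP.cyc, map_zero, neg_zero]
  have y1 : cone a (lk a o) ∈ Cs (fun T => ∃ S, K S ∧ T = insert a S) 4 :=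
    cone_mem a hc' fun T _ h => ⟨T, h, rfl⟩
  refine ⟨cone a' (cone a (lk a o)), cone_mem a' y1 ?_, ?_⟩
  · rintro _ - ⟨S, ⟨i1, i2, k1, k2⟩, rfl⟩
    refine ⟨insert_subset (k2.1 (mem_insert_self _ _)) k1.1, fun x hx y hy z hz h1 h2 h3 h4 => ?_⟩
    have p1 := @k1.2 x
    have p2 := @k2.2 x
    simp only [mem_coe, mem_insert] at hx hy hz p1 p2
    have q1 := fun h => @p1 h y
    have q2 := fun h => @p2 h y
    have q3 := fun h => @p1 h z
    have q4 := fun h => @p2 h z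
    grind
  · rw [dA_cone a' y1.1, dA_cone_cyc a hc'.1 hc0']
    funext r
    refine mul_left_cancel₀ hμ0 ?_
    rw [← hμ r (empty_subset _), ← hlk, map_zsmul, map_zsmul, ← smul_sub]
    rfl

end Susp

theorem susp_blk : St_SUSP := by
  intro V _ A G o hP hO m D hm hD hd
  obtain ⟨D', h1, h2⟩ := Susp.normal hP hO _ hD hd rfl
  exact Susp.final hP hm h1 h2

end Pool.Agent.Lib.MP_0af324_gt
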