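import Pool.Agent.Lib.MP_0af324_gt.RBlue

namespace Pool.Agent.Lib.MP_0af324_gt

open scoped Classical
open Finset

theorem top_blk : St_TOP := by
  intro V _ n K o σ ho h0 hu thin conn ζ hζ hd
  have perm : ∀ l l' : Fin (n + 1) → V, Function.Injective l' → im l' = im l →
      ζ l' * o l' = ζ l * o l := fun l l' h e => by
    obtain ⟨π, rfl⟩ := exists_perm h e
    rw [hζ.1, ho.1, mul_mul_mul_comm, ← Units.val_mul, Int.units_mul_self, Units.val_one, one_mul]
  have step : ∀ l l' : Fin (n + 1) → V, Function.Injective l → Function.Injective l' → K (im l) →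
      K (im l') → σ ⊆ im l ∩ im l' → (im l ∩ im l').card = n → ζ l' * o l' = ζ l * o l := by
    intro l l' i i' k k' s c
    obtain ⟨x, hx, ex⟩ := exists_eq_insert_iff.2
      ⟨(inter_subset_left : im l ∩ im l' ⊆ _), by rw [c, card_im i]⟩
    obtain ⟨y, hy, ey⟩ := exists_eq_insert_iff.2
      ⟨(inter_subset_right : im l ∩ im l' ⊆ _), by rw [c, card_im i']⟩
    obtain ⟨r, hr, er⟩ := exists_tuple c
    have xy : x ≠ y := fun e => hx (mem_inter.2
      ⟨ex ▸ mem_insert_self _ _, ey ▸ e ▸ mem_insert_self _ _⟩)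
    rw [← er] at hx hy ex ey s c
    have two : ∀ c' : Ch V (n + 1), c' ∈ Cs K (n + 1) → dA c' r = 0 →
        c' (Fin.cons y r) = -c' (Fin.cons x r) := fun c' h h' => by
      rw [dA_apply, sum_eq_add x y xy (fun v _ hv => by_contra fun hn => ?_) (by simp) (by simp)] at h'
      · omega
      · have := (Fin.cons_injective_iff.1 (h.1.inj hn)).1
        rw [← coe_im, mem_coe] at this
        rcases thin _ x y v c hx hy this (ex ▸ k) (ey ▸ k') (im_cons v r ▸ h.2 _ hn) with e | e | e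
        exacts [xy e, hv.2 e.symm, hv.1 e.symm]
    rw [perm (Fin.cons y r) l' i' (by rw [im_cons, ey]), perm (Fin.cons x r) l i (by rw [im_cons, ex]),
      two ζ (Cs.mono hζ fun _ _ h => h.1) (hd r s), two o ho (congrFun h0 r), neg_mul_neg]
  by_cases h : ∃ l₀ : Fin (n + 1) → V, Function.Injective l₀ ∧ K (im l₀) ∧ σ ⊆ im l₀
  · obtain ⟨l₀, i₀, k₀, s₀⟩ := h
    have all : ∀ F, Relation.ReflTransGen
        (fun a b => K b ∧ b.card = n + 1 ∧ σ ⊆ a ∩ b ∧ (a ∩ b).card = n) (im l₀) F →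
        K F ∧ F.card = n + 1 ∧
          ∀ l, Function.Injective l → im l = F → ζ l * o l = ζ l₀ * o l₀ := fun F hF => by
      induction hF with
      | refl => exact ⟨k₀, card_im i₀, fun l => perm l₀ l⟩
      | tail _ hb ih =>
        obtain ⟨l', i', rfl⟩ := exists_tuple ih.2.1
        refine ⟨hb.1, hb.2.1, fun l i e => ?_⟩
        subst e
        rw [step l' l i' i ih.1 hb.1 hb.2.2.1 hb.2.2.2, ih.2.2 l' i' rfl]
    refine ⟨ζ l₀ * o l₀, fun l s => ?_⟩
    by_cases hl : Function.Injective l ∧ K (im l)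
    · rw [← (all _ (conn _ _ k₀ hl.2 (card_im i₀) (card_im hl.1) s₀ s)).2.2 l hl.1 rfl]
      rcases hu l hl.1 hl.2 with e | e <;> simp [e]
    · rw [show ζ l = 0 from by_contra fun e => hl ⟨hζ.1.inj e, (hζ.2 l e).1⟩,
        show o l = 0 from by_contra fun e => hl ⟨ho.1.inj e, ho.2 l e⟩, mul_zero]
  · exact ⟨0, fun l s => by_contra fun e =>
      h ⟨l, hζ.1.inj (by simpa using e), (hζ.2 l (by simpa using e)).1, s⟩⟩

end Pool.Agent.Lib.MP_0af324_gt
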