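import Pool.Agent.Lib.MP_0af324_gt.RUp
import Pool.Agent.Lib.MP_0af324_gt.RCnt
import Pool.Agent.Lib.MP_0af324_gt.RPsi
import Pool.Agent.Lib.MP_0af324_gt.RTop
import Pool.Agent.Lib.MP_0af324_gt.RCut
import Pool.Agent.Lib.MP_0af324_gt.RCap
import Pool.Agent.Lib.MP_0af324_gt.RSusp
import Pool.Agent.Lib.MP_0af324_gt.RFour
import Pool.Agent.Lib.MP_0af324_gt.RFol

namespace Pool.Agent.Lib.MP_0af324_gt

open scoped Classical
open Finset Finsupp

variable {V : Type} [Fintype V] {G : SimpleGraph V}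

lemma cl_iff {T : Finset V} : Cl univ G T ↔ G.IsClique (T : Set V) := by simp [Cl]

lemma flag_iff {k : ℕ} {c : Ch V k} : IsFlagChain G c ↔ c ∈ Cs (Cl univ G) k :=
  and_congr Iff.rfl (forall_congr' fun l => by rw [cl_iff, coe_im])

lemma nclique_iff {k : ℕ} {T : Finset V} : G.IsNClique k T ↔ Cl univ G T ∧ T.card = k := by
  rw [cl_iff, SimpleGraph.isNClique_iff]

lemma thin_of {n : ℕ} (hS : IsOrientablePseudomanifold G n) {κ : Finset V} (h : Cl univ G κ)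
    (hκ : κ.card = n) : ∃ x x', x ≠ x' ∧
      ∀ y, (y ∉ κ ∧ Cl univ G (insert y κ)) ↔ (y = x ∨ y = x') := by
  obtain ⟨t, t', ne, e⟩ := Set.ncard_eq_two.1 (hS.thin κ (nclique_iff.2 ⟨h, hκ⟩))
  have key : ∀ u, G.IsNClique (n + 1) u ∧ κ ⊆ u ↔ u = t ∨ u = t' := fun u => Set.ext_iff.1 e u
  have ex : ∀ u, u = t ∨ u = t' → ∃ x, x ∉ κ ∧ insert x κ = u := fun u hu =>
    exists_eq_insert_iff.2 ⟨((key u).2 hu).2, by rw [hκ, ((key u).2 hu).1.card_eq]⟩
  obtain ⟨x, hx, rfl⟩ := ex t (.inl rfl)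
  obtain ⟨x', hx', rfl⟩ := ex t' (.inr rfl)
  refine ⟨x, x', fun e => ne (by rw [e]), fun y => ⟨fun ⟨y1, y2⟩ => ?_, ?_⟩⟩
  · exact ((key _).1 ⟨nclique_iff.2 ⟨y2, by rw [card_insert_of_notMem y1, hκ]⟩,
      subset_insert _ _⟩).imp (insert_inj y1).1 (insert_inj y1).1
  · rintro (rfl | rfl)
    exacts [⟨hx, (nclique_iff.1 ((key _).2 (.inl rfl)).1).1⟩,
      ⟨hx', (nclique_iff.1 ((key _).2 (.inr rfl)).1).1⟩]

lemma loc_of {n : ℕ} (hS : IsOrientablePseudomanifold G n) {o : Ch V (n + 1)}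
    (o1 : o ∈ Cs (Cl univ G) (n + 1)) (o2 : dA o = 0)
    (o3 : ∀ l, Function.Injective l → Cl univ G (im l) → o l = 1 ∨ o l = -1) {σ : Finset V}
    (hσ : StronglyConnectedAt G n σ) :
    ∀ ζ ∈ Cs (fun T => Cl univ G T ∧ σ ⊆ T) (n + 1), (∀ r, σ ⊆ im r → dA ζ r = 0) →
      ∃ m : ℤ, ∀ l, σ ⊆ im l → ζ l = m * o l := by
  refine top_blk V n _ o σ o1 o2 o3 (fun κ x y z hκ hx hy hz kx ky kz => ?_)
    fun F F' h h' c c' s s' => ?_
  · obtain ⟨a, b, -, e⟩ := thin_of hS (κ := κ)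
      ⟨subset_univ _, kx.2.subset (coe_subset.2 (subset_insert _ _))⟩ hκ
    rcases (e x).1 ⟨hx, kx⟩ with rfl | rfl <;> rcases (e y).1 ⟨hy, ky⟩ with rfl | rfl <;>
      rcases (e z).1 ⟨hz, kz⟩ with rfl | rfl <;> simp
  · refine Relation.ReflTransGen.mono (fun a b h => ?_) _ _
      (hσ F F' (nclique_iff.2 ⟨h, c⟩) (nclique_iff.2 ⟨h', c'⟩) s s')
    exact ⟨(nclique_iff.1 h.1).1, (nclique_iff.1 h.1).2, h.2⟩

/-- The properties of an orientation which are used. -/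
structure Ori (G : SimpleGraph V) {n : ℕ} (o : Ch V (n + 1)) : Prop where
  top : ∀ ζ ∈ Cs (Cl univ G) (n + 1), dA ζ = 0 → ∃ m : ℤ, ζ = m • o
  full : ∀ a, ∃ l i, l i = a ∧ o l ≠ 0
  ne : o ≠ 0

lemma ori_of {n : ℕ} (hS : IsOrientablePseudomanifold G n) {o : Ch V (n + 1)}
    (o1 : o ∈ Cs (Cl univ G) (n + 1)) (o2 : dA o = 0)
    (o3 : ∀ l, Function.Injective l → Cl univ G (im l) → o l = 1 ∨ o l = -1) : Ori G o := by
  have ex : ∀ s : Finset V, G.IsClique (s : Set V) → ∃ l, s ⊆ im l ∧ o l ≠ 0 := fun s hs => by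
    obtain ⟨t, ht, h⟩ := hS.pure s hs
    obtain ⟨l, l1, rfl⟩ := exists_tuple ht.card_eq
    exact ⟨l, h, by rcases o3 l l1 (nclique_iff.1 ht).1 with e | e <;> simp [e]⟩
  refine ⟨fun ζ h1 h2 => ?_, fun a => ?_, fun e => ?_⟩
  · obtain ⟨m, hm⟩ := loc_of hS o1 o2 o3 hS.connected ζ (Cs.mono h1 fun T _ h => ⟨h, by simp⟩)
      fun r _ => congrFun h2 r
    exact ⟨m, funext fun l => hm l (by simp)⟩
  · obtain ⟨l, h1, h2⟩ := ex {a} (by simp)
    obtain ⟨i, hi⟩ := mem_im.1 (h1 (mem_singleton_self a))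
    exact ⟨l, i, hi, h2⟩
  · obtain ⟨l, -, h2⟩ := ex ∅ (by simp)
    exact h2 (congrFun e l)

variable {W : Type} [Group W] (cs : CoxeterSystem (racgMatrix G) W) {Γ : Type} [Group Γ]
  {ι : Γ →* W} {E M : Type} [TopologicalSpace E] [TopologicalSpace M] [MulAction Γ E]
  [ContinuousConstSMul Γ E] [ContractibleSpace E] {p : C(E, M)}

include cs in
theorem core (hD : St_DAV) (hι : Function.Injective ι) (hΓ : ∀ g : Γ, IsOfFinOrder g → g = 1)
    (hp : IsQuotientCoveringMap p Γ) {n : ℕ} {o : Ch V (n + 1)} (ho : Ori G o)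
    {z : Simplex (n + 1) M →₀ ℤ} (hz : bd z = 0) :
    (∀ (m : ℤ), ∀ c ∈ Cs (Hat univ G) (n + 2), dA c = m • o → foliatedNorm Γ p (m • z) = 0) ∧
    (l1Seminorm z = 0 → foliatedNorm Γ p z = 0 ∨
      ∃ m : ℤ, m ≠ 0 ∧ ∃ c ∈ Cs (Hat univ G) (n + 2), dA c = m • o) := by
  obtain ⟨B⟩ := exists_base (cs := cs) ι hι fun g hg =>
    hΓ g (isOfFinOrder_iff_pow_eq_one.2 ⟨2, two_pos, by rw [pow_two, hg]⟩)
  obtain ⟨D⟩ := hD V G W cs
  obtain ⟨P⟩ := psi_blk V G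
  obtain ⟨L⟩ := exists_loc (cs := cs) cnt_blk P
  obtain ⟨d, hd⟩ := exists_d hp
  obtain ⟨l, hl, -⟩ := exists_lift hp (n + 1)
  obtain ⟨z, rfl⟩ : ∃ z' : Simplex (n + 1) E →₀ ℤ, z'.mapDomain (push p) = z :=
    ⟨z.mapDomain l, by rw [← mapDomain_comp, show push p ∘ l = id from funext hl, mapDomain_id]⟩
  obtain ⟨δ, δ1, δ2, δ3⟩ := exists_deg ι ho.top ho.full ho.ne (lin_g_mem D (Vm ι d z))
    (deg_cyc ι hd hp D hz)
  refine ⟨fun m c hc e => ?_, fun h0 => ?_⟩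
  · rw [← mapDomain_smul]
    refine up B D fol_blk hι hd hp (Db := δ.mapRange (· • c) (zero_smul _ _))
      (by rw [mapDomain_smul, ← bdH_apply, map_zsmul, bdH_apply, hz, smul_zero])
      (fun x => AddSubgroup.zsmul_mem _ hc _) (Finsupp.ext fun x => ?_) fun s x => ?_
    · rw [map_zsmul, map_zsmul, mapDomain_smul, Finsupp.smul_apply, δ1, dR_apply, mapRange_apply,
        map_zsmul, e, smul_comm]
    · rw [mapRange_apply, mapRange_apply, δ2, neg_smul]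
  · refine or_iff_not_imp_right.2 fun h => ?_
    let N : AddSubgroup (Ch V (n + 1)) := (Cs (Hat univ G) (n + 2)).map dA
    obtain ⟨φ, hφ⟩ := (Module.Baer.of_divisible ℝ).extension_property_addMonoidHom
      (zmultiplesHom _ (QuotientAddGroup.mk' N o)) ((injective_iff_map_eq_zero _).2 fun m hm => by
        by_contra e
        rw [zmultiplesHom_apply, ← map_zsmul, QuotientAddGroup.mk'_apply,
          QuotientAddGroup.eq_zero_iff] at hm
        exact h ⟨m, e, hm⟩) (Int.castAddHom ℝ)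
    have := lower hd hp B D L hz h0 (φ.comp (QuotientAddGroup.mk' N)) fun c hc => by
      rw [AddMonoidHom.comp_apply, QuotientAddGroup.mk'_apply,
        (QuotientAddGroup.eq_zero_iff _).2 (AddSubgroup.mem_map_of_mem dA hc), map_zero]
    rw [δ1, AddMonoidHom.comp_apply, map_zsmul, ← zmultiplesHom_apply, ← AddMonoidHom.comp_apply,
      hφ] at this
    have d0 := δ3 (Int.cast_eq_zero.1 this)
    refine up B D fol_blk hι hd hp (Db := 0) hz (fun _ => zero_mem _) (Finsupp.ext fun x => ?_)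
      fun s x => by simp
    rw [δ1, d0]
    simp

include cs in
theorem rational (hD : St_DAV) {n : ℕ} (hS : IsOrientablePseudomanifold G n)
    (hι : Function.Injective ι) (hΓ : ∀ g : Γ, IsOfFinOrder g → g = 1)
    (hp : IsQuotientCoveringMap p Γ) {z : Simplex (n + 1) M →₀ ℤ} (hz : bd z = 0)
    (h0 : l1Seminorm z = 0) : ∃ m : ℕ, 0 < m ∧ foliatedNorm Γ p (m • z) = 0 := by
  obtain ⟨o, o1, o2, o3⟩ := hS.orientable
  obtain ⟨h1, h2⟩ := core cs hD hι hΓ hp (ori_of hS (flag_iff.1 o1) o2 fun l hl h =>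
    o3 l hl (coe_im l ▸ h.2)) hz
  rcases h2 h0 with h | ⟨m, hm, c, hc, e⟩
  · exact ⟨1, one_pos, by rwa [one_smul]⟩
  · refine ⟨m.natAbs, Int.natAbs_pos.2 hm, ?_⟩
    rw [← natCast_zsmul]
    refine h1 _ (m.sign • c) (AddSubgroup.zsmul_mem _ hc _) ?_
    rw [map_zsmul, e, smul_smul, Int.sign_mul_self_eq_natAbs]

include cs in
theorem four (hD : St_DAV) (hS : IsOrientablePseudomanifold G 3)
    (hN : ∀ s, StronglyConnectedAt G 3 s)
    (h2 : ∀ c : (Fin 3 → V) → ℤ, IsFlagChain G c → chainBd c = 0 →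
      ∃ b : (Fin 4 → V) → ℤ, IsFlagChain G b ∧ chainBd b = c)
    (hι : Function.Injective ι) (hΓ : ∀ g : Γ, IsOfFinOrder g → g = 1)
    (hp : IsQuotientCoveringMap p Γ) {z : Simplex 4 M →₀ ℤ} (hz : bd z = 0)
    (h0 : l1Seminorm z = 0) : foliatedNorm Γ p z = 0 := by
  obtain ⟨o, o1, o2, o3⟩ := hS.orientable
  replace o1 := flag_iff.1 o1
  replace o3 : ∀ l, Function.Injective l → Cl univ G (im l) → o l = 1 ∨ o l = -1 :=
    fun l hl h => o3 l hl (coe_im l ▸ h.2)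
  obtain ⟨h3, h4⟩ := core cs hD hι hΓ hp (ori_of hS o1 o2 o3) hz
  rcases h4 h0 with h | ⟨m, hm, c, hc, e⟩
  · exact h
  · obtain ⟨c', hc', e'⟩ := four_blk cut_blk (cap_blk top_blk) susp_blk V univ G o
      ⟨o1, o3, o2, fun T hT => (hS.pure T hT.2).imp fun F h =>
        ⟨(nclique_iff.1 h.1).1, h.1.card_eq, h.2⟩, fun κ => thin_of hS,
        fun σ => loc_of hS o1 o2 o3 (hN σ), fun c hc h => (h2 c (flag_iff.2 hc) h).imp
          fun b hb => ⟨flag_iff.1 hb.1, hb.2⟩⟩ m c hm hc e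
    simpa using h3 1 c' hc' (by rw [e', one_smul])

end Pool.Agent.Lib.MP_0af324_gt
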