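import Pool.Agent.Lib.MP_0af324_gt.RAlt

namespace Pool.Agent.Lib.MP_0af324_gt

open scoped Classical
open Finset Equiv Finsupp

variable {X Y : Type}

/-- Ordered chains on a set. -/
abbrev OC (X : Type) (k : ℕ) : Type := (Fin k → X) →₀ ℤ

/-- The boundary of ordered chains. -/
noncomputable def ob {k : ℕ} : OC X (k + 1) →+ OC X k :=
  ∑ i : Fin (k + 1), (-1 : ℤ) ^ (i : ℕ) • mapDomain.addMonoidHom (· ∘ i.succAbove)

lemma ob_single {k : ℕ} (t : Fin (k + 1) → X) (a : ℤ) : ob (single t a) =
    ∑ i : Fin (k + 1), (-1 : ℤ) ^ (i : ℕ) • single (t ∘ i.succAbove) a := by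
  simp [ob, AddMonoidHom.finsetSum_apply]

/-- The linear extension of a function on generators. -/
noncomputable def lin {S Q : Type} [AddCommGroup Q] (f : S → Q) : (S →₀ ℤ) →+ Q :=
  liftAddHom fun s => zmultiplesHom Q (f s)

@[simp] lemma lin_single {S Q : Type} [AddCommGroup Q] (f : S → Q) (s : S) (a : ℤ) :
    lin f (single s a) = a • f s := by simp [lin]

lemma lin_mem {S Q : Type} [AddCommGroup Q] (f : S → Q) (B : AddSubgroup Q) {y : S →₀ ℤ}
    (h : ∀ s ∈ y.support, f s ∈ B) : lin f y ∈ B := by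
  rw [← sum_single y, Finsupp.sum, map_sum]
  exact sum_mem fun s hs => by rw [lin_single]; exact B.zsmul_mem (h s hs) _

lemma hom_ext1 {S Q : Type} [AddCommGroup Q] {F G : (S →₀ ℤ) →+ Q}
    (h : ∀ s, F (single s 1) = G (single s 1)) (y : S →₀ ℤ) : F y = G y := by
  induction y using Finsupp.induction_linear with
  | zero => simp
  | add a b ha hb => simp only [map_add, ha, hb]
  | single s a => rw [← mul_one a, ← smul_eq_mul, ← smul_single, map_zsmul, map_zsmul, h]

lemma lin_ob {k : ℕ} {Q : Type} [AddCommGroup Q] (f : (Fin k → X) → Q) (t : Fin (k + 1) → X) :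
    lin f (ob (single t 1)) = ∑ i : Fin (k + 1), (-1 : ℤ) ^ (i : ℕ) • f (t ∘ i.succAbove) := by
  simp [ob_single]

/-- The image of an ordered chain under a map. -/
noncomputable def om (f : X → Y) {k : ℕ} : OC X k →+ OC Y k := mapDomain.addMonoidHom (f ∘ ·)

@[simp] lemma om_single (f : X → Y) {k : ℕ} (t : Fin k → X) (a : ℤ) :
    om f (single t a) = single (f ∘ t) a := mapDomain_single

lemma ob_om (f : X → Y) {k : ℕ} (y : OC X (k + 1)) : ob (om f y) = om f (ob y) :=
  hom_ext1 (F := ob.comp (om f)) (G := (om f).comp ob)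
    (fun s => by simp [ob_single, Function.comp_assoc]) y

lemma om_om {Z : Type} (f : X → Y) (g : Y → Z) {k : ℕ} (y : OC X k) :
    om g (om f y) = om (g ∘ f) y :=
  hom_ext1 (F := (om g).comp (om f)) (fun s => by simp [Function.comp_assoc]) y

/-- The cone over an ordered chain. -/
noncomputable def oc (x : X) {k : ℕ} : OC X k →+ OC X (k + 1) :=
  mapDomain.addMonoidHom fun t => Fin.cons x t

@[simp] lemma oc_single (x : X) {k : ℕ} (t : Fin k → X) (a : ℤ) :
    oc x (single t a) = single (Fin.cons x t) a := mapDomain_single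

lemma om_oc (f : X → Y) (x : X) {k : ℕ} (y : OC X k) : om f (oc x y) = oc (f x) (om f y) :=
  hom_ext1 (F := (om f).comp (oc x)) (G := (oc (f x)).comp (om f))
    (fun s => by simp [Fin.comp_cons]) y

lemma ob_oc_zero (x : X) (y : OC X 0) : ob (oc x y) = y :=
  hom_ext1 (F := ob.comp (oc x)) (G := AddMonoidHom.id _)
    (fun s => by simp [ob_single, Subsingleton.elim _ s]) y

lemma ob_oc (x : X) {k : ℕ} (y : OC X (k + 1)) : ob (oc x y) = y - oc x (ob y) := by
  refine hom_ext1 (F := ob.comp (oc x)) (G := AddMonoidHom.id _ - (oc x).comp ob) (fun t => ?_) y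
  simp only [AddMonoidHom.comp_apply, oc_single, ob_single, AddMonoidHom.sub_apply,
    AddMonoidHom.id_apply, map_sum, map_zsmul]
  rw [Fin.sum_univ_succ, sub_eq_add_neg, ← sum_neg_distrib]
  congr 1
  · simp only [Fin.val_zero, pow_zero, one_smul]
    rfl
  · refine sum_congr rfl fun i _ => ?_
    rw [Fin.val_succ, pow_succ, mul_neg_one, neg_smul]
    congr 3
    funext j
    refine Fin.cases ?_ (fun j => ?_) j <;> simp

lemma ob_ob : ∀ {k : ℕ} (y : OC X (k + 2)), ob (ob y) = 0
  | 0, y => by
    refine hom_ext1 (F := ob.comp ob) (G := 0) (fun t => ?_) y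
    rw [← Fin.cons_self_tail t, ← oc_single, AddMonoidHom.comp_apply, ob_oc, map_sub, ob_oc_zero]
    simp
  | k + 1, y => by
    refine hom_ext1 (F := ob.comp ob) (G := 0) (fun t => ?_) y
    rw [← Fin.cons_self_tail t, ← oc_single, AddMonoidHom.comp_apply, ob_oc, map_sub, ob_oc, ob_ob]
    simp

variable {V : Type} [Fintype V]

/-- The flag of final segments of a tuple. -/
noncomputable def fl {k : ℕ} (l : Fin k → V) (i : Fin (k + 1)) : Finset V :=
  (univ.filter fun j : Fin k => (i : ℕ) ≤ j).image l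

omit [Fintype V] in
lemma mem_fl {k : ℕ} {l : Fin k → V} {i : Fin (k + 1)} {x : V} :
    x ∈ fl l i ↔ ∃ j : Fin k, (i : ℕ) ≤ j ∧ l j = x := by simp [fl]

omit [Fintype V] in
lemma fl_subset {k : ℕ} (l : Fin k → V) (i : Fin (k + 1)) : fl l i ⊆ im l :=
  fun _ hx => (mem_fl.1 hx).elim fun j hj => mem_im.2 ⟨j, hj.2⟩

omit [Fintype V] in
lemma last_mem_fl {k : ℕ} (l : Fin (k + 1) → V) (i : Fin (k + 1)) :
    l (Fin.last k) ∈ fl l i.castSucc := mem_fl.2 ⟨_, by simpa using i.is_le, rfl⟩

omit [Fintype V] in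
lemma fl_zero (l : Fin 0 → V) (i : Fin 1) : fl l i = ∅ := by simp [fl]

/-- The subdivision of the cone over a chain. -/
noncomputable def Bf {k : ℕ} : Ch V k →+ OC (Finset V) (k + 1) :=
  ∑ l : Fin k → V, (singleAddHom (fl l)).comp (Pi.evalAddMonoidHom _ l)

lemma Bf_apply {k : ℕ} (c : Ch V k) : Bf c = ∑ l, single (fl l) (c l) := by
  simp [Bf, AddMonoidHom.finsetSum_apply]

/-- The subdivision of a chain. -/
noncomputable def Of {k : ℕ} : Ch V k →+ OC (Finset V) k :=
  ∑ l : Fin k → V, (singleAddHom (fl l ∘ Fin.castSucc)).comp (Pi.evalAddMonoidHom _ l)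

lemma Of_apply {k : ℕ} (c : Ch V k) : Of c = ∑ l, single (fl l ∘ Fin.castSucc) (c l) := by
  simp [Of, AddMonoidHom.finsetSum_apply]

lemma ob_Bf {k : ℕ} {c : Ch V (k + 1)} (h : IsAlt c) :
    ob (Bf c) = Bf (dA c) + (-1 : ℤ) ^ (k + 1) • Of c := by
  rw [Bf_apply, Bf_apply, Of_apply, map_sum]
  simp only [ob_single]
  rw [Finset.sum_comm, Fin.sum_univ_succ, Fin.sum_univ_castSucc,
    Finset.sum_eq_zero (s := univ (α := Fin k)), zero_add]
  · congr 1
    · rw [← (Fin.consEquiv fun _ : Fin (k + 1) => V).sum_comp, Fintype.sum_prod_type,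
        Finset.sum_comm]
      refine sum_congr rfl fun s _ => ?_
      rw [dA_apply, ← singleAddHom_apply, map_sum]
      refine sum_congr rfl fun v _ => ?_
      simp only [Fin.val_zero, pow_zero, one_smul, singleAddHom_apply]
      congr 1
      funext i
      ext x
      simp only [Function.comp_apply, mem_fl, Fin.exists_fin_succ (n := k), Fin.consEquiv,
        Fin.zero_succAbove, Fin.val_succ, Fin.val_zero, Equiv.coe_fn_mk, Fin.cons_succ,
        Nat.add_le_add_iff_right]
      simp
    · rw [Finset.smul_sum]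
      refine sum_congr rfl fun s _ => ?_
      simp [Fin.succ_last]
  · intro j _
    rw [← Finset.smul_sum]
    have ne : j.castSucc ≠ j.succ := (Fin.castSucc_lt_succ).ne
    have key : ∀ l : Fin (k + 1) → V, fl (l ∘ swap j.castSucc j.succ) ∘ j.castSucc.succ.succAbove =
        fl l ∘ j.castSucc.succ.succAbove := fun l => by
      funext i
      ext x
      have hi : ((j.castSucc.succ.succAbove i : Fin (k + 2)) : ℕ) ≠ j + 1 := fun e =>
        Fin.succAbove_ne j.castSucc.succ i (Fin.ext (by simpa using e))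
      simp only [Function.comp_apply, mem_fl]
      refine (swap j.castSucc j.succ).exists_congr_left.trans (exists_congr fun m => ?_)
      simp only [symm_swap, swap_apply_self]
      refine and_congr_left' ?_
      rw [swap_apply_def]
      split_ifs with h1 h2
      · subst h1
        simp only [Fin.val_succ, Fin.val_castSucc]
        omega
      · subst h2
        simp only [Fin.val_succ, Fin.val_castSucc]
        omega
      · rfl
    set S := ∑ l : Fin (k + 1) → V, single (fl l ∘ j.castSucc.succ.succAbove) (c l) with hS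
    have : S = -S := by
      conv_lhs => rw [hS, ← (Equiv.arrowCongr (swap j.castSucc j.succ) (Equiv.refl V)).sum_comp]
      rw [hS, ← sum_neg_distrib]
      refine sum_congr rfl fun l _ => ?_
      have e : (Equiv.arrowCongr (swap j.castSucc j.succ) (Equiv.refl V)) l =
        l ∘ swap j.castSucc j.succ := rfl
      rw [e, key, h.swap l ne, single_neg]
    have : S = 0 := Finsupp.ext fun t => by
      have := DFunLike.congr_fun this t
      simp only [Finsupp.neg_apply] at this
      simp only [Finsupp.zero_apply]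
      omega
    rw [this, smul_zero]

end Pool.Agent.Lib.MP_0af324_gt
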