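import Pool.Agent.Lib.MP_0af324_gt.RBeta
import Pool.Agent.Lib.MP_0af324_gt.Main

namespace Pool.Agent.Lib.MP_0af324_gt

open scoped Classical
open Finset Finsupp

variable {V : Type} [Fintype V] {G : SimpleGraph V} {W : Type} [Group W]
  {cs : CoxeterSystem (racgMatrix G) W} {Γ : Type} [Group Γ] (ι : Γ →* W)

/-- The orbit relation on chambers. -/
def orb : Setoid W := ⟨fun a b => ∃ g, a = ι g * b, fun a => ⟨1, by simp⟩,
  fun ⟨g, e⟩ => ⟨g⁻¹, by simp [e]⟩, fun ⟨g, e⟩ ⟨g', e'⟩ => ⟨g * g', by simp [e, e', mul_assoc]⟩⟩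

/-- The orbit of a chamber. -/
def oq (w : W) : Quotient (orb ι) := Quotient.mk _ w

lemma oq_mul (g : Γ) (w : W) : oq ι (ι g * w) = oq ι w := Quotient.sound ⟨g, rfl⟩

lemma oq_out (x : Quotient (orb ι)) : oq ι x.out = x := x.out_eq

/-- Right multiplication on orbits. -/
def rm (u : W) : Quotient (orb ι) → Quotient (orb ι) :=
  Quotient.map (· * u) fun _ _ ⟨g, e⟩ => ⟨g, by simp [e, mul_assoc]⟩

lemma rm_oq (u w : W) : rm ι u (oq ι w) = oq ι (w * u) := rfl

omit [Fintype V] in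
lemma rm_rm (s : V) (x : Quotient (orb ι)) : rm ι (cs.simple s) (rm ι (cs.simple s) x) = x := by
  rw [← oq_out ι x, rm_oq, rm_oq, cs.simple_mul_simple_cancel_right]

lemma oq_map {A : Type} [AddCommGroup A] (g : Γ) (r : W →₀ A) :
    (r.mapDomain (ι g * ·)).mapDomain (oq ι) = r.mapDomain (oq ι) := by
  rw [← mapDomain_comp]
  exact mapDomain_congr fun w _ => oq_mul ι g w

lemma mapDomain_mem {Q Q' A : Type} [AddCommGroup A] (f : Q → Q') (B : AddSubgroup A) {r : Q →₀ A}
    (h : ∀ v, r v ∈ B) (x : Q') : r.mapDomain f x ∈ B := by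
  rw [mapDomain, Finsupp.sum, finsetSum_apply]
  refine sum_mem fun v _ => ?_
  rw [single_apply]
  split_ifs
  exacts [h v, zero_mem _]

lemma exists_retr (hι : Function.Injective ι) :
    ∃ ρ : W → Γ, (∀ g w, ρ (ι g * w) = g * ρ w) ∧ ρ 1 = 1 := by
  have : ∀ w, ∃ g, w = ι g * (oq ι w).out := fun w =>
    (orb ι).symm (Quotient.mk_out (s := orb ι) w)
  choose γ h using this
  refine ⟨fun w => γ w * (γ 1)⁻¹, fun g w => ?_, by simp⟩
  have := h (ι g * w)
  rw [oq_mul] at this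
  conv_lhs at this => rw [h w, ← mul_assoc, ← map_mul]
  simp only [← hι (mul_right_cancel this), mul_assoc]

/-- The degree of a cycle at the chambers. -/
theorem exists_deg {n : ℕ} {o : Ch V (n + 1)}
    (top : ∀ ζ ∈ Cs (Cl univ G) (n + 1), dA ζ = 0 → ∃ m : ℤ, ζ = m • o)
    (full : ∀ a, ∃ l i, l i = a ∧ o l ≠ 0) (ne : o ≠ 0) {r : RC W V (n + 1)} (hr : r ∈ CS cs (n + 1))
    (h : (dR r).mapDomain (oq ι) = 0) : ∃ d : Quotient (orb ι) →₀ ℤ,
      (∀ x, r.mapDomain (oq ι) x = d x • o) ∧ (∀ s x, d (rm ι (cs.simple s) x) = -d x) ∧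
      (d (oq ι 1) = 0 → d = 0) := by
  choose d hd using fun x => top _ (mapDomain_mem (oq ι) _ hr.1 x) (by
    rw [← dR_apply, dR_mapDomain, h, Finsupp.zero_apply])
  have anti : ∀ s x, d (rm ι (cs.simple s) x) = -d x := fun s x => by
    obtain ⟨l, i, rfl, hl⟩ := full s
    have e := congrArg (mapDomain (oq ι)) (co_anti hr l i)
    rw [← mapDomain_comp, show oq ι ∘ (· * cs.simple (l i)) = rm ι (cs.simple (l i)) ∘ oq ι from rfl,
      mapDomain_comp, mapDomain_neg', ← co_mapDomain] at e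
    have := DFunLike.congr_fun e (rm ι (cs.simple (l i)) x)
    rw [mapDomain_apply (Function.Involutive.injective (rm_rm ι _)), Finsupp.neg_apply, co_apply,
      co_apply, hd, hd] at this
    refine mul_right_cancel₀ hl ?_
    simp only [Pi.smul_apply, smul_eq_mul] at this
    rw [neg_mul, this, neg_neg]
  refine ⟨onFinset (r.mapDomain (oq ι)).support d fun x hx => mem_support_iff.2 ?_, hd, anti,
    fun h1 => Finsupp.ext fun x => ?_⟩
  · rw [hd]
    exact smul_ne_zero hx ne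
  · rw [← oq_out ι x]
    refine cs.simple_induction_right (p := fun w => d (oq ι w) = 0) x.out h1 fun w s ih => ?_
    rw [← rm_oq, anti, ih, neg_zero]

variable {E M : Type} [TopologicalSpace E] [TopologicalSpace M] [MulAction Γ E]
  [ContinuousConstSMul Γ E] {p : C(E, M)} (d : E → Γ)

/-- From singular chains to the bar complex. -/
noncomputable def Vm {k : ℕ} : (Simplex k E →₀ ℤ) →+ OC W (k + 1) :=
  mapDomain.addMonoidHom fun σ => ι ∘ vt d σ

omit [MulAction Γ E] [ContinuousConstSMul Γ E] in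
@[simp] lemma Vm_single {k : ℕ} (σ : Simplex k E) (a : ℤ) :
    Vm ι d (single σ a) = single (ι ∘ vt d σ) a := mapDomain_single

omit [Group Γ] [MulAction Γ E] [ContinuousConstSMul Γ E] in
lemma vt_face {k : ℕ} (j : Fin (k + 2)) (σ : Simplex (k + 1) E) :
    vt d (face j σ) = vt d σ ∘ j.succAbove :=
  funext fun _ => congrArg (fun u => d (σ u)) (stdSimplex.map_vertex _ _)

omit [MulAction Γ E] [ContinuousConstSMul Γ E] in
lemma Vm_bd {k : ℕ} (y : Simplex (k + 1) E →₀ ℤ) : Vm ι d (bd y) = ob (Vm ι d y) := by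
  rw [← bdH_apply]
  refine hom_ext1 (F := (Vm ι d).comp bdH) (G := ob.comp (Vm ι d)) (fun σ => ?_) y
  simp [bdH_apply, bd_single, ob_single, vt_face, Function.comp_assoc]

variable {d} (hd : ∀ g e, d (g • e) = g * d e)
include hd

lemma Vm_smul {k : ℕ} (g : Γ) (σ : Simplex k E) (a : ℤ) :
    Vm ι d (single (g • σ) a) = om (ι g * ·) (Vm ι d (single σ a)) := by
  rw [Vm_single, Vm_single, om_single]
  congr 1
  funext i
  exact (congrArg ι (hd _ _)).trans (map_mul _ _ _)

lemma inv_zero (hp : IsQuotientCoveringMap p Γ) {k : ℕ} {A : Type} [AddCommGroup A]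
    (Λ : OC W (k + 1) →+ A) (h : ∀ g y, Λ (om (ι g * ·) y) = Λ y) {y : Simplex k E →₀ ℤ}
    (hy : y.mapDomain (push p) = 0) : Λ (Vm ι d y) = 0 :=
  AddSubgroup.mem_bot.1 (ker_mem hp (Λ.comp (Vm ι d)) ⊥ (fun σ g a => by
    rw [AddMonoidHom.comp_apply, AddMonoidHom.comp_apply, Vm_smul ι hd, h, sub_self]
    exact zero_mem _) hy)

lemma deg_cyc (hp : IsQuotientCoveringMap p Γ) (D : Dav cs) {n : ℕ} {z : Simplex (n + 1) E →₀ ℤ}
    (hz : bd (z.mapDomain (push p)) = 0) :
    (dR (lin D.g (Vm ι d z))).mapDomain (oq ι) = 0 := by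
  rw [dR_lin_g, ← Vm_bd]
  exact inv_zero ι hd hp ((mapDomain.addMonoidHom (oq ι)).comp (lin D.g))
    (fun g y => by simp [lin_g_om, oq_map]) ((push_bd z).trans hz)

variable {ι} in
/-- The lower bound for the `ℓ¹`-seminorm. -/
theorem lower (hp : IsQuotientCoveringMap p Γ) (B : Base cs ι) (D : Dav cs) {P : Psi G}
    (L : Loc cs P) {n : ℕ} {z : Simplex (n + 1) E →₀ ℤ} (hz : bd (z.mapDomain (push p)) = 0)
    (h0 : l1Seminorm (z.mapDomain (push p)) = 0) (φ : Ch V (n + 1) →+ ℝ)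
    (hφ : ∀ c ∈ Cs (Hat univ G) (n + 2), φ (dA c) = 0) :
    φ ((lin D.g (Vm ι d z)).mapDomain (oq ι) (oq ι 1)) = 0 := by
  let A : ∀ {k}, OC W (k + 1) →+ Ch V k := fun {k} =>
    (applyAddHom (oq ι 1)).comp ((mapDomain.addMonoidHom (oq ι)).comp (lin L.f))
  have A0 : ∀ {k} (y : OC W (k + 1)), A y = (lin L.f y).mapDomain (oq ι) (oq ι 1) := fun _ => rfl
  have A1 : ∀ {k} g (y : OC W (k + 1)), A (om (ι g * ·) y) = A y := fun g y => by
    rw [A0, A0, lin_f_om, oq_map]
  have A2 : ∀ y : OC W (n + 3), φ (A (ob y)) = 0 := fun y => by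
    rw [A0, ← dR_lin_f, ← dR_mapDomain, dR_apply]
    exact hφ _ (mapDomain_mem _ _ (lin_f_mem L y) _)
  have e1 : φ ((lin D.g (Vm ι d z)).mapDomain (oq ι) (oq ι 1)) = φ (A (Vm ι d z)) := by
    have h1 := A2 (lin (hty B D) (Vm ι d z))
    have h2 := inv_zero ι hd hp (A.comp (lin (hty B D))) (fun g y => by
      rw [AddMonoidHom.comp_apply, hty_om, A1]
      rfl) ((push_bd z).trans hz)
    rw [AddMonoidHom.comp_apply, Vm_bd] at h2
    rw [ob_hty, map_sub A, h2, sub_zero, map_sub, map_sub, sub_eq_zero] at h1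
    rw [h1, A0, tht, AddMonoidHom.comp_apply, lin_f_bet B L (lin_g_mem D _)]
  choose l hl hl' using exists_lift hp
  let f : Simplex (n + 1) E → ℝ := fun σ => φ (A (Vm ι d (single σ 1)))
  have f1 : ∀ σ, f (l _ (push p σ)) = f σ := fun σ => by
    obtain ⟨g, hg⟩ := hl' _ σ
    conv_rhs => rw [hg]
    simp only [f, Vm_smul ι hd, A1]
  obtain ⟨C, hC⟩ := L.card (n + 1)
  obtain ⟨K, hK⟩ := (Set.finite_range fun τ : Fin (n + 2) → Finset V => |φ (P.f τ)|).bddAbove
  have K0 : 0 ≤ K := (abs_nonneg _).trans (hK ⟨fun _ => ∅, rfl⟩)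
  have f2 : ∀ σ, |f σ| ≤ C * K := fun σ => by
    simp only [f, Vm_single, A0, lin_single, one_smul]
    rw [mapDomain, Finsupp.sum, finsetSum_apply, map_sum]
    refine (abs_sum_le_sum_abs _ _).trans ((sum_le_card_nsmul _ _ K fun v _ => ?_).trans ?_)
    · rw [single_apply, L.apply]
      split_ifs
      exacts [hK ⟨_, rfl⟩, by simpa using K0]
    · rw [nsmul_eq_mul]
      gcongr
      exact hC _
  let F : (Simplex (n + 1) M →₀ ℝ) →+ ℝ := liftAddHom fun σ => AddMonoidHom.mulRight (f (l _ σ))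
  have F0 : ∀ σ a, F (single σ a) = a * f (l _ σ) := fun σ a => by simp [F]
  have F1 : ∀ b : Simplex (n + 2) M →₀ ℝ, F (bd b) = 0 := fun b => by
    induction b using Finsupp.induction_linear with
    | zero => rw [bd_zero, map_zero]
    | add a b ha hb => rw [bd_add, map_add, ha, hb, add_zero]
    | single τ a =>
      have := A2 (Vm ι d (single (l _ τ) 1))
      rw [← Vm_bd, bd_single] at this
      simp only [map_sum, map_zsmul] at this
      rw [bd_single, map_sum, ← mul_zero a, ← this, Finset.mul_sum]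
      refine sum_congr rfl fun i _ => ?_
      rw [map_zsmul, F0, mul_smul_comm]
      conv_lhs => rw [← hl _ τ]
      exact congrArg (fun u => (-1 : ℤ) ^ (i : ℕ) • (a * u)) (f1 (face i (l _ τ)))
  have F2 : ∀ y : Simplex (n + 1) E →₀ ℤ,
      F (mapRange.addMonoidHom (Int.castAddHom ℝ) (y.mapDomain (push p))) = φ (A (Vm ι d y)) :=
    hom_ext1 (F := F.comp ((mapRange.addMonoidHom (Int.castAddHom ℝ)).comp
      (mapDomain.addMonoidHom (push p)))) (G := φ.comp (A.comp (Vm ι d))) fun σ => by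
        simp only [AddMonoidHom.comp_apply, mapDomain.addMonoidHom_apply, mapDomain_single,
          mapRange.addMonoidHom_apply, mapRange_single, F0, f1]
        simp [f]
  rw [e1, ← F2, ← abs_nonpos_iff]
  refine le_of_forall_pos_le_add fun ε hε => ?_
  have : l1Seminorm (z.mapDomain (push p)) < ε / (C * K + 1) := h0.trans_lt (by positivity)
  unfold l1Seminorm at this
  obtain ⟨_, ⟨c, b, hc, rfl⟩, h⟩ := exists_lt_of_csInf_lt (by exact ⟨_, _, 0, rfl, rfl⟩) this
  have h1 := lift_le νa νa F (K := C * K + 1) (fun σ a => by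
    change |F _| ≤ _ * |a|
    rw [F0, abs_mul, mul_comm]
    gcongr
    linarith [f2 (l _ σ)]) c
  rw [lt_div_iff₀' (by positivity)] at h
  have h2 : F c = F (mapRange.addMonoidHom (Int.castAddHom ℝ) (z.mapDomain (push p))) := by
    rw [hc, map_add, F1, add_zero]
    rfl
  rw [← h2, zero_add]
  exact h1.trans h.le

end Pool.Agent.Lib.MP_0af324_gt
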