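import Pool.Agent.Lib.MP_0af324_gt.RSing

namespace Pool.Agent.Lib.MP_0af324_gt

open scoped Classical
open Finset Finsupp MeasureTheory

variable {V : Type} [Fintype V] {G : SimpleGraph V} {W : Type} [Group W]
  {cs : CoxeterSystem (racgMatrix G) W} {Γ : Type} [Group Γ] {ι : Γ →* W}
  {E M : Type} [TopologicalSpace E] [TopologicalSpace M] [MulAction Γ E]
  [ContinuousConstSMul Γ E] {p : C(E, M)}

lemma fol_le_simple {α : StandardSpace Γ} {n : ℕ} {z : Simplex n E →₀ ℤ}
    {Z : Simplex n E →₀ SimpleFunc α.X ℤ} {w : Simplex (n + 1) E →₀ SimpleFunc α.X ℤ}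
    (r1 : Z - mapRange.addMonoidHom cst z - bd w ∈ Rel α _ ℤ) :
    foliatedNormAt p α (z.mapDomain (push p)) ≤
      wn (νi α) (mapRange.addMonoidHom (chg (Int.castAddHom ℝ)) Z) := by
  have r2 := bal_map (mapRange.addMonoidHom (toL α)) (balancing _ α.act) (fun σ g f => by
    simpa [toL_act] using bal_gen α.act σ g (toL α f)) r1
  rw [map_sub, map_sub, hom_bd, show mapRange.addMonoidHom (toL α) (mapRange.addMonoidHom cst z) =
    mapRange.addMonoidHom α.const z from Finsupp.ext fun σ => toL_const α _] at r2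
  refine (fol_le_of r2).trans (le_of_eq ?_)
  rw [wn_apply, wn_apply, mapRange.addMonoidHom_apply, mapRange.addMonoidHom_apply,
    sum_eq_of_subset _ _ support_mapRange, sum_eq_of_subset _ _ support_mapRange]
  exact Finset.sum_congr rfl fun σ _ => νL_toL α _

lemma wn_one_sub {α : StandardSpace Γ} {S : Type} (s s' : SimpleFunc α.X S) (a : ℝ) :
    wn (νi α) (one s (SimpleFunc.const _ a) - one s' (SimpleFunc.const _ a)) ≤
      2 * α.μ.real {x | s x ≠ s' x} * |a| := by
  have hB : MeasurableSet {x | s x ≠ s' x} := (s.pair s').measurableSet_preimage {p | p.1 ≠ p.2}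
  set f := SimpleFunc.piecewise _ hB (SimpleFunc.const _ a) (SimpleFunc.const _ 0)
  have e : one s (SimpleFunc.const _ a) - one s' (SimpleFunc.const _ a) = one s f - one s' f :=
    ev_ext fun x => by
      by_cases h : s x = s' x <;> simp [f, SimpleFunc.piecewise_apply, h]
  have f0 : ∀ x, |f x| = Set.indicator {x | s x ≠ s' x} (fun _ => |a|) x := fun x => by
    simp only [f, SimpleFunc.piecewise_apply, Set.indicator]
    split_ifs <;> simp
  rw [e]
  refine (map_sub_le_add _ _ _).trans (le_of_eq ?_)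
  rw [wn_one, wn_one, νi_apply]
  simp only [f0, integral_indicator_const _ hB, smul_eq_mul]
  ring

@[simp] lemma ev_cst {α : StandardSpace Γ} {S : Type} (x : α.X) (y : S →₀ ℤ) :
    ev x (mapRange.addMonoidHom cst y) = y := Finsupp.ext fun _ => rfl

variable (C : Cn Γ E) (ρ : W → Γ)

/-- From the bar complex to singular chains. -/
noncomputable def Um {k : ℕ} : OC W (k + 1) →+ (Simplex k E →₀ ℤ) :=
  mapDomain.addMonoidHom fun t => C.str (ρ ∘ t)

omit [Group W] in
@[simp] lemma Um_single {k : ℕ} (t : Fin (k + 1) → W) (a : ℤ) :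
    Um C ρ (single t a) = single (C.str (ρ ∘ t)) a := mapDomain_single

omit [Group W] in
lemma Um_ob {k : ℕ} (y : OC W (k + 2)) : Um C ρ (ob y) = bd (Um C ρ y) := by
  rw [← bdH_apply]
  refine hom_ext1 (F := (Um C ρ).comp ob) (G := bdH.comp (Um C ρ)) (fun σ => ?_) y
  simp [bdH_apply, bd_single, ob_single, C.face_str, Function.comp_assoc]

variable {ρ} (hρ : ∀ g w, ρ (ι g * w) = g * ρ w)

include hρ in
lemma Um_om {k : ℕ} (g : Γ) (y : OC W (k + 1)) :
    Um C ρ (om (ι g * ·) y) = (Um C ρ y).mapDomain (g • ·) := by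
  refine hom_ext1 (F := (Um C ρ).comp (om (ι g * ·)))
    (G := (mapDomain.addMonoidHom (g • ·)).comp (Um C ρ)) (fun t => ?_) y
  simp only [AddMonoidHom.comp_apply, om_single, Um_single, mapDomain.addMonoidHom_apply,
    mapDomain_single, ← C.str_smul]
  congr 2
  exact funext fun i => hρ _ _

variable (ρ) (B : Base cs ι) (D : Dav cs) (d : E → Γ)

/-- The homotopy on singular chains. -/
noncomputable def HS {k : ℕ} : (Simplex k E →₀ ℤ) →+ (Simplex (k + 1) E →₀ ℤ) :=
  (lin fun σ => C.pr σ (vt d σ)) + (Um C ρ).comp ((lin (hty B D)).comp (Vm ι d))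

variable {ρ}
include hρ

lemma bd_HS (h1 : ρ 1 = 1) {k : ℕ} (y : Simplex (k + 1) E →₀ ℤ) : bd (HS C ρ B D d y) =
    y - Um C ρ (tht B D (Vm ι d y)) - HS C ρ B D d (bd y) := by
  have e : bd (lin (fun σ => C.pr σ (vt d σ)) y) =
      y - Um C ρ (Vm ι d y) - lin (fun σ => C.pr σ (vt d σ)) (bd y) := by
    simp only [← bdH_apply]
    refine hom_ext1 (F := bdH.comp (lin fun σ => C.pr σ (vt d σ))) (G := AddMonoidHom.id _ -
      (Um C ρ).comp (Vm ι d) - (lin fun σ => C.pr σ (vt d σ)).comp bdH) (fun σ => ?_) y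
    have : ρ ∘ ι ∘ vt d σ = vt d σ := funext fun i => by simpa [h1] using hρ (vt d σ i) 1
    simp [bdH_apply, C.bd_pr, bd_single, Cn.pb, vt_face, this]
  simp only [HS, AddMonoidHom.add_apply, AddMonoidHom.comp_apply, bd_add, e, ← Um_ob, ob_hty,
    map_sub, Vm_bd]
  abel

variable {d} in
lemma HS_smul (hd : ∀ g e, d (g • e) = g * d e) {k : ℕ} (g : Γ) (σ : Simplex k E) (a : ℤ) :
    HS C ρ B D d (single (g • σ) a) = (HS C ρ B D d (single σ a)).mapDomain (g • ·) := by
  have : vt d (g • σ) = g • vt d σ := funext fun i => hd _ _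
  simp only [HS, AddMonoidHom.add_apply, AddMonoidHom.comp_apply, Vm_smul ι hd, hty_om,
    Um_om C hρ, lin_single, mapDomain_add, mapDomain_smul, this, C.pr_smul]

omit hρ

variable {α : StandardSpace Γ} (Φ : W → Finset V → SimpleFunc α.X W)

variable (ρ) in
/-- The random simplex spanned by the barycentres along a flag. -/
noncomputable def lamv {j : ℕ} (T : Fin (j + 1) → Finset V) :
    (W →₀ ℤ) →+ (Simplex j E →₀ SimpleFunc α.X ℤ) :=
  lam (fun v => piS fun i => Φ v (T i)) fun _ t => singleAddHom (C.str (ρ ∘ t))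

omit [Fintype V] [Group W] in
lemma ev_lamv {j : ℕ} (T : Fin (j + 1) → Finset V) (x : α.X) (y : W →₀ ℤ) :
    ev x (lamv C ρ Φ T y) = Um C ρ (y.mapDomain fun v => (fun S => Φ v S x) ∘ T) :=
  hom_ext1 (F := (ev x).comp (lamv C ρ Φ T))
    (G := (Um C ρ).comp (mapDomain.addMonoidHom fun v => (fun S => Φ v S x) ∘ T))
    (fun v => by simp [lamv]; rfl) y

omit [Fintype V] in
include hρ in
lemma lamv_rel (hΦ : ∀ g v T x, Φ (ι g * v) T (g • x) = ι g * Φ v T x) {j : ℕ}
    (T : Fin (j + 1) → Finset V) {y : W →₀ ℤ} (hy : y.mapDomain (oq ι) = 0) :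
    lamv C ρ Φ T y ∈ Rel α _ ℤ := by
  have := all_mem (((lamv C ρ Φ T).comp (mapDomain.addMonoidHom Quotient.out)).comp
    (mapDomain.addMonoidHom (oq ι)) - lamv C ρ Φ T) (Rel α _ ℤ) (fun v a => by
      obtain ⟨g, hg⟩ := (orb ι).symm (Quotient.mk_out (s := orb ι) v)
      simp only [AddMonoidHom.sub_apply, AddMonoidHom.comp_apply, mapDomain.addMonoidHom_apply,
        mapDomain_single]
      refine star_mem g fun x => ?_
      rw [ev_lamv, ev_lamv, ← Um_om C hρ, mapDomain_single, mapDomain_single, om_single]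
      congr 2
      funext i
      conv_lhs => rw [hg]
      exact hΦ _ _ _ _) y
  simpa [hy] using this

omit [Fintype V] [Group W] in
lemma lamv_norm {j : ℕ} (T : Fin (j + 1) → Finset V) (v v' : W) {η : ℝ}
    (h : ∀ i, α.μ.real {x | Φ v (T i) x ≠ Φ v' (T i) x} ≤ η) (a : ℤ) :
    wn (νi α) (mapRange.addMonoidHom (chg (Int.castAddHom ℝ))
      (lamv C ρ Φ T (single v a - single v' a))) ≤ 2 * ((j + 1) * η) * |(a : ℝ)| := by
  have e : ∀ v, mapRange.addMonoidHom (chg (Int.castAddHom ℝ)) (lamv C ρ Φ T (single v a)) =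
      one ((piS fun i => Φ v (T i)).map fun t => C.str (ρ ∘ t)) (SimpleFunc.const _ (a : ℝ)) :=
    fun v => by
      ext τ x
      have := DFunLike.congr_fun (ev_lamv C (ρ := ρ) Φ T x (single v a)) τ
      simp only [ev_apply, mapDomain_single, Um_single, single_apply] at this
      simp only [mapRange.addMonoidHom_apply, mapRange_apply, chg_apply, this, one_apply,
        apply_ite (Int.castAddHom ℝ), map_zero]
      rfl
  rw [map_sub, map_sub, e, e]
  refine (wn_one_sub _ _ _).trans ?_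
  gcongr
  refine le_trans (measureReal_mono (s₂ := ⋃ i ∈ (univ : Finset (Fin (j + 1))),
    {x | Φ v (T i) x ≠ Φ v' (T i) x}) (fun x hx => ?_) (measure_ne_top _ _))
    ((measureReal_biUnion_finset_le _ _).trans
      ((sum_le_card_nsmul _ _ η fun i _ => h i).trans (by simp)))
  by_contra e
  simp only [Set.mem_iUnion, not_exists, Set.mem_setOf_eq, not_not] at e
  exact hx (congrArg (fun t => C.str (ρ ∘ t)) (funext fun i => e i (mem_univ _)))

omit [Fintype V] in
lemma Hat.subset {A T T' : Finset V} (h : Hat A G T) (h' : T' ⊆ T) : Hat A G T' :=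
  ⟨h'.trans h.1, fun a ha b hb c hc => h.2 a (h' ha) b (h' hb) c (h' hc)⟩

lemma exists_phi (hF : St_FOL) {η : ℝ} (hη : 0 < η) :
    ∃ (α : StandardSpace Γ) (Φ : W → Finset V → SimpleFunc α.X W),
      (∀ g v T x, Φ (ι g * v) T (g • x) = ι g * Φ v T x) ∧
      (∀ v (T : Finset V) x, G.IsClique (T : Set V) → Φ v T x = B.b v T) ∧
      ∀ v T, Hat univ G T → ∀ s ∈ T, α.μ.real {x | Φ v T x ≠ Φ (v * cs.simple s) T x} ≤ η := by
  have : Countable W := cs.wordProd_surjective.countable
  have : ∀ T : Finset V, ∃ s : SimpleFunc (bern W W).X W, Hat univ G T → ∀ a ∈ T,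
      (bern W W).μ.real {x | cs.simple a • s ((cs.simple a)⁻¹ • x) ≠ s x} ≤ η := fun T => by
    by_cases hT : Hat univ G T
    · obtain ⟨F, F1, F2⟩ := hF V G W cs T hT η hη
      obtain ⟨s, -, hs⟩ := minhash (Γ := W) (Z := W) Function.injective_id (fun _ _ => rfl) F1
      exact ⟨s, fun _ a ha => (hs _).trans
        ((div_le_iff₀ (by exact_mod_cast F1.card_pos)).2 (F2 a ha))⟩
    · exact ⟨SimpleFunc.const _ 1, fun h => absurd h hT⟩
  choose s hs using this
  generalize bern W W = β at s hs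
  refine ⟨{ X := β.X, μ := β.μ, action := MulAction.compHom _ ι
            preserving := fun g => β.preserving (ι g) },
    fun v T => if G.IsClique (T : Set V) then SimpleFunc.const _ (B.b v T) else
      ((s T).comp _ (β.preserving v⁻¹).measurable).map (v * ·), fun g v T x => ?_,
    fun v T x h => by simp [h], fun v T hT a ha => ?_⟩
  · dsimp only
    split_ifs
    · exact B.eqv _ _ _
    · change ι g * v * s T ((ι g * v)⁻¹ • ι g • x) = ι g * (v * s T (v⁻¹ • x))
      simp [mul_smul, mul_assoc]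
  · dsimp only
    split_ifs with h
    · simp [B.inv v T h a ha, hη.le]
    · refine le_trans (le_of_eq ?_) ((shift_le β (s T) (cs.simple a) v⁻¹).le.trans (hs T hT a ha))
      congr 1
      ext x
      change v * s T (v⁻¹ • x) ≠ v * cs.simple a * s T ((v * cs.simple a)⁻¹ • x) ↔ _
      simp [mul_smul, mul_assoc, eq_comm]

variable {d} in
include hρ in
theorem up_aux (hd : ∀ g e, d (g • e) = g * d e) (h1 : ρ 1 = 1) (hp : IsQuotientCoveringMap p Γ)
    (hΦ : ∀ g v T x, Φ (ι g * v) T (g • x) = ι g * Φ v T x)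
    (hb : ∀ v (T : Finset V) x, G.IsClique (T : Set V) → Φ v T x = B.b v T)
    {n : ℕ} {z : Simplex (n + 1) E →₀ ℤ} (hz : bd (z.mapDomain (push p)) = 0)
    {Db : RC (Quotient (orb ι)) V (n + 2)} (D1 : ∀ x, IsAlt (Db x))
    (D2 : dR Db = (lin D.g (Vm ι d z)).mapDomain (oq ι)) (y : (Fin (n + 2) → V) → W →₀ ℤ)
    (hy : ∀ l, (y l).mapDomain (oq ι) = co l Db) :
    foliatedNormAt p α (z.mapDomain (push p)) ≤ ∑ l, wn (νi α) (mapRange.addMonoidHom
      (chg (Int.castAddHom ℝ)) (lamv C ρ Φ (fl l ∘ Fin.castSucc) (y l))) := by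
  set Dt := Db.mapDomain Quotient.out with hDt
  have t1 : Dt.mapDomain (oq ι) = Db := by
    rw [hDt, ← mapDomain_comp, show oq ι ∘ Quotient.out = id from funext (oq_out ι), mapDomain_id]
  have t2 : ∀ v, IsAlt (Dt v) := fun v => (mapDomain_mem _ (Cs (fun _ => True) (n + 2))
    (fun x => ⟨D1 x, fun _ _ => trivial⟩) v).1
  let Λ : ∀ {k}, RC W V k → (Simplex k E →₀ SimpleFunc α.X ℤ) := fun r =>
    ∑ l, lamv C ρ Φ (fl l) (co l r)
  have Λ1 : ∀ {k} (r : RC W V k) x, ev x (Λ r) = Um C ρ (bet (fun v S => Φ v S x) r) :=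
    fun r x => by simp only [Λ, map_sum, ev_lamv, bet_eq]
  set Gz := lin D.g (Vm ι d z)
  have r1 : Λ (dR Dt) - Λ Gz ∈ Rel α _ ℤ := by
    simp only [Λ, ← sum_sub_distrib, ← map_sub]
    refine sum_mem fun l _ => lamv_rel C hρ Φ hΦ _ ?_
    rw [← co_mapDomain, mapDomain_sub, ← dR_mapDomain, t1, D2, sub_self, map_zero]
  have r2 : ∑ l, lamv C ρ Φ (fl l ∘ Fin.castSucc) (y l) -
      ∑ l, lamv C ρ Φ (fl l ∘ Fin.castSucc) (co l Dt) ∈ Rel α _ ℤ := by
    simp only [← sum_sub_distrib, ← map_sub]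
    refine sum_mem fun l _ => lamv_rel C hρ Φ hΦ _ ?_
    rw [mapDomain_sub, ← co_mapDomain, t1, hy, sub_self]
  have r3 := ker_mem hp ((mapRange.addMonoidHom cst).comp (HS C ρ B D d)) (Rel α _ ℤ)
    (fun σ g a => star_mem g fun x => by
      simp only [AddMonoidHom.comp_apply, ev_cst, HS_smul C hρ B D hd]) ((push_bd z).trans hz)
  have e1 : bd (Λ Dt) = Λ (dR Dt) +
      (-1 : ℤ) ^ (n + 2) • ∑ l, lamv C ρ Φ (fl l ∘ Fin.castSucc) (co l Dt) := ev_ext fun x => by
    rw [ev_bd, Λ1, ← Um_ob, ob_bet _ t2, map_add, map_add, Λ1, map_zsmul, map_zsmul, out_eq]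
    simp only [map_sum, ev_lamv]
  have e2 : Λ Gz = mapRange.addMonoidHom cst (Um C ρ (tht B D (Vm ι d z))) := ev_ext fun x => by
    rw [Λ1, ev_cst, bet_congr (lin_g_mem D _).1 fun v T h => hb v T x h]
    rfl
  refine (fol_le_simple (Z := -((-1 : ℤ) ^ (n + 2) • ∑ l, lamv C ρ Φ (fl l ∘ Fin.castSucc) (y l)))
    (w := -(mapRange.addMonoidHom cst (HS C ρ B D d z) + Λ Dt)) ?_).trans ?_
  · have := sub_mem (sub_mem r1 r3) (AddSubgroup.zsmul_mem _ r2 ((-1 : ℤ) ^ (n + 2)))
    convert this using 1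
    rw [← bdH_apply, map_neg, map_add, bdH_apply, bdH_apply, ← hom_bd, bd_HS C hρ B D d h1, e1, e2,
      AddMonoidHom.comp_apply, map_sub, map_sub, smul_sub]
    abel
  · rw [map_neg, map_neg_eq_map, map_zsmul, map_sum]
    refine le_trans (le_of_eq ?_) (semi_sum_le _ _ _)
    rcases neg_one_pow_eq_or ℤ (n + 2) with h | h <;> simp [h]

omit C in
include B in
variable {d} in
/-- The upper bound for the foliated norm. -/
theorem up [ContractibleSpace E] (hF : St_FOL) (hι : Function.Injective ι)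
    (hd : ∀ g e, d (g • e) = g * d e) (hp : IsQuotientCoveringMap p Γ)
    {n : ℕ} {z : Simplex (n + 1) E →₀ ℤ} (hz : bd (z.mapDomain (push p)) = 0)
    {Db : RC (Quotient (orb ι)) V (n + 2)} (D1 : ∀ x, Db x ∈ Cs (Hat univ G) (n + 2))
    (D2 : dR Db = (lin D.g (Vm ι d z)).mapDomain (oq ι))
    (D3 : ∀ s x, Db (rm ι (cs.simple s) x) = -Db x) :
    foliatedNorm Γ p (z.mapDomain (push p)) = 0 := by
  obtain ⟨C⟩ := exists_cn (Γ := Γ) (E := E)
  obtain ⟨ρ, hρ, h1⟩ := exists_retr ι hι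
  have nn : ∀ r ∈ {r | ∃ α : StandardSpace Γ, r = foliatedNormAt p α (z.mapDomain (push p))},
      0 ≤ r := by
    rintro _ ⟨α, rfl⟩
    refine Real.sInf_nonneg ?_
    rintro _ ⟨-, c, -, -, -, rfl⟩
    exact apply_nonneg (wn (νL α)) c
  refine le_antisymm (le_of_forall_pos_le_add fun ε hε => ?_) (Real.sInf_nonneg nn)
  let ν : AddGroupSeminorm ℤ := νa.comp (Int.castAddHom ℝ)
  let u : (Fin (n + 2) → V) → Quotient (orb ι) →₀ ℤ := fun l =>
    (co l Db).filter fun x => 0 < Db x l
  set K := ∑ l, wn ν (u l) with hK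
  have K0 : 0 ≤ K := sum_nonneg fun l _ => apply_nonneg _ _
  set η := ε / (2 * (n + 2) * (K + 1)) with hη
  have η0 : 0 < η := by positivity
  obtain ⟨α, Φ, Φ1, Φ2, Φ3⟩ := exists_phi B hF η0
  let Y : (Fin (n + 2) → V) → (Quotient (orb ι) →₀ ℤ) →+ (W →₀ ℤ) := fun l =>
    mapDomain.addMonoidHom Quotient.out -
      mapDomain.addMonoidHom fun x => x.out * cs.simple (l (Fin.last _))
  refine (csInf_le ⟨0, nn⟩ ⟨α, rfl⟩).trans ((up_aux C hρ B D Φ hd h1 hp Φ1 Φ2 hz
    (fun x => (D1 x).1) D2 (fun l => Y l (u l)) fun l => ?_).trans ?_)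
  · simp only [Y, AddMonoidHom.sub_apply, mapDomain.addMonoidHom_apply, mapDomain_sub,
      ← mapDomain_comp]
    rw [show oq ι ∘ Quotient.out = id from funext (oq_out ι), mapDomain_id,
      show (oq ι ∘ fun x => x.out * cs.simple (l (Fin.last _))) = rm ι (cs.simple (l (Fin.last _)))
        from funext fun x => by rw [Function.comp, ← rm_oq, oq_out]]
    ext x
    rw [Finsupp.sub_apply]
    conv_lhs => enter [2]; rw [← rm_rm ι (cs := cs) (l (Fin.last _)) x,
      mapDomain_apply (Function.Involutive.injective (rm_rm ι _))]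
    simp only [u, filter_apply, co_apply, D3, Pi.neg_apply]
    split_ifs <;> omega
  · refine (sum_le_sum (g := fun l => 2 * ((n + 2) * η) * wn ν (u l)) fun l _ => ?_).trans ?_
    · by_cases hl : Hat univ G (im l)
      · refine lift_le ν (wn (νi α)) (((mapRange.addMonoidHom (chg (Int.castAddHom ℝ))).comp
          (lamv C ρ Φ (fl l ∘ Fin.castSucc))).comp (Y l)) (fun x a => ?_) (u l)
        have := lamv_norm C Φ (ρ := ρ) (fl l ∘ Fin.castSucc) x.out _
          (fun i => Φ3 x.out _ (hl.subset (fl_subset l _)) _ (last_mem_fl l i)) a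
        simp only [Y, AddMonoidHom.comp_apply, AddMonoidHom.sub_apply,
          mapDomain.addMonoidHom_apply, mapDomain_single]
        push_cast at this
        rwa [add_assoc (n : ℝ), show (1 : ℝ) + 1 = 2 by norm_num] at this
      · have : u l = 0 := Finsupp.ext fun x => by
          have : Db x l = 0 := by_contra fun e => hl ((D1 x).2 l e)
          simp [u, filter_apply, this]
        simp [this]
    · rw [← Finset.mul_sum, ← hK, zero_add, hη]
      field_simp
      linarith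

end Pool.Agent.Lib.MP_0af324_gt
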